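import Pool.Agent.Lib.P28t.Defs

set_option autoImplicit false
set_option maxSynthPendingDepth 3

/-!
# Connection forms: formal properties

PROOF. `dw_skew`: by definition. `dw_left`: for `c` real differentiate `α (t z) (t v) = α z v` in `t` at `1` (`α (t z) v = t⁻¹ α z v`): `D_z α (v) = - α z v`; differentiate `α z z = 0` in the
direction `w`: `(D_w α)(z) + α z w = 0`; so `dw α z z w = (D_z α)(w) - (D_w α)(z) = 0`. For `c = i`: differentiate `α (e^{iθ} z) (e^{iθ} v) = α z v` in `θ`: `(D_{iz} α)(v) + α z (i v) = 0`; differentiate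
`α z (i z) = 1` in the direction `w`: `(D_w α)(i z) + α z (i w) = 0`; so `dw α z (i z) w = 0`. A general `c` is a real combination. `dw_hom`: `α = m_c^* α` for the linear map `m_c` (near `z`), so
`fderiv α (c z) (c v) (c w) = fderiv α z v w`. `norm_dw`: `v ↦ c v` multiplies the norm by `|c|`. `norm_dw3`: differentiate `dw_hom` once more. `exists_decomp`: `c = hip z v / nsq z`
(`hip` is conjugate linear in the first variable), `|hip z v| ≤ (n + 1) ‖z‖ ‖v‖`, `nsq z ≥ ‖z‖²`; `p = v - c z`; the last claim because `p` does not change when a multiple of `z` is subtracted from `v`.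
`ndAt_of_lower`: decompose `v = c z + p`, `dw α z v = dw α z p`. `Con.lower`: the continuous function `p ↦ ‖dw α z p‖` has no zero on the compact set `{p | hip z p = 0, ‖p‖ = 1}` (if it is not
empty): a zero `p = c z` would satisfy `hip z p = c nsq z = 0`. `*_congr`: the functions agree near each `z ≠ 0`.
-/

open MeasureTheory Set Metric
open scoped ContDiff Topology ENNReal

namespace Pool.Agent.Lib.P28t

open Pool.Agent.P28b04d Pool.Agent.Lib.P28e Pool.Agent.Lib.P28c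
open Pool.Agent.Lib.P28f (V EV)
open Pool.Agent.Lib.P28g (TT)

variable {n : ℕ}

namespace FormAux

theorem fderiv_flip_apply (α : FW n) (z v w : W n) :
    dw α z v w = fderiv ℝ α z v w - fderiv ℝ α z w v := by
  simp only [dw, ContinuousLinearMap.sub_apply, ContinuousLinearMap.flip_apply]

theorem ne_near {z : W n} (hz : z ≠ 0) : ∀ᶠ x : W n in 𝓝 z, x ≠ 0 :=
  isOpen_ne.mem_nhds hz

end FormAux

theorem dw_skew (α : FW n) (z v w : W n) : dw α z v w = -dw α z w v := by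
  rw [FormAux.fderiv_flip_apply, FormAux.fderiv_flip_apply]
  ring

theorem dw_congr {α β : FW n} (h : ∀ z : W n, z ≠ 0 → α z = β z) {z : W n} (hz : z ≠ 0) :
    dw α z = dw β z := by
  have h1 : α =ᶠ[𝓝 z] β := (FormAux.ne_near hz).mono fun x hx => h x hx
  rw [dw, dw, h1.fderiv_eq]

theorem Con.congr {α β : FW n} (hα : Con α) (h : ∀ z : W n, z ≠ 0 → β z = α z) : Con β where
  smooth z hz := (hα.smooth z hz).congr_of_eventuallyEq
    ((FormAux.ne_near hz).mono fun x hx => h x hx)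
  hom c z v hc hz := by
    rw [h _ (smul_ne_zero hc hz), h z hz, hα.hom c z v hc hz]
  rad z hz := by rw [h z hz, hα.rad z hz]
  rot z hz := by rw [h z hz, hα.rot z hz]

theorem Symp.congr {α β : FW n} (hα : Symp α) (h : ∀ z : W n, z ≠ 0 → β z = α z) : Symp β := by
  refine ⟨hα.1.congr h, fun z hz v hv => hα.2 z hz v fun w => ?_⟩
  rw [← dw_congr h hz]
  exact hv w

theorem Con.contDiffAt_dw {α : FW n} (h : Con α) {z : W n} (hz : z ≠ 0) :
    ContDiffAt ℝ ∞ (dw α) z := by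
  have h1 : ContDiffAt ℝ ∞ (fderiv ℝ α) z :=
    (h.smooth z hz).fderiv_right (m := ∞) (by simp)
  have h2 : ContDiffAt ℝ ∞ (fun x => (fderiv ℝ α x).flip) z := by
    have h3 := (ContinuousLinearMap.flipₗᵢ ℝ (W n) (W n) ℝ).toContinuousLinearEquiv.contDiff.contDiffAt
      (x := fderiv ℝ α z) (n := ∞)
    exact h3.comp z h1
  exact h1.sub h2

namespace FormAux

/-- Multiplication of vectors by a complex number, as a real continuous linear map. -/
noncomputable def mc (c : ℂ) : W n →L[ℝ] W n :=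
  (c • ContinuousLinearMap.id ℂ (W n)).restrictScalars ℝ

theorem mc_apply (c : ℂ) (v : W n) : mc c v = c • v := by
  simp [mc]

/-- Multiplication of a fixed vector by complex numbers. -/
noncomputable def mz (z : W n) : ℂ →L[ℝ] W n :=
  ((ContinuousLinearMap.id ℂ ℂ).smulRight z).restrictScalars ℝ

theorem mz_apply (c : ℂ) (z : W n) : mz z c = c • z := by
  simp [mz]

theorem dAt {α : FW n} (h : Con α) {z : W n} (hz : z ≠ 0) : DifferentiableAt ℝ α z :=
  (h.smooth z hz).differentiableAt (by simp)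

theorem eqA {α : FW n} (h : Con α) {z : W n} (hz : z ≠ 0) (b : ℂ) (v : W n) :
    fderiv ℝ α z (b • z) v + α z (b • v) = 0 := by
  have h1 : HasFDerivAt (fun c : ℂ => mz z c) (mz z) 1 := (mz z).hasFDerivAt
  have h2 : HasFDerivAt (fun c : ℂ => mz v c) (mz v) 1 := (mz v).hasFDerivAt
  have hα : HasFDerivAt α (fderiv ℝ α z) (mz z 1) := by
    rw [mz_apply, one_smul]
    exact (dAt h hz).hasFDerivAt
  have h3 : HasFDerivAt (fun c : ℂ => α (mz z c)) ((fderiv ℝ α z).comp (mz z)) 1 := hα.comp 1 h1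
  have h4 := h3.clm_apply h2
  have h5 : (fun c : ℂ => α (mz z c) (mz v c)) =ᶠ[𝓝 1] fun _ => α z v := by
    have : ∀ᶠ c : ℂ in 𝓝 1, c ≠ 0 := isOpen_ne.mem_nhds one_ne_zero
    filter_upwards [this] with c hc
    rw [mz_apply, mz_apply, h.hom c z v hc hz]
  have h6 := (h5.hasFDerivAt_iff (f' := _)).1 h4
  have h7 := h6.unique (hasFDerivAt_const (α z v) (1 : ℂ))
  have h8 := congrArg (fun L : ℂ →L[ℝ] ℝ => L b) h7
  simp only [ContinuousLinearMap.add_apply, ContinuousLinearMap.comp_apply,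
    ContinuousLinearMap.flip_apply, mz_apply, one_smul, ContinuousLinearMap.zero_apply] at h8
  rw [← h8]
  ring

theorem val {α : FW n} (h : Con α) {z : W n} (hz : z ≠ 0) (b : ℂ) : α z (b • z) = b.im := by
  have h1 : b • z = (b.re : ℝ) • z + (b.im : ℝ) • (Complex.I • z) := by
    ext k
    simp only [Pi.smul_apply, Pi.add_apply, smul_eq_mul, Complex.real_smul]
    nth_rewrite 1 [← Complex.re_add_im b]
    ring
  rw [h1, map_add, map_smul, map_smul, h.rad z hz, h.rot z hz]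
  simp

theorem eqB {α : FW n} (h : Con α) {z : W n} (hz : z ≠ 0) (b : ℂ) (w : W n) :
    fderiv ℝ α z w (b • z) + α z (b • w) = 0 := by
  have h1 : HasFDerivAt (fun x : W n => mc b x) (mc b) z := (mc b).hasFDerivAt
  have h3 : HasFDerivAt α (fderiv ℝ α z) z := (dAt h hz).hasFDerivAt
  have h4 := h3.clm_apply h1
  have h5 : (fun x : W n => α x (mc b x)) =ᶠ[𝓝 z] fun _ => b.im := by
    filter_upwards [ne_near hz] with x hx
    rw [mc_apply, val h hx]
  have h6 := (h5.hasFDerivAt_iff (f' := _)).1 h4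
  have h7 := h6.unique (hasFDerivAt_const b.im z)
  have h8 := congrArg (fun L : W n →L[ℝ] ℝ => L w) h7
  simp only [ContinuousLinearMap.add_apply, ContinuousLinearMap.comp_apply,
    ContinuousLinearMap.flip_apply, mc_apply, ContinuousLinearMap.zero_apply] at h8
  rw [← h8]
  ring

end FormAux

theorem Con.dw_left {α : FW n} (h : Con α) {z : W n} (hz : z ≠ 0) (c : ℂ) (w : W n) :
    dw α z (c • z) w = 0 := by
  rw [FormAux.fderiv_flip_apply]
  have h1 := FormAux.eqA h hz c w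
  have h2 := FormAux.eqB h hz c w
  linarith

theorem Con.dw_right {α : FW n} (h : Con α) {z : W n} (hz : z ≠ 0) (c : ℂ) (w : W n) :
    dw α z w (c • z) = 0 := by
  rw [dw_skew, h.dw_left hz, neg_zero]

namespace FormAux

theorem fd_hom {α : FW n} (h : Con α) {c : ℂ} (hc : c ≠ 0) {z : W n} (hz : z ≠ 0)
    (v w : W n) : fderiv ℝ α (c • z) (c • v) (c • w) = fderiv ℝ α z v w := by
  have h1 : HasFDerivAt (fun x : W n => mc c x) (mc c) z := (mc c).hasFDerivAt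
  have hα : HasFDerivAt α (fderiv ℝ α (c • z)) (mc c z) := by
    rw [mc_apply]
    exact (dAt h (smul_ne_zero hc hz)).hasFDerivAt
  have h3 : HasFDerivAt (fun x : W n => α (mc c x)) ((fderiv ℝ α (c • z)).comp (mc c)) z :=
    hα.comp z h1
  have h4 := h3.clm_apply (hasFDerivAt_const (c • w) z)
  have h5 : (fun x : W n => α (mc c x) (c • w)) =ᶠ[𝓝 z] fun x => α x w := by
    filter_upwards [ne_near hz] with x hx
    rw [mc_apply, h.hom c x w hc hx]
  have h6 := (h5.hasFDerivAt_iff (f' := _)).1 h4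
  have h7 : HasFDerivAt (fun x : W n => α x w) _ z :=
    (dAt h hz).hasFDerivAt.clm_apply (hasFDerivAt_const w z)
  have h8 := congrArg (fun L : W n →L[ℝ] ℝ => L v) (h6.unique h7)
  simpa [mc_apply] using h8

end FormAux

theorem Con.dw_hom {α : FW n} (h : Con α) {c : ℂ} (hc : c ≠ 0) {z : W n} (hz : z ≠ 0)
    (v w : W n) : dw α (c • z) (c • v) (c • w) = dw α z v w := by
  rw [FormAux.fderiv_flip_apply, FormAux.fderiv_flip_apply, FormAux.fd_hom h hc hz,
    FormAux.fd_hom h hc hz]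

namespace FormAux

theorem norm_dw_le {α : FW n} (h : Con α) {c : ℂ} (hc : c ≠ 0) {z : W n} (hz : z ≠ 0) :
    ‖dw α (c • z)‖ ≤ (‖c‖⁻¹) ^ 2 * ‖dw α z‖ := by
  have hc0 : 0 ≤ ‖c‖⁻¹ := inv_nonneg.2 (norm_nonneg c)
  refine ContinuousLinearMap.opNorm_le_bound _ (by positivity) fun v => ?_
  refine ContinuousLinearMap.opNorm_le_bound _ (by positivity) fun w => ?_
  have h1 := h.dw_hom hc hz (c⁻¹ • v) (c⁻¹ • w)
  rw [smul_inv_smul₀ hc, smul_inv_smul₀ hc] at h1
  rw [h1]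
  calc ‖dw α z (c⁻¹ • v) (c⁻¹ • w)‖ ≤ ‖dw α z‖ * ‖c⁻¹ • v‖ * ‖c⁻¹ • w‖ :=
        (dw α z).le_opNorm₂ _ _
    _ = (‖c‖⁻¹) ^ 2 * ‖dw α z‖ * ‖v‖ * ‖w‖ := by
        rw [norm_smul, norm_smul, norm_inv]
        ring

theorem scale_eq {f : W n → ℝ} {k : ℕ}
    (hf : ∀ (c : ℂ) (z : W n), c ≠ 0 → z ≠ 0 → f (c • z) ≤ (‖c‖⁻¹) ^ k * f z)
    {c : ℂ} (hc : c ≠ 0) {z : W n} (hz : z ≠ 0) : f (c • z) = (‖c‖⁻¹) ^ k * f z := by
  apply le_antisymm (hf c z hc hz)
  have h1 := hf c⁻¹ (c • z) (inv_ne_zero hc) (smul_ne_zero hc hz)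
  rw [inv_smul_smul₀ hc, norm_inv, inv_inv] at h1
  have h2 : 0 < ‖c‖ := norm_pos_iff.2 hc
  calc (‖c‖⁻¹) ^ k * f z ≤ (‖c‖⁻¹) ^ k * (‖c‖ ^ k * f (c • z)) := by
        apply mul_le_mul_of_nonneg_left h1 (by positivity)
    _ = f (c • z) := by
        rw [← mul_assoc, ← mul_pow, inv_mul_cancel₀ h2.ne', one_pow, one_mul]

theorem fd2_hom {α : FW n} (h : Con α) {c : ℂ} (hc : c ≠ 0) {z : W n} (hz : z ≠ 0)
    (u v w : W n) : fderiv ℝ (dw α) (c • z) (c • u) (c • v) (c • w) = fderiv ℝ (dw α) z u v w := by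
  have h1 : HasFDerivAt (fun x : W n => mc c x) (mc c) z := (mc c).hasFDerivAt
  have hd : ∀ x : W n, x ≠ 0 → DifferentiableAt ℝ (dw α) x := fun x hx =>
    (h.contDiffAt_dw hx).differentiableAt (by simp)
  have hα : HasFDerivAt (dw α) (fderiv ℝ (dw α) (c • z)) (mc c z) := by
    rw [mc_apply]
    exact (hd _ (smul_ne_zero hc hz)).hasFDerivAt
  have h3 : HasFDerivAt (fun x : W n => dw α (mc c x))
      ((fderiv ℝ (dw α) (c • z)).comp (mc c)) z := hα.comp z h1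
  have h4 := (h3.clm_apply (hasFDerivAt_const (c • v) z)).clm_apply (hasFDerivAt_const (c • w) z)
  have h5 : (fun x : W n => dw α (mc c x) (c • v) (c • w)) =ᶠ[𝓝 z] fun x => dw α x v w := by
    filter_upwards [ne_near hz] with x hx
    rw [mc_apply, h.dw_hom hc hx]
  have h6 := (h5.hasFDerivAt_iff (f' := _)).1 h4
  have h7 : HasFDerivAt (fun x : W n => dw α x v w) _ z :=
    ((hd z hz).hasFDerivAt.clm_apply (hasFDerivAt_const v z)).clm_apply (hasFDerivAt_const w z)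
  have h8 := congrArg (fun L : W n →L[ℝ] ℝ => L u) (h6.unique h7)
  simpa [mc_apply] using h8

theorem norm_dw3_le {α : FW n} (h : Con α) {c : ℂ} (hc : c ≠ 0) {z : W n} (hz : z ≠ 0) :
    ‖fderiv ℝ (dw α) (c • z)‖ ≤ (‖c‖⁻¹) ^ 3 * ‖fderiv ℝ (dw α) z‖ := by
  have hc0 : 0 ≤ ‖c‖⁻¹ := inv_nonneg.2 (norm_nonneg c)
  refine ContinuousLinearMap.opNorm_le_bound _ (by positivity) fun u => ?_
  refine ContinuousLinearMap.opNorm_le_bound _ (by positivity) fun v => ?_
  refine ContinuousLinearMap.opNorm_le_bound _ (by positivity) fun w => ?_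
  have h1 := fd2_hom h hc hz (c⁻¹ • u) (c⁻¹ • v) (c⁻¹ • w)
  rw [smul_inv_smul₀ hc, smul_inv_smul₀ hc, smul_inv_smul₀ hc] at h1
  rw [h1]
  calc ‖fderiv ℝ (dw α) z (c⁻¹ • u) (c⁻¹ • v) (c⁻¹ • w)‖
      ≤ ‖fderiv ℝ (dw α) z (c⁻¹ • u)‖ * ‖c⁻¹ • v‖ * ‖c⁻¹ • w‖ :=
        (fderiv ℝ (dw α) z (c⁻¹ • u)).le_opNorm₂ _ _
    _ ≤ (‖fderiv ℝ (dw α) z‖ * ‖c⁻¹ • u‖) * ‖c⁻¹ • v‖ * ‖c⁻¹ • w‖ := by
        gcongr
        exact (fderiv ℝ (dw α) z).le_opNorm _
    _ = (‖c‖⁻¹) ^ 3 * ‖fderiv ℝ (dw α) z‖ * ‖u‖ * ‖v‖ * ‖w‖ := by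
        rw [norm_smul, norm_smul, norm_smul, norm_inv]
        ring

end FormAux

theorem Con.norm_dw {α : FW n} (h : Con α) {c : ℂ} (hc : c ≠ 0) {z : W n} (hz : z ≠ 0) :
    ‖dw α (c • z)‖ = (‖c‖⁻¹) ^ 2 * ‖dw α z‖ :=
  FormAux.scale_eq (f := fun z => ‖dw α z‖)
    (fun _ _ hc hz => FormAux.norm_dw_le h hc hz) hc hz

theorem Con.norm_dw3 {α : FW n} (h : Con α) {c : ℂ} (hc : c ≠ 0) {z : W n} (hz : z ≠ 0) :
    ‖fderiv ℝ (dw α) (c • z)‖ = (‖c‖⁻¹) ^ 3 * ‖fderiv ℝ (dw α) z‖ :=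
  FormAux.scale_eq (f := fun z => ‖fderiv ℝ (dw α) z‖)
    (fun _ _ hc hz => FormAux.norm_dw3_le h hc hz) hc hz

theorem Con.affine {α β : FW n} (hα : Con α) (hβ : Con β) (t : ℝ) :
    Con fun z => (1 - t) • α z + t • β z where
  smooth z hz := ((hα.smooth z hz).const_smul (1 - t)).add ((hβ.smooth z hz).const_smul t)
  hom c z v hc hz := by
    simp only [ContinuousLinearMap.add_apply, ContinuousLinearMap.smul_apply, hα.hom c z v hc hz,
      hβ.hom c z v hc hz]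
  rad z hz := by
    simp only [ContinuousLinearMap.add_apply, ContinuousLinearMap.smul_apply, hα.rad z hz,
      hβ.rad z hz, smul_zero, add_zero]
  rot z hz := by
    simp only [ContinuousLinearMap.add_apply, ContinuousLinearMap.smul_apply, hα.rot z hz,
      hβ.rot z hz, smul_eq_mul]
    ring

theorem dw_affine {α β : FW n} (hα : Con α) (hβ : Con β) (t : ℝ) {z : W n} (hz : z ≠ 0) :
    dw (fun z => (1 - t) • α z + t • β z) z = (1 - t) • dw α z + t • dw β z := by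
  have h1 := (FormAux.dAt hα hz).hasFDerivAt
  have h2 := (FormAux.dAt hβ hz).hasFDerivAt
  have h3 : fderiv ℝ (fun z => (1 - t) • α z + t • β z) z
      = (1 - t) • fderiv ℝ α z + t • fderiv ℝ β z :=
    ((h1.const_smul (1 - t)).add (h2.const_smul t)).fderiv
  ext v w
  rw [FormAux.fderiv_flip_apply, h3]
  simp only [ContinuousLinearMap.add_apply, ContinuousLinearMap.smul_apply,
    FormAux.fderiv_flip_apply, smul_eq_mul]
  ring

namespace FormAux

theorem hip_add (z v w : W n) : hip z (v + w) = hip z v + hip z w := by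
  simp only [hip, Pi.add_apply, mul_add, Finset.sum_add_distrib]

theorem hip_smul (z v : W n) (c : ℂ) : hip z (c • v) = c * hip z v := by
  simp only [hip, Pi.smul_apply, smul_eq_mul, Finset.mul_sum]
  exact Finset.sum_congr rfl fun k _ => by ring

theorem hip_sub (z v w : W n) : hip z (v - w) = hip z v - hip z w := by
  simp only [hip, Pi.sub_apply, mul_sub, Finset.sum_sub_distrib]

theorem norm_hip_le (z v : W n) : ‖hip z v‖ ≤ ((n : ℝ) + 1) * (‖z‖ * ‖v‖) := by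
  calc ‖hip z v‖ ≤ ∑ k : Fin (n + 1), ‖star (z k) * v k‖ := norm_sum_le _ _
    _ ≤ ∑ _k : Fin (n + 1), ‖z‖ * ‖v‖ := by
        apply Finset.sum_le_sum
        intro k _
        rw [norm_mul, norm_star]
        exact mul_le_mul (norm_le_pi_norm z k) (norm_le_pi_norm v k) (norm_nonneg _) (norm_nonneg _)
    _ = ((n : ℝ) + 1) * (‖z‖ * ‖v‖) := by
        rw [Finset.sum_const, Finset.card_univ, Fintype.card_fin, nsmul_eq_mul]
        push_cast
        ring

theorem sq_le_nsq (z : W n) : ‖z‖ ^ 2 ≤ nsq z := by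
  have h0 : 0 ≤ nsq z := nsq_nonneg z
  have h1 : ‖z‖ ≤ Real.sqrt (nsq z) := by
    rw [pi_norm_le_iff_of_nonneg (Real.sqrt_nonneg _)]
    intro k
    apply Real.le_sqrt_of_sq_le
    rw [← Complex.normSq_eq_norm_sq]
    exact Finset.single_le_sum (f := fun k => Complex.normSq (z k))
      (fun i _ => Complex.normSq_nonneg _) (Finset.mem_univ k)
  calc ‖z‖ ^ 2 ≤ Real.sqrt (nsq z) ^ 2 := pow_le_pow_left₀ (norm_nonneg _) h1 2
    _ = nsq z := Real.sq_sqrt h0

/-- The projection. -/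
noncomputable def pr (z v : W n) : W n := v - (hip z v / (nsq z : ℂ)) • z

theorem coef_le {z : W n} (hz : z ≠ 0) (v : W n) :
    ‖hip z v / (nsq z : ℂ)‖ * ‖z‖ ≤ ((n : ℝ) + 1) * ‖v‖ := by
  have h1 := nsq_pos hz
  rw [norm_div, Complex.norm_real, Real.norm_of_nonneg h1.le, div_mul_eq_mul_div, div_le_iff₀ h1]
  have h2 := norm_hip_le z v
  have h3 := sq_le_nsq z
  have h4 : 0 ≤ ((n : ℝ) + 1) * ‖v‖ := by positivity
  calc ‖hip z v‖ * ‖z‖ ≤ ((n : ℝ) + 1) * (‖z‖ * ‖v‖) * ‖z‖ :=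
        mul_le_mul_of_nonneg_right h2 (norm_nonneg _)
    _ = ((n : ℝ) + 1) * ‖v‖ * ‖z‖ ^ 2 := by ring
    _ ≤ ((n : ℝ) + 1) * ‖v‖ * nsq z := mul_le_mul_of_nonneg_left h3 h4

theorem pr_le {z : W n} (hz : z ≠ 0) (v : W n) : ‖pr z v‖ ≤ ((n : ℝ) + 2) * ‖v‖ := by
  have h1 := coef_le hz v
  calc ‖pr z v‖ ≤ ‖v‖ + ‖(hip z v / (nsq z : ℂ)) • z‖ := norm_sub_le _ _
    _ = ‖v‖ + ‖hip z v / (nsq z : ℂ)‖ * ‖z‖ := by rw [norm_smul]
    _ ≤ ‖v‖ + ((n : ℝ) + 1) * ‖v‖ := by gcongr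
    _ = ((n : ℝ) + 2) * ‖v‖ := by ring

theorem pr_sub {z : W n} (hz : z ≠ 0) (v : W n) (b : ℂ) : pr z (v - b • z) = pr z v := by
  have h1 := nsq_ne hz
  rw [pr, pr, hip_sub, hip_smul, hip_self, sub_div, mul_div_assoc, div_self h1, mul_one, sub_smul]
  abel

end FormAux

theorem exists_decomp {z : W n} (hz : z ≠ 0) (v : W n) : ∃ (c : ℂ) (p : W n),
    v = c • z + p ∧ hip z p = 0 ∧ ‖c‖ * ‖z‖ ≤ ((n : ℝ) + 1) * ‖v‖ ∧
      ∀ b : ℂ, ‖p‖ ≤ ((n : ℝ) + 2) * ‖v - b • z‖ := by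
  refine ⟨hip z v / (nsq z : ℂ), FormAux.pr z v, ?_, ?_, FormAux.coef_le hz v, fun b => ?_⟩
  · rw [FormAux.pr]
    abel
  · rw [FormAux.pr, FormAux.hip_sub, FormAux.hip_smul, hip_self, div_mul_cancel₀ _ (nsq_ne hz),
      sub_self]
  · rw [← FormAux.pr_sub hz v b]
    exact FormAux.pr_le hz _

theorem ndAt_of_lower {α : FW n} (h : Con α) {z : W n} (hz : z ≠ 0) {σ : ℝ} (hσ : 0 < σ)
    (hl : ∀ p : W n, hip z p = 0 → σ * ‖p‖ ≤ ‖dw α z p‖) : NdAt α z := by
  intro v hv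
  obtain ⟨c, p, h1, h2, -, -⟩ := exists_decomp hz v
  have h3 : dw α z p = 0 := by
    ext w
    have h4 := hv w
    rw [h1, map_add, ContinuousLinearMap.add_apply, h.dw_left hz, zero_add] at h4
    rw [h4, ContinuousLinearMap.zero_apply]
  have h5 := hl p h2
  rw [h3, norm_zero] at h5
  have h6 : ‖p‖ ≤ 0 := by
    by_contra hc
    push Not at hc
    have := mul_pos hσ hc
    linarith
  have h7 : p = 0 := norm_le_zero_iff.1 h6
  exact ⟨c, by rw [h1, h7, add_zero]⟩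

theorem Con.lower {α : FW n} (h : Con α) {z : W n} (hz : z ≠ 0) (hn : NdAt α z) :
    ∃ σ : ℝ, 0 < σ ∧ ∀ p : W n, hip z p = 0 → σ * ‖p‖ ≤ ‖dw α z p‖ := by
  have hcont : Continuous fun p : W n => hip z p := by
    unfold hip
    fun_prop
  have hK : IsCompact {p : W n | hip z p = 0 ∧ ‖p‖ = 1} := by
    have h1 : {p : W n | hip z p = 0 ∧ ‖p‖ = 1} = {p | hip z p = 0} ∩ sphere 0 1 := by
      ext p
      simp
    rw [h1]
    exact (isCompact_sphere (0 : W n) 1).inter_left (isClosed_eq hcont continuous_const)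
  have hpos : ∀ p : W n, hip z p = 0 → p ≠ 0 → 0 < ‖dw α z p‖ := by
    intro p hp hp0
    rw [norm_pos_iff]
    intro h0
    obtain ⟨c, hc⟩ := hn p fun w => by rw [h0, ContinuousLinearMap.zero_apply]
    apply hp0
    rw [hc, FormAux.hip_smul, hip_self] at hp
    rcases mul_eq_zero.1 hp with h2 | h2
    · rw [hc, h2, zero_smul]
    · exact absurd h2 (nsq_ne hz)
  obtain ⟨σ, hσ, hs⟩ : ∃ σ : ℝ, 0 < σ ∧ ∀ p : W n, hip z p = 0 → ‖p‖ = 1 → σ ≤ ‖dw α z p‖ := by
    rcases Set.eq_empty_or_nonempty {p : W n | hip z p = 0 ∧ ‖p‖ = 1} with he | hne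
    · refine ⟨1, one_pos, fun p hp hp1 => ?_⟩
      have : p ∈ {p : W n | hip z p = 0 ∧ ‖p‖ = 1} := ⟨hp, hp1⟩
      rw [he] at this
      exact absurd this (Set.notMem_empty p)
    · obtain ⟨p0, hp0, hmin⟩ := hK.exists_isMinOn hne
        ((dw α z).continuous.norm.continuousOn)
      have hp00 : p0 ≠ 0 := by
        intro h0
        have := hp0.2
        rw [h0, norm_zero] at this
        exact zero_ne_one this
      exact ⟨‖dw α z p0‖, hpos p0 hp0.1 hp00, fun p hp hp1 => hmin ⟨hp, hp1⟩⟩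
  refine ⟨σ, hσ, fun p hp => ?_⟩
  by_cases hp0 : p = 0
  · rw [hp0, norm_zero, mul_zero]
    exact norm_nonneg _
  · have hn0 : ‖p‖ ≠ 0 := norm_ne_zero_iff.2 hp0
    have hpn : 0 < ‖p‖ := norm_pos_iff.2 hp0
    have h1 : hip z ((‖p‖⁻¹ : ℝ) • p) = 0 := by
      have : ((‖p‖⁻¹ : ℝ) • p) = ((‖p‖⁻¹ : ℝ) : ℂ) • p := by
        ext k
        simp
      rw [this, FormAux.hip_smul, hp, mul_zero]
    have h2 : ‖((‖p‖⁻¹ : ℝ) • p)‖ = 1 := by
      rw [norm_smul, norm_inv, norm_norm, inv_mul_cancel₀ hn0]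
    have h3 := hs _ h1 h2
    rw [map_smul, norm_smul, norm_inv, norm_norm] at h3
    calc σ * ‖p‖ ≤ (‖p‖⁻¹ * ‖dw α z p‖) * ‖p‖ := mul_le_mul_of_nonneg_right h3 hpn.le
      _ = ‖dw α z p‖ := by field_simp

end Pool.Agent.Lib.P28t
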