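import Pool.Agent.Lib.P28t.Form
import Pool.Agent.Lib.Qcd.GauA
import Pool.Agent.Lib.P28e.AvgSmooth

set_option autoImplicit false
set_option maxSynthPendingDepth 3

/-!
# The averaged connection form

PROOF. `norm_mx_le`: sum of `n + 1` terms. `psi_smul`: `r (c z) = r z`, `mx X (c z) = c mx X z`. `psi_near`: `‖r(z) X z‖ ≤ (1/(8(n+1))) (n+1) ‖z‖`. `hasFDerivAt_psi`: product rule (`mx X` is complex linear, `r` is differentiable off `0`). `con_AvF`: SMOOTH: near `z ≠ 0` the integrand is a smooth function of `(z, X)` (on the open set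
`z ≠ 0`, `X` in a neighbourhood of the compact ball: `psi ≠ 0` for `‖X‖ < 2`), so the integral is smooth: `P28e.contDiffOn_param` (`P28e/AvgSmooth.lean`), or the pattern of `Qcd.GauAAux.param_aux`. Instead of `fderiv (psi r X) z` use the explicit smooth expression of `hasFDerivAt_psi`. HOM: `psi r X` commutes with `c`, so `fderiv (psi r X) (c z) (c v) = c fderiv (psi r X) z v`;
`RAD`: `fderiv (psi r X) z z = psi r X z` (Euler, from `psi_smul` for real `c`), `fderiv (psi r X) z (i z) = i psi r X z`; then the properties of `α` at `psi r X z ≠ 0` and `∫ 1 = volume`. `AvF_smooth`: the same with the parameter `t`: `psi (t r) X z ≠ 0` for `|t| < 2`, `‖X‖ < 2` (`‖t r X z‖ ≤ ‖z‖/2`). `AvF_zero`: `psi 0 X z = z`, its derivative is the identity,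
the average of a constant. `RadF.smul`: bounds are multiplied by `t ≤ 1`.
-/

open MeasureTheory Set Metric
open scoped ContDiff Topology ENNReal

namespace Pool.Agent.Lib.P28t

open Pool.Agent.P28b04d Pool.Agent.Lib.P28e Pool.Agent.Lib.P28c
open Pool.Agent.Lib.P28f (V EV)
open Pool.Agent.Lib.P28g (TT)

variable {n : ℕ}

theorem norm_mx_le (X : XX n) (z : W n) : ‖mx X z‖ ≤ ((n : ℝ) + 1) * (‖X‖ * ‖z‖) := by
  unfold mx
  calc ‖∑ j, z j • X j‖ ≤ ∑ j, ‖z j • X j‖ := norm_sum_le _ _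
    _ ≤ ∑ _j : Fin (n + 1), ‖X‖ * ‖z‖ := by
        refine Finset.sum_le_sum fun j _ => ?_
        rw [norm_smul, mul_comm]
        exact mul_le_mul (norm_le_pi_norm X j) (norm_le_pi_norm z j) (norm_nonneg _) (norm_nonneg _)
    _ = ((n : ℝ) + 1) * (‖X‖ * ‖z‖) := by
        rw [Finset.sum_const, Finset.card_univ, Fintype.card_fin, nsmul_eq_mul]
        push_cast
        ring

theorem mx_neg (X : XX n) (z : W n) : mx (-X) z = -mx X z := by
  unfold mx
  rw [← Finset.sum_neg_distrib]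
  refine Finset.sum_congr rfl fun j _ => ?_
  rw [Pi.neg_apply, smul_neg]

theorem mx_add (X : XX n) (z w : W n) : mx X (z + w) = mx X z + mx X w := by
  unfold mx
  rw [← Finset.sum_add_distrib]
  refine Finset.sum_congr rfl fun j _ => ?_
  rw [Pi.add_apply, add_smul]

theorem mx_smul (X : XX n) (c : ℂ) (z : W n) : mx X (c • z) = c • mx X z := by
  unfold mx
  rw [Finset.smul_sum]
  refine Finset.sum_congr rfl fun j _ => ?_
  rw [Pi.smul_apply, smul_eq_mul, mul_smul]

theorem psi_smul {r : W n → ℝ} (hr : RadF r) (X : XX n) {c : ℂ} (hc : c ≠ 0) (z : W n) :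
    psi r X (c • z) = c • psi r X z := by
  unfold psi
  rw [hr.hom c z hc, mx_smul, smul_add, smul_comm (r z) c]

namespace AvgAAux

theorem bound {a : ℝ} (ha : 0 ≤ a) (ha1 : a ≤ 1 / (8 * ((n : ℝ) + 1))) (X : XX n) (z : W n) :
    ‖a • mx X z‖ ≤ ‖X‖ * ‖z‖ / 8 := by
  have hn : (0 : ℝ) < (n : ℝ) + 1 := by positivity
  rw [norm_smul, Real.norm_eq_abs, abs_of_nonneg ha]
  calc a * ‖mx X z‖ ≤ 1 / (8 * ((n : ℝ) + 1)) * (((n : ℝ) + 1) * (‖X‖ * ‖z‖)) :=
        mul_le_mul ha1 (norm_mx_le X z) (norm_nonneg _) (by positivity)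
    _ = ‖X‖ * ‖z‖ / 8 := by
        field_simp

theorem psi_ne {r : W n → ℝ} (hr : RadF r) {t : ℝ} (ht : |t| < 2) {X : XX n} (hX : ‖X‖ < 2)
    {z : W n} (hz : z ≠ 0) : z + (t * r z) • mx X z ≠ 0 := by
  intro h
  have hz' : 0 < ‖z‖ := norm_pos_iff.2 hz
  have h1 : z = -((t * r z) • mx X z) := eq_neg_of_add_eq_zero_left h
  have h2 : ‖z‖ = |t| * ‖r z • mx X z‖ := by
    conv_lhs => rw [h1]
    rw [norm_neg, mul_smul, norm_smul, Real.norm_eq_abs]
  have h3 := bound (hr.nonneg z) (hr.le z) X z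
  have h4 : |t| * ‖r z • mx X z‖ ≤ 2 * (2 * ‖z‖ / 8) := by
    refine mul_le_mul ht.le (h3.trans ?_) (norm_nonneg _) (by norm_num)
    have := mul_le_mul_of_nonneg_right hX.le hz'.le
    linarith
  linarith

theorem psi_ne_one {r : W n → ℝ} (hr : RadF r) {X : XX n} (hX : ‖X‖ ≤ 1)
    {z : W n} (hz : z ≠ 0) : psi r X z ≠ 0 := by
  have h := psi_ne hr (t := 1) (by norm_num) (lt_of_le_of_lt hX one_lt_two) hz
  rw [one_mul] at h
  exact h

/-- The complex linear map `mx X` as a continuous real linear map. -/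
noncomputable def mL (X : XX n) : W n →L[ℝ] W n :=
  LinearMap.toContinuousLinearMap
    { toFun := mx X
      map_add' := mx_add X
      map_smul' := fun c z => by
        have h := mx_smul X (c : ℂ) z
        simpa using h }

theorem mL_apply (X : XX n) (z : W n) : mL X z = mx X z := rfl

theorem hasFDerivAt_psi {r : W n → ℝ} (X : XX n) {z : W n} (hr : DifferentiableAt ℝ r z) :
    HasFDerivAt (psi r X) (ContinuousLinearMap.id ℝ (W n) + (r z • mL X +
      (fderiv ℝ r z).smulRight (mx X z))) z := by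
  have h1 : HasFDerivAt (fun z => r z • mL X z) (r z • mL X +
      (fderiv ℝ r z).smulRight (mL X z)) z := hr.hasFDerivAt.smul (mL X).hasFDerivAt
  exact (hasFDerivAt_id z).add h1

theorem fderiv_psi' {r : W n → ℝ} (X : XX n) {z : W n} (hr : DifferentiableAt ℝ r z) (v : W n) :
    fderiv ℝ (psi r X) z v = v + r z • mx X v + (fderiv ℝ r z v) • mx X z := by
  rw [(hasFDerivAt_psi X hr).fderiv]
  simp only [add_apply, ContinuousLinearMap.id_apply,
    smul_apply, ContinuousLinearMap.smulRight_apply, mL_apply]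
  rw [add_assoc]

theorem rad_diff {r : W n → ℝ} (hr : RadF r) {z : W n} (hz : z ≠ 0) : DifferentiableAt ℝ r z :=
  (hr.smooth.contDiffAt (isOpen_compl_singleton.mem_nhds hz)).differentiableAt (by simp)

theorem fderiv_rad_smul {r : W n → ℝ} (hr : RadF r) {c : ℂ} (hc : c ≠ 0) {z : W n} (hz : z ≠ 0)
    (v : W n) : fderiv ℝ r (c • z) (c • v) = fderiv ℝ r z v := by
  have hcz : c • z ≠ 0 := smul_ne_zero hc hz
  set M : W n →L[ℝ] W n := c • ContinuousLinearMap.id ℝ (W n) with hM
  have hMz : ∀ w, M w = c • w := fun w => by simp [hM]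
  have h1 : HasFDerivAt r (fderiv ℝ r (M z)) (M z) := by
    rw [hMz]
    exact (rad_diff hr hcz).hasFDerivAt
  have h2 : HasFDerivAt (fun w => r (M w)) ((fderiv ℝ r (M z)).comp M) z :=
    h1.comp z M.hasFDerivAt
  have h3 : (fun w => r (M w)) = r := by
    funext w
    rw [hMz, hr.hom c w hc]
  rw [h3] at h2
  have h4 := h2.unique (rad_diff hr hz).hasFDerivAt
  have h5 := congrArg (fun L => L v) h4
  simp only [ContinuousLinearMap.comp_apply, hMz] at h5
  exact h5

theorem fderiv_rad_line {r : W n → ℝ} (hr : RadF r) {z : W n} (hz : z ≠ 0)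
    (a : ℂ) : fderiv ℝ r z (a • z) = 0 := by
  have hcur : HasDerivAt (fun t : ℝ => z + (t : ℂ) • (a • z)) (a • z) 0 := by
    have h0 : HasDerivAt (fun t : ℝ => z + t • (a • z)) (a • z) 0 := by
      have h := ((hasDerivAt_id (0 : ℝ)).smul_const (a • z)).const_add z
      simpa using h
    refine h0.congr_of_eventuallyEq (Filter.Eventually.of_forall fun t => ?_)
    simp
  have hd : HasFDerivAt r (fderiv ℝ r z) (z + ((0 : ℝ) : ℂ) • (a • z)) := by
    have : z + ((0 : ℝ) : ℂ) • (a • z) = z := by simp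
    rw [this]
    exact (rad_diff hr hz).hasFDerivAt
  have h1 : HasDerivAt (fun t : ℝ => r (z + (t : ℂ) • (a • z))) (fderiv ℝ r z (a • z)) 0 :=
    HasFDerivAt.comp_hasDerivAt (0 : ℝ) hd hcur
  have h2 : HasDerivAt (fun _ : ℝ => r z) 0 (0 : ℝ) := hasDerivAt_const _ _
  have hev : (fun t : ℝ => r (z + (t : ℂ) • (a • z))) =ᶠ[𝓝 (0 : ℝ)] fun _ => r z := by
    have hc : Continuous (fun t : ℝ => (1 : ℂ) + (t : ℂ) * a) := by fun_prop
    have h0 : (1 : ℂ) + ((0 : ℝ) : ℂ) * a ≠ 0 := by simp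
    filter_upwards [hc.continuousAt.eventually_ne h0] with t ht
    have h3 : z + (t : ℂ) • (a • z) = ((1 : ℂ) + (t : ℂ) * a) • z := by
      rw [add_smul, one_smul, mul_smul]
    rw [h3, hr.hom _ _ ht]
  exact (h1.congr_of_eventuallyEq hev.symm).unique h2

end AvgAAux

open AvgAAux

theorem psi_near {r : W n → ℝ} (hr : RadF r) {X : XX n} (hX : ‖X‖ ≤ 1) (z : W n) :
    ‖psi r X z - z‖ ≤ ((n : ℝ) + 1) * r z * ‖z‖ ∧ ‖psi r X z - z‖ ≤ ‖z‖ / 8 := by
  have h0 : psi r X z - z = r z • mx X z := by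
    unfold psi
    rw [add_sub_cancel_left]
  rw [h0]
  constructor
  · rw [norm_smul, Real.norm_eq_abs, abs_of_nonneg (hr.nonneg z)]
    calc r z * ‖mx X z‖ ≤ r z * (((n : ℝ) + 1) * (1 * ‖z‖)) := by
          refine mul_le_mul_of_nonneg_left ((norm_mx_le X z).trans ?_) (hr.nonneg z)
          have hn : (0 : ℝ) ≤ (n : ℝ) + 1 := by positivity
          exact mul_le_mul_of_nonneg_left (mul_le_mul_of_nonneg_right hX (norm_nonneg _)) hn
      _ = ((n : ℝ) + 1) * r z * ‖z‖ := by ring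
  · refine (bound (hr.nonneg z) (hr.le z) X z).trans ?_
    have := mul_le_mul_of_nonneg_right hX (norm_nonneg z)
    linarith

theorem fderiv_psi {r : W n → ℝ} (hr : RadF r) (X : XX n) {z : W n} (hz : z ≠ 0) (v : W n) :
    fderiv ℝ (psi r X) z v = v + r z • mx X v + (fderiv ℝ r z v) • mx X z :=
  fderiv_psi' X (rad_diff hr hz) v

theorem RadF.smul {r : W n → ℝ} (hr : RadF r) {t : ℝ} (h0 : 0 ≤ t) (h1 : t ≤ 1) :
    RadF fun z => t * r z := by
  refine ⟨contDiffOn_const.mul hr.smooth, fun c z hc => by rw [hr.hom c z hc],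
    fun z => mul_nonneg h0 (hr.nonneg z), fun z => ?_, fun z hz => ?_⟩
  · exact (mul_le_of_le_one_left (hr.nonneg z) h1).trans (hr.le z)
  · rw [fderiv_const_mul (rad_diff hr hz), norm_smul, Real.norm_eq_abs, abs_of_nonneg h0, mul_assoc]
    exact (mul_le_of_le_one_left (by positivity) h1).trans (hr.der z hz)

theorem AvF_smooth {r : W n → ℝ} (hr : RadF r) {α : FW n} (h : Con α) :
    ContDiffOn ℝ ∞ (fun p : ℝ × W n => AvF (fun z => p.1 * r z) α p.2)
      (Ioo (-2) 2 ×ˢ {0}ᶜ) := by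
  unfold AvF
  apply ContDiffOn.const_smul
  set S : Set ((ℝ × W n) × XX n) := (Ioo (-2) 2 ×ˢ {0}ᶜ) ×ˢ ball (0 : XX n) 2 with hS
  have hr0 : ContDiffOn ℝ ∞ (fun q : (ℝ × W n) × XX n => r q.1.2) S :=
    hr.smooth.comp (contDiff_snd.comp contDiff_fst).contDiffOn (fun q hq => hq.1.2)
  have hdr : ContDiffOn ℝ ∞ (fderiv ℝ r) {0}ᶜ :=
    hr.smooth.fderiv_of_isOpen isOpen_compl_singleton (by simp)
  have hdr0 : ContDiffOn ℝ ∞ (fun q : (ℝ × W n) × XX n => fderiv ℝ r q.1.2) S :=
    hdr.comp (contDiff_snd.comp contDiff_fst).contDiffOn (fun q hq => hq.1.2)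
  have hmx : ∀ f : (ℝ × W n) × XX n → W n, ContDiff ℝ ∞ f →
      ContDiff ℝ ∞ (fun q : (ℝ × W n) × XX n => mx q.2 (f q)) := by
    intro f hf
    unfold mx
    refine ContDiff.sum fun j _ => ?_
    have h1 : ContDiff ℝ ∞ (fun q : (ℝ × W n) × XX n => f q j) :=
      (contDiff_apply ℝ ℂ j).comp hf
    have h2 : ContDiff ℝ ∞ (fun q : (ℝ × W n) × XX n => q.2 j) :=
      (contDiff_apply ℝ (W n) j).comp contDiff_snd
    exact h1.smul h2
  have hpsi : ContDiffOn ℝ ∞ (fun q : (ℝ × W n) × XX n =>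
      q.1.2 + (q.1.1 * r q.1.2) • mx q.2 q.1.2) S := by
    have h1 : ContDiff ℝ ∞ (fun q : (ℝ × W n) × XX n => q.1.2) := contDiff_snd.comp contDiff_fst
    exact h1.contDiffOn.add (((contDiff_fst.comp contDiff_fst).contDiffOn.mul hr0).smul
      (hmx _ h1).contDiffOn)
  have hα : ContDiffOn ℝ ∞ α {0}ᶜ := fun z hz => (h.smooth z hz).contDiffWithinAt
  have hαp : ContDiffOn ℝ ∞ (fun q : (ℝ × W n) × XX n =>
      α (q.1.2 + (q.1.1 * r q.1.2) • mx q.2 q.1.2)) S := by
    apply hα.comp hpsi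
    rintro ⟨⟨t, z⟩, X⟩ ⟨⟨ht, hz⟩, hX⟩
    rw [mem_ball_zero_iff] at hX
    exact psi_ne hr (abs_lt.2 ht) hX hz
  have hΨ : ContDiffOn ℝ ∞ (fun q : (ℝ × W n) × XX n =>
      (α (psi (fun z => q.1.1 * r z) q.2 q.1.2)).comp
        (fderiv ℝ (psi (fun z => q.1.1 * r z) q.2) q.1.2)) S := by
    rw [contDiffOn_clm_apply]
    intro v
    have h3 : ContDiffOn ℝ ∞ (fun q : (ℝ × W n) × XX n =>
        α (q.1.2 + (q.1.1 * r q.1.2) • mx q.2 q.1.2)
          (v + (q.1.1 * r q.1.2) • mx q.2 v + (q.1.1 * fderiv ℝ r q.1.2 v) • mx q.2 q.1.2)) S := by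
      refine hαp.clm_apply ((contDiffOn_const.add
        (((contDiff_fst.comp contDiff_fst).contDiffOn.mul hr0).smul
          (hmx _ contDiff_const).contDiffOn)).add ?_)
      exact ((contDiff_fst.comp contDiff_fst).contDiffOn.mul
        (hdr0.clm_apply contDiffOn_const)).smul
          (hmx _ (contDiff_snd.comp contDiff_fst)).contDiffOn
    refine h3.congr ?_
    rintro ⟨⟨t, z⟩, X⟩ ⟨⟨ht, hz⟩, hX⟩
    have hd : DifferentiableAt ℝ (fun z => t * r z) z := (rad_diff hr hz).const_mul t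
    show (α (psi (fun z => t * r z) X z)) (fderiv ℝ (psi (fun z => t * r z) X) z v) = _
    rw [fderiv_psi' X hd, fderiv_const_mul (rad_diff hr hz)]
    rfl
  exact contDiffOn_param (E := ℝ × W n) (F := XX n) volume
    (isOpen_Ioo.prod isOpen_compl_singleton) isOpen_ball (isCompact_closedBall 0 1)
    (closedBall_subset_ball (by norm_num)) hΨ

namespace AvgAAux

theorem AvF_apply {r : W n → ℝ} (hr : RadF r) {α : FW n} (h : Con α) {z : W n} (hz : z ≠ 0)
    (v : W n) : AvF r α z v = ((volume (closedBall (0 : XX n) 1)).toReal)⁻¹ *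
      ∫ X in closedBall (0 : XX n) 1, α (psi r X z) (fderiv ℝ (psi r X) z v) := by
  have hmx : ∀ w : W n, Continuous (fun X : XX n => mx X w) := by
    intro w
    unfold mx
    fun_prop
  have hcα : ContinuousOn α {0}ᶜ := fun w hw => (h.smooth w hw).continuousAt.continuousWithinAt
  have hc : ContinuousOn (fun X : XX n => (α (psi r X z)).comp (fderiv ℝ (psi r X) z))
      (closedBall (0 : XX n) 1) := by
    refine ContinuousOn.clm_comp ?_ ?_
    · refine hcα.comp ?_ ?_
      · have h3 : Continuous (fun X : XX n => z + r z • mx X z) :=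
          continuous_const.add ((hmx z).const_smul (r z))
        exact h3.continuousOn
      · intro X hX
        exact psi_ne_one hr (mem_closedBall_zero_iff.1 hX) hz
    · rw [continuousOn_clm_apply]
      intro w
      have h2 : Continuous (fun X : XX n => w + r z • mx X w + (fderiv ℝ r z w) • mx X z) :=
        (continuous_const.add ((hmx w).const_smul (r z))).add
          ((hmx z).const_smul (fderiv ℝ r z w))
      refine h2.continuousOn.congr fun X _ => ?_
      exact fderiv_psi hr X hz w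
  have hint : IntegrableOn (fun X : XX n => (α (psi r X z)).comp (fderiv ℝ (psi r X) z))
      (closedBall (0 : XX n) 1) volume := hc.integrableOn_compact (isCompact_closedBall 0 1)
  unfold AvF
  rw [smul_apply, ContinuousLinearMap.integral_apply hint, smul_eq_mul]
  rfl

theorem vol_ne : (volume (closedBall (0 : XX n) 1)).toReal ≠ 0 := by
  rw [ENNReal.toReal_ne_zero]
  exact ⟨(measure_closedBall_pos volume 0 one_pos).ne', measure_closedBall_lt_top.ne⟩

theorem fderiv_psi_smul {r : W n → ℝ} (hr : RadF r) (X : XX n) {c : ℂ} (hc : c ≠ 0) {z : W n}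
    (hz : z ≠ 0) (v : W n) :
    fderiv ℝ (psi r X) (c • z) (c • v) = c • fderiv ℝ (psi r X) z v := by
  rw [fderiv_psi hr X (smul_ne_zero hc hz), fderiv_psi hr X hz, hr.hom c z hc,
    fderiv_rad_smul hr hc hz, mx_smul, mx_smul, smul_add, smul_add, smul_comm (r z) c,
    smul_comm (fderiv ℝ r z v) c]

theorem fderiv_psi_line {r : W n → ℝ} (hr : RadF r) (X : XX n) (a : ℂ) {z : W n}
    (hz : z ≠ 0) : fderiv ℝ (psi r X) z (a • z) = a • psi r X z := by
  rw [fderiv_psi hr X hz, fderiv_rad_line hr hz, zero_smul, add_zero, mx_smul]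
  unfold psi
  rw [smul_add, smul_comm (r z) a]

end AvgAAux

theorem con_AvF {r : W n → ℝ} (hr : RadF r) {α : FW n} (h : Con α) : Con (AvF r α) := by
  refine ⟨fun z hz => ?_, fun c z v hc hz => ?_, fun z hz => ?_, fun z hz => ?_⟩
  · have h1 := AvF_smooth hr h
    have h2 : ContDiffAt ℝ ∞ (fun p : ℝ × W n => AvF (fun z => p.1 * r z) α p.2) (1, z) := by
      refine h1.contDiffAt ((isOpen_Ioo.prod isOpen_compl_singleton).mem_nhds ?_)
      exact ⟨⟨by norm_num, by norm_num⟩, hz⟩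
    have h3 : ContDiffAt ℝ ∞ (fun w : W n => ((1 : ℝ), w)) z :=
      contDiffAt_const.prodMk contDiffAt_id
    have h4 := ContDiffAt.comp z (g := fun p : ℝ × W n => AvF (fun z => p.1 * r z) α p.2)
      (f := fun w : W n => ((1 : ℝ), w)) h2 h3
    refine h4.congr_of_eventuallyEq (Filter.Eventually.of_forall fun w => ?_)
    simp
  · rw [AvF_apply hr h (smul_ne_zero hc hz), AvF_apply hr h hz]
    congr 1
    refine setIntegral_congr_fun measurableSet_closedBall fun X hX => ?_
    show α (psi r X (c • z)) (fderiv ℝ (psi r X) (c • z) (c • v)) =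
      α (psi r X z) (fderiv ℝ (psi r X) z v)
    rw [psi_smul hr X hc, fderiv_psi_smul hr X hc hz]
    exact h.hom c _ _ hc (psi_ne_one hr (mem_closedBall_zero_iff.1 hX) hz)
  · rw [AvF_apply hr h hz]
    have h1 : ∫ X in closedBall (0 : XX n) 1, α (psi r X z) (fderiv ℝ (psi r X) z z) =
        ∫ X in closedBall (0 : XX n) 1, (0 : ℝ) := by
      refine setIntegral_congr_fun measurableSet_closedBall fun X hX => ?_
      have h2 := fderiv_psi_line hr X 1 hz
      rw [one_smul, one_smul] at h2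
      show α (psi r X z) (fderiv ℝ (psi r X) z z) = 0
      rw [h2]
      exact h.rad _ (psi_ne_one hr (mem_closedBall_zero_iff.1 hX) hz)
    rw [h1]
    simp
  · rw [AvF_apply hr h hz]
    have h1 : ∫ X in closedBall (0 : XX n) 1, α (psi r X z) (fderiv ℝ (psi r X) z (Complex.I • z)) =
        ∫ X in closedBall (0 : XX n) 1, (1 : ℝ) := by
      refine setIntegral_congr_fun measurableSet_closedBall fun X hX => ?_
      show α (psi r X z) (fderiv ℝ (psi r X) z (Complex.I • z)) = 1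
      rw [fderiv_psi_line hr X Complex.I hz]
      exact h.rot _ (psi_ne_one hr (mem_closedBall_zero_iff.1 hX) hz)
    rw [h1, setIntegral_const, smul_eq_mul, mul_one, Measure.real, inv_mul_cancel₀ vol_ne]

theorem AvF_zero (α : FW n) (z : W n) : AvF (fun _ => 0) α z = α z := by
  unfold AvF
  have h1 : ∀ X : XX n, psi (fun _ => 0) X = id := by
    intro X
    funext w
    simp [psi]
  have h2 : ∀ X : XX n, (α (psi (fun _ => 0) X z)).comp (fderiv ℝ (psi (fun _ => 0) X) z) = α z := by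
    intro X
    rw [h1 X, fderiv_id, id_eq, ContinuousLinearMap.comp_id]
  simp_rw [h2]
  rw [setIntegral_const, smul_smul, Measure.real, inv_mul_cancel₀ vol_ne, one_smul]

end Pool.Agent.Lib.P28t
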