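import Pool.Agent.Lib.P28t.AvgA

set_option autoImplicit false
set_option maxSynthPendingDepth 3

/-!
# The exterior derivative of the average

PROOF. Differentiate under the integral sign (the integrand `A X z = (α (psi r X z)).comp (fderiv (psi r X) z)` is a smooth function of `(z, X)` near `{z} × closedBall 0 1`, see `AvgA`; `hasFDerivAt_integral_of_dominated_of_fderiv_le` or `Qcd.GauAAux.param_key`):
`fderiv (AvF r α) z v w = (vol)⁻¹ ∫ fderiv (A X) z v w`, so `dw (AvF r α) z v w = (vol)⁻¹ ∫ dw (A X) z v w`, and for each `X` the pull-back rule `dw (A X) z v w = dw α (psi r X z) (D v) (D w)`, `D = fderiv (psi r X) z`: by the product rule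
`fderiv (A X) z v w = fderiv α (psi z) (D v) (D w) + α (psi z) (D² psi z v w)` and the second derivative of `psi r X` (smooth near `z`) is symmetric.
-/

open MeasureTheory Set Metric
open scoped ContDiff Topology ENNReal

namespace Pool.Agent.Lib.P28t

open Pool.Agent.P28b04d Pool.Agent.Lib.P28e Pool.Agent.Lib.P28c
open Pool.Agent.Lib.P28f (V EV)
open Pool.Agent.Lib.P28g (TT)

variable {n : ℕ}

namespace AvgBAux

theorem key {E F G : Type} [NormedAddCommGroup E] [NormedSpace ℝ E]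
    [FiniteDimensional ℝ E] [NormedAddCommGroup F] [NormedSpace ℝ F] [FiniteDimensional ℝ F]
    [MeasurableSpace F] [BorelSpace F] [NormedAddCommGroup G] [NormedSpace ℝ G]
    [FiniteDimensional ℝ G] (μ : Measure F) [IsFiniteMeasureOnCompacts μ] {Ω : Set E} {O K : Set F}
    (hΩ : IsOpen Ω) (hO : IsOpen O) (hK : IsCompact K) (hKO : K ⊆ O) {Ψ : E × F → G}
    (hΨ : ContDiffOn ℝ ∞ Ψ (Ω ×ˢ O)) {z₀ : E} (hz₀ : z₀ ∈ Ω) :
    HasFDerivAt (fun z => ∫ η in K, Ψ (z, η) ∂μ)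
      (∫ η in K, (fderiv ℝ Ψ (z₀, η)).comp (ContinuousLinearMap.inl ℝ E F) ∂μ) z₀ ∧
    ContinuousOn (fun η => (fderiv ℝ Ψ (z₀, η)).comp (ContinuousLinearMap.inl ℝ E F)) K := by
  have hfin : IsFiniteMeasure (μ.restrict K) := ⟨by
    rw [Measure.restrict_apply_univ]; exact hK.measure_lt_top⟩
  have hopen : IsOpen (Ω ×ˢ O) := hΩ.prod hO
  have hder : ContDiffOn ℝ 0 (fderiv ℝ Ψ) (Ω ×ˢ O) :=
    hΨ.fderiv_of_isOpen hopen (by simp)
  set Ψ' : E × F → E →L[ℝ] G := fun p => (fderiv ℝ Ψ p).comp (ContinuousLinearMap.inl ℝ E F) with hΨ'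
  have hder' : ContinuousOn Ψ' (Ω ×ˢ O) := (hder.clm_comp contDiffOn_const).continuousOn
  have hsl' : ContinuousOn (fun η => Ψ' (z₀, η)) K :=
    hder'.comp (Continuous.prodMk_right z₀).continuousOn (fun η hη => ⟨hz₀, hKO hη⟩)
  refine ⟨?_, hsl'⟩
  obtain ⟨ρ, hρ, hρΩ⟩ := nhds_basis_closedBall.mem_iff.1 (hΩ.mem_nhds hz₀)
  have hc : IsCompact (closedBall z₀ ρ ×ˢ K) := (isCompact_closedBall z₀ ρ).prod hK
  obtain ⟨C, hC⟩ := hc.exists_bound_of_continuousOn (hder'.mono (prod_mono hρΩ hKO))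
  have hslice : ∀ z ∈ Ω, ContinuousOn (fun η => Ψ (z, η)) K := fun z hz =>
    hΨ.continuousOn.comp (Continuous.prodMk_right z).continuousOn (fun η hη => ⟨hz, hKO hη⟩)
  refine hasFDerivAt_integral_of_dominated_of_fderiv_le (bound := fun _ => C)
    (F' := fun z η => Ψ' (z, η)) (closedBall_mem_nhds z₀ hρ) ?_ ?_ ?_ ?_ ?_ ?_
  · filter_upwards [hΩ.mem_nhds hz₀] with z hz using
      (hslice z hz).aestronglyMeasurable hK.measurableSet
  · exact (hslice z₀ hz₀).integrableOn_compact hK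
  · exact hsl'.aestronglyMeasurable hK.measurableSet
  · rw [ae_restrict_iff' hK.measurableSet]
    exact Filter.Eventually.of_forall fun η hη z hz => hC (z, η) ⟨hz, hη⟩
  · exact integrable_const C
  · rw [ae_restrict_iff' hK.measurableSet]
    refine Filter.Eventually.of_forall fun η hη z hz => ?_
    have h2 : HasFDerivAt Ψ (fderiv ℝ Ψ (z, η)) (z, η) :=
      (((hΨ.contDiffAt (hopen.mem_nhds ⟨hρΩ hz, hKO hη⟩)).differentiableAt (by simp))).hasFDerivAt
    exact h2.comp z (hasFDerivAt_prodMk_left z η)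

/-- The joint map. -/
noncomputable def J (r : W n → ℝ) (p : W n × XX n) : W n := psi r p.2 p.1

/-- The joint integrand. -/
noncomputable def Ps (r : W n → ℝ) (α : FW n) (p : W n × XX n) : W n →L[ℝ] ℝ :=
  (α (J r p)).comp ((fderiv ℝ (J r) p).comp (ContinuousLinearMap.inl ℝ (W n) (XX n)))

theorem J_smooth {r : W n → ℝ} (hr : RadF r) : ContDiffOn ℝ ∞ (J r) ({0}ᶜ ×ˢ univ) := by
  have h1 : ContDiffOn ℝ ∞ (fun p : W n × XX n => r p.1) ({0}ᶜ ×ˢ univ) :=
    hr.smooth.comp contDiff_fst.contDiffOn (fun p hp => hp.1)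
  have h2 : ContDiff ℝ ∞ (fun p : W n × XX n => mx p.2 p.1) := by
    unfold mx
    apply ContDiff.sum
    intro j _
    have h3 : ContDiff ℝ ∞ (fun q : ℂ × W n => q.1 • q.2) :=
      (isBoundedBilinearMap_smul (𝕜 := ℝ) (A := ℂ) (E := W n)).contDiff
    have h4 : ContDiff ℝ ∞ (fun p : W n × XX n => (p.1 j, p.2 j)) :=
      ((contDiff_apply ℝ ℂ j).comp contDiff_fst).prodMk
        ((contDiff_apply ℝ (W n) j).comp contDiff_snd)
    exact h3.comp h4
  exact contDiff_fst.contDiffOn.add (h1.smul h2.contDiffOn)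

theorem J_ne {r : W n → ℝ} (hr : RadF r) {z : W n} (hz : z ≠ 0) {X : XX n} (hX : ‖X‖ < 2) :
    J r (z, X) ≠ 0 := by
  intro h
  have h1 : z + r z • mx X z = 0 := h
  have hz' : 0 < ‖z‖ := norm_pos_iff.2 hz
  have h2 : ‖z‖ = ‖r z • mx X z‖ := by
    conv_lhs => rw [eq_neg_of_add_eq_zero_left h1]
    rw [norm_neg]
  rw [norm_smul, Real.norm_eq_abs, abs_of_nonneg (hr.nonneg z)] at h2
  have h3 := norm_mx_le X z
  have h4 := hr.le z
  have hn : (0 : ℝ) < (n : ℝ) + 1 := by positivity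
  have h5 : r z * ‖mx X z‖ ≤ 1 / (8 * ((n : ℝ) + 1)) * (((n : ℝ) + 1) * (‖X‖ * ‖z‖)) :=
    mul_le_mul h4 h3 (norm_nonneg _) (by positivity)
  have h6 : 1 / (8 * ((n : ℝ) + 1)) * (((n : ℝ) + 1) * (‖X‖ * ‖z‖)) = ‖X‖ * ‖z‖ / 8 := by
    field_simp
  have h7 : ‖X‖ * ‖z‖ ≤ 2 * ‖z‖ := mul_le_mul_of_nonneg_right hX.le hz'.le
  linarith

theorem isOpenD : IsOpen (({0}ᶜ : Set (W n)) ×ˢ (univ : Set (XX n))) :=
  isOpen_compl_singleton.prod isOpen_univ

theorem Ps_smooth {r : W n → ℝ} (hr : RadF r) {α : FW n} (h : Con α) :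
    ContDiffOn ℝ ∞ (Ps r α) ({0}ᶜ ×ˢ ball 0 2) := by
  have hJ := J_smooth hr
  have hJ' : ContDiffOn ℝ ∞ (fderiv ℝ (J r)) ({0}ᶜ ×ˢ univ) :=
    hJ.fderiv_of_isOpen isOpenD (by simp)
  have hsub : (({0}ᶜ : Set (W n)) ×ˢ (ball (0 : XX n) 2)) ⊆ {0}ᶜ ×ˢ univ :=
    prod_mono Subset.rfl (subset_univ _)
  have hα : ContDiffOn ℝ ∞ α {0}ᶜ := fun z hz => (h.smooth z hz).contDiffWithinAt
  have h1 : ContDiffOn ℝ ∞ (fun p : W n × XX n => α (J r p)) ({0}ᶜ ×ˢ ball 0 2) := by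
    refine hα.comp (hJ.mono hsub) ?_
    rintro ⟨z, X⟩ ⟨hz, hX⟩
    rw [mem_ball_zero_iff] at hX
    exact J_ne hr hz hX
  exact h1.clm_comp ((hJ'.mono hsub).clm_comp contDiffOn_const)

theorem psi_smooth {r : W n → ℝ} (hr : RadF r) (X : XX n) {z : W n} (hz : z ≠ 0) :
    ContDiffAt ℝ ∞ (psi r X) z := by
  have h1 : ContDiffAt ℝ ∞ (J r) (z, X) :=
    (J_smooth hr).contDiffAt (isOpenD.mem_nhds ⟨hz, mem_univ _⟩)
  have h2 : ContDiffAt ℝ ∞ (fun w : W n => (w, X)) z := (contDiff_prodMk_left X).contDiffAt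
  exact ContDiffAt.comp (g := J r) z h1 h2

theorem fd_J {r : W n → ℝ} (hr : RadF r) (X : XX n) {z : W n} (hz : z ≠ 0) :
    (fderiv ℝ (J r) (z, X)).comp (ContinuousLinearMap.inl ℝ (W n) (XX n)) =
      fderiv ℝ (psi r X) z := by
  have h1 : ContDiffAt ℝ ∞ (J r) (z, X) :=
    (J_smooth hr).contDiffAt (isOpenD.mem_nhds ⟨hz, mem_univ _⟩)
  have h2 := (h1.differentiableAt (by simp)).hasFDerivAt
  have h3 : HasFDerivAt (fun w : W n => J r (w, X)) _ z :=
    HasFDerivAt.comp (f := fun w : W n => (w, X)) z h2 (hasFDerivAt_prodMk_left (𝕜 := ℝ) z X)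
  exact h3.fderiv.symm

theorem Ps_eq {r : W n → ℝ} (hr : RadF r) (α : FW n) (X : XX n) {z : W n} (hz : z ≠ 0) :
    Ps r α (z, X) = (α (psi r X z)).comp (fderiv ℝ (psi r X) z) := by
  unfold Ps
  rw [fd_J hr X hz]
  rfl

theorem fd_Ps {r : W n → ℝ} (hr : RadF r) {α : FW n} (h : Con α) {X : XX n} (hX : ‖X‖ < 2)
    {z : W n} (hz : z ≠ 0) (v w : W n) :
    ((fderiv ℝ (Ps r α) (z, X)).comp (ContinuousLinearMap.inl ℝ (W n) (XX n))) v w =
      α (psi r X z) (fderiv ℝ (fderiv ℝ (psi r X)) z v w) +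
      fderiv ℝ α (psi r X z) (fderiv ℝ (psi r X) z v) (fderiv ℝ (psi r X) z w) := by
  have ho : IsOpen (({0}ᶜ : Set (W n)) ×ˢ (ball (0 : XX n) 2)) :=
    isOpen_compl_singleton.prod isOpen_ball
  have hmem : (z, X) ∈ (({0}ᶜ : Set (W n)) ×ˢ (ball (0 : XX n) 2)) :=
    ⟨hz, by rw [mem_ball_zero_iff]; exact hX⟩
  have h1 : ContDiffAt ℝ ∞ (Ps r α) (z, X) := (Ps_smooth hr h).contDiffAt (ho.mem_nhds hmem)
  have h2 := (h1.differentiableAt (by simp)).hasFDerivAt
  have h3 : HasFDerivAt (fun w : W n => Ps r α (w, X)) _ z :=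
    HasFDerivAt.comp (f := fun w : W n => (w, X)) z h2 (hasFDerivAt_prodMk_left (𝕜 := ℝ) z X)
  have hd : HasFDerivAt (fderiv ℝ (psi r X)) (fderiv ℝ (fderiv ℝ (psi r X)) z) z := by
    have : ContDiffAt ℝ ∞ (fderiv ℝ (psi r X)) z := (psi_smooth hr X hz).fderiv_right (by simp)
    exact (this.differentiableAt (by simp)).hasFDerivAt
  have hp : HasFDerivAt (psi r X) (fderiv ℝ (psi r X) z) z :=
    ((psi_smooth hr X hz).differentiableAt (by simp)).hasFDerivAt
  have hne : psi r X z ≠ 0 := J_ne hr hz hX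
  have ha : HasFDerivAt α (fderiv ℝ α (psi r X z)) (psi r X z) :=
    ((h.smooth _ hne).differentiableAt (by simp)).hasFDerivAt
  have hc := ha.comp z hp
  have h4 := hc.clm_comp hd
  have h5 := h4.congr_of_eventuallyEq (f₁ := fun w : W n => Ps r α (w, X)) (by
    filter_upwards [isOpen_compl_singleton.mem_nhds (show z ∈ ({0}ᶜ : Set (W n)) from hz)] with w hw
    exact Ps_eq hr α X hw)
  have h6 := h3.unique h5
  rw [h6]
  simp

end AvgBAux

open AvgBAux in
theorem dw_AvF {r : W n → ℝ} (hr : RadF r) {α : FW n} (h : Con α) {z : W n} (hz : z ≠ 0)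
    (v w : W n) : dw (AvF r α) z v w = ((volume (closedBall (0 : XX n) 1)).toReal)⁻¹ *
      ∫ X in closedBall (0 : XX n) 1,
        dw α (psi r X z) (fderiv ℝ (psi r X) z v) (fderiv ℝ (psi r X) z w) := by
  have hK : IsCompact (closedBall (0 : XX n) 1) := isCompact_closedBall 0 1
  obtain ⟨hk1, hk2⟩ := key (volume : Measure (XX n)) (isOpen_compl_singleton (x := (0 : W n)))
    (isOpen_ball (x := (0 : XX n)) (ε := 2)) hK
    (closedBall_subset_ball (by norm_num)) (Ps_smooth hr h) (z₀ := z) hz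
  have hint := hk2.integrableOn_compact hK (μ := (volume : Measure (XX n)))
  have h1 : HasFDerivAt (AvF r α) (((volume (closedBall (0 : XX n) 1)).toReal)⁻¹ •
      ∫ X in closedBall (0 : XX n) 1, (fderiv ℝ (Ps r α) (z, X)).comp
        (ContinuousLinearMap.inl ℝ (W n) (XX n))) z := by
    refine (hk1.const_smul (((volume (closedBall (0 : XX n) 1)).toReal)⁻¹)).congr_of_eventuallyEq ?_
    filter_upwards [isOpen_compl_singleton.mem_nhds (show z ∈ ({0}ᶜ : Set (W n)) from hz)] with u hu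
    unfold AvF
    rw [Pi.smul_apply]
    congr 1
    apply integral_congr_ae
    filter_upwards with X
    exact (Ps_eq hr α X hu).symm
  have h2 : ∀ a b : W n, fderiv ℝ (AvF r α) z a b =
      ((volume (closedBall (0 : XX n) 1)).toReal)⁻¹ * ∫ X in closedBall (0 : XX n) 1,
        ((fderiv ℝ (Ps r α) (z, X)).comp (ContinuousLinearMap.inl ℝ (W n) (XX n))) a b := by
    intro a b
    rw [h1.fderiv, smul_apply, smul_apply, smul_eq_mul,
      ContinuousLinearMap.integral_apply hint, ContinuousLinearMap.integral_apply]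
    exact (ContinuousLinearMap.apply ℝ (W n →L[ℝ] ℝ) a).integrable_comp hint
  have hi : ∀ a b : W n, IntegrableOn (fun X =>
      ((fderiv ℝ (Ps r α) (z, X)).comp (ContinuousLinearMap.inl ℝ (W n) (XX n))) a b)
      (closedBall (0 : XX n) 1) := by
    intro a b
    exact (ContinuousLinearMap.apply ℝ ℝ b).integrable_comp
      ((ContinuousLinearMap.apply ℝ (W n →L[ℝ] ℝ) a).integrable_comp hint)
  unfold dw
  rw [sub_apply, sub_apply, ContinuousLinearMap.flip_apply,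
    h2, h2, ← mul_sub, ← integral_sub (hi v w) (hi w v)]
  congr 1
  apply setIntegral_congr_fun measurableSet_closedBall
  intro X hX
  rw [mem_closedBall_zero_iff] at hX
  have hX2 : ‖X‖ < 2 := by linarith
  have hsymm : fderiv ℝ (fderiv ℝ (psi r X)) z v w = fderiv ℝ (fderiv ℝ (psi r X)) z w v := by
    have := (psi_smooth hr X hz).isSymmSndFDerivAt (by
      rw [minSmoothness_of_isRCLikeNormedField]
      exact WithTop.coe_le_coe.2 le_top)
    exact this v w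
  show ((fderiv ℝ (Ps r α) (z, X)).comp (ContinuousLinearMap.inl ℝ (W n) (XX n))) v w -
    ((fderiv ℝ (Ps r α) (z, X)).comp (ContinuousLinearMap.inl ℝ (W n) (XX n))) w v = _
  rw [fd_Ps hr h hX2 hz, fd_Ps hr h hX2 hz, hsymm]
  show _ = fderiv ℝ α (psi r X z) (fderiv ℝ (psi r X) z v) (fderiv ℝ (psi r X) z w) -
    fderiv ℝ α (psi r X z) (fderiv ℝ (psi r X) z w) (fderiv ℝ (psi r X) z v)
  ring

end Pool.Agent.Lib.P28t
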