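import Pool.Agent.Lib.P28t.Defs

set_option autoImplicit false
set_option maxSynthPendingDepth 3

/-!
# The averages over matrices have bounded density

PROOF. Let `j` be an index with `‖z j‖ = ‖z‖` (maximum norm). `mx X z = z j • X j + ∑_{k ≠ j} z k • X k`. Integrate first over `X j` with the other columns fixed (`MeasureTheory.volume_preserving_piFinSuccAbove` or `piEquivPiSubtypeProd`; Tonelli; `closedBall (0 : XX n) 1` is the product of the unit balls, `closedBall_pi`). For fixed
`X k`, `‖X k‖ ≤ 1`, the point `x = z + r mx X z` satisfies `‖x - z‖ ≤ (n+1) r ‖z‖`, and the map `X j ↦ x` is a translation composed with multiplication by `r z j` (a complex number of modulus `r ‖z‖`) on `W n`, whose real determinant is `(r‖z‖)^(2n+2)`: `∫ F(x) dX_j ≤ (r‖z‖)^(-(2n+2)) ∫_{closedBall z ((n+1) r‖z‖)} F`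
(`Measure.addHaar_preimage_linearMap`, or write `X j = u • Y` with `|u| = 1` coordinatewise multiplication, measure preserving, and `Measure.lintegral_comp_smul`-type lemmas for the real factor). The remaining integral over the other columns contributes the finite constant `volume (closedBall (0 : W n) 1)^n`.
-/

open MeasureTheory Set Metric
open scoped ContDiff Topology ENNReal

namespace Pool.Agent.Lib.P28t

open Pool.Agent.P28b04d Pool.Agent.Lib.P28e Pool.Agent.Lib.P28c
open Pool.Agent.Lib.P28f (V EV)
open Pool.Agent.Lib.P28g (TT)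

variable {n : ℕ}

namespace DensXAux

theorem rot_preserving (u : ℂ) (hu : ‖u‖ = 1) :
    MeasurePreserving (fun η : W n => u • η) volume volume := by
  have h1 : MeasurePreserving (fun w : ℂ => u * w) volume volume := by
    have := (rotation ⟨u, by rw [Submonoid.unitSphere.eq_1]; simpa using hu⟩).measurePreserving
    exact this
  exact volume_preserving_pi (f := fun (_ : Fin (n + 1)) (w : ℂ) => u * w) (fun _ => h1)

/-- Multiplication by a complex number and translation. -/
theorem lint_smul (H : W n → ℝ≥0∞) (hH : Measurable H) (w0 : W n) (a : ℂ) (ha : a ≠ 0) :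
    ∫⁻ x : W n, H (w0 + a • x) = (ENNReal.ofReal ‖a‖)⁻¹ ^ (2 * n + 2) * ∫⁻ x : W n, H x := by
  have ha' : 0 < ‖a‖ := norm_pos_iff.2 ha
  set u : ℂ := a / (‖a‖ : ℂ) with hu
  have hu1 : ‖u‖ = 1 := by
    rw [hu, norm_div, Complex.norm_real, norm_norm, div_self ha'.ne']
  have hau : a = (‖a‖ : ℂ) * u := by
    rw [hu, mul_div_cancel₀]
    exact_mod_cast ha'.ne'
  have e1 : ∫⁻ x : W n, H (w0 + a • x) = ∫⁻ x : W n, H (w0 + ‖a‖ • x) := by
    have h1 := (rot_preserving (n := n) u hu1).lintegral_comp
      (f := fun x : W n => H (w0 + ‖a‖ • x)) (hH.comp (by fun_prop))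
    rw [← h1]
    apply lintegral_congr
    intro x
    congr 2
    conv_lhs => rw [hau, mul_smul]
    rfl
  have e2 : ∫⁻ x : W n, H (w0 + ‖a‖ • x) =
      ENNReal.ofReal (abs (‖a‖ ^ Module.finrank ℝ (W n))⁻¹) * ∫⁻ x : W n, H (w0 + x) := by
    have hm1 : Measurable fun x : W n => H (w0 + x) := hH.comp (measurable_const_add w0)
    have hm2 : Measurable fun x : W n => ‖a‖ • x := measurable_const_smul ‖a‖
    rw [← smul_eq_mul, ← lintegral_smul_measure, ← Measure.map_addHaar_smul volume ha'.ne',
      lintegral_map hm1 hm2]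
  have e3 : ∫⁻ x : W n, H (w0 + x) = ∫⁻ x : W n, H x := lintegral_add_left_eq_self H w0
  rw [e1, e2, e3]
  congr 1
  have hfr : Module.finrank ℝ (W n) = 2 * n + 2 := by
    rw [Module.finrank_pi_fintype]
    simp [Complex.finrank_real_complex]
    ring
  rw [hfr, abs_of_pos (by positivity), ENNReal.ofReal_inv_of_pos (by positivity),
    ENNReal.ofReal_pow ha'.le, ENNReal.inv_pow]

theorem exists_norm_eq (z : W n) : ∃ k, ‖z k‖ = ‖z‖ := by
  obtain ⟨k, -, hk⟩ := Finset.exists_max_image Finset.univ (fun k => ‖z k‖) Finset.univ_nonempty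
  refine ⟨k, le_antisymm (norm_le_pi_norm z k) ?_⟩
  rw [pi_norm_le_iff_of_nonneg (norm_nonneg _)]
  exact fun i => hk i (Finset.mem_univ i)

end DensXAux

open DensXAux in
theorem dens_X (n : ℕ) : ∃ C : ℝ≥0∞, C ≠ ⊤ ∧ ∀ F : W n → ℝ≥0∞, Measurable F → ∀ z : W n,
    z ≠ 0 → ∀ r : ℝ, 0 < r →
      ∫⁻ X in closedBall (0 : XX n) 1, F (z + r • mx X z) ≤
        C * (ENNReal.ofReal (r * ‖z‖))⁻¹ ^ (2 * n + 2) *
          ∫⁻ x in closedBall z (((n : ℝ) + 1) * r * ‖z‖), F x := by
  refine ⟨volume (closedBall (0 : Fin n → W n) 1), measure_closedBall_lt_top.ne, ?_⟩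
  intro F hF z hz r hr
  have hz' : 0 < ‖z‖ := norm_pos_iff.2 hz
  obtain ⟨j, hj⟩ := exists_norm_eq z
  set B : Set (W n) := closedBall z (((n : ℝ) + 1) * r * ‖z‖) with hB
  set H : W n → ℝ≥0∞ := B.indicator F with hH
  have hHm : Measurable H := hF.indicator measurableSet_closedBall
  set G : XX n → ℝ≥0∞ := (closedBall (0 : XX n) 1).indicator (fun X => F (z + r • mx X z)) with hG
  have hmx : Continuous fun X : XX n => z + r • mx X z := by
    unfold mx
    fun_prop
  have hGm : Measurable G := (hF.comp hmx.measurable).indicator measurableSet_closedBall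
  set e := MeasurableEquiv.piFinSuccAbove (fun _ : Fin (n + 1) => W n) j with he
  have hmp : MeasurePreserving e.symm (volume : Measure (W n × (Fin n → W n))) volume :=
    (volume_preserving_piFinSuccAbove (fun _ : Fin (n + 1) => W n) j).symm _
  rw [← lintegral_indicator measurableSet_closedBall, ← lintegral_indicator measurableSet_closedBall]
  rw [← hmp.lintegral_comp_emb e.symm.measurableEmbedding]
  have hGm' : AEMeasurable (fun a : W n × (Fin n → W n) => G (e.symm a))
      ((volume : Measure (W n)).prod (volume : Measure (Fin n → W n))) :=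
    (hGm.comp e.symm.measurable).aemeasurable
  have htn := lintegral_prod_symm (fun a : W n × (Fin n → W n) => G (e.symm a)) hGm'
  rw [show (volume : Measure (W n × (Fin n → W n))) = volume.prod volume from rfl]
  refine htn.le.trans ?_
  have hin : ∀ Y : Fin n → W n, ∫⁻ x : W n, G (e.symm (x, Y)) ≤
      (closedBall (0 : Fin n → W n) 1).indicator
        (fun _ => (ENNReal.ofReal (r * ‖z‖))⁻¹ ^ (2 * n + 2) * ∫⁻ x : W n, H x) Y := by
    intro Y
    have hs : ∀ (x : W n), (e.symm (x, Y) : XX n) j = x := fun x =>
      Fin.insertNth_apply_same (α := fun _ => W n) j x Y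
    have hs' : ∀ (x : W n) (k : Fin n), (e.symm (x, Y) : XX n) (j.succAbove k) = Y k :=
      fun x k => Fin.insertNth_apply_succAbove (α := fun _ => W n) j x Y k
    by_cases hY : Y ∈ closedBall (0 : Fin n → W n) 1
    · rw [indicator_of_mem hY]
      set v : W n := ∑ k, z (j.succAbove k) • Y k with hv
      have hmxe : ∀ x : W n, mx (e.symm (x, Y)) z = z j • x + v := by
        intro x
        unfold mx
        rw [Fin.sum_univ_succAbove _ j, hs]
        congr 1
        apply Finset.sum_congr rfl
        intro k _
        rw [hs']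
      have hle : ∀ x : W n, G (e.symm (x, Y)) ≤ H ((z + r • v) + ((r : ℂ) * z j) • x) := by
        intro x
        have hpt : (z + r • v) + ((r : ℂ) * z j) • x = z + r • mx (e.symm (x, Y)) z := by
          rw [hmxe, smul_add, mul_smul]
          have : ((r : ℂ)) • z j • x = r • z j • x := rfl
          rw [this]
          abel
        rw [hpt]
        by_cases hX : (e.symm (x, Y) : XX n) ∈ closedBall (0 : XX n) 1
        · have hxB : z + r • mx (e.symm (x, Y)) z ∈ B := by
            rw [hB, mem_closedBall, dist_eq_norm, add_sub_cancel_left, norm_smul, Real.norm_eq_abs,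
              abs_of_pos hr]
            rw [mem_closedBall_zero_iff] at hX
            have h1 : ‖mx (e.symm (x, Y)) z‖ ≤ ((n : ℝ) + 1) * ‖z‖ := by
              unfold mx
              refine (norm_sum_le _ _).trans ?_
              have h2 : ∀ k ∈ (Finset.univ : Finset (Fin (n + 1))),
                  ‖z k • (e.symm (x, Y) : XX n) k‖ ≤ ‖z‖ := by
                intro k _
                rw [norm_smul]
                calc ‖z k‖ * ‖(e.symm (x, Y) : XX n) k‖ ≤ ‖z‖ * 1 :=
                      mul_le_mul (norm_le_pi_norm z k) ((norm_le_pi_norm _ k).trans hX)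
                        (norm_nonneg _) (norm_nonneg _)
                  _ = ‖z‖ := mul_one _
              refine (Finset.sum_le_sum h2).trans ?_
              rw [Finset.sum_const, Finset.card_univ, Fintype.card_fin, nsmul_eq_mul]
              push_cast
              exact le_rfl
            calc r * ‖mx (e.symm (x, Y)) z‖ ≤ r * (((n : ℝ) + 1) * ‖z‖) :=
                  mul_le_mul_of_nonneg_left h1 hr.le
              _ = _ := by ring
          rw [hG, hH, indicator_of_mem hX, indicator_of_mem hxB]
        · rw [hG, indicator_of_notMem hX]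
          exact zero_le
      calc ∫⁻ x : W n, G (e.symm (x, Y)) ≤ ∫⁻ x : W n, H ((z + r • v) + ((r : ℂ) * z j) • x) :=
            lintegral_mono hle
        _ = _ := by
          have hzj : z j ≠ 0 := by
            rw [← norm_pos_iff, hj]; exact hz'
          have hne : (r : ℂ) * z j ≠ 0 := mul_ne_zero (by exact_mod_cast hr.ne') hzj
          rw [lint_smul H hHm _ _ hne, norm_mul, Complex.norm_real, Real.norm_eq_abs, abs_of_pos hr, hj]
    · rw [indicator_of_notMem hY, nonpos_iff_eq_zero, ← lintegral_zero (μ := (volume : Measure (W n)))]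
      apply lintegral_congr
      intro x
      rw [hG]
      apply indicator_of_notMem
      intro hX
      apply hY
      rw [mem_closedBall_zero_iff] at hX ⊢
      rw [pi_norm_le_iff_of_nonneg zero_le_one]
      intro k
      rw [← hs' x k]
      exact (norm_le_pi_norm _ _).trans hX
  refine (lintegral_mono hin).trans ?_
  rw [lintegral_indicator measurableSet_closedBall, setLIntegral_const]
  rw [mul_comm, ← mul_assoc]

end Pool.Agent.Lib.P28t
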