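import Pool.Agent.Lib.P28t.Form

set_option autoImplicit false
set_option maxSynthPendingDepth 3

/-!
# Consequences of mean closeness and of flatness

PROOF. `exists_perp`: if some coordinate `z k` vanishes take `e_k`, otherwise a vector supported in two coordinates. `mclose_norm`: for `x ∈ closedBall z ρ` (`x ≠ 0`, `‖x‖ ≤ 2‖z‖`), `ct x = (ct - dw α x) x` (`Con.dw_left` with `c = 1`), so `‖ct x‖ ≤ 2 ‖z‖ ‖dw α x - ct‖`. For a vector `p` with `‖p‖ ≤ 1` and `x ∈ closedBall z (ρ/2)`: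
`ct ((ρ/2) p) = ct (x + (ρ/2) p) - ct x`; integrate over `closedBall z (ρ/2)` (lower integrals, translation invariance): `(ρ/2) ‖ct p‖ volume (closedBall z (ρ/2)) ≤ 2 · 2‖z‖ e volume (closedBall z ρ)`; so `ρ ‖ct‖ ≤ 8 · 2^(2n+2) e ‖z‖`.
`flat_norm`: `‖dw β z‖ ≥ σ` since there is `p ≠ 0` with `hip z p = 0`; for `‖p‖ ≤ 1`, `x = z + ρ p`: `dw β x x = 0`, `dw β z z = 0`, so `ρ dw β z p = dw β z x = (dw β z - dw β x) x`, norm `≤ δ σ (‖z‖ + ρ) ≤ 2 δ σ ‖z‖`.
`lower_move`: `p = c z + p'` (`exists_decomp`), `c = hip z p / nsq z = hip (z - w) p / nsq z` (as `hip w p = 0`), so `|c| ‖z‖ ≤ (n+1) ‖z - w‖ ‖p‖ / ‖z‖ ≤ ‖p‖/2` for `C = 2 (n+1)`, `‖p'‖ ≥ ‖p‖/2`, `ct p = ct p'`.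
-/

open MeasureTheory Set Metric
open scoped ContDiff Topology ENNReal

namespace Pool.Agent.Lib.P28t

open Pool.Agent.P28b04d Pool.Agent.Lib.P28e Pool.Agent.Lib.P28c
open Pool.Agent.Lib.P28f (V EV)
open Pool.Agent.Lib.P28g (TT)

variable {n : ℕ}

namespace MFactsAux

theorem norm_hip (z p : W n) : ‖hip z p‖ ≤ ((n : ℝ) + 1) * (‖z‖ * ‖p‖) := by
  unfold hip
  refine (norm_sum_le _ _).trans ?_
  have h1 : ∀ k ∈ (Finset.univ : Finset (Fin (n + 1))), ‖star (z k) * p k‖ ≤ ‖z‖ * ‖p‖ := by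
    intro k _
    rw [norm_mul, norm_star]
    exact mul_le_mul (norm_le_pi_norm z k) (norm_le_pi_norm p k) (norm_nonneg _) (norm_nonneg _)
  refine (Finset.sum_le_sum h1).trans ?_
  rw [Finset.sum_const, Finset.card_univ, Fintype.card_fin, nsmul_eq_mul]
  push_cast
  exact le_rfl

theorem hip_sub_left (z w p : W n) : hip (z - w) p = hip z p - hip w p := by
  unfold hip
  rw [← Finset.sum_sub_distrib]
  apply Finset.sum_congr rfl
  intro k _
  rw [Pi.sub_apply, star_sub]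
  ring

theorem hip_decomp (z p : W n) (c : ℂ) : hip z (c • z + p) = c * (nsq z : ℂ) + hip z p := by
  unfold hip nsq
  rw [Complex.ofReal_sum, Finset.mul_sum, ← Finset.sum_add_distrib]
  apply Finset.sum_congr rfl
  intro k _
  rw [Pi.add_apply, Pi.smul_apply, smul_eq_mul, mul_add]
  congr 1
  rw [← Complex.mul_conj (z k)]
  show (starRingEnd ℂ) (z k) * (c * z k) = _
  ring

theorem sq_le_nsq (z : W n) : ‖z‖ ^ 2 ≤ nsq z := by
  obtain ⟨k, hk⟩ : ∃ k, ‖z‖ = ‖z k‖ := by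
    obtain ⟨k, -, hk⟩ := Finset.exists_max_image Finset.univ (fun k => ‖z k‖) Finset.univ_nonempty
    refine ⟨k, le_antisymm ?_ (norm_le_pi_norm z k)⟩
    rw [pi_norm_le_iff_of_nonneg (norm_nonneg _)]
    exact fun i => hk i (Finset.mem_univ i)
  rw [hk, ← Complex.normSq_eq_norm_sq]
  unfold nsq
  exact Finset.single_le_sum (f := fun k => Complex.normSq (z k))
    (fun i _ => Complex.normSq_nonneg _) (Finset.mem_univ k)

theorem ne_of_mem {z x : W n} {ρ : ℝ} (hz : z ≠ 0) (hρ : ρ ≤ ‖z‖ / 8)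
    (hx : x ∈ closedBall z ρ) : x ≠ 0 ∧ ‖x‖ ≤ 2 * ‖z‖ := by
  have hz' : 0 < ‖z‖ := norm_pos_iff.2 hz
  rw [mem_closedBall, dist_eq_norm] at hx
  have h1 : ‖z‖ ≤ ‖x‖ + ‖x - z‖ := by
    have := norm_sub_le x (x - z)
    simpa using this
  have h2 : ‖x‖ ≤ ‖z‖ + ‖x - z‖ := by
    have := norm_add_le z (x - z)
    simpa using this
  refine ⟨?_, by linarith⟩
  intro h
  rw [h, norm_zero] at h1
  rw [h] at hx
  linarith

end MFactsAux

open MFactsAux

theorem exists_perp (hn : 1 ≤ n) {z : W n} (hz : z ≠ 0) : ∃ p : W n, p ≠ 0 ∧ hip z p = 0 := by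
  obtain ⟨m, rfl⟩ : ∃ m, n = m + 1 := ⟨n - 1, by omega⟩
  by_cases h : z 0 = 0
  · refine ⟨Pi.single 0 1, ?_, ?_⟩
    · intro h1
      have := congrFun h1 0
      simp at this
    · unfold hip
      rw [Finset.sum_eq_single 0]
      · rw [h]; simp
      · intro k _ hk
        rw [Pi.single_eq_of_ne hk, mul_zero]
      · intro h1; exact absurd (Finset.mem_univ _) h1
  · refine ⟨Pi.single 0 (star (z 1)) - Pi.single 1 (star (z 0)), ?_, ?_⟩
    · intro h1
      have h2 := congrFun h1 1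
      have h3 : (1 : Fin (m + 1 + 1)) ≠ 0 := by
        intro h4
        have := congrArg Fin.val h4
        simp at this
      rw [Pi.sub_apply, Pi.single_eq_of_ne h3, Pi.single_eq_same] at h2
      simp at h2
      exact h h2
    · have h3 : (0 : Fin (m + 1 + 1)) ≠ 1 := by
        intro h4
        have := congrArg Fin.val h4
        simp at this
      unfold hip
      have e : ∀ k : Fin (m + 1 + 1), star (z k) * (Pi.single (M := fun _ => ℂ) 0 (star (z 1)) -
          Pi.single 1 (star (z 0)) : W (m + 1)) k =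
          (if k = 0 then star (z 0) * star (z 1) else 0) -
          (if k = 1 then star (z 1) * star (z 0) else 0) := by
        intro k
        rw [Pi.sub_apply, Pi.single_apply, Pi.single_apply]
        by_cases h0 : k = 0
        · subst h0
          simp [h3]
        · by_cases h1 : k = 1
          · subst h1
            simp [h3.symm]
          · simp [h0, h1]
      rw [Finset.sum_congr rfl (fun k _ => e k), Finset.sum_sub_distrib]
      simp
      ring

theorem mclose_norm (n : ℕ) : ∃ C : ℝ, 1 ≤ C ∧ ∀ α : FW n, Con α → ∀ z : W n, z ≠ 0 →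
    ∀ (ρ e : ℝ) (ct : BW n), 0 < ρ → ρ ≤ ‖z‖ / 8 → 0 ≤ e → MClose α z ρ e ct →
      ρ * ‖ct‖ ≤ C * e * ‖z‖ := by
  refine ⟨8 * 2 ^ (2 * n + 2), ?_, ?_⟩
  · have : (1 : ℝ) ≤ 2 ^ (2 * n + 2) := one_le_pow₀ (by norm_num)
    linarith
  intro α h z hz ρ e ct hρ hρ1 he hm
  have hz' : 0 < ‖z‖ := norm_pos_iff.2 hz
  -- integral of `ct x`
  have h1 : ∫⁻ x in closedBall z ρ, ‖ct x‖ₑ ≤
      ENNReal.ofReal (2 * ‖z‖) * (ENNReal.ofReal e * volume (closedBall z ρ)) := by
    calc ∫⁻ x in closedBall z ρ, ‖ct x‖ₑ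
        ≤ ∫⁻ x in closedBall z ρ, ENNReal.ofReal (2 * ‖z‖) * ‖dw α x - ct‖ₑ := by
          apply setLIntegral_mono' measurableSet_closedBall
          intro x hx
          obtain ⟨hx0, hx2⟩ := ne_of_mem hz hρ1 hx
          have h2 : ct x = -((dw α x - ct) x) := by
            have h3 : dw α x x = 0 := by
              ext w
              have := h.dw_left hx0 1 w
              rwa [one_smul] at this
            rw [sub_apply, h3]
            simp
          rw [h2, enorm_neg]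
          have h4 : ‖(dw α x - ct) x‖ ≤ 2 * ‖z‖ * ‖dw α x - ct‖ := by
            calc ‖(dw α x - ct) x‖ ≤ ‖dw α x - ct‖ * ‖x‖ := (dw α x - ct).le_opNorm x
              _ ≤ ‖dw α x - ct‖ * (2 * ‖z‖) := mul_le_mul_of_nonneg_left hx2 (norm_nonneg _)
              _ = _ := by ring
          rw [← ofReal_norm, ← ofReal_norm, ← ENNReal.ofReal_mul (by positivity)]
          exact ENNReal.ofReal_le_ofReal h4
      _ = ENNReal.ofReal (2 * ‖z‖) * ∫⁻ x in closedBall z ρ, ‖dw α x - ct‖ₑ :=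
          lintegral_const_mul' _ _ ENNReal.ofReal_ne_top
      _ ≤ _ := by gcongr; exact hm.2
  have key : ∀ p : W n, ‖p‖ = 1 → ‖ct p‖ ≤ 8 * 2 ^ (2 * n + 2) * e * ‖z‖ / ρ := by
    intro p hp
    set u : W n := (ρ / 2) • p with hu
    have hun : ‖u‖ = ρ / 2 := by
      rw [hu, norm_smul, hp, mul_one, Real.norm_eq_abs, abs_of_pos (by linarith)]
    have hcont : Continuous fun x : W n => ‖ct x‖ₑ := ct.continuous.enorm
    have hA : ∫⁻ x in closedBall z (ρ / 2), ‖ct (x + u)‖ₑ ≤ ∫⁻ x in closedBall z ρ, ‖ct x‖ₑ := by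
      rw [← lintegral_indicator measurableSet_closedBall,
        ← lintegral_indicator measurableSet_closedBall,
        ← lintegral_add_right_eq_self (μ := (volume : Measure (W n))) ((closedBall z ρ).indicator fun x => ‖ct x‖ₑ) u]
      apply lintegral_mono
      intro x
      by_cases hx : x ∈ closedBall z (ρ / 2)
      · have hx' : x + u ∈ closedBall z ρ := by
          rw [mem_closedBall, dist_eq_norm] at hx ⊢
          calc ‖x + u - z‖ = ‖(x - z) + u‖ := by congr 1; abel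
            _ ≤ ‖x - z‖ + ‖u‖ := norm_add_le _ _
            _ ≤ ρ := by rw [hun]; linarith
        show (closedBall z (ρ / 2)).indicator (fun x => ‖ct (x + u)‖ₑ) x ≤
          (closedBall z ρ).indicator (fun x => ‖ct x‖ₑ) (x + u)
        rw [indicator_of_mem hx, indicator_of_mem hx']
      · rw [indicator_of_notMem hx]
        exact zero_le
    have hB : ∫⁻ x in closedBall z (ρ / 2), ‖ct x‖ₑ ≤ ∫⁻ x in closedBall z ρ, ‖ct x‖ₑ :=
      lintegral_mono_set (closedBall_subset_closedBall (by linarith))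
    have hC : ‖ct u‖ₑ * volume (closedBall z (ρ / 2)) ≤
        2 * (ENNReal.ofReal (2 * ‖z‖) * (ENNReal.ofReal e * volume (closedBall z ρ))) := by
      calc ‖ct u‖ₑ * volume (closedBall z (ρ / 2))
          = ∫⁻ _x in closedBall z (ρ / 2), ‖ct u‖ₑ := by rw [setLIntegral_const]
        _ ≤ ∫⁻ x in closedBall z (ρ / 2), (‖ct (x + u)‖ₑ + ‖ct x‖ₑ) := by
            apply lintegral_mono
            intro x
            have : ct u = ct (x + u) - ct x := by rw [map_add]; abel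
            show ‖ct u‖ₑ ≤ ‖ct (x + u)‖ₑ + ‖ct x‖ₑ
            rw [this]
            exact enorm_sub_le
        _ = (∫⁻ x in closedBall z (ρ / 2), ‖ct (x + u)‖ₑ) +
            ∫⁻ x in closedBall z (ρ / 2), ‖ct x‖ₑ := by
            apply lintegral_add_right
            exact hcont.measurable
        _ ≤ (∫⁻ x in closedBall z ρ, ‖ct x‖ₑ) + ∫⁻ x in closedBall z ρ, ‖ct x‖ₑ := add_le_add hA hB
        _ = 2 * ∫⁻ x in closedBall z ρ, ‖ct x‖ₑ := by rw [two_mul]
        _ ≤ _ := by gcongr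
    have hvol : volume (closedBall z ρ) =
        ENNReal.ofReal (2 ^ (2 * n + 2)) * volume (closedBall z (ρ / 2)) := by
      rw [Measure.addHaar_closedBall' _ _ hρ.le, Measure.addHaar_closedBall' _ _ (by linarith : (0:ℝ) ≤ ρ / 2),
        P28e.finrank_W, ← mul_assoc, ← ENNReal.ofReal_mul (by positivity)]
      congr 2
      rw [div_pow]
      field_simp
    rw [hvol] at hC
    have hv0 : volume (closedBall z (ρ / 2)) ≠ 0 :=
      (measure_closedBall_pos volume z (by linarith)).ne'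
    have hvt : volume (closedBall z (ρ / 2)) ≠ ⊤ := measure_closedBall_lt_top.ne
    have hD : ‖ct u‖ₑ * volume (closedBall z (ρ / 2)) ≤
        ENNReal.ofReal (4 * ‖z‖ * e * 2 ^ (2 * n + 2)) * volume (closedBall z (ρ / 2)) := by
      refine hC.trans (le_of_eq ?_)
      have e2 : (2 : ℝ≥0∞) = ENNReal.ofReal 2 := by norm_num
      rw [← mul_assoc (ENNReal.ofReal e), ← mul_assoc, ← mul_assoc, e2,
        ← ENNReal.ofReal_mul (by positivity), ← ENNReal.ofReal_mul (by positivity),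
        ← ENNReal.ofReal_mul (by positivity)]
      congr 2
      ring
    have hE := (ENNReal.mul_le_mul_iff_left hv0 hvt).1 hD
    rw [← ofReal_norm, ENNReal.ofReal_le_ofReal_iff (by positivity)] at hE
    rw [hu, map_smul, norm_smul, Real.norm_eq_abs, abs_of_pos (by linarith)] at hE
    rw [le_div_iff₀ hρ]
    linarith
  have hfin : ‖ct‖ ≤ 8 * 2 ^ (2 * n + 2) * e * ‖z‖ / ρ :=
    ContinuousLinearMap.opNorm_le_of_unit_norm (by positivity) key
  rw [le_div_iff₀ hρ] at hfin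
  linarith

theorem flat_norm (hn : 1 ≤ n) {β : FW n} (h : Con β) {z : W n} (hz : z ≠ 0) {ρ δ σ : ℝ}
    (hρ : 0 < ρ) (hρ1 : ρ ≤ ‖z‖ / 8) (hδ : 0 ≤ δ) (hf : FlatF β z ρ δ σ) :
    σ ≤ ‖dw β z‖ ∧ ρ * ‖dw β z‖ ≤ 2 * δ * σ * ‖z‖ := by
  obtain ⟨hσ, hf1, hf2⟩ := hf
  have hz' : 0 < ‖z‖ := norm_pos_iff.2 hz
  have hzm : z ∈ closedBall z ρ := mem_closedBall_self hρ.le
  have hself : ∀ x : W n, x ≠ 0 → dw β x x = 0 := by
    intro x hx
    ext w
    have := h.dw_left hx 1 w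
    rwa [one_smul] at this
  constructor
  · obtain ⟨p, hp, hzp⟩ := exists_perp hn hz
    have h1 := hf1 z hzm p hzp
    have h2 := (dw β z).le_opNorm p
    have hp' : 0 < ‖p‖ := norm_pos_iff.2 hp
    exact le_of_mul_le_mul_right (h1.trans h2) hp'
  · have key : ∀ p : W n, ‖p‖ = 1 → ‖dw β z p‖ ≤ 2 * δ * σ * ‖z‖ / ρ := by
      intro p hp
      set x : W n := z + ρ • p with hx
      have hxm : x ∈ closedBall z ρ := by
        rw [mem_closedBall, dist_eq_norm, hx, add_sub_cancel_left, norm_smul, hp, mul_one,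
          Real.norm_eq_abs, abs_of_pos hρ]
      obtain ⟨hx0, hx2⟩ := ne_of_mem hz hρ1 hxm
      have h1 : ρ • dw β z p = (dw β z - dw β x) x := by
        rw [sub_apply, hself x hx0, sub_zero, hx, map_add, hself z hz, zero_add, map_smul]
      have h2 : ‖(dw β z - dw β x) x‖ ≤ δ * σ * (2 * ‖z‖) :=
        ((dw β z - dw β x).le_opNorm x).trans
          (mul_le_mul (hf2 x hxm z hzm) hx2 (norm_nonneg _) (by positivity))
      rw [← h1, norm_smul, Real.norm_eq_abs, abs_of_pos hρ] at h2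
      rw [le_div_iff₀ hρ]
      linarith
    have hfin : ‖dw β z‖ ≤ 2 * δ * σ * ‖z‖ / ρ :=
      ContinuousLinearMap.opNorm_le_of_unit_norm (by positivity) key
    rw [le_div_iff₀ hρ] at hfin
    linarith

theorem FlatF.mono {β : FW n} {z w : W n} {ρ ρ' δ δ' σ : ℝ} (hf : FlatF β z ρ δ σ)
    (hs : closedBall w ρ' ⊆ closedBall z ρ) (hδ : δ ≤ δ') : FlatF β w ρ' δ' σ :=
  ⟨hf.1, fun x hx => hf.2.1 x (hs hx), fun x hx y hy =>
    (hf.2.2 x (hs hx) y (hs hy)).trans (mul_le_mul_of_nonneg_right hδ hf.1.le)⟩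

/-- A lower bound at `z` gives one at nearby points. -/
theorem lower_move (n : ℕ) : ∃ C : ℝ, 1 ≤ C ∧ ∀ (ct : BW n) (z w : W n) (σ : ℝ), z ≠ 0 →
    0 < σ → (∀ (c : ℂ) (u : W n), ct (c • z) u = 0) →
    (∀ p : W n, hip z p = 0 → σ * ‖p‖ ≤ ‖ct p‖) → C * ‖w - z‖ ≤ ‖z‖ →
    ∀ p : W n, hip w p = 0 → σ / 2 * ‖p‖ ≤ ‖ct p‖ := by
  refine ⟨2 * ((n : ℝ) + 1), ?_, ?_⟩
  · have : (0 : ℝ) ≤ n := Nat.cast_nonneg n
    linarith
  intro ct z w σ hz hσ hk hl hw p hp
  have hz' : 0 < ‖z‖ := norm_pos_iff.2 hz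
  obtain ⟨c, p', hcp, hp', -, -⟩ := exists_decomp hz p
  have h1 : hip z p = c * (nsq z : ℂ) := by
    rw [hcp, hip_decomp, hp', add_zero]
  have h2 : hip (z - w) p = c * (nsq z : ℂ) := by
    rw [hip_sub_left, hp, sub_zero, h1]
  have h3 : ‖c‖ * ‖z‖ ^ 2 ≤ ((n : ℝ) + 1) * (‖z - w‖ * ‖p‖) := by
    calc ‖c‖ * ‖z‖ ^ 2 ≤ ‖c‖ * nsq z := mul_le_mul_of_nonneg_left (sq_le_nsq z) (norm_nonneg _)
      _ = ‖c * (nsq z : ℂ)‖ := by
          rw [norm_mul, Complex.norm_real, Real.norm_eq_abs,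
            abs_of_nonneg ((sq_nonneg _).trans (sq_le_nsq z))]
      _ = ‖hip (z - w) p‖ := by rw [h2]
      _ ≤ _ := norm_hip _ _
  have h4 : ‖c‖ * ‖z‖ ≤ ‖p‖ / 2 := by
    have h5 : ‖z - w‖ = ‖w - z‖ := norm_sub_rev _ _
    rw [h5] at h3
    have h6 : 2 * (((n : ℝ) + 1) * (‖w - z‖ * ‖p‖)) ≤ ‖z‖ * ‖p‖ := by
      have := mul_le_mul_of_nonneg_right hw (norm_nonneg p)
      linarith
    have h7 : (‖c‖ * ‖z‖) * ‖z‖ ≤ ‖p‖ / 2 * ‖z‖ := by nlinarith
    exact le_of_mul_le_mul_right h7 hz'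
  have h5 : ‖p‖ / 2 ≤ ‖p'‖ := by
    have h6 : ‖p‖ ≤ ‖c • z‖ + ‖p'‖ := by
      conv_lhs => rw [hcp]
      exact norm_add_le _ _
    rw [norm_smul] at h6
    linarith
  have h6 : ct p = ct p' := by
    rw [hcp, map_add]
    have : ct (c • z) = 0 := by
      ext u
      exact hk c u
    rw [this, zero_add]
  rw [h6]
  have h7 := hl p' hp'
  have h8 : σ * (‖p‖ / 2) ≤ σ * ‖p'‖ := mul_le_mul_of_nonneg_left h5 hσ.le
  linarith

end Pool.Agent.Lib.P28t
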