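import Pool.Agent.Lib.P28t.AvgB
import Pool.Agent.Lib.P28t.DensX
import Pool.Agent.Lib.P28t.MFacts

set_option autoImplicit false
set_option maxSynthPendingDepth 3

/-!
# The exterior derivative of the average is close to the mean form

PROOF. Let `B = closedBall (0 : XX n) 1`, `D = fderiv (psi r X) z`, `D v = v + A v`, `A v = r X v + (Dr v) X z` (`r = r z`, `fderiv_psi`). Fix `‖v‖, ‖w‖ ≤ 1`. `dw_AvF`: `dw (AvF r α) z v w - ct v w = (vol)⁻¹ ∫_B (dw α (psi z) - ct)(D v)(D w) + ((vol)⁻¹ ∫_B ct (D v)(D w) - ct v w)`.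
FIRST TERM: `‖D v‖ ≤ 2 + ‖Dr‖ (n+1)‖z‖ ≤ n + 3` (`RadF.der`), so it is at most `(n+3)² (vol)⁻¹ ∫_B ‖dw α (psi z) - ct‖`, and by `dens_X` with `F x = ‖dw α x - ct‖ₑ` (measurable after changing it at `0`: `dw α` is continuous on `{0}ᶜ`) this is at most `C (r‖z‖)^(-(2n+2)) ∫_{closedBall z ((n+1) r‖z‖)} ‖dw α x - ct‖ ≤ C (r‖z‖)^(-(2n+2)) e volume (closedBall z ρ) ≤ C K^(2n+2) e`.
SECOND TERM: `ct (D v)(D w) - ct v w = ct (A v) w + ct v (A w) + ct (A v)(A w)`; the first two are odd in `X` and integrate to `0` over `B` (`mx_neg`). `ct (A v)(A w) = r² ct (X v)(X w) + r (Dr w) ct (X v)(X z) + r (Dr v) ct (X z)(X w) + (Dr v)(Dr w) ct (X z)(X z)`, and the last term vanishes because `ct` is skew. So it is at most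
`(n+1)² ‖ct‖ (r² + 2 r ‖Dr‖ ‖z‖) ≤ 3 (n+1)² r ‖ct‖`, and `r ‖z‖ ‖ct‖ ≤ ρ ‖ct‖ ≤ C e ‖z‖` by `mclose_norm`.
-/

open MeasureTheory Set Metric
open scoped ContDiff Topology ENNReal

namespace Pool.Agent.Lib.P28t

open Pool.Agent.P28b04d Pool.Agent.Lib.P28e Pool.Agent.Lib.P28c
open Pool.Agent.Lib.P28f (V EV)
open Pool.Agent.Lib.P28g (TT)

variable {n : ℕ}

namespace AvgClAux

theorem fr : Module.finrank ℝ (W n) = 2 * n + 2 := by
  simp [Module.finrank_pi_fintype, Complex.finrank_real_complex]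
  ring

/-- The odd part of the derivative of `psi`. -/
noncomputable def AA (r : W n → ℝ) (X : XX n) (z v : W n) : W n :=
  r z • mx X v + (fderiv ℝ r z v) • mx X z

theorem AA_neg (r : W n → ℝ) (X : XX n) (z v : W n) : AA r (-X) z v = -AA r X z v := by
  unfold AA
  rw [mx_neg, mx_neg, smul_neg, smul_neg, neg_add]

theorem fd_eq {r : W n → ℝ} (hr : RadF r) (X : XX n) {z : W n} (hz : z ≠ 0) (v : W n) :
    fderiv ℝ (psi r X) z v = v + AA r X z v := by
  rw [fderiv_psi hr X hz, AA, add_assoc]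

theorem mx_cont (w : W n) : Continuous (fun X : XX n => mx X w) := by
  unfold mx
  fun_prop

theorem AA_cont (r : W n → ℝ) (z v : W n) : Continuous fun X : XX n => AA r X z v := by
  unfold AA
  exact ((mx_cont v).const_smul (r z)).add ((mx_cont z).const_smul (fderiv ℝ r z v))

theorem mx_le {X : XX n} (hX : ‖X‖ ≤ 1) (v : W n) : ‖mx X v‖ ≤ ((n : ℝ) + 1) * ‖v‖ := by
  refine (norm_mx_le X v).trans ?_
  have h1 : ‖X‖ * ‖v‖ ≤ 1 * ‖v‖ := mul_le_mul_of_nonneg_right hX (norm_nonneg v)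
  rw [one_mul] at h1
  exact mul_le_mul_of_nonneg_left h1 (by positivity)

theorem r_le {r : W n → ℝ} (hr : RadF r) (z : W n) : ((n : ℝ) + 1) * r z ≤ 1 := by
  have h1 := hr.le z
  have hn : (0 : ℝ) < (n : ℝ) + 1 := by positivity
  rw [le_div_iff₀ (by positivity)] at h1
  have h2 := hr.nonneg z
  nlinarith

theorem fd_le {r : W n → ℝ} (hr : RadF r) {X : XX n} (hX : ‖X‖ ≤ 1) {z : W n} (hz : z ≠ 0)
    (v : W n) : ‖fderiv ℝ (psi r X) z v‖ ≤ ((n : ℝ) + 3) * ‖v‖ := by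
  rw [fderiv_psi hr X hz]
  have h1 : ‖r z • mx X v‖ ≤ ‖v‖ := by
    rw [norm_smul, Real.norm_of_nonneg (hr.nonneg z)]
    calc r z * ‖mx X v‖ ≤ r z * (((n : ℝ) + 1) * ‖v‖) :=
          mul_le_mul_of_nonneg_left (mx_le hX v) (hr.nonneg z)
      _ = (((n : ℝ) + 1) * r z) * ‖v‖ := by ring
      _ ≤ 1 * ‖v‖ := mul_le_mul_of_nonneg_right (r_le hr z) (norm_nonneg v)
      _ = ‖v‖ := one_mul _
  have h2 : ‖(fderiv ℝ r z v) • mx X z‖ ≤ ((n : ℝ) + 1) * ‖v‖ := by
    rw [norm_smul]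
    have h3 := (fderiv ℝ r z).le_opNorm v
    calc ‖fderiv ℝ r z v‖ * ‖mx X z‖ ≤ (‖fderiv ℝ r z‖ * ‖v‖) * (((n : ℝ) + 1) * ‖z‖) :=
          mul_le_mul h3 (mx_le hX z) (norm_nonneg _) (by positivity)
      _ = (‖fderiv ℝ r z‖ * ‖z‖) * (((n : ℝ) + 1) * ‖v‖) := by ring
      _ ≤ 1 * (((n : ℝ) + 1) * ‖v‖) :=
          mul_le_mul_of_nonneg_right (hr.der z hz) (by positivity)
      _ = ((n : ℝ) + 1) * ‖v‖ := one_mul _
  calc ‖v + r z • mx X v + (fderiv ℝ r z v) • mx X z‖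
      ≤ ‖v‖ + ‖r z • mx X v‖ + ‖(fderiv ℝ r z v) • mx X z‖ := norm_add₃_le
    _ ≤ ‖v‖ + ‖v‖ + ((n : ℝ) + 1) * ‖v‖ := by gcongr
    _ = ((n : ℝ) + 3) * ‖v‖ := by ring

/-- The quadratic term. -/
theorem quad_le {r : W n → ℝ} (hr : RadF r) {X : XX n} (hX : ‖X‖ ≤ 1) {z : W n} (hz : z ≠ 0)
    {ct : BW n} (hct : ∀ v w, ct v w = -ct w v) (v w : W n) :
    |ct (AA r X z v) (AA r X z w)| ≤ 3 * ((n : ℝ) + 1) ^ 2 * (r z * ‖ct‖) * (‖v‖ * ‖w‖) := by
  have h0 : ct (mx X z) (mx X z) = 0 := by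
    have := hct (mx X z) (mx X z)
    linarith
  have e : ct (AA r X z v) (AA r X z w) =
      r z * r z * ct (mx X v) (mx X w) + r z * fderiv ℝ r z w * ct (mx X v) (mx X z) +
        r z * fderiv ℝ r z v * ct (mx X z) (mx X w) := by
    unfold AA
    simp only [map_add, map_smul, add_apply, smul_apply, smul_eq_mul, h0]
    ring
  have hb : ∀ x y : W n, |ct (mx X x) (mx X y)| ≤ ((n : ℝ) + 1) ^ 2 * ‖ct‖ * (‖x‖ * ‖y‖) := by
    intro x y
    have h1 := ct.le_opNorm₂ (mx X x) (mx X y)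
    rw [Real.norm_eq_abs] at h1
    have hx := mx_le hX x
    have hy := mx_le hX y
    calc |ct (mx X x) (mx X y)| ≤ ‖ct‖ * ‖mx X x‖ * ‖mx X y‖ := h1
      _ ≤ ‖ct‖ * (((n : ℝ) + 1) * ‖x‖) * (((n : ℝ) + 1) * ‖y‖) := by gcongr
      _ = ((n : ℝ) + 1) ^ 2 * ‖ct‖ * (‖x‖ * ‖y‖) := by ring
  have hr0 := hr.nonneg z
  have hr1 : r z ≤ 1 := by
    have h1 := r_le hr z
    have hn : (0 : ℝ) ≤ (n : ℝ) := Nat.cast_nonneg n
    nlinarith
  have hD : ∀ x : W n, |fderiv ℝ r z x| ≤ ‖fderiv ℝ r z‖ * ‖x‖ := fun x => by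
    have := (fderiv ℝ r z).le_opNorm x
    rwa [Real.norm_eq_abs] at this
  have hd := hr.der z hz
  set P : ℝ := ((n : ℝ) + 1) ^ 2 * ‖ct‖ with hP
  have hP0 : 0 ≤ P := by positivity
  have hvw : 0 ≤ ‖v‖ * ‖w‖ := by positivity
  have t1 : |r z * r z * ct (mx X v) (mx X w)| ≤ r z * P * (‖v‖ * ‖w‖) := by
    rw [abs_mul, abs_of_nonneg (by positivity : 0 ≤ r z * r z)]
    calc r z * r z * |ct (mx X v) (mx X w)| ≤ r z * 1 * (P * (‖v‖ * ‖w‖)) := by
          gcongr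
          exact hb v w
      _ = r z * P * (‖v‖ * ‖w‖) := by ring
  have t2 : |r z * fderiv ℝ r z w * ct (mx X v) (mx X z)| ≤ r z * P * (‖v‖ * ‖w‖) := by
    rw [abs_mul, abs_mul, abs_of_nonneg hr0]
    calc r z * |fderiv ℝ r z w| * |ct (mx X v) (mx X z)|
        ≤ r z * (‖fderiv ℝ r z‖ * ‖w‖) * (P * (‖v‖ * ‖z‖)) := by
          gcongr
          · exact hD w
          · exact hb v z
      _ = r z * P * (‖v‖ * ‖w‖) * (‖fderiv ℝ r z‖ * ‖z‖) := by ring
      _ ≤ r z * P * (‖v‖ * ‖w‖) * 1 := mul_le_mul_of_nonneg_left hd (by positivity)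
      _ = r z * P * (‖v‖ * ‖w‖) := mul_one _
  have t3 : |r z * fderiv ℝ r z v * ct (mx X z) (mx X w)| ≤ r z * P * (‖v‖ * ‖w‖) := by
    rw [abs_mul, abs_mul, abs_of_nonneg hr0]
    calc r z * |fderiv ℝ r z v| * |ct (mx X z) (mx X w)|
        ≤ r z * (‖fderiv ℝ r z‖ * ‖v‖) * (P * (‖z‖ * ‖w‖)) := by
          gcongr
          · exact hD v
          · exact hb z w
      _ = r z * P * (‖v‖ * ‖w‖) * (‖fderiv ℝ r z‖ * ‖z‖) := by ring
      _ ≤ r z * P * (‖v‖ * ‖w‖) * 1 := mul_le_mul_of_nonneg_left hd (by positivity)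
      _ = r z * P * (‖v‖ * ‖w‖) := mul_one _
  rw [e]
  calc |r z * r z * ct (mx X v) (mx X w) + r z * fderiv ℝ r z w * ct (mx X v) (mx X z) +
        r z * fderiv ℝ r z v * ct (mx X z) (mx X w)|
      ≤ |r z * r z * ct (mx X v) (mx X w)| + |r z * fderiv ℝ r z w * ct (mx X v) (mx X z)| +
        |r z * fderiv ℝ r z v * ct (mx X z) (mx X w)| := abs_add_three _ _ _
    _ ≤ r z * P * (‖v‖ * ‖w‖) + r z * P * (‖v‖ * ‖w‖) + r z * P * (‖v‖ * ‖w‖) := by gcongr
    _ = 3 * ((n : ℝ) + 1) ^ 2 * (r z * ‖ct‖) * (‖v‖ * ‖w‖) := by rw [hP]; ring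

theorem int4 {s : Set (XX n)} {f1 f2 f3 : XX n → ℝ} {c : ℝ} (h1 : IntegrableOn f1 s)
    (h2 : IntegrableOn f2 s) (h3 : IntegrableOn f3 s) (h4 : IntegrableOn (fun _ : XX n => c) s) :
    ∫ X in s, (f1 X + f2 X + f3 X + c) =
      (∫ X in s, f1 X) + (∫ X in s, f2 X) + (∫ X in s, f3 X) + ∫ _X in s, c := by
  have e1 : ∫ X in s, (f1 X + f2 X + f3 X + c) =
      (∫ X in s, (f1 X + f2 X + f3 X)) + ∫ _X in s, c := integral_add ((h1.add h2).add h3) h4
  have e2 : ∫ X in s, (f1 X + f2 X + f3 X) = (∫ X in s, (f1 X + f2 X)) + ∫ X in s, f3 X :=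
    integral_add (h1.add h2) h3
  have e3 : ∫ X in s, (f1 X + f2 X) = (∫ X in s, f1 X) + ∫ X in s, f2 X := integral_add h1 h2
  rw [e1, e2, e3]

theorem addHaar : (volume : Measure (XX n)).IsAddHaarMeasure :=
  Measure.pi.isAddHaarMeasure (fun _ : Fin (n + 1) => (volume : Measure (W n)))

theorem negInv : (volume : Measure (XX n)).IsNegInvariant := by
  have h1 : (volume : Measure (XX n)).IsAddHaarMeasure := addHaar
  have h2 : (volume : Measure (XX n)).Regular :=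
    Measure.Regular.of_sigmaCompactSpace_of_isLocallyFiniteMeasure _
  exact Measure.IsAddHaarMeasure.isNegInvariant_of_regular _

/-- Odd functions integrate to zero. -/
theorem odd_int {f : XX n → ℝ} (hf : ∀ X, f (-X) = -f X) :
    ∫ X in closedBall (0 : XX n) 1, f X = 0 := by
  have hneg := negInv (n := n)
  have h1 : ∫ X in closedBall (0 : XX n) 1, f X = ∫ X in closedBall (0 : XX n) 1, f (-X) := by
    rw [← integral_indicator measurableSet_closedBall, ← integral_indicator measurableSet_closedBall,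
      ← integral_neg_eq_self]
    congr 1
    funext X
    by_cases hX : X ∈ closedBall (0 : XX n) 1
    · have hX' : -X ∈ closedBall (0 : XX n) 1 := by
        rw [mem_closedBall_zero_iff] at hX ⊢
        rwa [norm_neg]
      rw [indicator_of_mem hX, indicator_of_mem hX']
    · have hX' : -X ∉ closedBall (0 : XX n) 1 := by
        rw [mem_closedBall_zero_iff] at hX ⊢
        rwa [norm_neg]
      rw [indicator_of_notMem hX, indicator_of_notMem hX']
  simp only [hf, integral_neg] at h1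
  linarith

theorem dw_contOn {α : FW n} (h : Con α) : ContinuousOn (dw α) {0}ᶜ := fun _ hz =>
  (h.contDiffAt_dw hz).continuousAt.continuousWithinAt

/-- The mean of the distance. -/
theorem mean_le {Cd : ℝ≥0∞} (hCd : ∀ F : W n → ℝ≥0∞, Measurable F → ∀ z : W n,
    z ≠ 0 → ∀ r : ℝ, 0 < r →
      ∫⁻ X in closedBall (0 : XX n) 1, F (z + r • mx X z) ≤
        Cd * (ENNReal.ofReal (r * ‖z‖))⁻¹ ^ (2 * n + 2) *
          ∫⁻ x in closedBall z (((n : ℝ) + 1) * r * ‖z‖), F x) {K : ℝ}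
    {α : FW n} (h : Con α) {r : W n → ℝ} (hr : RadF r) {z : W n} (hz : z ≠ 0) (hrz : 0 < r z)
    {ρ e : ℝ} {ct : BW n} (hm : MClose α z ρ e ct) (h1 : ((n : ℝ) + 1) * r z * ‖z‖ ≤ ρ)
    (h2 : ρ ≤ K * (r z * ‖z‖)) :
    ∫⁻ X in closedBall (0 : XX n) 1, ‖dw α (psi r X z) - ct‖ₑ ≤
      Cd * volume (ball (0 : W n) 1) * ENNReal.ofReal (K ^ (2 * n + 2)) * ENNReal.ofReal e := by
  classical
  have hz' : 0 < ‖z‖ := norm_pos_iff.2 hz
  have hρ0 : 0 ≤ ρ := le_trans (by positivity) h1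
  set F : W n → ℝ≥0∞ := ({0}ᶜ : Set (W n)).piecewise (fun x => ‖dw α x - ct‖ₑ) (fun _ => 0) with hF
  have hFm : Measurable F := by
    apply ContinuousOn.measurable_piecewise
    · exact ((dw_contOn h).sub continuousOn_const).enorm
    · exact continuousOn_const
    · exact (measurableSet_singleton 0).compl
  have hF1 : ∀ x : W n, x ≠ 0 → F x = ‖dw α x - ct‖ₑ := fun x hx => by
    rw [hF, piecewise_eq_of_mem _ _ _ (show x ∈ ({0}ᶜ : Set (W n)) from hx)]
  have hF2 : ∀ x : W n, F x ≤ ‖dw α x - ct‖ₑ := fun x => by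
    by_cases hx : x = 0
    · rw [hF, piecewise_eq_of_notMem _ _ _ (by simp [hx])]
      exact zero_le
    · exact (hF1 x hx).le
  have e1 : ∫⁻ X in closedBall (0 : XX n) 1, ‖dw α (psi r X z) - ct‖ₑ =
      ∫⁻ X in closedBall (0 : XX n) 1, F (z + r z • mx X z) := by
    refine setLIntegral_congr_fun measurableSet_closedBall fun X hX => ?_
    have hne : psi r X z ≠ 0 := AvgAAux.psi_ne_one hr (mem_closedBall_zero_iff.1 hX) hz
    show ‖dw α (psi r X z) - ct‖ₑ = F (psi r X z)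
    rw [hF1 _ hne]
  rw [e1]
  refine (hCd F hFm z hz (r z) hrz).trans ?_
  have e2 : ∫⁻ x in closedBall z (((n : ℝ) + 1) * r z * ‖z‖), F x ≤
      ENNReal.ofReal e * volume (closedBall z ρ) :=
    calc ∫⁻ x in closedBall z (((n : ℝ) + 1) * r z * ‖z‖), F x
        ≤ ∫⁻ x in closedBall z ρ, F x := lintegral_mono_set (closedBall_subset_closedBall h1)
      _ ≤ ∫⁻ x in closedBall z ρ, ‖dw α x - ct‖ₑ := lintegral_mono hF2
      _ ≤ _ := hm.2
  have e3 : volume (closedBall z ρ) = ENNReal.ofReal (ρ ^ (2 * n + 2)) * volume (ball (0 : W n) 1) := by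
    rw [Measure.addHaar_closedBall _ _ hρ0, fr]
  have hk : (ENNReal.ofReal (r z * ‖z‖))⁻¹ ^ (2 * n + 2) * ENNReal.ofReal (ρ ^ (2 * n + 2)) ≤
      ENNReal.ofReal (K ^ (2 * n + 2)) := by
    have hp : 0 < r z * ‖z‖ := by positivity
    rw [← ENNReal.ofReal_inv_of_pos hp, ← ENNReal.ofReal_pow (by positivity),
      ← ENNReal.ofReal_mul (by positivity)]
    apply ENNReal.ofReal_le_ofReal
    rw [← mul_pow]
    apply pow_le_pow_left₀ (by positivity)
    rw [inv_mul_le_iff₀ hp]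
    linarith
  calc Cd * (ENNReal.ofReal (r z * ‖z‖))⁻¹ ^ (2 * n + 2) *
        ∫⁻ x in closedBall z (((n : ℝ) + 1) * r z * ‖z‖), F x
      ≤ Cd * (ENNReal.ofReal (r z * ‖z‖))⁻¹ ^ (2 * n + 2) *
          (ENNReal.ofReal e * (ENNReal.ofReal (ρ ^ (2 * n + 2)) * volume (ball (0 : W n) 1))) := by
        rw [← e3]
        exact mul_le_mul_right e2 _
    _ = Cd * volume (ball (0 : W n) 1) *
          ((ENNReal.ofReal (r z * ‖z‖))⁻¹ ^ (2 * n + 2) * ENNReal.ofReal (ρ ^ (2 * n + 2))) *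
          ENNReal.ofReal e := by ring
    _ ≤ _ := by gcongr

end AvgClAux

open AvgClAux in
theorem avg_close (n : ℕ) {K : ℝ} (hK : 1 ≤ K) : ∃ C : ℝ, 1 ≤ C ∧ ∀ α : FW n, Con α →
    ∀ r : W n → ℝ, RadF r → ∀ z : W n, z ≠ 0 → 0 < r z → ∀ (ρ e : ℝ) (ct : BW n), 0 ≤ e →
      MClose α z ρ e ct → ((n : ℝ) + 1) * r z * ‖z‖ ≤ ρ → ρ ≤ K * (r z * ‖z‖) →
      ρ ≤ ‖z‖ / 8 → ‖dw (AvF r α) z - ct‖ ≤ C * e := by
  obtain ⟨Cd, hCd0, hCd⟩ := dens_X n
  obtain ⟨Cm, hCm1, hCm⟩ := mclose_norm n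
  set vB : ℝ := (volume (closedBall (0 : XX n) 1)).toReal with hvB
  have hvB0 : 0 < vB := by
    rw [hvB]
    exact ENNReal.toReal_pos (measure_closedBall_pos volume 0 one_pos).ne'
      measure_closedBall_lt_top.ne
  set M : ℝ := (Cd * volume (ball (0 : W n) 1)).toReal with hM
  have hMtop : Cd * volume (ball (0 : W n) 1) ≠ ⊤ :=
    ENNReal.mul_ne_top hCd0 measure_ball_lt_top.ne
  have hM0 : 0 ≤ M := ENNReal.toReal_nonneg
  have hK0 : 0 ≤ K := by linarith
  refine ⟨1 + ((n : ℝ) + 3) ^ 2 * vB⁻¹ * (M * K ^ (2 * n + 2)) + 3 * ((n : ℝ) + 1) ^ 2 * Cm, ?_,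
    fun α h r hr z hz hrz ρ e ct he hm h1 h2 h3 => ?_⟩
  · have hA : 0 ≤ ((n : ℝ) + 3) ^ 2 * vB⁻¹ * (M * K ^ (2 * n + 2)) := by positivity
    have hB : 0 ≤ 3 * ((n : ℝ) + 1) ^ 2 * Cm := by positivity
    linarith
  have hz' : 0 < ‖z‖ := norm_pos_iff.2 hz
  have hρ : 0 < ρ := lt_of_lt_of_le (by positivity) h1
  have hKc : IsCompact (closedBall (0 : XX n) 1) := isCompact_closedBall 0 1
  -- the norm of `ct`
  have hct : r z * ‖ct‖ ≤ Cm * e := by
    have h4 := hCm α h z hz ρ e ct hρ h3 he hm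
    have h5 : r z * ‖z‖ ≤ ρ := by
      have hn : (0 : ℝ) ≤ (n : ℝ) := Nat.cast_nonneg n
      have h6 : 0 ≤ (n : ℝ) * (r z * ‖z‖) := by positivity
      nlinarith
    have h6 : (r z * ‖ct‖) * ‖z‖ ≤ (Cm * e) * ‖z‖ := by
      calc (r z * ‖ct‖) * ‖z‖ = (r z * ‖z‖) * ‖ct‖ := by ring
        _ ≤ ρ * ‖ct‖ := mul_le_mul_of_nonneg_right h5 (norm_nonneg _)
        _ ≤ _ := h4
    exact le_of_mul_le_mul_right h6 hz'
  -- the mean
  have hmean := mean_le hCd h hr hz hrz hm h1 h2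
  have hpc : ContinuousOn (fun X : XX n => psi r X z) (closedBall (0 : XX n) 1) := by
    have h4 : Continuous (fun X : XX n => z + r z • mx X z) :=
      continuous_const.add ((mx_cont z).const_smul (r z))
    exact h4.continuousOn
  have hdc : ContinuousOn (fun X : XX n => dw α (psi r X z)) (closedBall (0 : XX n) 1) :=
    (dw_contOn h).comp hpc fun X hX => AvgAAux.psi_ne_one hr (mem_closedBall_zero_iff.1 hX) hz
  have hdc' : ContinuousOn (fun X : XX n => dw α (psi r X z) - ct) (closedBall (0 : XX n) 1) :=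
    hdc.sub continuousOn_const
  have hmr : ∫ X in closedBall (0 : XX n) 1, ‖dw α (psi r X z) - ct‖ ≤
      M * K ^ (2 * n + 2) * e := by
    rw [integral_norm_eq_lintegral_enorm (hdc'.aestronglyMeasurable measurableSet_closedBall)]
    have h4 : Cd * volume (ball (0 : W n) 1) * ENNReal.ofReal (K ^ (2 * n + 2)) *
        ENNReal.ofReal e ≠ ⊤ :=
      ENNReal.mul_ne_top (ENNReal.mul_ne_top hMtop ENNReal.ofReal_ne_top) ENNReal.ofReal_ne_top
    refine (ENNReal.toReal_mono h4 hmean).trans (le_of_eq ?_)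
    rw [ENNReal.toReal_mul, ENNReal.toReal_mul, ENNReal.toReal_ofReal (by positivity),
      ENNReal.toReal_ofReal he]
  have hfc : ∀ v : W n, ContinuousOn (fun X : XX n => fderiv ℝ (psi r X) z v)
      (closedBall (0 : XX n) 1) := fun v => by
    have h4 : Continuous fun X : XX n => v + AA r X z v := continuous_const.add (AA_cont r z v)
    exact h4.continuousOn.congr fun X _ => fd_eq hr X hz v
  refine ContinuousLinearMap.opNorm_le_bound _ (by positivity) fun v => ?_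
  refine ContinuousLinearMap.opNorm_le_bound _ (by positivity) fun w => ?_
  -- integrable pieces
  have i1 : IntegrableOn (fun X : XX n => (dw α (psi r X z) - ct) (fderiv ℝ (psi r X) z v)
      (fderiv ℝ (psi r X) z w)) (closedBall (0 : XX n) 1) :=
    ((hdc'.clm_apply (hfc v)).clm_apply (hfc w)).integrableOn_compact hKc
  have i2 : IntegrableOn (fun X : XX n => ct (AA r X z v) (AA r X z w))
      (closedBall (0 : XX n) 1) :=
    (((continuous_const (y := ct)).clm_apply (AA_cont r z v)).clm_apply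
      (AA_cont r z w)).continuousOn.integrableOn_compact hKc
  have i3 : IntegrableOn (fun X : XX n => ct (AA r X z v) w + ct v (AA r X z w))
      (closedBall (0 : XX n) 1) :=
    ((((continuous_const (y := ct)).clm_apply (AA_cont r z v)).clm_apply continuous_const).add
      ((ct v).continuous.comp (AA_cont r z w))).continuousOn.integrableOn_compact hKc
  have i4 : IntegrableOn (fun _ : XX n => ct v w) (closedBall (0 : XX n) 1) :=
    continuousOn_const.integrableOn_compact hKc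
  have hodd : ∫ X in closedBall (0 : XX n) 1, (ct (AA r X z v) w + ct v (AA r X z w)) = 0 := by
    apply odd_int
    intro X
    rw [AA_neg, AA_neg, map_neg, map_neg, neg_apply]
    ring
  have key : (dw (AvF r α) z - ct) v w = vB⁻¹ *
      ((∫ X in closedBall (0 : XX n) 1, (dw α (psi r X z) - ct) (fderiv ℝ (psi r X) z v)
        (fderiv ℝ (psi r X) z w)) +
      ∫ X in closedBall (0 : XX n) 1, ct (AA r X z v) (AA r X z w)) := by
    have h4 : ∫ X in closedBall (0 : XX n) 1,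
        dw α (psi r X z) (fderiv ℝ (psi r X) z v) (fderiv ℝ (psi r X) z w) =
        (∫ X in closedBall (0 : XX n) 1, (dw α (psi r X z) - ct) (fderiv ℝ (psi r X) z v)
          (fderiv ℝ (psi r X) z w)) +
        (∫ X in closedBall (0 : XX n) 1, ct (AA r X z v) (AA r X z w)) + vB * ct v w := by
      have h5 : ∀ X : XX n, dw α (psi r X z) (fderiv ℝ (psi r X) z v) (fderiv ℝ (psi r X) z w) =
          (dw α (psi r X z) - ct) (fderiv ℝ (psi r X) z v) (fderiv ℝ (psi r X) z w) +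
          ct (AA r X z v) (AA r X z w) + (ct (AA r X z v) w + ct v (AA r X z w)) + ct v w := by
        intro X
        rw [sub_apply, sub_apply, fd_eq hr X hz v, fd_eq hr X hz w]
        simp only [map_add, add_apply]
        ring
      simp only [h5]
      refine (int4 i1 i2 i3 i4).trans ?_
      rw [hodd, setIntegral_const, smul_eq_mul, Measure.real, add_zero]
    rw [sub_apply, sub_apply, dw_AvF hr h hz, h4, ← hvB]
    field_simp
    ring
  rw [key, norm_mul, Real.norm_of_nonneg (inv_nonneg.2 hvB0.le)]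
  have b1 : ‖∫ X in closedBall (0 : XX n) 1, (dw α (psi r X z) - ct) (fderiv ℝ (psi r X) z v)
      (fderiv ℝ (psi r X) z w)‖ ≤ ((n : ℝ) + 3) ^ 2 * (‖v‖ * ‖w‖) * (M * K ^ (2 * n + 2) * e) := by
    calc ‖∫ X in closedBall (0 : XX n) 1, (dw α (psi r X z) - ct) (fderiv ℝ (psi r X) z v)
          (fderiv ℝ (psi r X) z w)‖
        ≤ ∫ X in closedBall (0 : XX n) 1, ((n : ℝ) + 3) ^ 2 * (‖v‖ * ‖w‖) *
            ‖dw α (psi r X z) - ct‖ := by
          apply norm_integral_le_of_norm_le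
          · exact (hdc'.norm.integrableOn_compact hKc).const_mul _
          · rw [ae_restrict_iff' measurableSet_closedBall]
            refine Filter.Eventually.of_forall fun X hX => ?_
            have hX1 := mem_closedBall_zero_iff.1 hX
            have h5 := (dw α (psi r X z) - ct).le_opNorm₂ (fderiv ℝ (psi r X) z v)
              (fderiv ℝ (psi r X) z w)
            have h6 := fd_le hr hX1 hz v
            have h7 := fd_le hr hX1 hz w
            calc ‖(dw α (psi r X z) - ct) (fderiv ℝ (psi r X) z v) (fderiv ℝ (psi r X) z w)‖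
                ≤ ‖dw α (psi r X z) - ct‖ * ‖fderiv ℝ (psi r X) z v‖ *
                    ‖fderiv ℝ (psi r X) z w‖ := h5
              _ ≤ ‖dw α (psi r X z) - ct‖ * (((n : ℝ) + 3) * ‖v‖) * (((n : ℝ) + 3) * ‖w‖) := by
                  gcongr
              _ = _ := by ring
      _ = ((n : ℝ) + 3) ^ 2 * (‖v‖ * ‖w‖) *
            ∫ X in closedBall (0 : XX n) 1, ‖dw α (psi r X z) - ct‖ := integral_const_mul _ _
      _ ≤ _ := mul_le_mul_of_nonneg_left hmr (by positivity)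
  have b2 : ‖∫ X in closedBall (0 : XX n) 1, ct (AA r X z v) (AA r X z w)‖ ≤
      3 * ((n : ℝ) + 1) ^ 2 * (Cm * e) * (‖v‖ * ‖w‖) * vB := by
    rw [hvB]
    refine norm_setIntegral_le_of_norm_le_const measure_closedBall_lt_top fun X hX => ?_
    have hX1 := mem_closedBall_zero_iff.1 hX
    rw [Real.norm_eq_abs]
    refine (quad_le hr hX1 hz hm.1 v w).trans ?_
    gcongr
  calc vB⁻¹ * ‖(∫ X in closedBall (0 : XX n) 1, (dw α (psi r X z) - ct)
          (fderiv ℝ (psi r X) z v) (fderiv ℝ (psi r X) z w)) +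
        ∫ X in closedBall (0 : XX n) 1, ct (AA r X z v) (AA r X z w)‖
      ≤ vB⁻¹ * (((n : ℝ) + 3) ^ 2 * (‖v‖ * ‖w‖) * (M * K ^ (2 * n + 2) * e) +
          3 * ((n : ℝ) + 1) ^ 2 * (Cm * e) * (‖v‖ * ‖w‖) * vB) := by
        gcongr
        exact (norm_add_le _ _).trans (add_le_add b1 b2)
    _ = (((n : ℝ) + 3) ^ 2 * vB⁻¹ * (M * K ^ (2 * n + 2)) + 3 * ((n : ℝ) + 1) ^ 2 * Cm) * e *
          ‖v‖ * ‖w‖ := by
        field_simp
    _ ≤ (1 + ((n : ℝ) + 3) ^ 2 * vB⁻¹ * (M * K ^ (2 * n + 2)) + 3 * ((n : ℝ) + 1) ^ 2 * Cm) * e *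
          ‖v‖ * ‖w‖ := by
        gcongr
        linarith

end Pool.Agent.Lib.P28t
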