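import Pool.Agent.Lib.P28t.ConnW
import Pool.Agent.Lib.P28t.MFacts
import Pool.Agent.Lib.P28f.Ultra

set_option autoImplicit false
set_option maxSynthPendingDepth 3

/-!
# Boundedness away from the concentration points

PROOF. Let `Ω` be the set of `conn_W`. For `z ∈ Ω` let `t_z > 0` be smaller than all `fd (pt z) (pt a)` (`P28c` / `P28g.PrepA`: `fd_pos`), `θ` from `hc t_z`: for almost all `j` there is `σ` with `FlatF (β j) z (κ θ ‖z‖) δ σ`, so for `y ∈ closedBall z (κ θ ‖z‖)`: `‖dw (β j) y - dw (β j) z‖ ≤ δ σ ≤ (1/4) ‖dw (β j) z‖` (`flat_norm`),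
hence `‖dw y‖ ≤ (5/4) ‖dw z‖` and `‖dw z‖ ≤ (4/3) ‖dw y‖`. So the set of `z ∈ Ω` for which there is `Λ` such that the two inequalities hold for almost all `j` is open, and so is its complement in `Ω`; it contains `g` (`Λ = 1`); by connectedness it is `Ω` (compare the proof of `P28f.bdd`).
UNIFORMITY: the set `K = {z | ‖z‖ = 1/2, ∀ a ∈ A, t ≤ fd (pt z) (pt a)}` is compact (`fd (pt z) (pt a)` is continuous off `0`: `P28g.ConcWAux.fd_cont` or directly) and contained in `Ω`; with `θ` from `hc t` the balls `closedBall z (κ θ / 2)`, `z ∈ K`, are good for almost all `j` simultaneously; take a finite subcover, the maximum of the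
constants, and multiply by `2`.
-/

open MeasureTheory Set Metric
open scoped ContDiff Topology ENNReal

namespace Pool.Agent.Lib.P28t

open Pool.Agent.P28b04d Pool.Agent.Lib.P28e Pool.Agent.Lib.P28c
open Pool.Agent.Lib.P28f (V EV)
open Pool.Agent.Lib.P28g (TT)

variable {n : ℕ}

open Pool.Agent.Lib.P28f (ult)

namespace BddTAux

theorem fd_pos {P Q : Mat n} (h : P ≠ Q) : 0 < fd P Q := by
  rcases (fd_nonneg P Q).lt_or_eq with h1 | h1
  · exact h1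
  · exfalso
    apply h
    unfold fd at h1
    have h2 : ∑ i, ∑ j, Complex.normSq (P i j - Q i j) = 0 :=
      (Real.sqrt_eq_zero (Finset.sum_nonneg fun i _ => Finset.sum_nonneg fun j _ =>
        Complex.normSq_nonneg _)).1 h1.symm
    funext i j
    have h3 := (Finset.sum_eq_zero_iff_of_nonneg (fun i _ => Finset.sum_nonneg fun j _ =>
      Complex.normSq_nonneg _)).1 h2 i (Finset.mem_univ _)
    have h4 := (Finset.sum_eq_zero_iff_of_nonneg (fun j _ =>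
      Complex.normSq_nonneg _)).1 h3 j (Finset.mem_univ _)
    exact sub_eq_zero.1 (Complex.normSq_eq_zero.1 h4)

theorem finset_lower {ι : Type} (A : Finset ι) (f : ι → ℝ) (h : ∀ a ∈ A, 0 < f a) :
    ∃ t : ℝ, 0 < t ∧ t ≤ 1 ∧ ∀ a ∈ A, t ≤ f a := by
  classical
  induction A using Finset.induction_on with
  | empty => exact ⟨1, one_pos, le_rfl, fun a ha => absurd ha (Finset.notMem_empty a)⟩
  | insert a s ha ih =>
    obtain ⟨t, ht, ht1, h1⟩ := ih fun b hb => h b (Finset.mem_insert_of_mem hb)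
    have h2 := h a (Finset.mem_insert_self a s)
    refine ⟨min t (f a), lt_min ht h2, (min_le_left _ _).trans ht1, ?_⟩
    intro b hb
    rcases Finset.mem_insert.1 hb with rfl | hb
    · exact min_le_right _ _
    · exact (min_le_left _ _).trans (h1 b hb)

/-- The local comparison. -/
theorem flat_two (hn : 1 ≤ n) {κ δ c : ℝ} (hκ : 0 < κ) (hκ1 : κ ≤ 1 / 8)
    (hδ0 : 0 < δ) (hδ : δ ≤ 1 / 4) {β : FW n} {ν : Measure (W n)}
    (hβ : CtrlF κ δ c β ν) {z : W n} (hz : z ≠ 0) {θ : ℝ} (hθ : 0 < θ) (hθ1 : θ ≤ 1)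
    (hm : ν.real (PB (pt z) θ) ≤ c) {y : W n} (hy : y ∈ closedBall z (κ * θ * ‖z‖)) :
    ‖dw β y‖ ≤ 2 * ‖dw β z‖ ∧ ‖dw β z‖ ≤ 2 * ‖dw β y‖ := by
  have hz0 : 0 < ‖z‖ := norm_pos_iff.2 hz
  obtain ⟨σ, hσ⟩ := hβ.flat z hz θ hθ hθ1 hm
  have hρ : 0 < κ * θ * ‖z‖ := by positivity
  have hρ1 : κ * θ * ‖z‖ ≤ ‖z‖ / 8 := by
    have h1 : κ * θ ≤ 1 / 8 := by nlinarith
    calc κ * θ * ‖z‖ ≤ 1 / 8 * ‖z‖ := mul_le_mul_of_nonneg_right h1 hz0.le
      _ = ‖z‖ / 8 := by ring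
  obtain ⟨h1, -⟩ := flat_norm hn hβ.symp.1 hz hρ hρ1 hδ0.le hσ
  have h2 : ‖dw β y - dw β z‖ ≤ δ * σ := hσ.2.2 z (mem_closedBall_self hρ.le) y hy
  have h3 : δ * σ ≤ 1 / 4 * ‖dw β z‖ := by
    have := hσ.1
    nlinarith
  have h4 : ‖dw β y‖ ≤ ‖dw β y - dw β z‖ + ‖dw β z‖ := by
    have := norm_add_le (dw β y - dw β z) (dw β z)
    rwa [sub_add_cancel] at this
  have h5 : ‖dw β z‖ ≤ ‖dw β y - dw β z‖ + ‖dw β y‖ := by
    have := norm_sub_le (dw β y) (dw β y - dw β z)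
    rw [sub_sub_cancel] at this
    linarith
  have h6 := norm_nonneg (dw β z)
  constructor <;> linarith

end BddTAux

open BddTAux

theorem bdd_T (n : ℕ) (hn : 1 ≤ n) {κ δ c : ℝ} (hκ : 0 < κ) (hκ1 : κ ≤ 1 / 8)
    (hδ0 : 0 < δ) (hδ : δ ≤ 1 / 4) (β : ℕ → FW n) (ν : ℕ → Measure (W n))
    (hβ : ∀ j, CtrlF κ δ c (β j) (ν j)) (A : Finset (W n)) (hA : ∀ a ∈ A, a ≠ 0)
    (hc : ∀ t : ℝ, 0 < t → ∃ θ : ℝ, 0 < θ ∧ θ ≤ 1 ∧ ∀ᶠ j in (ult : Filter ℕ), ∀ z : W n,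
      z ≠ 0 → (∀ a ∈ A, t ≤ fd (pt z) (pt a)) → (ν j).real (PB (pt z) θ) ≤ c)
    {g : W n} (hg : g ≠ 0) (hgA : ∀ a ∈ A, pt g ≠ pt a) {t : ℝ} (ht : 0 < t) :
    ∃ Λ : ℝ, 1 ≤ Λ ∧ ∀ᶠ j in (ult : Filter ℕ), ∀ z : W n, ‖z‖ = 1 / 2 →
      (∀ a ∈ A, t ≤ fd (pt z) (pt a)) →
      ‖dw (β j) z‖ ≤ Λ * ‖dw (β j) g‖ ∧ ‖dw (β j) g‖ ≤ Λ * ‖dw (β j) z‖ := by
  obtain ⟨hopen, hconn⟩ := conn_W n hn A hA
  set Ω : Set (W n) := {z : W n | z ≠ 0 ∧ ∀ a ∈ A, pt z ≠ pt a} with hΩ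
  let P : W n → Prop := fun x => ∃ C : ℝ, 0 < C ∧ ∀ᶠ j in (ult : Filter ℕ),
    ‖dw (β j) x‖ ≤ C * ‖dw (β j) g‖ ∧ ‖dw (β j) g‖ ≤ C * ‖dw (β j) x‖
  -- local comparison
  have hloc : ∀ x ∈ Ω, ∃ ρ : ℝ, 0 < ρ ∧ closedBall x ρ ⊆ Ω ∧
      ∀ᶠ j in (ult : Filter ℕ), ∀ y ∈ closedBall x ρ,
        ‖dw (β j) y‖ ≤ 2 * ‖dw (β j) x‖ ∧ ‖dw (β j) x‖ ≤ 2 * ‖dw (β j) y‖ := by
    intro x hx
    have hx0 : 0 < ‖x‖ := norm_pos_iff.2 hx.1
    obtain ⟨tx, htx, -, htx2⟩ := finset_lower A (fun a => fd (pt x) (pt a))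
      fun a ha => fd_pos (hx.2 a ha)
    obtain ⟨θ, hθ, hθ1, hev⟩ := hc tx htx
    obtain ⟨ρ, hρ, hρΩ⟩ := Metric.isOpen_iff.1 hopen x hx
    refine ⟨min (ρ / 2) (κ * θ * ‖x‖), by positivity, ?_, ?_⟩
    · refine subset_trans (fun y hy => ?_) hρΩ
      rw [mem_closedBall] at hy
      rw [mem_ball]
      have := min_le_left (ρ / 2) (κ * θ * ‖x‖)
      linarith
    · filter_upwards [hev] with j hj y hy
      exact flat_two hn hκ hκ1 hδ0 hδ (hβ j) hx.1 hθ hθ1 (hj x hx.1 htx2)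
        (closedBall_subset_closedBall (min_le_right _ _) hy)
  have hopA : IsOpen {x | x ∈ Ω ∧ P x} := by
    rw [Metric.isOpen_iff]
    rintro x ⟨hx, C, hC, hCx⟩
    obtain ⟨ρ, hρ, hρΩ, hev⟩ := hloc x hx
    refine ⟨ρ, hρ, fun y hy => ?_⟩
    have hy' := ball_subset_closedBall hy
    refine ⟨hρΩ hy', 2 * C, by positivity, ?_⟩
    filter_upwards [hCx, hev] with j h2 h3
    obtain ⟨a1, a2⟩ := h2
    obtain ⟨b1, b2⟩ := h3 y hy'
    constructor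
    · nlinarith
    · nlinarith
  have hopB : IsOpen {x | x ∈ Ω ∧ ¬ P x} := by
    rw [Metric.isOpen_iff]
    rintro x ⟨hx, hPx⟩
    obtain ⟨ρ, hρ, hρΩ, hev⟩ := hloc x hx
    refine ⟨ρ, hρ, fun y hy => ?_⟩
    have hy' := ball_subset_closedBall hy
    refine ⟨hρΩ hy', fun hPy => hPx ?_⟩
    obtain ⟨C, hC, hCy⟩ := hPy
    refine ⟨2 * C, by positivity, ?_⟩
    filter_upwards [hCy, hev] with j h2 h3
    obtain ⟨a1, a2⟩ := h2
    obtain ⟨b1, b2⟩ := h3 y hy'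
    constructor
    · nlinarith
    · nlinarith
  have hall : ∀ x ∈ Ω, P x := by
    have h1 : Ω ⊆ {x | x ∈ Ω ∧ P x} := by
      refine hconn.subset_left_of_subset_union hopA hopB ?_ ?_ ?_
      · rw [Set.disjoint_left]
        rintro x ⟨_, h⟩ ⟨_, h'⟩
        exact h' h
      · intro x hx
        by_cases h : P x
        · exact Or.inl ⟨hx, h⟩
        · exact Or.inr ⟨hx, h⟩
      · refine ⟨g, ⟨hg, hgA⟩, ⟨hg, hgA⟩, 1, one_pos, ?_⟩
        refine Filter.Eventually.of_forall fun j => ?_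
        rw [one_mul]
        exact ⟨le_rfl, le_rfl⟩
    exact fun x hx => (h1 hx).2
  choose! C hCpos hCev using hall
  -- uniformity
  set K : Set (W n) := {z | ‖z‖ = 1 / 2 ∧ ∀ a ∈ A, t ≤ fd (pt z) (pt a)} with hK
  have hne : ∀ z ∈ K, z ≠ 0 := by
    intro z hz h0
    have h1 := hz.1
    rw [h0, norm_zero] at h1
    norm_num at h1
  have hKΩ : K ⊆ Ω := by
    intro z hz
    refine ⟨hne z hz, fun a ha h => ?_⟩
    have h1 := hz.2 a ha
    rw [h, fd_self] at h1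
    linarith
  have hKb : TotallyBounded K := by
    refine (isCompact_closedBall (0 : W n) 1).totallyBounded.subset ?_
    intro z hz
    rw [mem_closedBall, dist_zero_right, hz.1]
    norm_num
  obtain ⟨θ, hθ, hθ1, hev⟩ := hc t ht
  obtain ⟨S, hSK, hSf, hScov⟩ := finite_approx_of_totallyBounded hKb (κ * θ * (1 / 2))
    (by positivity)
  refine ⟨1 + ∑ x ∈ hSf.toFinset, 2 * C x, ?_, ?_⟩
  · have h1 : 0 ≤ ∑ x ∈ hSf.toFinset, 2 * C x :=
      Finset.sum_nonneg fun x hx => by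
        have := hCpos x (hKΩ (hSK (hSf.mem_toFinset.1 hx)))
        positivity
    linarith
  · have h1 : ∀ᶠ j in (ult : Filter ℕ), ∀ x ∈ hSf.toFinset,
        (‖dw (β j) x‖ ≤ C x * ‖dw (β j) g‖ ∧ ‖dw (β j) g‖ ≤ C x * ‖dw (β j) x‖) := by
      rw [Filter.eventually_all_finset]
      intro x hx
      exact hCev x (hKΩ (hSK (hSf.mem_toFinset.1 hx)))
    filter_upwards [h1, hev] with j h3 h4 z hz1 hz2
    have hzK : z ∈ K := ⟨hz1, hz2⟩
    obtain ⟨x, hx, hzx⟩ : ∃ x ∈ S, z ∈ ball x (κ * θ * (1 / 2)) := by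
      have := hScov hzK
      simp only [mem_iUnion, exists_prop] at this
      exact this
    have hxK := hSK hx
    have hxS : x ∈ hSf.toFinset := hSf.mem_toFinset.2 hx
    obtain ⟨a1, a2⟩ := h3 x hxS
    have hzx' : z ∈ closedBall x (κ * θ * ‖x‖) := by
      rw [hxK.1]
      exact ball_subset_closedBall hzx
    obtain ⟨b1, b2⟩ := flat_two hn hκ hκ1 hδ0 hδ (hβ j) (hne x hxK) hθ hθ1
      (h4 x (hne x hxK) hxK.2) hzx'
    have h8 : 2 * C x ≤ 1 + ∑ x ∈ hSf.toFinset, 2 * C x := by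
      have h8 : 2 * C x ≤ ∑ x ∈ hSf.toFinset, 2 * C x :=
        Finset.single_le_sum (f := fun x => 2 * C x)
          (fun w hw => by
            have := hCpos w (hKΩ (hSK (hSf.mem_toFinset.1 hw)))
            positivity) hxS
      linarith
    have hCx := hCpos x (hKΩ hxK)
    have c1 : ‖dw (β j) z‖ ≤ 2 * C x * ‖dw (β j) g‖ := by linarith
    have c2 : ‖dw (β j) g‖ ≤ 2 * C x * ‖dw (β j) z‖ := by nlinarith
    exact ⟨c1.trans (mul_le_mul_of_nonneg_right h8 (norm_nonneg _)),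
      c2.trans (mul_le_mul_of_nonneg_right h8 (norm_nonneg _))⟩

end Pool.Agent.Lib.P28t
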