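import Pool.Agent.Lib.P28t.Form
import Pool.Agent.Lib.P28s.Dd
import Pool.Agent.Lib.P28g.ChartApi

set_option autoImplicit false
set_option maxSynthPendingDepth 3

/-!
# The form in the affine chart

PROOF. `chF α x i = α (sl x) (Lv e_i)` with `sl x = e0 + Lv x` (`sl_eq`, `hasFDerivAt_sl`, `sl_ne`). `dd_chF`: `(D (chF α) x v) j = (fderiv α (sl x) (Lv v)) (Lv e_j)`; the transposed operator is
`∑ i (D (chF α) x e_j) i * v i = fderiv α (sl x) (Lv e_j) (Lv v)` (`P28s.tr_apply`). `isUnit_chF`: in finite dimension a unit is an injective operator; if `dd (chF α) x v = 0` then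
`dw α (sl x) (Lv v) (Lv w) = 0` for all `w`, and every `w' ∈ W n` is `w' 0 • sl x + Lv w''` (`w'' = kap⁻¹ (w'_k - w'_0 kap x)`), so `dw α (sl x) (Lv v) = 0` (`Con.dw_right`), `Lv v = c sl x`; the coordinate `0` gives `c = 0` and `v = 0`. Conversely
if `dw α (sl x) v' = 0`, write `v' = c sl x + Lv v`. BOUNDS (`‖x‖ ≤ 1`, `1 ≤ ‖sl x‖ ≤ 3`): for `w' ∈ W n`, `‖w''‖ ≤ 3 ‖w'‖` up to a constant, `|dw α (sl x) (Lv v) w'| = |∑ i (dd (chF α) x v) i * w'' i| ≤ 2 n ‖dd (chF α) x v‖ ‖w''‖`; the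
converse with `w = e_j`. `chF_sub`: the bilinear form of the difference is the restriction of the difference of the bilinear forms. `chF_inv`: for `v` let `Lv v = c sl x + p` (`exists_decomp`), `‖v‖ ≤ ‖kap v‖ ≤ C ‖p‖`
(since `‖Lv v - c sl x‖ ≥ max (|c|, ‖kap v‖ - |c| ‖kap x‖) ≥ ‖v‖ / 3`), so `σ ‖v‖ ≤ C σ ‖p‖ ≤ C ‖dw α (sl x) p‖ = C ‖dw α (sl x) (Lv v)‖ ≤ C' ‖dd (chF α) x v‖`; apply this to `v = (dd (chF α) x)⁻¹ u`. `chF_der`:
`fderiv (dd (chF α)) x u` is the operator of `fderiv (dw α) (sl x) (Lv u)` restricted to the vectors `Lv v`. `par_chF`: `dd (chF α)` is smooth (`chF_smooth`), `HasDerivAt` along a coordinate from `HasFDerivAt` (compare `P28e.par_uu` in `SliceA.lean`).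
-/

open MeasureTheory Set Metric
open scoped ContDiff Topology ENNReal

namespace Pool.Agent.Lib.P28t

open Pool.Agent.P28b04d Pool.Agent.Lib.P28e Pool.Agent.Lib.P28c
open Pool.Agent.Lib.P28f (V EV)
open Pool.Agent.Lib.P28g (TT)

variable {n : ℕ}

namespace ChFAux

theorem e_norm (i : Fin (n * 2)) : ‖(Pi.single i (1 : ℝ) : V (n * 2))‖ ≤ 1 := by
  rw [pi_norm_le_iff_of_nonneg zero_le_one]
  intro j
  by_cases hj : j = i
  · subst hj; simp
  · simp [hj]

theorem Le_norm (i : Fin (n * 2)) : ‖Lv n (Pi.single i (1 : ℝ))‖ ≤ 2 := by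
  refine (norm_Lv_le _).trans ?_
  have := e_norm i
  linarith

/-- the values of a linear form on the coordinate vectors -/
noncomputable def evL (n : ℕ) : (W n →L[ℝ] ℝ) →L[ℝ] V (n * 2) :=
  ContinuousLinearMap.pi fun i => ContinuousLinearMap.apply ℝ ℝ (Lv n (Pi.single i 1))

theorem evL_apply (f : W n →L[ℝ] ℝ) (i : Fin (n * 2)) :
    evL n f i = f (Lv n (Pi.single i 1)) := rfl

theorem evL_norm (f : W n →L[ℝ] ℝ) : ‖evL n f‖ ≤ 2 * ‖f‖ := by
  rw [pi_norm_le_iff_of_nonneg (by positivity)]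
  intro i
  rw [evL_apply]
  refine (f.le_opNorm _).trans ?_
  have := mul_le_mul_of_nonneg_left (Le_norm i) (norm_nonneg f)
  linarith

theorem evL_sum (f : W n →L[ℝ] ℝ) (w : V (n * 2)) : ∑ i, evL n f i * w i = f (Lv n w) := by
  have h : w = ∑ i, w i • (Pi.single i (1 : ℝ) : V (n * 2)) := by
    funext j
    simp [Finset.sum_apply, Pi.single_apply]
  conv_rhs => rw [h]
  rw [map_sum, map_sum]
  refine Finset.sum_congr rfl fun i _ => ?_
  rw [map_smul, map_smul, smul_eq_mul, evL_apply, mul_comm]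

/-- the operator of the restriction of a bilinear form to the chart -/
noncomputable def opL (n : ℕ) : BW n →L[ℝ] EV (n * 2) :=
  ((ContinuousLinearMap.compL ℝ (V (n * 2)) (W n →L[ℝ] ℝ) (V (n * 2))) (evL n)).comp
    ((ContinuousLinearMap.compL ℝ (V (n * 2)) (W n) (W n →L[ℝ] ℝ)).flip (Lv n))

theorem opL_apply (β : BW n) (v : V (n * 2)) : opL n β v = evL n (β (Lv n v)) := rfl

theorem opL_sum (β : BW n) (v w : V (n * 2)) : ∑ i, opL n β v i * w i = β (Lv n v) (Lv n w) := by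
  rw [opL_apply]
  exact evL_sum _ _

theorem opL_le (β : BW n) (v : V (n * 2)) : ‖opL n β v‖ ≤ 2 * ‖β (Lv n v)‖ := evL_norm _

theorem opL_norm (β : BW n) : ‖opL n β‖ ≤ 4 * ‖β‖ := by
  refine ContinuousLinearMap.opNorm_le_bound _ (by positivity) fun v => ?_
  refine (opL_le β v).trans ?_
  have h1 := β.le_opNorm (Lv n v)
  have h2 := mul_le_mul_of_nonneg_left (norm_Lv_le v) (norm_nonneg β)
  linarith

theorem sum_le (u w : V (n * 2)) : |∑ i, u i * w i| ≤ (n * 2 : ℝ) * (‖u‖ * ‖w‖) := by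
  refine (Finset.abs_sum_le_sum_abs _ _).trans ?_
  have h1 : ∀ i ∈ (Finset.univ : Finset (Fin (n * 2))), |u i * w i| ≤ ‖u‖ * ‖w‖ := by
    intro i _
    rw [abs_mul]
    exact mul_le_mul (norm_le_pi_norm u i) (norm_le_pi_norm w i) (abs_nonneg _) (norm_nonneg _)
  refine (Finset.sum_le_card_nsmul _ _ _ h1).trans (le_of_eq ?_)
  rw [Finset.card_univ, Fintype.card_fin, nsmul_eq_mul]
  push_cast
  ring

/-- every vector is a multiple of `sl x` plus a vector of the chart -/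
theorem split (x : V (n * 2)) (w : W n) : ∃ v : V (n * 2), w = w 0 • sl n x + Lv n v ∧
    (‖x‖ ≤ 1 → ‖v‖ ≤ 3 * ‖w‖) := by
  refine ⟨(kap n).symm fun k => w k.succ - w 0 * kap n x k, ?_, fun hx => ?_⟩
  · ext i
    refine Fin.cases ?_ (fun j => ?_) i
    · simp [sl, Lv_apply]
    · simp [sl, Lv_apply]
  · refine (norm_le_kap n _).trans ?_
    rw [ContinuousLinearEquiv.apply_symm_apply, pi_norm_le_iff_of_nonneg (by positivity)]
    intro k
    refine (norm_sub_le _ _).trans ?_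
    rw [norm_mul]
    have h1 := norm_le_pi_norm w k.succ
    have h2 := norm_le_pi_norm w 0
    have h3 : ‖kap n x k‖ ≤ 2 := (norm_le_pi_norm _ k).trans ((norm_kap_le n x).trans (by linarith))
    have h4 : ‖w 0‖ * ‖kap n x k‖ ≤ ‖w‖ * 2 := mul_le_mul h2 h3 (norm_nonneg _) (norm_nonneg _)
    linarith

theorem contDiff_sl : ContDiff ℝ ∞ (sl n) := by
  have e : sl n = fun y => e0 n + Lv n y := funext fun y => sl_eq y
  rw [e]
  exact contDiff_const.add (Lv n).contDiff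

theorem ne_inf : (∞ : WithTop ℕ∞) ≠ 0 := by simp

theorem fderiv_chF {α : FW n} (h : Con α) (x : V (n * 2)) :
    fderiv ℝ (chF α) x = (evL n).comp ((fderiv ℝ α (sl n x)).comp (Lv n)) := by
  have h1 : HasFDerivAt α (fderiv ℝ α (sl n x)) (sl n x) :=
    ((h.smooth _ (sl_ne x)).differentiableAt ne_inf).hasFDerivAt
  have h2 := h1.comp x (Pool.Agent.Lib.P28g.hasFDerivAt_sl x)
  exact ((evL n).hasFDerivAt.comp x h2).fderiv

theorem dd_eq {α : FW n} (h : Con α) (x : V (n * 2)) :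
    P28s.dd (chF α) x = opL n (dw α (sl n x)) := by
  refine ContinuousLinearMap.ext fun v => funext fun j => ?_
  unfold P28s.dd
  rw [fderiv_chF h x]
  have e1 : P28s.tr ((evL n).comp ((fderiv ℝ α (sl n x)).comp (Lv n))) v j =
      fderiv ℝ α (sl n x) (Lv n (Pi.single j 1)) (Lv n v) := by
    rw [P28s.tr_apply]
    exact evL_sum _ _
  have e2 : ((evL n).comp ((fderiv ℝ α (sl n x)).comp (Lv n)) -
      P28s.tr ((evL n).comp ((fderiv ℝ α (sl n x)).comp (Lv n)))) v j =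
      ((evL n).comp ((fderiv ℝ α (sl n x)).comp (Lv n))) v j -
      P28s.tr ((evL n).comp ((fderiv ℝ α (sl n x)).comp (Lv n))) v j := rfl
  rw [e2, e1]
  rfl

theorem dd_fun {α : FW n} (h : Con α) :
    P28s.dd (chF α) = fun x => opL n (dw α (sl n x)) := funext fun x => dd_eq h x

theorem dw_split {α : FW n} (h : Con α) (x : V (n * 2)) (u : W n) (w : W n) (c : ℂ) :
    dw α (sl n x) u (c • sl n x + w) = dw α (sl n x) u w := by
  rw [map_add, h.dw_right (sl_ne x), zero_add]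

theorem dw_split' {α : FW n} (h : Con α) (x : V (n * 2)) (u : W n) (c : ℂ) :
    dw α (sl n x) (c • sl n x + u) = dw α (sl n x) u := by
  ext w
  rw [map_add, add_apply, h.dw_left (sl_ne x), zero_add]

theorem low {α : FW n} (h : Con α) {x : V (n * 2)} (hx : ‖x‖ ≤ 1) (v : V (n * 2)) :
    ‖dw α (sl n x) (Lv n v)‖ ≤ 6 * n * ‖P28s.dd (chF α) x v‖ := by
  rw [dd_eq h]
  refine ContinuousLinearMap.opNorm_le_bound _ (by positivity) fun w => ?_
  obtain ⟨w', hw, hw'⟩ := split x w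
  have e1 : dw α (sl n x) (Lv n v) w = dw α (sl n x) (Lv n v) (Lv n w') := by
    conv_lhs => rw [hw]
    exact dw_split h x _ _ _
  rw [e1, ← opL_sum, Real.norm_eq_abs]
  refine (sum_le _ _).trans ?_
  have h2 := hw' hx
  have h3 : ‖opL n (dw α (sl n x)) v‖ * ‖w'‖ ≤ ‖opL n (dw α (sl n x)) v‖ * (3 * ‖w‖) :=
    mul_le_mul_of_nonneg_left h2 (norm_nonneg _)
  have h4 := mul_le_mul_of_nonneg_left h3 (show (0 : ℝ) ≤ n * 2 by positivity)
  linarith

theorem Lv_inj {v : V (n * 2)} {c : ℂ} {x : V (n * 2)} (h : Lv n v = c • sl n x) : v = 0 := by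
  have h6 := congrFun h 0
  rw [Lv_apply] at h6
  simp only [Fin.cons_zero, Pi.smul_apply, Pool.Agent.Lib.P28g.sl_apply_zero, smul_eq_mul, mul_one] at h6
  rw [← h6, zero_smul, Lv_apply] at h
  have h7 : kap n v = 0 := by
    funext j
    have := congrFun h j.succ
    simpa only [Fin.cons_succ, Pi.zero_apply] using this
  exact (kap n).injective (by rw [h7, map_zero])

theorem unit_of_inj {A : EV (n * 2)} (h : ∀ v, A v = 0 → v = 0) : IsUnit A := by
  obtain ⟨D', hD'⟩ := exists_equiv A h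
  refine ⟨ContinuousLinearEquiv.toUnit D', ?_⟩
  rw [← hD']
  rfl

theorem inj_of_unit {A : EV (n * 2)} (h : IsUnit A) {v : V (n * 2)} (hv : A v = 0) : v = 0 := by
  obtain ⟨u, rfl⟩ := h
  have h1 : (↑u⁻¹ : EV (n * 2)) ((u : EV (n * 2)) v) = v := by
    have h2 : (↑u⁻¹ * (u : EV (n * 2)) : EV (n * 2)) v = v := by rw [u.inv_mul]; rfl
    exact h2
  rw [← h1, hv, map_zero]

end ChFAux

open ChFAux

theorem chF_smooth {α : FW n} (h : Con α) : ContDiff ℝ ∞ (chF α) := by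
  have h1 : ContDiff ℝ ∞ fun x => α (sl n x) := by
    rw [contDiff_iff_contDiffAt]
    intro x
    exact (h.smooth _ (sl_ne x)).comp x contDiff_sl.contDiffAt
  exact (evL n).contDiff.comp h1

theorem dd_chF {α : FW n} (h : Con α) (x v w : V (n * 2)) :
    ∑ i, P28s.dd (chF α) x v i * w i = dw α (sl n x) (Lv n v) (Lv n w) := by
  rw [dd_eq h]
  exact opL_sum _ _ _

theorem smooth_dd_chF {α : FW n} (h : Con α) : ContDiff ℝ ∞ (P28s.dd (chF α)) := by
  rw [dd_fun h]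
  have h1 : ContDiff ℝ ∞ fun x => dw α (sl n x) := by
    rw [contDiff_iff_contDiffAt]
    intro x
    exact (h.contDiffAt_dw (sl_ne x)).comp x contDiff_sl.contDiffAt
  exact (opL n).contDiff.comp h1

theorem par_chF {α : FW n} (h : Con α) : Par (fun x => P28s.dd (chF α) x)
    (fun i x => fderiv ℝ (P28s.dd (chF α)) x (Pi.single i 1)) := by
  have hs := smooth_dd_chF h
  have hc : Continuous (fderiv ℝ (P28s.dd (chF α))) := hs.continuous_fderiv (by simp)
  refine ⟨hs.continuous, fun i => hc.clm_apply continuous_const, fun i x => ?_⟩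
  have h1 : HasDerivAt (fun t : ℝ => Function.update x i t) (Pi.single i (1 : ℝ)) (x i) :=
    hasDerivAt_update x i (x i)
  have h2 : HasFDerivAt (P28s.dd (chF α)) (fderiv ℝ (P28s.dd (chF α)) x)
      (Function.update x i (x i)) := by
    rw [Function.update_eq_self]
    exact (hs.contDiffAt.differentiableAt ne_inf).hasFDerivAt
  exact h2.comp_hasDerivAt (x i) h1

theorem isUnit_chF {α : FW n} (h : Con α) (x : V (n * 2)) :
    IsUnit (P28s.dd (chF α) x) ↔ NdAt α (sl n x) := by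
  constructor
  · intro hu v hv
    obtain ⟨v', hv1, -⟩ := split x v
    refine ⟨v 0, ?_⟩
    have h1 : dw α (sl n x) (Lv n v') = 0 := by
      have h2 := dw_split' h x (Lv n v') (v 0)
      rw [← hv1] at h2
      rw [← h2]
      ext w
      exact hv w
    have h3 : P28s.dd (chF α) x v' = 0 := by
      rw [dd_eq h, opL_apply, h1, map_zero]
    have h4 := inj_of_unit hu h3
    rw [h4, map_zero, add_zero] at hv1
    exact hv1
  · intro hn
    refine unit_of_inj fun v hv => ?_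
    obtain ⟨c, hc⟩ := hn (Lv n v) (fun w => by
      obtain ⟨w', hw, -⟩ := split x w
      have e1 : dw α (sl n x) (Lv n v) w = dw α (sl n x) (Lv n v) (Lv n w') := by
        conv_lhs => rw [hw]
        exact dw_split h x _ _ _
      rw [e1, ← dd_chF h, hv]
      simp)
    exact Lv_inj hc

theorem chF_bounds (n : ℕ) : ∃ C : ℝ, 1 ≤ C ∧ ∀ α : FW n, Con α → ∀ x : V (n * 2), ‖x‖ ≤ 1 →
    (∀ v, ‖dw α (sl n x) (Lv n v)‖ ≤ C * ‖P28s.dd (chF α) x v‖) ∧
    (∀ v, ‖P28s.dd (chF α) x v‖ ≤ C * ‖dw α (sl n x) (Lv n v)‖) ∧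
    ‖P28s.dd (chF α) x‖ ≤ C * ‖dw α (sl n x)‖ ∧ ‖dw α (sl n x)‖ ≤ C * ‖P28s.dd (chF α) x‖ := by
  refine ⟨18 * n + 4, ?_, fun α h x hx => ⟨fun v => ?_, fun v => ?_, ?_, ?_⟩⟩
  · have : (0 : ℝ) ≤ n := Nat.cast_nonneg n
    linarith
  · refine (low h hx v).trans (mul_le_mul_of_nonneg_right ?_ (norm_nonneg _))
    have : (0 : ℝ) ≤ n := Nat.cast_nonneg n
    linarith
  · rw [dd_eq h]
    refine (opL_le _ v).trans (mul_le_mul_of_nonneg_right ?_ (norm_nonneg _))
    have : (0 : ℝ) ≤ n := Nat.cast_nonneg n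
    linarith
  · rw [dd_eq h]
    refine (opL_norm _).trans (mul_le_mul_of_nonneg_right ?_ (norm_nonneg _))
    have : (0 : ℝ) ≤ n := Nat.cast_nonneg n
    linarith
  · refine ContinuousLinearMap.opNorm_le_bound _ (by positivity) fun v => ?_
    obtain ⟨v', hv1, hv2⟩ := split x v
    have e1 : dw α (sl n x) v = dw α (sl n x) (Lv n v') := by
      conv_lhs => rw [hv1]
      exact dw_split' h x _ _
    rw [e1]
    have h2 := (P28s.dd (chF α) x).le_opNorm v'
    have h3 := mul_le_mul_of_nonneg_left (hv2 hx) (norm_nonneg (P28s.dd (chF α) x))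
    have h4 : (0 : ℝ) ≤ 6 * n := by positivity
    calc ‖dw α (sl n x) (Lv n v')‖ ≤ 6 * n * ‖P28s.dd (chF α) x v'‖ := low h hx v'
      _ ≤ 6 * n * (‖P28s.dd (chF α) x‖ * (3 * ‖v‖)) :=
          mul_le_mul_of_nonneg_left (h2.trans h3) h4
      _ ≤ (18 * n + 4) * ‖P28s.dd (chF α) x‖ * ‖v‖ := by
          have : 0 ≤ ‖P28s.dd (chF α) x‖ * ‖v‖ := by positivity
          nlinarith

theorem chF_sub (n : ℕ) : ∃ C : ℝ, 1 ≤ C ∧ ∀ α β : FW n, Con α → Con β → ∀ (x y : V (n * 2))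
    (l l' : ℝ), ‖l • P28s.dd (chF α) x - l' • P28s.dd (chF β) y‖ ≤
      C * ‖l • dw α (sl n x) - l' • dw β (sl n y)‖ := by
  refine ⟨4, by norm_num, fun α β hα hβ x y l l' => ?_⟩
  rw [dd_eq hα, dd_eq hβ, ← map_smul, ← map_smul, ← map_sub]
  exact opL_norm _

theorem chF_inv (n : ℕ) : ∃ C : ℝ, 1 ≤ C ∧ ∀ α : FW n, Con α → ∀ x : V (n * 2), ‖x‖ ≤ 1 →
    ∀ σ : ℝ, 0 < σ → (∀ p : W n, hip (sl n x) p = 0 → σ * ‖p‖ ≤ ‖dw α (sl n x) p‖) →
      IsUnit (P28s.dd (chF α) x) ∧ σ * ‖Ring.inverse (P28s.dd (chF α) x)‖ ≤ C := by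
  refine ⟨18 * n + 1, ?_, fun α h x hx σ hσ hl => ?_⟩
  · have : (0 : ℝ) ≤ n := Nat.cast_nonneg n
    linarith
  have key : ∀ v, σ * ‖v‖ ≤ 18 * n * ‖P28s.dd (chF α) x v‖ := by
    intro v
    obtain ⟨c, p, hv, hp, -, -⟩ := exists_decomp (sl_ne x) (Lv n v)
    have hp0 : p = Lv n v - c • sl n x := by rw [hv]; abel
    have h0 := norm_le_pi_norm p 0
    have h1 : p 0 = -c := by
      rw [hp0]
      simp [Lv_apply, sl]
    rw [h1, norm_neg] at h0
    have h2 : ‖kap n v‖ ≤ 3 * ‖p‖ := by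
      rw [pi_norm_le_iff_of_nonneg (by positivity)]
      intro k
      have h3 := norm_le_pi_norm p k.succ
      have h4 : p k.succ = kap n v k - c * kap n x k := by
        rw [hp0]
        simp [Lv_apply, sl]
      have h5 : kap n v k = p k.succ + c * kap n x k := by rw [h4]; ring
      rw [h5]
      refine (norm_add_le _ _).trans ?_
      rw [norm_mul]
      have h6 : ‖kap n x k‖ ≤ 2 :=
        (norm_le_pi_norm _ k).trans ((norm_kap_le n x).trans (by linarith))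
      have h7 : ‖c‖ * ‖kap n x k‖ ≤ ‖p‖ * 2 := mul_le_mul h0 h6 (norm_nonneg _) (norm_nonneg _)
      linarith
    have h3 : ‖v‖ ≤ 3 * ‖p‖ := (norm_le_kap n v).trans h2
    have h4 : dw α (sl n x) (Lv n v) = dw α (sl n x) p := by
      conv_lhs => rw [hv]
      exact dw_split' h x _ _
    have h5 := hl p hp
    have h6 := low h hx v
    rw [h4] at h6
    calc σ * ‖v‖ ≤ σ * (3 * ‖p‖) := mul_le_mul_of_nonneg_left h3 hσ.le
      _ = 3 * (σ * ‖p‖) := by ring
      _ ≤ 3 * (6 * n * ‖P28s.dd (chF α) x v‖) :=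
          mul_le_mul_of_nonneg_left (h5.trans h6) (by norm_num)
      _ = 18 * n * ‖P28s.dd (chF α) x v‖ := by ring
  have hu : IsUnit (P28s.dd (chF α) x) := by
    refine unit_of_inj fun v hv => ?_
    have h1 := key v
    rw [hv, norm_zero, mul_zero] at h1
    have h2 : ‖v‖ ≤ 0 := by
      by_contra hcon
      push Not at hcon
      have := mul_pos hσ hcon
      linarith
    exact norm_le_zero_iff.mp h2
  refine ⟨hu, ?_⟩
  have h3 : ‖Ring.inverse (P28s.dd (chF α) x)‖ ≤ 18 * n / σ := by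
    refine ContinuousLinearMap.opNorm_le_bound _ (by positivity) fun u => ?_
    have h4 := key (Ring.inverse (P28s.dd (chF α) x) u)
    have h5 : P28s.dd (chF α) x (Ring.inverse (P28s.dd (chF α) x) u) = u := by
      have h6 := congrArg (fun A : EV (n * 2) => A u) (Ring.mul_inverse_cancel _ hu)
      exact h6
    rw [h5] at h4
    rw [div_mul_eq_mul_div, le_div_iff₀ hσ]
    linarith
  calc σ * ‖Ring.inverse (P28s.dd (chF α) x)‖ ≤ σ * (18 * n / σ) :=
        mul_le_mul_of_nonneg_left h3 hσ.le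
    _ = 18 * n := by field_simp
    _ ≤ 18 * n + 1 := by linarith

theorem chF_der (n : ℕ) : ∃ C : ℝ, 1 ≤ C ∧ ∀ α : FW n, Con α → ∀ (x : V (n * 2))
    (i : Fin (n * 2)), ‖fderiv ℝ (P28s.dd (chF α)) x (Pi.single i 1)‖ ≤
      C * ‖fderiv ℝ (dw α) (sl n x)‖ := by
  refine ⟨8, by norm_num, fun α h x i => ?_⟩
  have h1 : HasFDerivAt (dw α) (fderiv ℝ (dw α) (sl n x)) (sl n x) :=
    ((h.contDiffAt_dw (sl_ne x)).differentiableAt ne_inf).hasFDerivAt
  have h2 := h1.comp x (Pool.Agent.Lib.P28g.hasFDerivAt_sl x)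
  have h3 : fderiv ℝ (P28s.dd (chF α)) x = (opL n).comp ((fderiv ℝ (dw α) (sl n x)).comp (Lv n)) := by
    rw [dd_fun h]
    exact ((opL n).hasFDerivAt.comp x h2).fderiv
  rw [h3]
  have h4 := opL_norm (fderiv ℝ (dw α) (sl n x) (Lv n (Pi.single i 1)))
  have h5 := (fderiv ℝ (dw α) (sl n x)).le_opNorm (Lv n (Pi.single i 1))
  have h6 := mul_le_mul_of_nonneg_left (Le_norm i) (norm_nonneg (fderiv ℝ (dw α) (sl n x)))
  calc ‖((opL n).comp ((fderiv ℝ (dw α) (sl n x)).comp (Lv n))) (Pi.single i 1)‖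
      = ‖opL n (fderiv ℝ (dw α) (sl n x) (Lv n (Pi.single i 1)))‖ := rfl
    _ ≤ 4 * ‖fderiv ℝ (dw α) (sl n x) (Lv n (Pi.single i 1))‖ := h4
    _ ≤ 8 * ‖fderiv ℝ (dw α) (sl n x)‖ := by linarith

end Pool.Agent.Lib.P28t
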