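import Pool.Agent.Lib.P28t.Form
import Pool.Agent.Lib.P28g.TTmap

set_option autoImplicit false
set_option maxSynthPendingDepth 3

/-!
# Pull-back by complex linear maps

PROOF. `con_pbl`, `dw_pbl`, `fderiv_dw_pbl`: chain rule for the linear map `T` (`dw (pbl T α) z v w = dw α (T z) (T v) (T w)`, differentiate once more in `z`). `symp_pbl`: if `dw (pbl T α) z v w = 0` for all `w`, `T v = c T z`, so
`v = c z`. `dens_pbl`: for `hip z p = 0`, `z ≠ 0`, decompose (`exists_decomp`) `T p = c T z + q`, `hip (T z) q = 0`; `dw α (T z) (T p) = dw α (T z) q`; `‖p‖ ≤ (n + 2) ‖p - b z‖ ≤ (n + 2) 4 ‖T p - b T z‖` for every `b`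
(the bound `‖p‖ ≤ (n+2) ‖p - b z‖` is the last claim of `exists_decomp` for `v = p`, whose `p`-part is `p` itself because `hip z p = 0`; prove this uniqueness), with `b = c`: `‖p‖ ≤ 4 (n + 2) ‖q‖`. Also `‖dw (pbl T α) z‖ ≤ ‖dw α (T z)‖` (`‖T x‖ ≤ ‖x‖`) and
`‖dw α (T z) (T p)‖ ≤ 4 ‖dw (pbl T α) z p‖` (every `w` is `T (T⁻¹ w)`, `‖T⁻¹ w‖ ≤ 4 ‖w‖`), `‖z‖ ≤ 4 ‖T z‖`, `‖fderiv (dw (pbl T α)) z‖ ≤ ‖fderiv (dw α) (T z)‖`. So `C = 64 (n + 2)` works.
-/

open MeasureTheory Set Metric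
open scoped ContDiff Topology ENNReal

namespace Pool.Agent.Lib.P28t

open Pool.Agent.P28b04d Pool.Agent.Lib.P28e Pool.Agent.Lib.P28c
open Pool.Agent.Lib.P28f (V EV)
open Pool.Agent.Lib.P28g (TT)

variable {n : ℕ}

namespace LinFAux

theorem ne0 (T : W n ≃L[ℝ] W n) {z : W n} (hz : z ≠ 0) : T z ≠ 0 := by
  intro h
  exact hz ((map_eq_zero_iff T T.injective).1 h)

/-- Precomposition with `T`. -/
noncomputable def pre (T : W n ≃L[ℝ] W n) : (W n →L[ℝ] ℝ) →L[ℝ] (W n →L[ℝ] ℝ) :=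
  (ContinuousLinearMap.compL ℝ (W n) (W n) ℝ).flip (T : W n →L[ℝ] W n)

theorem pre_apply (T : W n ≃L[ℝ] W n) (L : W n →L[ℝ] ℝ) (v : W n) : pre T L v = L (T v) := rfl

/-- Precomposition with `T` in both variables. -/
noncomputable def pre2 (T : W n ≃L[ℝ] W n) : BW n →L[ℝ] BW n :=
  ((ContinuousLinearMap.compL ℝ (W n) (W n) (W n →L[ℝ] ℝ)).flip (T : W n →L[ℝ] W n)).comp
    (ContinuousLinearMap.compL ℝ (W n) (W n →L[ℝ] ℝ) (W n →L[ℝ] ℝ) (pre T))

theorem pre2_apply (T : W n ≃L[ℝ] W n) (B : BW n) (v w : W n) :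
    pre2 T B v w = B (T v) (T w) := rfl

theorem hasFDerivAt_pbl {α : FW n} (T : W n ≃L[ℝ] W n) {z : W n}
    (h : DifferentiableAt ℝ α (T z)) :
    HasFDerivAt (pbl T α) ((pre T).comp ((fderiv ℝ α (T z)).comp (T : W n →L[ℝ] W n))) z := by
  have h1 : HasFDerivAt (fun x => α (T x)) ((fderiv ℝ α (T z)).comp (T : W n →L[ℝ] W n)) z :=
    HasFDerivAt.comp z h.hasFDerivAt (T : W n →L[ℝ] W n).hasFDerivAt
  exact (pre T).hasFDerivAt.comp z h1

theorem p_le {z p : W n} (hz : z ≠ 0) (hp : hip z p = 0) (b : ℂ) :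
    ‖p‖ ≤ ((n : ℝ) + 2) * ‖p - b • z‖ := by
  obtain ⟨c, p', h1, h2, -, h4⟩ := exists_decomp hz p
  have h5 : hip z p = c * (nsq z : ℂ) + hip z p' := by
    rw [h1]
    unfold hip nsq
    push_cast
    rw [Finset.mul_sum, ← Finset.sum_add_distrib]
    refine Finset.sum_congr rfl fun k _ => ?_
    rw [Pi.add_apply, Pi.smul_apply, smul_eq_mul, Complex.normSq_eq_conj_mul_self]
    have : star (z k) = (starRingEnd ℂ) (z k) := rfl
    rw [this]
    ring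
  rw [hp, h2, add_zero] at h5
  have h6 : c = 0 := by
    rcases mul_eq_zero.1 h5.symm with h | h
    · exact h
    · exact absurd h (by exact_mod_cast (nsq_pos hz).ne')
  have h7 : p = p' := by
    rw [h1, h6, zero_smul, zero_add]
  have h8 := h4 b
  rw [← h7] at h8
  exact h8

end LinFAux

open LinFAux

theorem con_pbl {α : FW n} (h : Con α) (T : W n ≃L[ℝ] W n)
    (hT : ∀ (c : ℂ) (x : W n), T (c • x) = c • T x) : Con (pbl T α) where
  smooth z hz := by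
    have h1 : ContDiffAt ℝ ∞ (fun x => α (T x)) z :=
      (h.smooth (T z) (ne0 T hz)).comp z (T : W n →L[ℝ] W n).contDiff.contDiffAt
    exact (pre T).contDiff.contDiffAt.comp z h1
  hom c z v hc hz := by
    change α (T (c • z)) (T (c • v)) = α (T z) (T v)
    rw [hT, hT]
    exact h.hom c _ _ hc (ne0 T hz)
  rad z hz := h.rad (T z) (ne0 T hz)
  rot z hz := by
    change α (T z) (T (Complex.I • z)) = 1
    rw [hT]
    exact h.rot (T z) (ne0 T hz)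

theorem dw_pbl {α : FW n} (h : Con α) (T : W n ≃L[ℝ] W n)
    {z : W n} (hz : z ≠ 0) (v w : W n) :
    dw (pbl T α) z v w = dw α (T z) (T v) (T w) := by
  have h1 : DifferentiableAt ℝ α (T z) :=
    (h.smooth (T z) (ne0 T hz)).differentiableAt (by simp)
  have h2 := (hasFDerivAt_pbl T h1).fderiv
  unfold dw
  rw [h2]
  rfl

theorem fderiv_dw_pbl {α : FW n} (h : Con α) (T : W n ≃L[ℝ] W n)
    {z : W n} (hz : z ≠ 0) (u v w : W n) :
    fderiv ℝ (dw (pbl T α)) z u v w = fderiv ℝ (dw α) (T z) (T u) (T v) (T w) := by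
  have h1 : dw (pbl T α) =ᶠ[𝓝 z] fun x => pre2 T (dw α (T x)) := by
    filter_upwards [isOpen_compl_singleton.mem_nhds (show z ∈ ({0} : Set (W n))ᶜ from hz)]
      with x hx
    ext v w
    rw [pre2_apply]
    exact dw_pbl h T hx v w
  rw [h1.fderiv_eq]
  have h2 : DifferentiableAt ℝ (dw α) (T z) :=
    (h.contDiffAt_dw (ne0 T hz)).differentiableAt (by simp)
  have h3 : HasFDerivAt (fun x => dw α (T x))
      ((fderiv ℝ (dw α) (T z)).comp (T : W n →L[ℝ] W n)) z :=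
    HasFDerivAt.comp z h2.hasFDerivAt (T : W n →L[ℝ] W n).hasFDerivAt
  have h4 : HasFDerivAt (fun x => pre2 T (dw α (T x)))
      ((pre2 T).comp ((fderiv ℝ (dw α) (T z)).comp (T : W n →L[ℝ] W n))) z :=
    (pre2 T).hasFDerivAt.comp z h3
  rw [h4.fderiv]
  rfl

theorem symp_pbl {α : FW n} (h : Symp α) (T : W n ≃L[ℝ] W n)
    (hT : ∀ (c : ℂ) (x : W n), T (c • x) = c • T x) : Symp (pbl T α) := by
  refine ⟨con_pbl h.1 T hT, fun z hz v hv => ?_⟩
  obtain ⟨c, hc⟩ := h.2 (T z) (ne0 T hz) (T v) (fun w => by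
    have h1 := hv (T.symm w)
    rw [dw_pbl h.1 T hz, T.apply_symm_apply] at h1
    exact h1)
  refine ⟨c, T.injective ?_⟩
  rw [hc, hT]

theorem dens_pbl (n : ℕ) : ∃ C : ℝ, 1 ≤ C ∧ ∀ T : W n ≃L[ℝ] W n, TT T → ∀ (α : FW n)
    (h : W n → ℝ), Con α → Dens α h → Dens (pbl T α) fun z => C * h (T z) := by
  have hn : (0 : ℝ) ≤ n := Nat.cast_nonneg n
  refine ⟨64 * ((n : ℝ) + 2), by linarith, fun T hT α h hα hd => ?_⟩
  have key : ∀ z : W n, z ≠ 0 → ∀ p : W n, hip z p = 0 → ∃ q : W n, hip (T z) q = 0 ∧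
      ‖p‖ ≤ 4 * ((n : ℝ) + 2) * ‖q‖ ∧ ‖dw α (T z) q‖ ≤ 4 * ‖dw (pbl T α) z p‖ := by
    intro z hz p hp
    obtain ⟨c, q, h1, h2, -, -⟩ := exists_decomp (ne0 T hz) (T p)
    refine ⟨q, h2, ?_, ?_⟩
    · have h3 := p_le hz hp c
      have h4 : ‖p - c • z‖ ≤ 4 * ‖q‖ := by
        have h5 := hT.symm_le (T (p - c • z))
        rw [T.symm_apply_apply, map_sub, hT.hom, h1, add_sub_cancel_left] at h5
        exact h5
      have h6 : ((n : ℝ) + 2) * ‖p - c • z‖ ≤ ((n : ℝ) + 2) * (4 * ‖q‖) :=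
        mul_le_mul_of_nonneg_left h4 (by linarith)
      linarith
    · refine ContinuousLinearMap.opNorm_le_bound _ (by positivity) fun w => ?_
      have h3 : dw α (T z) q w = dw (pbl T α) z p (T.symm w) := by
        rw [dw_pbl hα T hz, T.apply_symm_apply, h1, map_add, ContinuousLinearMap.add_apply,
          hα.dw_left (ne0 T hz), zero_add]
      rw [h3]
      calc ‖dw (pbl T α) z p (T.symm w)‖ ≤ ‖dw (pbl T α) z p‖ * ‖T.symm w‖ :=
            ContinuousLinearMap.le_opNorm _ _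
        _ ≤ ‖dw (pbl T α) z p‖ * (4 * ‖w‖) :=
            mul_le_mul_of_nonneg_left (hT.symm_le w) (norm_nonneg _)
        _ = 4 * ‖dw (pbl T α) z p‖ * ‖w‖ := by ring
  have hb1 : ∀ z : W n, z ≠ 0 → ‖dw (pbl T α) z‖ ≤ ‖dw α (T z)‖ := by
    intro z hz
    refine ContinuousLinearMap.opNorm_le_bound₂ _ (norm_nonneg _) fun v w => ?_
    rw [dw_pbl hα T hz]
    calc ‖dw α (T z) (T v) (T w)‖ ≤ ‖dw α (T z)‖ * ‖T v‖ * ‖T w‖ :=
          ContinuousLinearMap.le_opNorm₂ _ _ _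
      _ ≤ ‖dw α (T z)‖ * ‖v‖ * ‖w‖ := by
          have := hT.le v
          have := hT.le w
          gcongr
  have hb2 : ∀ z : W n, z ≠ 0 → ‖fderiv ℝ (dw (pbl T α)) z‖ ≤ ‖fderiv ℝ (dw α) (T z)‖ := by
    intro z hz
    refine ContinuousLinearMap.opNorm_le_bound _ (norm_nonneg _) fun u => ?_
    refine ContinuousLinearMap.opNorm_le_bound₂ _ (by positivity) fun v w => ?_
    rw [fderiv_dw_pbl hα T hz]
    calc ‖fderiv ℝ (dw α) (T z) (T u) (T v) (T w)‖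
        ≤ ‖fderiv ℝ (dw α) (T z) (T u)‖ * ‖T v‖ * ‖T w‖ :=
          ContinuousLinearMap.le_opNorm₂ _ _ _
      _ ≤ (‖fderiv ℝ (dw α) (T z)‖ * ‖T u‖) * ‖T v‖ * ‖T w‖ := by
          have := ContinuousLinearMap.le_opNorm (fderiv ℝ (dw α) (T z)) (T u)
          gcongr
      _ ≤ ‖fderiv ℝ (dw α) (T z)‖ * ‖u‖ * ‖v‖ * ‖w‖ := by
          have := hT.le v
          have := hT.le w
          have := hT.le u
          gcongr
  have hz4 : ∀ z : W n, ‖z‖ ≤ 4 * ‖T z‖ := fun z => by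
    have h1 := hT.symm_le (T z)
    rwa [T.symm_apply_apply] at h1
  refine ⟨?_, ?_, ?_, ?_, ?_⟩
  · have h1 : ContinuousOn (fun z => h (T z)) {0}ᶜ :=
      hd.cont.comp T.continuous.continuousOn (fun z hz => ne0 T hz)
    exact continuousOn_const.mul h1
  · intro z
    have := hd.nonneg (T z)
    positivity
  · intro c z hc
    rw [hT.hom, hd.hom c _ hc]
  · intro z hz p hp
    obtain ⟨q, h1, h2, h3⟩ := key z hz p hp
    have h4 := hd.one (T z) (ne0 T hz) q h1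
    have h5 := hd.nonneg (T z)
    calc ‖dw (pbl T α) z‖ * ‖p‖ ≤ ‖dw α (T z)‖ * (4 * ((n : ℝ) + 2) * ‖q‖) :=
          mul_le_mul (hb1 z hz) h2 (norm_nonneg _) (norm_nonneg _)
      _ = 4 * ((n : ℝ) + 2) * (‖dw α (T z)‖ * ‖q‖) := by ring
      _ ≤ 4 * ((n : ℝ) + 2) * (h (T z) * ‖dw α (T z) q‖) :=
          mul_le_mul_of_nonneg_left h4 (by positivity)
      _ ≤ 4 * ((n : ℝ) + 2) * (h (T z) * (4 * ‖dw (pbl T α) z p‖)) :=
          mul_le_mul_of_nonneg_left (mul_le_mul_of_nonneg_left h3 h5) (by positivity)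
      _ ≤ 64 * ((n : ℝ) + 2) * h (T z) * ‖dw (pbl T α) z p‖ := by
          have : 0 ≤ ((n : ℝ) + 2) * h (T z) * ‖dw (pbl T α) z p‖ := by positivity
          nlinarith
  · intro z hz p hp
    obtain ⟨q, h1, h2, h3⟩ := key z hz p hp
    have h4 := hd.two (T z) (ne0 T hz) q h1
    have h5 := hd.nonneg (T z)
    calc ‖z‖ * ‖fderiv ℝ (dw (pbl T α)) z‖ * ‖p‖
        ≤ (4 * ‖T z‖) * ‖fderiv ℝ (dw α) (T z)‖ * (4 * ((n : ℝ) + 2) * ‖q‖) :=
          mul_le_mul (mul_le_mul (hz4 z) (hb2 z hz) (norm_nonneg _) (by positivity)) h2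
            (norm_nonneg _) (by positivity)
      _ = 16 * ((n : ℝ) + 2) * (‖T z‖ * ‖fderiv ℝ (dw α) (T z)‖ * ‖q‖) := by ring
      _ ≤ 16 * ((n : ℝ) + 2) * (h (T z) * ‖dw α (T z) q‖) :=
          mul_le_mul_of_nonneg_left h4 (by positivity)
      _ ≤ 16 * ((n : ℝ) + 2) * (h (T z) * (4 * ‖dw (pbl T α) z p‖)) :=
          mul_le_mul_of_nonneg_left (mul_le_mul_of_nonneg_left h3 h5) (by positivity)
      _ = 64 * ((n : ℝ) + 2) * h (T z) * ‖dw (pbl T α) z p‖ := by ring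

end Pool.Agent.Lib.P28t
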