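import Pool.Agent.Lib.P28t.ChF
import Pool.Agent.Lib.P28t.LinF
import Pool.Agent.Lib.P28t.MFacts
import Pool.Agent.Lib.P28s.AnnS
import Pool.Agent.Lib.P28g.PrepA
import Pool.Agent.Lib.P28g.ChartCtrl

set_option autoImplicit false
set_option maxSynthPendingDepth 3

/-!
# A controlled form is controlled in the charts

PROOF. Compare the proved files `P28g/ChartCtrl.lean`, `P28g/TTmap.lean` (`ctrlW_right`). `β' = pbl T β` is `Symp` (`symp_pbl`), `f = chF β'` is smooth with unit `dd f` (`chF_smooth`, `isUnit_chF`). Let `closedBall z r ⊆ ball 0 1` have `chm (ν.map T.symm)`-mass `≤ c`, `r' = min (r/2) 1`. For `x ∈ closedBall z (r/8)`: `closedBall x r' ⊆ closedBall z r`, so by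
`P28g.light_of_chart` `ν.real (PB (pt (T (sl n x))) (r'/C₀)) ≤ c`, so `FlatF β u (κ (r'/C₀) ‖u‖) δ σ`, `u = T (sl n x)`, `‖u‖ ≥ 1/4`. If `2 ‖y - x‖ ≤ κ (r'/C₀)/4` then `T (sl n y)` is in this ball and `‖dw β' (sl y) - dw β' (sl x)‖ ≤ ‖dw β (T sl y) - dw β (T sl x)‖ ≤ δ σ` (`dw_pbl`, `‖T v‖ ≤ ‖v‖`), so `‖dd f y - dd f x‖ ≤ C δ σ` (`chF_sub` with `l = l' = 1`).
Lower bound: for `hip (sl x) p = 0`, `T p = b u + q`, `hip u q = 0`: `‖p‖ ≤ (n + 2) ‖p - b sl x‖ ≤ 4 (n+2) ‖q‖` (see `dens_pbl`) and `‖dw β' (sl x) p‖ ≥ (1/4) ‖dw β u (T p)‖ = (1/4) ‖dw β u q‖ ≥ (σ/4) ‖q‖`; so `chF_inv` with `σ' = σ/(16 (n+2))` bounds `‖(dd f x)⁻¹‖ ≤ C/σ'`. Hence `‖dd f y - dd f x‖ ‖(dd f x)⁻¹‖ ≤ C₁ δ` for such `y`.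
Divide the segment between two points of `closedBall z (r/8)` into `N` parts (`N` depends on `κ, C₀`, as in `chart_ctrl`) and use `chainS`: the total error is `≤ (1 + C₁ δ)^N - 1 ≤ C δ` when `C δ ≤ 1`, `C = 2 N C₁` (`(1+a)^N ≤ exp (N a) ≤ 1 + 2 N a` for `N a ≤ 1/2`; increase `C` if necessary).
-/

open MeasureTheory Set Metric
open scoped ContDiff Topology ENNReal

namespace Pool.Agent.Lib.P28t

open Pool.Agent.P28b04d Pool.Agent.Lib.P28e Pool.Agent.Lib.P28c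
open Pool.Agent.Lib.P28f (V EV)
open Pool.Agent.Lib.P28g (TT)

variable {n : ℕ}

namespace ChartTAux

open Pool.Agent.Lib.P28g (light_of_chart one_le_norm_sl norm_sl_sub_le)

/-- the lower bound for the pull-back -/
theorem low_pbl {α : FW n} (hα : Con α) {T : W n ≃L[ℝ] W n} (hT : TT T) {z : W n} (hz : z ≠ 0)
    {σ : ℝ} (hσ : 0 ≤ σ) (h : ∀ p : W n, hip (T z) p = 0 → σ * ‖p‖ ≤ ‖dw α (T z) p‖) (p : W n)
    (hp : hip z p = 0) : σ / (16 * ((n : ℝ) + 2)) * ‖p‖ ≤ ‖dw (pbl T α) z p‖ := by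
  have hn : (0 : ℝ) ≤ n := Nat.cast_nonneg n
  obtain ⟨c, q, h1, h2, -, -⟩ := exists_decomp (LinFAux.ne0 T hz) (T p)
  have h3 := LinFAux.p_le hz hp c
  have h4 : ‖p - c • z‖ ≤ 4 * ‖q‖ := by
    have h5 := hT.symm_le (T (p - c • z))
    rw [T.symm_apply_apply, map_sub, hT.hom, h1, add_sub_cancel_left] at h5
    exact h5
  have h6 : ((n : ℝ) + 2) * ‖p - c • z‖ ≤ ((n : ℝ) + 2) * (4 * ‖q‖) :=
    mul_le_mul_of_nonneg_left h4 (by linarith)
  have h7 : ‖p‖ ≤ 4 * ((n : ℝ) + 2) * ‖q‖ := by linarith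
  have h8 : ‖dw α (T z) q‖ ≤ 4 * ‖dw (pbl T α) z p‖ := by
    refine ContinuousLinearMap.opNorm_le_bound _ (by positivity) fun w => ?_
    have h3 : dw α (T z) q w = dw (pbl T α) z p (T.symm w) := by
      rw [dw_pbl hα T hz, T.apply_symm_apply, h1, map_add, ContinuousLinearMap.add_apply,
        hα.dw_left (LinFAux.ne0 T hz), zero_add]
    rw [h3]
    calc ‖dw (pbl T α) z p (T.symm w)‖ ≤ ‖dw (pbl T α) z p‖ * ‖T.symm w‖ :=
          ContinuousLinearMap.le_opNorm _ _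
      _ ≤ ‖dw (pbl T α) z p‖ * (4 * ‖w‖) :=
          mul_le_mul_of_nonneg_left (hT.symm_le w) (norm_nonneg _)
      _ = 4 * ‖dw (pbl T α) z p‖ * ‖w‖ := by ring
  have h9 := h q h2
  have h10 : σ * ‖p‖ ≤ σ * (4 * ((n : ℝ) + 2) * ‖q‖) := mul_le_mul_of_nonneg_left h7 hσ
  have h11 : 4 * ((n : ℝ) + 2) * (σ * ‖q‖) ≤ 4 * ((n : ℝ) + 2) * (4 * ‖dw (pbl T α) z p‖) :=
    mul_le_mul_of_nonneg_left (h9.trans h8) (by positivity)
  rw [div_mul_eq_mul_div, div_le_iff₀ (by positivity)]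
  calc σ * ‖p‖ ≤ σ * (4 * ((n : ℝ) + 2) * ‖q‖) := h10
    _ = 4 * ((n : ℝ) + 2) * (σ * ‖q‖) := by ring
    _ ≤ 4 * ((n : ℝ) + 2) * (4 * ‖dw (pbl T α) z p‖) := h11
    _ = ‖dw (pbl T α) z p‖ * (16 * ((n : ℝ) + 2)) := by ring

/-- the difference of the pull-backs -/
theorem sub_pbl {α : FW n} (hα : Con α) {T : W n ≃L[ℝ] W n} (hT : TT T) {z z' : W n} (hz : z ≠ 0)
    (hz' : z' ≠ 0) : ‖dw (pbl T α) z - dw (pbl T α) z'‖ ≤ ‖dw α (T z) - dw α (T z')‖ := by
  refine ContinuousLinearMap.opNorm_le_bound₂ _ (norm_nonneg _) fun v w => ?_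
  have e : (dw (pbl T α) z - dw (pbl T α) z') v w = (dw α (T z) - dw α (T z')) (T v) (T w) := by
    have e1 : (dw (pbl T α) z - dw (pbl T α) z') v w =
      dw (pbl T α) z v w - dw (pbl T α) z' v w := rfl
    rw [e1, dw_pbl hα T hz, dw_pbl hα T hz']
    rfl
  rw [e]
  calc ‖(dw α (T z) - dw α (T z')) (T v) (T w)‖
      ≤ ‖dw α (T z) - dw α (T z')‖ * ‖T v‖ * ‖T w‖ := ContinuousLinearMap.le_opNorm₂ _ _ _
    _ ≤ ‖dw α (T z) - dw α (T z')‖ * ‖v‖ * ‖w‖ := by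
        have := hT.le v
        have := hT.le w
        gcongr

theorem pow_le {a : ℝ} (ha : 0 ≤ a) (N : ℕ) (h : N * a ≤ 1) : (1 + a) ^ N ≤ 1 + 2 * (N * a) := by
  have h1 : (1 + a) ^ N ≤ Real.exp (N * a) := by
    have h2 : 1 + a ≤ Real.exp a := by
      have := Real.add_one_le_exp a
      linarith
    calc (1 + a) ^ N ≤ Real.exp a ^ N := pow_le_pow_left₀ (by linarith) h2 N
      _ = Real.exp (N * a) := by rw [← Real.exp_nat_mul]
  have h0 : 0 ≤ (N : ℝ) * a := by positivity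
  have h3 := Real.abs_exp_sub_one_sub_id_le (x := N * a) (by rw [abs_of_nonneg h0]; exact h)
  have h4 := (abs_le.1 h3).2
  nlinarith

end ChartTAux

open ChartTAux in
open Pool.Agent.Lib.P28g (light_of_chart one_le_norm_sl norm_sl_sub_le) in
theorem chart_T (n : ℕ) (hn : 1 ≤ n) {κ : ℝ} (hκ : 0 < κ) (hκ1 : κ ≤ 1 / 8) : ∃ C : ℝ, 1 ≤ C ∧
    ∀ (δ c : ℝ) (β : FW n) (ν : Measure (W n)) (T : W n ≃L[ℝ] W n), IsFiniteMeasure ν → TT T →
      0 ≤ δ → C * δ ≤ 1 → CtrlF κ δ c β ν →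
      P28s.Ctrl (C * δ) c (ball 0 1) (chF (pbl T β)) (P28g.chm (ν.map T.symm)) := by
  obtain ⟨C, hC1, hC⟩ := light_of_chart n
  obtain ⟨CS, hCS1, hCS⟩ := chF_sub n
  obtain ⟨CI, hCI1, hCI⟩ := chF_inv n
  have hC0 : 0 < C := by linarith
  obtain ⟨N, hN⟩ := exists_nat_ge (16 * C / κ)
  have hN0 : (0 : ℝ) < N := lt_of_lt_of_le (by positivity) hN
  have hNk : 16 * C ≤ κ * N := by
    rw [div_le_iff₀ hκ] at hN
    linarith
  have hN1 : (1 : ℝ) ≤ N := by
    have : 0 < N := by exact_mod_cast hN0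
    exact_mod_cast this
  have hnn : (0 : ℝ) ≤ n := Nat.cast_nonneg n
  obtain ⟨C₁, hC₁⟩ : ∃ C₁ : ℝ, C₁ = CS * CI * (16 * ((n : ℝ) + 2)) := ⟨_, rfl⟩
  have hC₁1 : 1 ≤ C₁ := by
    rw [hC₁]
    have h1 : (1 : ℝ) ≤ CS * CI := one_le_mul_of_one_le_of_one_le hCS1 hCI1
    have h2 : (1 : ℝ) ≤ 16 * ((n : ℝ) + 2) := by linarith
    exact one_le_mul_of_one_le_of_one_le h1 h2
  refine ⟨2 * (N * C₁), ?_, fun δ c β ν T hν hT hδ hCδ h => ?_⟩
  · nlinarith
  have := hν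
  have hms : Measurable (T.symm : W n → W n) := T.symm.continuous.measurable
  have : IsFiniteMeasure (ν.map T.symm) := inferInstance
  have : IsFiniteMeasure (P28g.chm (ν.map T.symm)) := P28g.chm_finite _
  have hs := symp_pbl h.symp T hT.hom
  have hunit : ∀ x, IsUnit (P28s.dd (chF (pbl T β)) x) := fun x =>
    (isUnit_chF hs.1 x).2 (hs.2 _ (sl_ne x))
  refine ⟨fun x _ => ⟨(chF_smooth hs.1).contDiffAt, hunit x⟩, ?_⟩
  intro z r hr hzr hc x hx x' hx'
  have hsub : closedBall z (r / 8) ⊆ closedBall z r := closedBall_subset_closedBall (by linarith)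
  -- radius
  set r' : ℝ := min (r / 2) 1 with hr'
  have hr0 : 0 < r' := lt_min (by linarith) one_pos
  have hr1 : r' ≤ 1 := min_le_right _ _
  have hr2 : r' ≤ r / 2 := min_le_left _ _
  have hlt1 : ∀ y ∈ closedBall z (r / 8), ‖y‖ < 1 := fun y hy => by
    simpa using hzr (hsub hy)
  -- one step
  have hstep : ∀ y ∈ closedBall z (r / 8), ∀ y' : V (n * 2), 2 * ‖y - y'‖ ≤ κ * (r' / C) / 4 →
      ‖P28s.dd (chF (pbl T β)) y' - P28s.dd (chF (pbl T β)) y‖ *
        ‖Ring.inverse (P28s.dd (chF (pbl T β)) y)‖ ≤ C₁ * δ := by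
    intro y hy y' hyy
    have h1 : ν.real (PB (pt (T (sl n y))) (r' / C)) ≤ c := by
      refine hC T hT ν hν c y (hlt1 y hy).le r' hr0 hr1 (le_trans ?_ hc)
      refine measureReal_mono ?_ (measure_ne_top _ _)
      intro w hw
      rw [mem_closedBall] at hw hy ⊢
      have := dist_triangle w y z
      linarith
    have hne : T (sl n y) ≠ 0 := LinFAux.ne0 T (sl_ne y)
    have hs1 : r' / C ≤ 1 := by
      rw [div_le_one hC0]
      linarith
    obtain ⟨σ, hσ, hl, hd⟩ := h.flat (T (sl n y)) hne (r' / C) (div_pos hr0 hC0) hs1 h1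
    have hk0 : 0 ≤ κ * (r' / C) := by positivity
    have hu : 1 / 4 ≤ ‖T (sl n y)‖ := by
      have h3 := hT.symm_le (T (sl n y))
      rw [T.symm_apply_apply] at h3
      have h4 := one_le_norm_sl y
      linarith
    have hmem : T (sl n y') ∈ closedBall (T (sl n y)) (κ * (r' / C) * ‖T (sl n y)‖) := by
      rw [mem_closedBall, dist_comm, dist_eq_norm, ← map_sub]
      have h3 := norm_sl_sub_le y y'
      have h4 := hT.le (sl n y - sl n y')
      nlinarith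
    have hself : T (sl n y) ∈ closedBall (T (sl n y)) (κ * (r' / C) * ‖T (sl n y)‖) :=
      mem_closedBall_self (by positivity)
    have h5 := hd _ hself _ hmem
    have h6 := hl _ hself
    have h7 : ‖P28s.dd (chF (pbl T β)) y' - P28s.dd (chF (pbl T β)) y‖ ≤ CS * (δ * σ) := by
      have h8 := hCS (pbl T β) (pbl T β) hs.1 hs.1 y' y 1 1
      rw [one_smul, one_smul, one_smul, one_smul] at h8
      refine h8.trans (mul_le_mul_of_nonneg_left ?_ (by linarith))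
      exact (sub_pbl h.symp.1 hT (sl_ne y') (sl_ne y)).trans h5
    have h9 := (hCI (pbl T β) hs.1 y (hlt1 y hy).le (σ / (16 * ((n : ℝ) + 2))) (by positivity)
      (low_pbl h.symp.1 hT (sl_ne y) hσ.le h6)).2
    calc ‖P28s.dd (chF (pbl T β)) y' - P28s.dd (chF (pbl T β)) y‖ *
          ‖Ring.inverse (P28s.dd (chF (pbl T β)) y)‖
        ≤ CS * (δ * σ) * ‖Ring.inverse (P28s.dd (chF (pbl T β)) y)‖ :=
          mul_le_mul_of_nonneg_right h7 (norm_nonneg _)
      _ = CS * δ * (16 * ((n : ℝ) + 2)) * (σ / (16 * ((n : ℝ) + 2)) *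
            ‖Ring.inverse (P28s.dd (chF (pbl T β)) y)‖) := by
          field_simp
      _ ≤ CS * δ * (16 * ((n : ℝ) + 2)) * CI :=
          mul_le_mul_of_nonneg_left h9 (by positivity)
      _ = C₁ * δ := by rw [hC₁]; ring
  -- length
  have hlen : ‖x' - x‖ ≤ 2 * r' := by
    have h1 : ‖x' - x‖ ≤ r / 4 := by
      have := dist_triangle_right x' x z
      rw [mem_closedBall] at hx hx'
      rw [← dist_eq_norm]
      linarith
    have h2 : ‖x' - x‖ ≤ 2 := by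
      have := norm_sub_le x' x
      have := hlt1 x hx
      have := hlt1 x' hx'
      linarith
    rcases le_total (r / 2) 1 with h3 | h3
    · rw [hr', min_eq_left h3]; linarith
    · rw [hr', min_eq_right h3]; linarith
  set p : ℕ → V (n * 2) := fun k => x + ((k : ℝ) / N) • (x' - x) with hp
  have hpmem : ∀ k : ℕ, k ≤ N → p k ∈ closedBall z (r / 8) := by
    intro k hk
    have hconv : Convex ℝ (closedBall z (r / 8)) := convex_closedBall _ _
    refine hconv.add_smul_sub_mem hx hx' ⟨by positivity, ?_⟩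
    rw [div_le_one hN0]
    exact_mod_cast hk
  have hpd : ∀ k : ℕ, ‖p k - p (k + 1)‖ = ‖x' - x‖ / N := by
    intro k
    have h1 : p k - p (k + 1) = (-(1 / (N : ℝ))) • (x' - x) := by
      simp only [hp]
      push_cast
      rw [add_sub_add_left_eq_sub, ← sub_smul]
      congr 1
      field_simp
      ring
    rw [h1, norm_smul, norm_neg, Real.norm_eq_abs, abs_of_pos (by positivity)]
    ring
  have hsmall : 2 * (‖x' - x‖ / N) ≤ κ * (r' / C) / 4 := by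
    rw [le_div_iff₀ (by norm_num : (0 : ℝ) < 4), ← mul_div_assoc, ← mul_div_assoc,
      div_mul_eq_mul_div, div_le_div_iff₀ hN0 hC0]
    nlinarith
  have key : ∀ k : ℕ, k ≤ N → P28s.AnnSAux.M (P28s.dd (chF (pbl T β))) x (p k) ≤
      (1 + C₁ * δ) ^ k := by
    intro k
    induction k with
    | zero =>
      intro _
      have h0 : p 0 = x := by simp [hp]
      rw [h0, P28s.AnnSAux.M_self, pow_zero]
    | succ k ih =>
      intro hk
      have h1 := ih (by omega)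
      have h2 := hstep (p k) (hpmem k (by omega)) (p (k + 1)) (by rw [hpd k]; exact hsmall)
      rw [pow_succ]
      refine P28s.AnnSAux.M_chain (hunit _) (hunit (p k)) h1 ?_
      unfold P28s.AnnSAux.M
      linarith
  have h0 := key N le_rfl
  have h1 : p N = x' := by
    simp [hp, hN0.ne']
  rw [h1] at h0
  unfold P28s.AnnSAux.M at h0
  have h2 := pow_le (show 0 ≤ C₁ * δ by positivity) N (by nlinarith)
  have h3 : 2 * (N * (C₁ * δ)) = 2 * (N * C₁) * δ := by ring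
  linarith

end Pool.Agent.Lib.P28t
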