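import Pool.Agent.Lib.P28t.Form

set_option autoImplicit false
set_option maxSynthPendingDepth 3

/-!
# The complement of finitely many complex lines is connected
-/

open MeasureTheory Set Metric
open scoped ContDiff Topology ENNReal

namespace Pool.Agent.Lib.P28t

open Pool.Agent.P28b04d Pool.Agent.Lib.P28e Pool.Agent.Lib.P28c
open Pool.Agent.Lib.P28f (V EV)
open Pool.Agent.Lib.P28g (TT)

variable {n : ℕ}

namespace ConnWAux

/-- the real span of a vector and of a complex line -/
noncomputable def P (x a : W n) : Submodule ℝ (W n) := Submodule.span ℝ {x, a, Complex.I • a}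

theorem mem_P_self (x a : W n) : x ∈ P x a := Submodule.subset_span (by simp)

theorem mem_P_smul (x a : W n) (c : ℂ) : c • a ∈ P x a := by
  have h1 : a ∈ P x a := Submodule.subset_span (by simp)
  have h2 : Complex.I • a ∈ P x a := Submodule.subset_span (by simp)
  have h3 : c • a = (c.re : ℝ) • a + (c.im : ℝ) • (Complex.I • a) := by
    ext k
    simp only [Pi.smul_apply, Pi.add_apply, smul_eq_mul, Complex.real_smul]
    nth_rewrite 1 [← Complex.re_add_im c]
    ring
  rw [h3]
  exact Submodule.add_mem _ (Submodule.smul_mem _ _ h1) (Submodule.smul_mem _ _ h2)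

theorem P_ne_top (hn : 1 ≤ n) (x a : W n) : P x a ≠ ⊤ := by
  classical
  intro h
  have h1 : Module.finrank ℝ (P x a) ≤ 3 := by
    have h2 := finrank_span_finset_le_card (R := ℝ) ({x, a, Complex.I • a} : Finset (W n))
    have h3 : (({x, a, Complex.I • a} : Finset (W n)) : Set (W n)) = {x, a, Complex.I • a} := by
      simp
    rw [h3] at h2
    exact h2.trans Finset.card_le_three
  rw [h, finrank_top] at h1
  have h4 : Module.finrank ℝ (W n) = (n + 1) * 2 := by
    rw [Module.finrank_pi_fintype]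
    simp
  rw [h4] at h1
  omega

theorem pt_eq_iff {z a : W n} (hz : z ≠ 0) (ha : a ≠ 0) :
    pt z = pt a ↔ z ∈ Submodule.span ℂ {a} := by
  rw [Submodule.mem_span_singleton]
  constructor
  · intro h
    obtain ⟨c, -, hc⟩ := eq_smul_of_pt_eq hz h.symm
    exact ⟨c, hc.symm⟩
  · rintro ⟨c, rfl⟩
    have hc : c ≠ 0 := by
      rintro rfl
      exact hz (zero_smul _ _)
    exact pt_smul hc a

theorem set_eq (A : Finset (W n)) (hA : ∀ a ∈ A, a ≠ 0) :
    {z : W n | z ≠ 0 ∧ ∀ a ∈ A, pt z ≠ pt a} =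
      {z : W n | z ≠ 0 ∧ ∀ a ∈ A, z ∉ Submodule.span ℂ {a}} := by
  ext z
  simp only [mem_setOf_eq]
  refine and_congr_right fun hz => forall₂_congr fun a ha => ?_
  rw [Ne, pt_eq_iff hz (hA a ha)]

theorem seg_subset (A : Finset (W n)) {u w : W n}
    (hu : u ∈ {z : W n | z ≠ 0 ∧ ∀ a ∈ A, z ∉ Submodule.span ℂ {a}})
    (hw : ∀ a ∈ insert 0 (A : Set (W n)), w ∉ P u a) :
    segment ℝ u w ⊆ {z : W n | z ≠ 0 ∧ ∀ a ∈ A, z ∉ Submodule.span ℂ {a}} := by
  rintro z ⟨s, t, hs, ht, hst, rfl⟩
  by_cases ht0 : t = 0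
  · have hs1 : s = 1 := by rw [ht0, add_zero] at hst; exact hst
    rw [ht0, hs1, one_smul, zero_smul, add_zero]
    exact hu
  have key : ∀ a ∈ insert 0 (A : Set (W n)), s • u + t • w ∉ Submodule.span ℂ {a} := by
    intro a ha h
    rw [Submodule.mem_span_singleton] at h
    obtain ⟨c, hc⟩ := h
    apply hw a ha
    have h1 : t • w ∈ P u a := by
      have : t • w = c • a - s • u := by rw [hc]; abel
      rw [this]
      exact Submodule.sub_mem _ (mem_P_smul u a c) (Submodule.smul_mem _ _ (mem_P_self u a))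
    have h2 := Submodule.smul_mem _ t⁻¹ h1
    rwa [smul_smul, inv_mul_cancel₀ ht0, one_smul] at h2
  refine ⟨fun h => ?_, fun a ha => key a (mem_insert_of_mem _ ha)⟩
  apply key 0 (mem_insert _ _)
  rw [h]
  exact Submodule.zero_mem _

end ConnWAux

open ConnWAux in
theorem conn_W (n : ℕ) (hn : 1 ≤ n) (A : Finset (W n)) (hA : ∀ a ∈ A, a ≠ 0) :
    IsOpen {z : W n | z ≠ 0 ∧ ∀ a ∈ A, pt z ≠ pt a} ∧
      IsPreconnected {z : W n | z ≠ 0 ∧ ∀ a ∈ A, pt z ≠ pt a} := by
  classical
  rw [set_eq A hA]
  constructor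
  · have h1 : {z : W n | z ≠ 0 ∧ ∀ a ∈ A, z ∉ Submodule.span ℂ {a}} =
        {z : W n | z ≠ 0} ∩ ⋂ a ∈ A, ((Submodule.span ℂ {a} : Submodule ℂ (W n)) : Set (W n))ᶜ := by
      ext z
      simp
    rw [h1]
    refine isOpen_ne.inter (isOpen_biInter_finset fun a _ => ?_)
    exact (Submodule.closed_of_finiteDimensional _).isOpen_compl
  · refine isPreconnected_of_forall_pair fun x hx y hy => ?_
    set s : Finset (Submodule ℝ (W n)) := (insert 0 A).image (P x) ∪ (insert 0 A).image (P y)
      with hs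
    have htop : ⊤ ∉ s := by
      rw [hs, Finset.mem_union, Finset.mem_image, Finset.mem_image]
      rintro (⟨a, -, h⟩ | ⟨a, -, h⟩)
      · exact P_ne_top hn x a h
      · exact P_ne_top hn y a h
    have hcov := Subspace.biUnion_ne_univ_of_top_notMem htop
    rw [Set.ne_univ_iff_exists_notMem] at hcov
    obtain ⟨w, hw⟩ := hcov
    simp only [mem_iUnion, not_exists, SetLike.mem_coe] at hw
    have hwx : ∀ a ∈ insert 0 (A : Set (W n)), w ∉ P x a := by
      intro a ha
      apply hw
      rw [hs, Finset.mem_union, Finset.mem_image]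
      left
      refine ⟨a, ?_, rfl⟩
      rw [← Finset.mem_coe, Finset.coe_insert]
      exact ha
    have hwy : ∀ a ∈ insert 0 (A : Set (W n)), w ∉ P y a := by
      intro a ha
      apply hw
      rw [hs, Finset.mem_union, Finset.mem_image, Finset.mem_image]
      right
      refine ⟨a, ?_, rfl⟩
      rw [← Finset.mem_coe, Finset.coe_insert]
      exact ha
    refine ⟨segment ℝ x w ∪ segment ℝ y w, union_subset (seg_subset A hx hwx)
      (seg_subset A hy hwy), Or.inl (left_mem_segment ℝ x w), Or.inr (left_mem_segment ℝ y w), ?_⟩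
    exact IsPreconnected.union w (right_mem_segment ℝ x w) (right_mem_segment ℝ y w)
      (convex_segment x w).isPreconnected (convex_segment y w).isPreconnected

end Pool.Agent.Lib.P28t
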