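import Pool.Agent.Lib.P28t.Form

set_option autoImplicit false
set_option maxSynthPendingDepth 3

/-!
# Smooth paths of symplectic forms

PROOF. `τ = Real.smoothTransition` (smooth, `0` on `(-∞, 0]`, `1` on `[1, ∞)`, values in `[0,1]`). `refl`: constant path. `symm`: `K (1 - t, z)`. `trans`: `K (t, z) = K₁ (τ (3 t), z)` for `t ≤ 1/2` and `K₂ (τ (3 t - 2), z)` for `t ≥ 1/2`: for `1/3 < t < 2/3` both are equal to `β z` (`z ≠ 0`), so `K` is smooth on `univ ×ˢ {0}ᶜ`
(locally equal to one of the two). At `z = 0` the values do not matter, `Symp` is invariant under changes at `0` (`Symp.congr`). `join_seg`: `K (t, z) = (1 - τ t) α z + τ t β z`. `join_family`: `K (τ t, z)`.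
-/

open MeasureTheory Set Metric
open scoped ContDiff Topology ENNReal

namespace Pool.Agent.Lib.P28t

open Pool.Agent.P28b04d Pool.Agent.Lib.P28e Pool.Agent.Lib.P28c
open Pool.Agent.Lib.P28f (V EV)
open Pool.Agent.Lib.P28g (TT)

variable {n : ℕ}

namespace JoinPAux

/-- The smooth step. -/
theorem step_smooth : ContDiff ℝ ∞ Real.smoothTransition := Real.smoothTransition.contDiff

theorem smooth_snd {α : FW n} (h : ∀ z : W n, z ≠ 0 → ContDiffAt ℝ ∞ α z) :
    ContDiffOn ℝ ∞ (fun p : ℝ × W n => α p.2) (univ ×ˢ {0}ᶜ) := by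
  intro p hp
  have h1 : ContDiffAt ℝ ∞ α p.2 := h p.2 hp.2
  exact (h1.comp p contDiffAt_snd).contDiffWithinAt

theorem isOpen_dom : IsOpen ((univ : Set ℝ) ×ˢ ({0}ᶜ : Set (W n))) :=
  isOpen_univ.prod isOpen_compl_singleton

theorem reparam {K : ℝ × W n → W n →L[ℝ] ℝ} {s : Set ℝ}
    (hK : ContDiffOn ℝ ∞ K (s ×ˢ {0}ᶜ)) {f : ℝ → ℝ} (hf : ContDiff ℝ ∞ f)
    (hs : ∀ t, f t ∈ s) :
    ContDiffOn ℝ ∞ (fun p : ℝ × W n => K (f p.1, p.2)) (univ ×ˢ {0}ᶜ) := by
  have h1 : ContDiffOn ℝ ∞ (fun p : ℝ × W n => ((f p.1, p.2) : ℝ × W n)) (univ ×ˢ {0}ᶜ) :=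
    ((hf.comp contDiff_fst).prodMk contDiff_snd).contDiffOn
  exact hK.comp h1 fun p hp => ⟨hs p.1, hp.2⟩

end JoinPAux

open JoinPAux

theorem JoinF.refl {α : FW n} (h : Symp α) : JoinF α α :=
  ⟨fun p => α p.2, smooth_snd h.1.smooth, fun _ => h, fun _ _ => rfl, fun _ _ => rfl⟩

theorem JoinF.symm {α β : FW n} (h : JoinF α β) : JoinF β α := by
  obtain ⟨K, hK, hS, h0, h1⟩ := h
  refine ⟨fun p => K (1 - p.1, p.2), ?_, fun t => hS (1 - t), ?_, ?_⟩
  · exact reparam (f := fun t => 1 - t) hK (contDiff_const.sub contDiff_id) fun t => mem_univ _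
  · intro z hz
    show K (1 - 0, z) = β z
    rw [sub_zero]
    exact h1 z hz
  · intro z hz
    show K (1 - 1, z) = α z
    rw [sub_self]
    exact h0 z hz

theorem JoinF.trans {α β γ : FW n} (h : JoinF α β) (h' : JoinF β γ) : JoinF α γ := by
  obtain ⟨K, hK, hS, h0, h1⟩ := h
  obtain ⟨L, hL, hS', h0', h1'⟩ := h'
  have hf : ContDiff ℝ ∞ fun t : ℝ => Real.smoothTransition (3 * t) :=
    step_smooth.comp (contDiff_const.mul contDiff_id)
  have hg : ContDiff ℝ ∞ fun t : ℝ => Real.smoothTransition (3 * t - 2) :=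
    step_smooth.comp ((contDiff_const.mul contDiff_id).sub contDiff_const)
  have hA := reparam hK hf fun t => mem_univ _
  have hB := reparam hL hg fun t => mem_univ _
  have hmid : ∀ t : ℝ, 1 / 3 ≤ t → ∀ z : W n, z ≠ 0 →
      K (Real.smoothTransition (3 * t), z) = β z := by
    intro t ht z hz
    rw [Real.smoothTransition.one_of_one_le (by linarith)]
    exact h1 z hz
  have hmid' : ∀ t : ℝ, t ≤ 2 / 3 → ∀ z : W n, z ≠ 0 →
      L (Real.smoothTransition (3 * t - 2), z) = β z := by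
    intro t ht z hz
    rw [Real.smoothTransition.zero_of_nonpos (by linarith)]
    exact h0' z hz
  refine ⟨fun p => if p.1 ≤ 1 / 2 then K (Real.smoothTransition (3 * p.1), p.2)
    else L (Real.smoothTransition (3 * p.1 - 2), p.2), ?_, ?_, ?_, ?_⟩
  · intro p hp
    have hpd : ((univ : Set ℝ) ×ˢ ({0}ᶜ : Set (W n))) ∈ 𝓝 p := isOpen_dom.mem_nhds hp
    by_cases ht : p.1 < 2 / 3
    · have h2 : ContDiffAt ℝ ∞ (fun p : ℝ × W n => K (Real.smoothTransition (3 * p.1), p.2)) p :=
        hA.contDiffAt hpd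
      refine (h2.congr_of_eventuallyEq ?_).contDiffWithinAt
      have h3 : ∀ᶠ x : ℝ × W n in 𝓝 p, x.1 < 2 / 3 :=
        (continuous_fst.isOpen_preimage _ isOpen_Iio).mem_nhds ht
      filter_upwards [hpd, h3] with x hx hx1
      by_cases hx2 : x.1 ≤ 1 / 2
      · rw [if_pos hx2]
      · rw [if_neg hx2, hmid' x.1 hx1.le x.2 hx.2, hmid x.1 (by push Not at hx2; linarith) x.2 hx.2]
    · have ht' : 1 / 3 < p.1 := by push Not at ht; linarith
      have h2 : ContDiffAt ℝ ∞
          (fun p : ℝ × W n => L (Real.smoothTransition (3 * p.1 - 2), p.2)) p :=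
        hB.contDiffAt hpd
      refine (h2.congr_of_eventuallyEq ?_).contDiffWithinAt
      have h3 : ∀ᶠ x : ℝ × W n in 𝓝 p, 1 / 3 < x.1 :=
        (continuous_fst.isOpen_preimage _ isOpen_Ioi).mem_nhds ht'
      filter_upwards [hpd, h3] with x hx hx1
      by_cases hx2 : x.1 ≤ 1 / 2
      · rw [if_pos hx2, hmid' x.1 (by linarith) x.2 hx.2, hmid x.1 hx1.le x.2 hx.2]
      · rw [if_neg hx2]
  · intro t
    by_cases ht : t ≤ 1 / 2
    · simp only [if_pos ht]
      exact hS _
    · simp only [if_neg ht]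
      exact hS' _
  · intro z hz
    show (if (0 : ℝ) ≤ 1 / 2 then K (Real.smoothTransition (3 * 0), z)
      else L (Real.smoothTransition (3 * 0 - 2), z)) = α z
    rw [if_pos (by norm_num), mul_zero, Real.smoothTransition.zero_of_nonpos le_rfl]
    exact h0 z hz
  · intro z hz
    show (if (1 : ℝ) ≤ 1 / 2 then K (Real.smoothTransition (3 * 1), z)
      else L (Real.smoothTransition (3 * 1 - 2), z)) = γ z
    rw [if_neg (by norm_num), Real.smoothTransition.one_of_one_le (by norm_num)]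
    exact h1' z hz

theorem join_seg {α β : FW n} (h : ∀ t ∈ Icc (0 : ℝ) 1, Symp fun z => (1 - t) • α z + t • β z) :
    JoinF α β := by
  have hα : ∀ z : W n, z ≠ 0 → ContDiffAt ℝ ∞ α z := by
    have h1 := (h 0 ⟨le_rfl, zero_le_one⟩).1.smooth
    simpa using h1
  have hβ : ∀ z : W n, z ≠ 0 → ContDiffAt ℝ ∞ β z := by
    have h1 := (h 1 ⟨zero_le_one, le_rfl⟩).1.smooth
    simpa using h1
  refine ⟨fun p => (1 - Real.smoothTransition p.1) • α p.2 + Real.smoothTransition p.1 • β p.2,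
    ?_, fun t => h _ ⟨Real.smoothTransition.nonneg t, Real.smoothTransition.le_one t⟩, ?_, ?_⟩
  · have h2 : ContDiffOn ℝ ∞ (fun p : ℝ × W n => Real.smoothTransition p.1) (univ ×ˢ {0}ᶜ) :=
      (step_smooth.comp contDiff_fst).contDiffOn
    exact ((contDiffOn_const.sub h2).smul (smooth_snd hα)).add (h2.smul (smooth_snd hβ))
  · intro z _
    show (1 - Real.smoothTransition 0) • α z + Real.smoothTransition 0 • β z = α z
    rw [Real.smoothTransition.zero_of_nonpos le_rfl, sub_zero, one_smul, zero_smul, add_zero]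
  · intro z _
    show (1 - Real.smoothTransition 1) • α z + Real.smoothTransition 1 • β z = β z
    rw [Real.smoothTransition.one_of_one_le le_rfl, sub_self, zero_smul, one_smul, zero_add]

/-- A family which is smooth on an open neighbourhood of `[0,1]`. -/
theorem join_family {α β : FW n} {K : ℝ × W n → W n →L[ℝ] ℝ}
    (hK : ContDiffOn ℝ ∞ K (Ioo (-2) 2 ×ˢ {0}ᶜ))
    (h : ∀ t ∈ Icc (0 : ℝ) 1, Symp fun z => K (t, z)) (h0 : ∀ z : W n, z ≠ 0 → K (0, z) = α z)
    (h1 : ∀ z : W n, z ≠ 0 → K (1, z) = β z) : JoinF α β := by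
  have hm : ∀ t : ℝ, Real.smoothTransition t ∈ Icc (0 : ℝ) 1 := fun t =>
    ⟨Real.smoothTransition.nonneg t, Real.smoothTransition.le_one t⟩
  refine ⟨fun p => K (Real.smoothTransition p.1, p.2), ?_, fun t => h _ (hm t), ?_, ?_⟩
  · refine reparam hK step_smooth fun t => ⟨?_, ?_⟩
    · have := (hm t).1
      linarith
    · have := (hm t).2
      linarith
  · intro z hz
    show K (Real.smoothTransition 0, z) = α z
    rw [Real.smoothTransition.zero_of_nonpos le_rfl]
    exact h0 z hz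
  · intro z hz
    show K (Real.smoothTransition 1, z) = β z
    rw [Real.smoothTransition.one_of_one_le le_rfl]
    exact h1 z hz

end Pool.Agent.Lib.P28t
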