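import Pool.Agent.Lib.P28t.ExF
import Pool.Agent.Lib.P28t.JoinP
import Pool.Agent.Lib.P28s.AmbIns

set_option autoImplicit false
set_option maxSynthPendingDepth 3

/-!
# The ambient space of connection forms with charts

PROOF. `res_ext`: `chF_exF` with `s/2`: `co (y ↦ (s/2) b ((s/2)⁻¹ y)) 0 (s/2) v = b v`. `res_ext_ne`: for `‖v‖ < 5/4` the point `z = T_j (sl ((s/2) v))` has `‖(s/2) v‖ < s`; if `(T_i⁻¹ z) 0 ≠ 0` then `pt z = pt (T_i (sl (cc (T_i⁻¹ z))))`, so by `disj` `‖cc (T_i⁻¹ z)‖ ≥ s` and `b` vanishes at `(s/2)⁻¹ cc` (norm `≥ 2`). `nd_ext`: `Con` is preserved in both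
directions (`Con.add_bas`, `Bas.neg`, `bas_exF`); at a point `z` outside the balls `exF` vanishes near `z` (`exF_out` with `s/2`), so `dw` is the same at `z`. `cp_nd`: `dd (co (chF (pbl (T a) α)) 0 (s/2)) v = dd (chF (pbl (T a) α)) ((s/2) v)` (`P28s.dd_co`), a unit iff `NdAt α (T a (sl ((s/2) v)))` (`isUnit_chF`, `ndAt_pbl`); a point
`z ≠ 0` either satisfies the condition of `Nd`, or `pt z = pt (T a (sl x))`, `‖x‖ < s/2`, so `z = c • T a (sl x)` (`eq_smul_of_pt_eq`) and `ndAt_smul` applies with `v = (s/2)⁻¹ x`, `‖v‖ < 1`. `cp_eqv`: each segment is a `JoinF` by `join_seg` and `cp_nd` (`(1 - t) • α + t • β` is the function `fun z => ...`); `JoinF.trans`; induction on `ReflTransGen`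
(base case `JoinF.refl`).
-/

open MeasureTheory Set Metric
open scoped ContDiff Topology ENNReal

namespace Pool.Agent.Lib.P28t

open Pool.Agent.P28b04d Pool.Agent.Lib.P28e Pool.Agent.Lib.P28c
open Pool.Agent.Lib.P28f (V EV)
open Pool.Agent.Lib.P28g (TT)

variable {n : ℕ}

namespace CpAmbAux

theorem co_add (f g : V (n * 2) → V (n * 2)) (a : V (n * 2)) (s : ℝ) :
    P28s.co (f + g) a s = P28s.co f a s + P28s.co g a s := by
  funext v
  unfold P28s.co
  simp only [Pi.add_apply, smul_add]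

theorem co_smul (r : ℝ) (f : V (n * 2) → V (n * 2)) (a : V (n * 2)) (s : ℝ) :
    P28s.co (r • f) a s = r • P28s.co f a s := by
  funext v
  unfold P28s.co
  simp only [Pi.smul_apply]
  rw [smul_comm]

theorem res_ext {T : W n → W n ≃L[ℝ] W n} {A : Finset (W n)} {s : ℝ} (h : Charts A T s) (a : W n)
    (b : V (n * 2) → V (n * 2)) (v : V (n * 2)) :
    P28s.co (chF (pbl (T a) (exF (T a) (s / 2) b))) 0 (s / 2) v = b v := by
  have hs : 0 < s / 2 := half_pos h.pos
  unfold P28s.co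
  rw [chF_exF (h.tt a).hom hs, zero_add, smul_smul, smul_smul, inv_mul_cancel₀ hs.ne', one_smul, one_smul]

theorem ex_zero {T : W n → W n ≃L[ℝ] W n} {A : Finset (W n)} {s : ℝ} (h : Charts A T s) {a c : W n}
    (ha : a ∈ A) (hc : c ∈ A) (hac : a ≠ c) {b : V (n * 2) → V (n * 2)} (hb : P28s.Md b)
    {x : V (n * 2)} (hx : ‖x‖ < s) : exF (T a) (s / 2) b (T c (sl n x)) = 0 := by
  have hs := h.pos
  have hz : T c (sl n x) ≠ 0 := LinFAux.ne0 (T c) (sl_ne x)
  have h1 : exF (T a) (s / 2) b =ᶠ[𝓝 (T c (sl n x))] 0 := by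
    refine exF_out (h.tt a).hom (half_pos hs) hb hz fun y hy => ?_
    exact fun he => h.disj a ha c hc hac y x (by linarith) hx he.symm
  exact h1.eq_of_nhds

theorem res_ext_ne {T : W n → W n ≃L[ℝ] W n} {A : Finset (W n)} {s : ℝ} (h : Charts A T s) {a c : W n}
    (ha : a ∈ A) (hc : c ∈ A) (hac : a ≠ c) {b : V (n * 2) → V (n * 2)} (hb : P28s.Md b)
    {v : V (n * 2)} (hv : ‖v‖ < 5 / 4) :
    P28s.co (chF (pbl (T c) (exF (T a) (s / 2) b))) 0 (s / 2) v = 0 := by
  have hs := h.pos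
  have hx : ‖(0 : V (n * 2)) + (s / 2) • v‖ < s := by
    rw [zero_add, norm_smul, Real.norm_of_nonneg (by linarith)]
    nlinarith
  have h1 := ex_zero h ha hc hac hb hx
  have h2 : chF (pbl (T c) (exF (T a) (s / 2) b)) (0 + (s / 2) • v) = 0 := by
    funext i
    unfold chF pbl
    rw [h1]
    rfl
  unfold P28s.co
  rw [h2, smul_zero]

theorem ndAt_congr {α β : FW n} {z : W n} (h : α =ᶠ[𝓝 z] β) : NdAt α z ↔ NdAt β z := by
  have e : dw α z = dw β z := by
    unfold dw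
    rw [h.fderiv_eq]
  unfold NdAt
  rw [e]

theorem nd_ext {T : W n → W n ≃L[ℝ] W n} {A : Finset (W n)} {s : ℝ} (h : Charts A T s) {a : W n}
    (ha : a ∈ A) (α : FW n) {b : V (n * 2) → V (n * 2)} (hb : P28s.Md b) :
    (Con (α + exF (T a) (s / 2) b) ∧ ∀ z : W n, z ≠ 0 →
      (∀ a ∈ A, ∀ x : V (n * 2), ‖x‖ < s / 2 → pt z ≠ pt (T a (sl n x))) →
        NdAt (α + exF (T a) (s / 2) b) z) ↔
    (Con α ∧ ∀ z : W n, z ≠ 0 →
      (∀ a ∈ A, ∀ x : V (n * 2), ‖x‖ < s / 2 → pt z ≠ pt (T a (sl n x))) → NdAt α z) := by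
  have hs : 0 < s / 2 := half_pos h.pos
  have hθ := bas_exF (h.tt a).hom hs hb
  have h1 : Con (α + exF (T a) (s / 2) b) ↔ Con α := by
    constructor
    · intro h2
      have h3 := h2.add_bas hθ.neg
      rwa [add_neg_cancel_right] at h3
    · intro h2
      exact h2.add_bas hθ
  have h2 : ∀ z : W n, z ≠ 0 → (∀ a ∈ A, ∀ x : V (n * 2), ‖x‖ < s / 2 → pt z ≠ pt (T a (sl n x))) →
      (NdAt (α + exF (T a) (s / 2) b) z ↔ NdAt α z) := by
    intro z hz hc
    refine ndAt_congr ?_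
    have h3 := exF_out (h.tt a).hom hs hb hz (hc a ha)
    filter_upwards [h3] with y hy
    rw [Pi.add_apply, hy, Pi.zero_apply, add_zero]
  constructor
  · intro h3
    exact ⟨h1.1 h3.1, fun z hz hc => (h2 z hz hc).1 (h3.2 z hz hc)⟩
  · intro h3
    exact ⟨h1.2 h3.1, fun z hz hc => (h2 z hz hc).2 (h3.2 z hz hc)⟩

theorem inn_iff {T : W n ≃L[ℝ] W n} (hT : ∀ (c : ℂ) (x : W n), T (c • x) = c • T x) {s : ℝ} (hs : 0 < s)
    {α : FW n} (hα : Con α) (v : V (n * 2)) :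
    IsUnit (P28s.dd (P28s.co (chF (pbl T α)) 0 (s / 2)) v) ↔ NdAt α (T (sl n ((s / 2) • v))) := by
  have hs2 : s / 2 ≠ 0 := (half_pos hs).ne'
  have hp := con_pbl hα T hT
  rw [P28s.dd_co hs2 ((chF_smooth hp).contDiffAt.differentiableAt (by simp)), isUnit_chF hp,
    ndAt_pbl hα hT (sl_ne _), zero_add]

end CpAmbAux

/-- The ambient space of connection forms. -/
noncomputable def cpAmb {A : Finset (W n)} {T : W n → W n ≃L[ℝ] W n} {s : ℝ}
    (h : Charts A T s) : P28s.Amb (n * 2) {a : W n // a ∈ A} (FW n) where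
  Nd α := Con α ∧ ∀ z : W n, z ≠ 0 →
    (∀ a ∈ A, ∀ x : V (n * 2), ‖x‖ < s / 2 → pt z ≠ pt (T a (sl n x))) → NdAt α z
  res a :=
    { toFun := fun α => P28s.co (chF (pbl (T a.1) α)) 0 (s / 2)
      map_add' := by
        intro α β
        rw [pbl_add, chF_add, CpAmbAux.co_add]
      map_smul' := by
        intro r α
        rw [pbl_smul, chF_smul, CpAmbAux.co_smul, RingHom.id_apply] }
  ext a :=
    { toFun := fun b => exF (T a.1) (s / 2) b
      map_add' := by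
        intro b b'
        exact exF_add _ _ b b'
      map_smul' := by
        intro r b
        rw [exF_smul, RingHom.id_apply] }
  res_ext := by
    intro a b _ v _
    exact CpAmbAux.res_ext h a.1 b v
  res_ext_ne := by
    intro a c b hac hb v hv
    exact CpAmbAux.res_ext_ne h a.2 c.2 (fun he => hac (Subtype.ext he)) hb hv
  nd_ext := by
    intro α a b hb
    exact CpAmbAux.nd_ext h a.2 α hb

theorem cp_res {A : Finset (W n)} {T : W n → W n ≃L[ℝ] W n} {s : ℝ} (h : Charts A T s)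
    (a : {a : W n // a ∈ A}) (α : FW n) :
    (cpAmb h).res a α = P28s.co (chF (pbl (T a.1) α)) 0 (s / 2) := rfl

theorem cp_ext {A : Finset (W n)} {T : W n → W n ≃L[ℝ] W n} {s : ℝ} (h : Charts A T s)
    (a : {a : W n // a ∈ A}) (b : V (n * 2) → V (n * 2)) :
    (cpAmb h).ext a b = exF (T a.1) (s / 2) b := rfl

theorem cp_nd {A : Finset (W n)} {T : W n → W n ≃L[ℝ] W n} {s : ℝ} (h : Charts A T s)
    (α : FW n) : (cpAmb h).ND α ↔ Symp α := by
  have hs := h.pos
  constructor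
  · intro hN
    have hc : Con α := hN.out.1
    refine ⟨hc, fun z hz => ?_⟩
    by_cases hcase : ∀ a ∈ A, ∀ x : V (n * 2), ‖x‖ < s / 2 → pt z ≠ pt (T a (sl n x))
    · exact hN.out.2 z hz hcase
    · push Not at hcase
      obtain ⟨a, ha, x, hx, hpt⟩ := hcase
      obtain ⟨c, hc0, he⟩ := eq_smul_of_pt_eq (LinFAux.ne0 (T a) (sl_ne x)) hpt
      have hs2 : 0 < s / 2 := half_pos hs
      have hv : ‖(s / 2)⁻¹ • x‖ < 5 / 4 := by
        rw [norm_smul, norm_inv, Real.norm_of_nonneg hs2.le, inv_mul_lt_iff₀ hs2]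
        linarith
      have h1 := (hN.inn ⟨a, ha⟩ ((s / 2)⁻¹ • x) hv).2
      rw [cp_res, CpAmbAux.inn_iff (h.tt a).hom hs hc, smul_smul, mul_inv_cancel₀ hs2.ne', one_smul, he,
        ndAt_smul hc hc0 hz] at h1
      exact h1
  · intro hS
    refine ⟨⟨hS.1, fun z hz _ => hS.2 z hz⟩, fun a v hv => ?_⟩
    rw [cp_res]
    refine ⟨P28s.contDiffAt_co (chF_smooth (con_pbl hS.1 (T a.1) (h.tt a.1).hom)).contDiffAt, ?_⟩
    rw [CpAmbAux.inn_iff (h.tt a.1).hom hs hS.1]
    exact hS.2 _ (LinFAux.ne0 (T a.1) (sl_ne _))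

theorem cp_eqv {A : Finset (W n)} {T : W n → W n ≃L[ℝ] W n} {s : ℝ} (h : Charts A T s)
    {α β : FW n} (he : (cpAmb h).Eqv α β) (hα : Symp α) : JoinF α β := by
  unfold P28s.Amb.Eqv at he
  induction he with
  | refl => exact JoinF.refl hα
  | tail _ hbc ih =>
    refine ih.trans (join_seg fun t ht => ?_)
    exact (cp_nd h _).1 (hbc t ht.1 ht.2)

end Pool.Agent.Lib.P28t
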