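import Pool.Agent.Lib.P28s.Defs
import Pool.Agent.Lib.P28g.Defs
import Pool.Agent.Lib.P28b04d.Act

set_option autoImplicit false
set_option maxSynthPendingDepth 3

/-!
# Critical finiteness for symplectic forms on `CP^n`: definitions

`W n = ℂ^(n+1)` (maximum norm), `FW n` one-forms on `W n`, `BW n` real bilinear forms. `dw α z v w = (D_v α)(w) - (D_w α)(v)` is the exterior
derivative. `Con α`: connection one-forms of the Hopf bundle (`dw α` is the pull-back of a closed two-form on `CP^n` in the class of the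
Fubini-Study form, and all closed forms of this class arise). `Symp α`: `dw α` is non-degenerate modulo the lines `ℂ z`, i.e. the form on
`CP^n` is symplectic. `JoinF`: smooth paths in `Symp`. `Dens α h`: `h` bounds, at each point, the condition number of `dw α` and the ratio
of the derivative of `dw α` and the least singular value of `dw α`. `enH h`: the measure with density `h^(2n)`.
`MClose α z ρ e ct`: the mean of `‖dw α - ct‖` over `closedBall z ρ` is at most `e`. `CtrlF`: flat on `B(z, κ s |z|)` whenever the ball of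
radius `s` about the point `[z]` of `CP^n` has mass at most `c`. `chF α`: the form in the affine chart, in components. `pbl T α`: pull-back by `T`.
-/

open MeasureTheory Set Metric
open scoped ContDiff Topology ENNReal

namespace Pool.Agent.Lib.P28t

open Pool.Agent.P28b04d Pool.Agent.Lib.P28e Pool.Agent.Lib.P28c
open Pool.Agent.Lib.P28f (V EV)
open Pool.Agent.Lib.P28g (TT)

variable {n : ℕ}

/-- Real bilinear forms on `W n`. -/
abbrev BW (n : ℕ) : Type := W n →L[ℝ] W n →L[ℝ] ℝ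

/-- One-forms on `W n`. -/
abbrev FW (n : ℕ) : Type := W n → W n →L[ℝ] ℝ

/-- The exterior derivative: `dw α z v w = (D_v α)(w) - (D_w α)(v)`. -/
noncomputable def dw (α : FW n) (z : W n) : BW n := fderiv ℝ α z - (fderiv ℝ α z).flip

/-- Connection one-forms of the Hopf bundle `W n - 0 → CP^n`. -/
structure Con (α : FW n) : Prop where
  smooth : ∀ z : W n, z ≠ 0 → ContDiffAt ℝ ∞ α z
  hom : ∀ (c : ℂ) (z v : W n), c ≠ 0 → z ≠ 0 → α (c • z) (c • v) = α z v
  rad : ∀ z : W n, z ≠ 0 → α z z = 0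
  rot : ∀ z : W n, z ≠ 0 → α z (Complex.I • z) = 1

/-- `dw α z` is non-degenerate modulo `ℂ z`. -/
def NdAt (α : FW n) (z : W n) : Prop := ∀ v : W n, (∀ w : W n, dw α z v w = 0) → ∃ c : ℂ, v = c • z

/-- The symplectic forms of the Fubini-Study class, through their connection forms. -/
def Symp (α : FW n) : Prop := Con α ∧ ∀ z : W n, z ≠ 0 → NdAt α z

/-- Smooth paths of symplectic forms. -/
def JoinF (α β : FW n) : Prop :=
  ∃ K : ℝ × W n → W n →L[ℝ] ℝ, ContDiffOn ℝ ∞ K (univ ×ˢ {0}ᶜ) ∧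
    (∀ t : ℝ, Symp fun z => K (t, z)) ∧ (∀ z : W n, z ≠ 0 → K (0, z) = α z) ∧
    ∀ z : W n, z ≠ 0 → K (1, z) = β z

/-- Pull-back by a linear map. -/
noncomputable def pbl (T : W n ≃L[ℝ] W n) (α : FW n) : FW n := fun z =>
  (α (T z)).comp (T : W n →L[ℝ] W n)

/-- The form in the affine chart. -/
noncomputable def chF (α : FW n) (x : V (n * 2)) : V (n * 2) := fun i =>
  α (sl n x) (Lv n (Pi.single i 1))

/-- A density for the form `dw α`. -/
structure Dens (α : FW n) (h : W n → ℝ) : Prop where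
  cont : ContinuousOn h {0}ᶜ
  nonneg : ∀ z : W n, 0 ≤ h z
  hom : ∀ (c : ℂ) (z : W n), c ≠ 0 → h (c • z) = h z
  one : ∀ z : W n, z ≠ 0 → ∀ p : W n, hip z p = 0 → ‖dw α z‖ * ‖p‖ ≤ h z * ‖dw α z p‖
  two : ∀ z : W n, z ≠ 0 → ∀ p : W n, hip z p = 0 →
    ‖z‖ * ‖fderiv ℝ (dw α) z‖ * ‖p‖ ≤ h z * ‖dw α z p‖

/-- The energy measure. -/
noncomputable def enH (h : W n → ℝ) : Measure (W n) :=
  (volume.restrict (ball 0 1)).withDensity fun x => ENNReal.ofReal (h x) ^ (2 * n)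

/-- The mean of `‖dw α - ct‖` over the ball is at most `e`. -/
def MClose (α : FW n) (z : W n) (ρ e : ℝ) (ct : BW n) : Prop :=
  (∀ v w, ct v w = -ct w v) ∧
    ∫⁻ x in closedBall z ρ, ‖dw α x - ct‖ₑ ≤ ENNReal.ofReal e * volume (closedBall z ρ)

/-- `dw α` is close in the mean to a form `ct` with least singular value at least `σ` modulo `ℂ z`. -/
def MGood (α : FW n) (z : W n) (ρ η : ℝ) (ct : BW n) (σ : ℝ) : Prop :=
  0 < σ ∧ MClose α z ρ (η * σ) ct ∧ (∀ (c : ℂ) (w : W n), ct (c • z) w = 0) ∧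
    ∀ p : W n, hip z p = 0 → σ * ‖p‖ ≤ ‖ct p‖

/-- Flatness on a ball. -/
def FlatF (β : FW n) (z : W n) (ρ δ σ : ℝ) : Prop :=
  0 < σ ∧ (∀ x ∈ closedBall z ρ, ∀ p : W n, hip x p = 0 → σ * ‖p‖ ≤ ‖dw β x p‖) ∧
    ∀ x ∈ closedBall z ρ, ∀ y ∈ closedBall z ρ, ‖dw β y - dw β x‖ ≤ δ * σ

/-- Controlled forms. -/
structure CtrlF (κ δ c : ℝ) (β : FW n) (ν : Measure (W n)) : Prop where
  symp : Symp β
  flat : ∀ z : W n, z ≠ 0 → ∀ s : ℝ, 0 < s → s ≤ 1 → ν.real (PB (pt z) s) ≤ c →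
    ∃ σ : ℝ, FlatF β z (κ * s * ‖z‖) δ σ

/-- Real matrices of columns. -/
abbrev XX (n : ℕ) : Type := Fin (n + 1) → W n

/-- The matrix with columns `X j` applied to `z`. -/
noncomputable def mx (X : XX n) (z : W n) : W n := ∑ j, z j • X j

/-- The map `z ↦ z + r(z) X z`. -/
noncomputable def psi (r : W n → ℝ) (X : XX n) (z : W n) : W n := z + r z • mx X z

/-- The average of the pull-backs of `α` by the maps `z ↦ z + r(z) X z`, `‖X‖ ≤ 1`. -/
noncomputable def AvF (r : W n → ℝ) (α : FW n) (z : W n) : W n →L[ℝ] ℝ :=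
  ((volume (closedBall (0 : XX n) 1)).toReal)⁻¹ •
    ∫ X in closedBall (0 : XX n) 1, (α (psi r X z)).comp (fderiv ℝ (psi r X) z)

/-- Radius functions. -/
structure RadF (r : W n → ℝ) : Prop where
  smooth : ContDiffOn ℝ ∞ r {0}ᶜ
  hom : ∀ (c : ℂ) (z : W n), c ≠ 0 → r (c • z) = r z
  nonneg : ∀ z : W n, 0 ≤ r z
  le : ∀ z : W n, r z ≤ 1 / (8 * ((n : ℝ) + 1))
  der : ∀ z : W n, z ≠ 0 → ‖fderiv ℝ r z‖ * ‖z‖ ≤ 1

/-- Charts at finitely many points, disjoint for `‖x‖ < s`. -/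
structure Charts (A : Finset (W n)) (T : W n → W n ≃L[ℝ] W n) (s : ℝ) : Prop where
  tt : ∀ a, TT (T a)
  pos : 0 < s
  disj : ∀ a ∈ A, ∀ b ∈ A, a ≠ b → ∀ x y : V (n * 2), ‖x‖ < s → ‖y‖ < s →
    pt (T a (sl n x)) ≠ pt (T b (sl n y))

end Pool.Agent.Lib.P28t
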