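import Pool.Agent.Lib.P28t.LinF
import Pool.Agent.Lib.P28t.ChF
import Pool.Agent.Lib.P28g.PrepA

set_option autoImplicit false
set_option maxSynthPendingDepth 3

/-!
# Extension of a form from a chart

PROOF. `exF T s b` is the pull-back of the form `y ↦ s • b (s⁻¹ • y)` by `z ↦ cc (T⁻¹ z)`, extended by `0`. Near a point `z ≠ 0` with `(T⁻¹ z) 0 ≠ 0` everything is smooth (`contDiffAt_cc`); if `(T⁻¹ z) 0 = 0` then `‖cc (T⁻¹ y)‖ → ∞` as `y → z` (`norm_le_of_cc`), so `b (s⁻¹ • cc _)` vanishes near `z` and `exF = 0` near `z`. `bas_exF`: `cc` is invariant under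
complex multiplication (`cc_smul`), differentiate: `D(cc ∘ T⁻¹) (c z) (c v) = D(cc ∘ T⁻¹) z v`, and `D(cc ∘ T⁻¹) z (c z) = 0`. `chF_exF`: `cc (T⁻¹ (T (sl y))) = y` (`cc_sl`) so the derivative of `cc ∘ T⁻¹` at `T (sl x)` in the direction `T (Lv e_j)` is `e_j`. `exF_out`: if `(T⁻¹ z) 0 ≠ 0` then `z = ((T⁻¹ z) 0) • T (sl (cc (T⁻¹ z)))`
(`smul_sl_cc`), so `pt z = pt (T (sl (cc ..)))` and `‖cc (T⁻¹ z)‖ ≥ s`; by continuity `‖s⁻¹ cc (T⁻¹ y)‖ ≥ 15/16` near `z`. `ndAt_smul`, `ndAt_pbl`: from `dw_hom`, `dw_pbl`.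
-/

open MeasureTheory Set Metric
open scoped ContDiff Topology ENNReal

namespace Pool.Agent.Lib.P28t

open Pool.Agent.P28b04d Pool.Agent.Lib.P28e Pool.Agent.Lib.P28c
open Pool.Agent.Lib.P28f (V EV)
open Pool.Agent.Lib.P28g (TT)

variable {n : ℕ}

/-- Extension of a form from the chart `T`. -/
noncomputable def exF (T : W n ≃L[ℝ] W n) (s : ℝ) (b : V (n * 2) → V (n * 2)) : FW n := fun z =>
  open Classical in
  if (T.symm z) 0 = 0 then 0
  else ∑ i, (s * b (s⁻¹ • P28g.cc (T.symm z)) i) •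
    ((ContinuousLinearMap.proj (R := ℝ) i : V (n * 2) →L[ℝ] ℝ).comp
      (fderiv ℝ (fun y => P28g.cc (T.symm y)) z))

/-- Pull-backs of one-forms on `CP^n`. -/
structure Bas (θ : FW n) : Prop where
  smooth : ∀ z : W n, z ≠ 0 → ContDiffAt ℝ ∞ θ z
  hom : ∀ (c : ℂ) (z v : W n), c ≠ 0 → z ≠ 0 → θ (c • z) (c • v) = θ z v
  rad : ∀ z : W n, z ≠ 0 → θ z z = 0
  rot : ∀ z : W n, z ≠ 0 → θ z (Complex.I • z) = 0

namespace ExFAux

theorem symm_hom {T : W n ≃L[ℝ] W n} (hT : ∀ (c : ℂ) (x : W n), T (c • x) = c • T x) (c : ℂ)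
    (x : W n) : T.symm (c • x) = c • T.symm x := by
  apply T.injective
  rw [T.apply_symm_apply, hT, T.apply_symm_apply]

/-- The coordinate. -/
noncomputable def ct (T : W n ≃L[ℝ] W n) (y : W n) : V (n * 2) := P28g.cc (T.symm y)

theorem ct_smooth {T : W n ≃L[ℝ] W n} {z : W n} (hz : (T.symm z) 0 ≠ 0) :
    ContDiffAt ℝ ∞ (ct T) z :=
  (P28g.contDiffAt_cc hz).comp z T.symm.contDiff.contDiffAt

theorem ct_diff {T : W n ≃L[ℝ] W n} {z : W n} (hz : (T.symm z) 0 ≠ 0) :
    DifferentiableAt ℝ (ct T) z :=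
  (ct_smooth hz).differentiableAt (by simp)

theorem ct_smul {T : W n ≃L[ℝ] W n} (hT : ∀ (c : ℂ) (x : W n), T (c • x) = c • T x) {c : ℂ}
    (hc : c ≠ 0) (z : W n) : ct T (c • z) = ct T z := by
  unfold ct
  rw [symm_hom hT, P28g.cc_smul hc]

theorem exF_apply (T : W n ≃L[ℝ] W n) (s : ℝ) (b : V (n * 2) → V (n * 2)) {z : W n}
    (hz : (T.symm z) 0 ≠ 0) (v : W n) :
    exF T s b z v = ∑ i, (s * b (s⁻¹ • ct T z) i) * fderiv ℝ (ct T) z v i := by
  unfold exF
  rw [if_neg hz, ContinuousLinearMap.sum_apply]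
  rfl

theorem exF_zero_of (T : W n ≃L[ℝ] W n) (s : ℝ) (b : V (n * 2) → V (n * 2)) {z : W n}
    (hz : (T.symm z) 0 = 0) : exF T s b z = 0 := by
  unfold exF
  rw [if_pos hz]

theorem exF_zero_of_b (T : W n ≃L[ℝ] W n) (s : ℝ) (b : V (n * 2) → V (n * 2)) {z : W n}
    (hz : b (s⁻¹ • ct T z) = 0) : exF T s b z = 0 := by
  by_cases h : (T.symm z) 0 = 0
  · exact exF_zero_of T s b h
  · ext v
    rw [exF_apply T s b h, hz]
    simp

theorem fderiv_ct_smul {T : W n ≃L[ℝ] W n} (hT : ∀ (c : ℂ) (x : W n), T (c • x) = c • T x)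
    {c : ℂ} (hc : c ≠ 0) {z : W n} (hz : (T.symm z) 0 ≠ 0) (v : W n) :
    fderiv ℝ (ct T) (c • z) (c • v) = fderiv ℝ (ct T) z v := by
  have hz' : (T.symm (c • z)) 0 ≠ 0 := by
    rw [symm_hom hT, Pi.smul_apply, smul_eq_mul]
    exact mul_ne_zero hc hz
  have h1 : HasFDerivAt (fun y => ct T (FormAux.mc c y))
      ((fderiv ℝ (ct T) (c • z)).comp (FormAux.mc c)) z := by
    have h2 : HasFDerivAt (ct T) (fderiv ℝ (ct T) (c • z)) (FormAux.mc c z) := by
      rw [FormAux.mc_apply]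
      exact (ct_diff hz').hasFDerivAt
    exact h2.comp z (FormAux.mc c).hasFDerivAt
  have h2 : (fun y => ct T (FormAux.mc c y)) = ct T := by
    funext y
    rw [FormAux.mc_apply, ct_smul hT hc]
  rw [h2] at h1
  rw [h1.fderiv]
  show _ = fderiv ℝ (ct T) (c • z) (FormAux.mc c v)
  rw [FormAux.mc_apply]

theorem fderiv_ct_line {T : W n ≃L[ℝ] W n} (hT : ∀ (c : ℂ) (x : W n), T (c • x) = c • T x)
    {z : W n} (hz : (T.symm z) 0 ≠ 0) (b : ℂ) : fderiv ℝ (ct T) z (b • z) = 0 := by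
  have h1 : HasFDerivAt (fun c : ℂ => ct T (FormAux.mz z c))
      ((fderiv ℝ (ct T) z).comp (FormAux.mz z)) 1 := by
    have h2 : HasFDerivAt (ct T) (fderiv ℝ (ct T) z) (FormAux.mz z 1) := by
      rw [FormAux.mz_apply, one_smul]
      exact (ct_diff hz).hasFDerivAt
    exact h2.comp 1 (FormAux.mz z).hasFDerivAt
  have h2 : (fun c : ℂ => ct T (FormAux.mz z c)) =ᶠ[𝓝 1] fun _ => ct T z := by
    have : ∀ᶠ c : ℂ in 𝓝 1, c ≠ 0 := isOpen_ne.mem_nhds one_ne_zero
    filter_upwards [this] with c hc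
    rw [FormAux.mz_apply, ct_smul hT hc]
  have h3 := (h2.hasFDerivAt_iff (f' := _)).1 h1
  have h4 := h3.unique (hasFDerivAt_const (ct T z) (1 : ℂ))
  have h5 := congrArg (fun L : ℂ →L[ℝ] V (n * 2) => L b) h4
  simpa only [ContinuousLinearMap.comp_apply, FormAux.mz_apply,
    ContinuousLinearMap.zero_apply] using h5

theorem zero_near (T : W n ≃L[ℝ] W n) {s : ℝ} (hs : 0 < s) {b : V (n * 2) → V (n * 2)}
    (hb : P28s.Md b) {z : W n} (hz : z ≠ 0) (h : (T.symm z) 0 = 0) : exF T s b =ᶠ[𝓝 z] 0 := by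
  obtain ⟨K, hK⟩ : ∃ K : ℝ, K = max 1 (2 * s) := ⟨_, rfl⟩
  have hU : IsOpen {y : W n | K * ‖(T.symm y) 0‖ < ‖T.symm y‖} :=
    isOpen_lt (continuous_const.mul ((continuous_apply 0).comp T.symm.continuous).norm)
      T.symm.continuous.norm
  have hmem : z ∈ {y : W n | K * ‖(T.symm y) 0‖ < ‖T.symm y‖} := by
    rw [mem_setOf_eq, h, norm_zero, mul_zero]
    exact norm_pos_iff.2 fun h0 => hz (T.symm.injective (by rw [h0, map_zero]))
  filter_upwards [hU.mem_nhds hmem] with y hy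
  by_cases h0 : (T.symm y) 0 = 0
  · exact exF_zero_of T s b h0
  · apply exF_zero_of_b
    apply hb.supp
    by_contra hcon
    rw [not_le, norm_smul, Real.norm_of_nonneg (by positivity)] at hcon
    have h1 : ‖ct T y‖ ≤ s := by
      have h2 : s⁻¹ * ‖ct T y‖ < 1 := by linarith
      rw [inv_mul_lt_iff₀ hs, mul_one] at h2
      exact h2.le
    have h2 := P28g.norm_le_of_cc h0
    have h3 : max 1 (2 * ‖P28g.cc (T.symm y)‖) ≤ K := by
      rw [hK]
      exact max_le_max le_rfl (mul_le_mul_of_nonneg_left h1 (by norm_num))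
    have h4 : max 1 (2 * ‖P28g.cc (T.symm y)‖) * ‖(T.symm y) 0‖ ≤ K * ‖(T.symm y) 0‖ :=
      mul_le_mul_of_nonneg_right h3 (norm_nonneg _)
    have h5 : K * ‖(T.symm y) 0‖ < ‖T.symm y‖ := hy
    linarith

theorem open_ne (T : W n ≃L[ℝ] W n) : IsOpen {y : W n | (T.symm y) 0 ≠ 0} :=
  isOpen_ne_fun ((continuous_apply 0).comp T.symm.continuous) continuous_const

end ExFAux

open ExFAux

theorem Con.add_bas {α θ : FW n} (hα : Con α) (hθ : Bas θ) : Con (α + θ) where
  smooth z hz := (hα.smooth z hz).add (hθ.smooth z hz)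
  hom c z v hc hz := by
    rw [Pi.add_apply, Pi.add_apply, ContinuousLinearMap.add_apply, ContinuousLinearMap.add_apply,
      hα.hom c z v hc hz, hθ.hom c z v hc hz]
  rad z hz := by
    rw [Pi.add_apply, ContinuousLinearMap.add_apply, hα.rad z hz, hθ.rad z hz, add_zero]
  rot z hz := by
    rw [Pi.add_apply, ContinuousLinearMap.add_apply, hα.rot z hz, hθ.rot z hz, add_zero]

theorem Bas.neg {θ : FW n} (hθ : Bas θ) : Bas (-θ) where
  smooth z hz := (hθ.smooth z hz).neg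
  hom c z v hc hz := by
    rw [Pi.neg_apply, Pi.neg_apply, ContinuousLinearMap.neg_apply, ContinuousLinearMap.neg_apply,
      hθ.hom c z v hc hz]
  rad z hz := by
    rw [Pi.neg_apply, ContinuousLinearMap.neg_apply, hθ.rad z hz, neg_zero]
  rot z hz := by
    rw [Pi.neg_apply, ContinuousLinearMap.neg_apply, hθ.rot z hz, neg_zero]

theorem exF_add (T : W n ≃L[ℝ] W n) (s : ℝ) (b b' : V (n * 2) → V (n * 2)) :
    exF T s (b + b') = exF T s b + exF T s b' := by
  funext z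
  rw [Pi.add_apply]
  by_cases h : (T.symm z) 0 = 0
  · rw [exF_zero_of T s _ h, exF_zero_of T s _ h, exF_zero_of T s _ h, add_zero]
  · ext v
    rw [ContinuousLinearMap.add_apply, exF_apply T s _ h, exF_apply T s _ h, exF_apply T s _ h,
      ← Finset.sum_add_distrib]
    refine Finset.sum_congr rfl fun i _ => ?_
    rw [Pi.add_apply, Pi.add_apply]
    ring

theorem exF_smul (T : W n ≃L[ℝ] W n) (s r : ℝ) (b : V (n * 2) → V (n * 2)) :
    exF T s (r • b) = r • exF T s b := by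
  funext z
  rw [Pi.smul_apply]
  by_cases h : (T.symm z) 0 = 0
  · rw [exF_zero_of T s _ h, exF_zero_of T s _ h, smul_zero]
  · ext v
    rw [ContinuousLinearMap.smul_apply, exF_apply T s _ h, exF_apply T s _ h, smul_eq_mul,
      Finset.mul_sum]
    refine Finset.sum_congr rfl fun i _ => ?_
    rw [Pi.smul_apply, Pi.smul_apply, smul_eq_mul]
    ring

theorem bas_exF {T : W n ≃L[ℝ] W n} (hT : ∀ (c : ℂ) (x : W n), T (c • x) = c • T x) {s : ℝ}
    (hs : 0 < s) {b : V (n * 2) → V (n * 2)} (hb : P28s.Md b) : Bas (exF T s b) where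
  smooth z hz := by
    by_cases h : (T.symm z) 0 = 0
    · exact (contDiffAt_const (c := (0 : W n →L[ℝ] ℝ))).congr_of_eventuallyEq
        (zero_near T hs hb hz h)
    · have hev : exF T s b =ᶠ[𝓝 z] fun z => ∑ i, (s * b (s⁻¹ • ct T z) i) •
          ((ContinuousLinearMap.proj (R := ℝ) i : V (n * 2) →L[ℝ] ℝ).comp
            (fderiv ℝ (ct T) z)) := by
        filter_upwards [(open_ne T).mem_nhds h] with y hy
        unfold exF
        rw [if_neg hy]
        rfl
      refine ContDiffAt.congr_of_eventuallyEq ?_ hev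
      have h1 : ContDiffAt ℝ ∞ (ct T) z := ct_smooth h
      have h2 : ContDiffAt ℝ ∞ (fderiv ℝ (ct T)) z := h1.fderiv_right (m := ∞) (by simp)
      have h3 : ContDiffAt ℝ ∞ (fun z => b (s⁻¹ • ct T z)) z :=
        hb.smooth.contDiffAt.comp z (h1.const_smul s⁻¹)
      refine ContDiffAt.sum fun i _ => ?_
      have h4 : ContDiffAt ℝ ∞ (fun z => b (s⁻¹ • ct T z) i) z :=
        (contDiff_apply ℝ ℝ i).contDiffAt.comp z h3
      exact (contDiffAt_const.mul h4).smul (contDiffAt_const.clm_comp h2)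
  hom c z v hc hz := by
    by_cases h : (T.symm z) 0 = 0
    · have h' : (T.symm (c • z)) 0 = 0 := by
        rw [symm_hom hT, Pi.smul_apply, h, smul_zero]
      rw [exF_zero_of T s b h, exF_zero_of T s b h']
      rfl
    · have h' : (T.symm (c • z)) 0 ≠ 0 := by
        rw [symm_hom hT, Pi.smul_apply, smul_eq_mul]
        exact mul_ne_zero hc h
      rw [exF_apply T s b h, exF_apply T s b h', fderiv_ct_smul hT hc h, ct_smul hT hc]
  rad z hz := by
    by_cases h : (T.symm z) 0 = 0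
    · rw [exF_zero_of T s b h]
      rfl
    · have h1 := fderiv_ct_line hT h 1
      rw [one_smul] at h1
      rw [exF_apply T s b h, h1]
      simp
  rot z hz := by
    by_cases h : (T.symm z) 0 = 0
    · rw [exF_zero_of T s b h]
      rfl
    · rw [exF_apply T s b h, fderiv_ct_line hT h]
      simp

theorem chF_exF {T : W n ≃L[ℝ] W n} (hT : ∀ (c : ℂ) (x : W n), T (c • x) = c • T x) {s : ℝ}
    (hs : 0 < s) (b : V (n * 2) → V (n * 2)) (x : V (n * 2)) :
    chF (pbl T (exF T s b)) x = s • b (s⁻¹ • x) := by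
  have h0 : (T.symm (T (sl n x))) 0 ≠ 0 := by
    rw [T.symm_apply_apply, P28g.sl_apply_zero]
    exact one_ne_zero
  have hct : ∀ y : V (n * 2), ct T (T (sl n y)) = y := by
    intro y
    unfold ct
    rw [T.symm_apply_apply, P28g.cc_sl]
  have h1 : HasFDerivAt (fun y => ct T (T (sl n y)))
      ((fderiv ℝ (ct T) (T (sl n x))).comp ((T : W n →L[ℝ] W n).comp (Lv n))) x := by
    have h2 : HasFDerivAt (fun y => T (sl n y)) ((T : W n →L[ℝ] W n).comp (Lv n)) x :=
      HasFDerivAt.comp x (T : W n →L[ℝ] W n).hasFDerivAt (P28g.hasFDerivAt_sl x)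
    exact HasFDerivAt.comp (g := ct T) (f := fun y => T (sl n y)) x (ct_diff h0).hasFDerivAt h2
  have h2 : (fun y => ct T (T (sl n y))) = fun y => y := funext hct
  rw [h2] at h1
  have h3 := h1.unique (hasFDerivAt_id x)
  funext i
  have h4 := congrArg (fun L : V (n * 2) →L[ℝ] V (n * 2) => L (Pi.single i 1)) h3
  have h5 : fderiv ℝ (ct T) (T (sl n x)) (T (Lv n (Pi.single i 1))) = Pi.single i 1 := h4
  show exF T s b (T (sl n x)) (T (Lv n (Pi.single i 1))) = _
  rw [exF_apply T s b h0, h5, hct, Pi.smul_apply, smul_eq_mul,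
    Finset.sum_eq_single i]
  · simp
  · intro j _ hj
    rw [Pi.single_eq_of_ne hj, mul_zero]
  · intro h
    exact absurd (Finset.mem_univ i) h

theorem exF_out {T : W n ≃L[ℝ] W n} (hT : ∀ (c : ℂ) (x : W n), T (c • x) = c • T x) {s : ℝ}
    (hs : 0 < s) {b : V (n * 2) → V (n * 2)} (hb : P28s.Md b) {z : W n} (hz : z ≠ 0)
    (h : ∀ x : V (n * 2), ‖x‖ < s → pt z ≠ pt (T (sl n x))) : exF T s b =ᶠ[𝓝 z] 0 := by
  by_cases h0 : (T.symm z) 0 = 0
  · exact zero_near T hs hb hz h0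
  · have h1 : s ≤ ‖ct T z‖ := by
      by_contra hcon
      rw [not_le] at hcon
      apply h (ct T z) hcon
      have e : z = (T.symm z) 0 • T (sl n (ct T z)) := by
        unfold ct
        rw [← hT, P28g.smul_sl_cc h0, T.apply_symm_apply]
      conv_lhs => rw [e]
      exact pt_smul h0 _
    have h2 : ContinuousAt (fun y => ‖ct T y‖) z := (ct_smooth h0).continuousAt.norm
    have h3 : 15 / 16 * s < ‖ct T z‖ := by linarith
    filter_upwards [h2.eventually_const_lt h3] with y hy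
    apply exF_zero_of_b
    apply hb.supp
    rw [norm_smul, Real.norm_of_nonneg (by positivity), inv_mul_eq_div, le_div_iff₀ hs]
    exact hy.le

theorem chF_add (α θ : FW n) : chF (α + θ) = chF α + chF θ := by
  funext x i
  rfl

theorem chF_smul (r : ℝ) (α : FW n) : chF (r • α) = r • chF α := by
  funext x i
  rfl

theorem pbl_add (T : W n ≃L[ℝ] W n) (α θ : FW n) : pbl T (α + θ) = pbl T α + pbl T θ := by
  funext z
  ext v
  rfl

theorem pbl_smul (T : W n ≃L[ℝ] W n) (r : ℝ) (α : FW n) : pbl T (r • α) = r • pbl T α := by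
  funext z
  ext v
  rfl

theorem ndAt_smul {α : FW n} (h : Con α) {c : ℂ} (hc : c ≠ 0) {z : W n} (hz : z ≠ 0) :
    NdAt α (c • z) ↔ NdAt α z := by
  constructor
  · intro hN v hv
    obtain ⟨d, hd⟩ := hN (c • v) (fun w => by
      have h1 := h.dw_hom hc hz v (c⁻¹ • w)
      rw [smul_smul, mul_inv_cancel₀ hc, one_smul] at h1
      rw [h1]
      exact hv _)
    refine ⟨d, ?_⟩
    have h2 := congrArg (fun x => c⁻¹ • x) hd
    simp only [smul_smul] at h2
    rw [inv_mul_cancel₀ hc, one_smul] at h2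
    rw [h2]
    congr 1
    field_simp
  · intro hN v hv
    obtain ⟨d, hd⟩ := hN (c⁻¹ • v) (fun w => by
      have h1 := h.dw_hom hc hz (c⁻¹ • v) w
      rw [smul_smul, mul_inv_cancel₀ hc, one_smul] at h1
      rw [← h1]
      exact hv _)
    refine ⟨d, ?_⟩
    have h2 := congrArg (fun x => c • x) hd
    simp only [smul_smul] at h2
    rw [mul_inv_cancel₀ hc, one_smul] at h2
    rw [h2, smul_smul, mul_comm]

theorem ndAt_pbl {α : FW n} (h : Con α) {T : W n ≃L[ℝ] W n}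
    (hT : ∀ (c : ℂ) (x : W n), T (c • x) = c • T x) {z : W n} (hz : z ≠ 0) :
    NdAt (pbl T α) z ↔ NdAt α (T z) := by
  constructor
  · intro hN v hv
    obtain ⟨d, hd⟩ := hN (T.symm v) (fun w => by
      rw [dw_pbl h T hz, T.apply_symm_apply]
      exact hv _)
    refine ⟨d, ?_⟩
    rw [← hT, ← hd, T.apply_symm_apply]
  · intro hN v hv
    obtain ⟨d, hd⟩ := hN (T v) (fun w => by
      have h1 := hv (T.symm w)
      rw [dw_pbl h T hz, T.apply_symm_apply] at h1
      exact h1)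
    refine ⟨d, T.injective ?_⟩
    rw [hd, hT]

end Pool.Agent.Lib.P28t
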