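import Pool.Agent.Lib.P28e.Gap2
import Pool.Agent.Lib.P28t.Defs
import Pool.Agent.Lib.P28s.Alg

set_option autoImplicit false
set_option maxSynthPendingDepth 3

/-!
# The strong gap lemma

PROOF. `P28e.gap` (with `‖(u y)⁻¹ * U i y‖ ≤ ‖(u y)⁻¹‖ ‖U i y‖`) gives the unit `M = ms s u` with `(∫ ‖M⁻¹ u - 1‖^p)^(1/p) ≤ (4/3) κ (2 s)^(d-1)` over `cs d s`. `cs d s = cm (fun _ => -s) (2 * s)` and `ms` is the mean `mn` (see `Gap.lean`, `Gap2.lean`), so `dev_le` (`Gns.lean`) gives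
`∫ ‖u - M‖ ≤ s ∑ i ∫ ‖U i‖`. Now `‖M⁻¹‖ ‖U i y‖ = ‖(M⁻¹ u y) (u y)⁻¹‖ ‖U i y‖ ≤ (1 + ‖M⁻¹ u y - 1‖) α y` (`‖1‖ ≤ 1`), and by Hölder (`ENNReal.lintegral_mul_le_Lp_mul_Lq`) and Minkowski (or: bound the two terms separately, Hölder for each) `∫ (1 + f) α ≤ ((2s)^(d-1) + (4/3) κ (2s)^(d-1)) (∫ α^d)^(1/d)`
(`rpow_vol`), where `(d/2 + 1) (∫ α^d)^(1/d) ≤ κ`. In total `‖M⁻¹‖ ∫ ‖u - M‖ ≤ s d (2s)^(d-1) (4/3) κ / (d/2 + 1) ≤ (4/3) κ (2s)^d` as `s d / (d/2+1) ≤ 2 s`. `chart_mean`: let `d = n * 2`, `α y = ENNReal.ofReal (g y)` for `‖y‖ ≤ 1` and `⊤` otherwise; `(∫ over cs d s of α^d)` only sees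
`‖y‖ ≤ s ≤ 1` (`cs_eq`); choose `κ ≤ η/4` small and then `δ` so that `(d/2+1) δ^(1/d) ≤ κ`. `M` is a mean of skew operators, so skew (`P28s.tr` is linear, continuous; commute it with the integral). Last claim: by Chebyshev the set of `y` in the cube with
`‖M⁻¹‖ ‖T y - M‖ ≤ 8 κ` and the set with `(g y)^d ≤ 4 δ / (2 s)^d` both have measure `≥ (3/4) (2s)^d`, so they meet, in a `y` with `‖y‖ ≤ s`: `‖(T y)⁻¹‖ ≥ ‖M⁻¹‖ / 2` (`P28s.near_inv`), `‖T y‖ ≤ g y / ‖(T y)⁻¹‖ ≤ 2 g y / ‖M⁻¹‖`,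
`g y ≤ (4 δ)^(1/d) / (2 s)`, so `s ‖M‖ ‖M⁻¹‖ ≤ s (2 g y + 8 κ) ≤ (4 δ)^(1/d) + 8 κ ≤ η`.
-/

open MeasureTheory Set Metric
open scoped ContDiff Topology ENNReal

namespace Pool.Agent.Lib.P28t

open Pool.Agent.P28b04d Pool.Agent.Lib.P28e Pool.Agent.Lib.P28c
open Pool.Agent.Lib.P28f (V EV)
open Pool.Agent.Lib.P28g (TT)

variable {n : ℕ}

namespace GapSAux

/-- `‖M⁻¹‖ ‖U‖ ≤ (1 + ‖M⁻¹ u - 1‖) α` -/
theorem pt_le {A : Type} [NormedRing A] [NormOneClass A] {N u U : A} (hu : IsUnit u) {α : ℝ≥0∞}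
    (h : ‖Ring.inverse u‖ₑ * ‖U‖ₑ ≤ α) : ‖N‖ₑ * ‖U‖ₑ ≤ (1 + ‖N * u - 1‖ₑ) * α := by
  have h1 : N = (1 + (N * u - 1)) * Ring.inverse u := by
    rw [add_sub_cancel, mul_assoc, Ring.mul_inverse_cancel _ hu, mul_one]
  have h2 : ‖N‖ₑ ≤ (1 + ‖N * u - 1‖ₑ) * ‖Ring.inverse u‖ₑ := by
    calc ‖N‖ₑ = ‖(1 + (N * u - 1)) * Ring.inverse u‖ₑ := by rw [← h1]
      _ ≤ ‖1 + (N * u - 1)‖ₑ * ‖Ring.inverse u‖ₑ := enorm_mul_le2 _ _
      _ ≤ (1 + ‖N * u - 1‖ₑ) * ‖Ring.inverse u‖ₑ := by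
          gcongr
          refine (enorm_add_le _ _).trans ?_
          rw [enorm_one]
  calc ‖N‖ₑ * ‖U‖ₑ ≤ (1 + ‖N * u - 1‖ₑ) * ‖Ring.inverse u‖ₑ * ‖U‖ₑ := by gcongr
    _ = (1 + ‖N * u - 1‖ₑ) * (‖Ring.inverse u‖ₑ * ‖U‖ₑ) := by rw [mul_assoc]
    _ ≤ _ := by gcongr

theorem isUnit_mn_sk {m d : ℕ} (a : Fin d → ℝ) (ℓ : ℝ) {T : (Fin d → ℝ) → EV m}
    (hT : Continuous T) (h : ∀ y, P28s.Sk (T y)) : P28s.Sk (mn a ℓ T) := by
  let L : EV m →L[ℝ] EV m :=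
    { toFun := P28s.tr
      map_add' := P28s.tr_add
      map_smul' := P28s.tr_smul
      cont := P28s.continuous_tr }
  have hL : ∀ A, L A = P28s.tr A := fun _ => rfl
  show P28s.tr (mn a ℓ T) = -mn a ℓ T
  rw [← hL]
  unfold mn
  rw [map_smul, ← L.integral_comp_comm (integrable_cm a ℓ hT)]
  have h1 : (fun x => L (T x)) = fun x => -T x := by
    funext x
    exact h x
  rw [h1, integral_neg, smul_neg]

end GapSAux

open GapSAux

theorem gap_strong {A : Type} [NormedRing A] [NormedAlgebra ℝ A] [CompleteSpace A]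
    [NormOneClass A] {d : ℕ} (hd : 2 ≤ d) {u : (Fin d → ℝ) → A}
    {U : Fin d → (Fin d → ℝ) → A} (h : Par u U) (hu : ∀ y, IsUnit (u y))
    {α : (Fin d → ℝ) → ℝ≥0∞} (hα : Measurable α)
    (hU : ∀ i y, ‖Ring.inverse (u y)‖ₑ * ‖U i y‖ₑ ≤ α y) {κ : ℝ} (hκ0 : 0 ≤ κ) (hκ : κ ≤ 1 / 4)
    {S : ℝ} (hE : ((d : ℝ≥0∞) / 2 + 1) * (∫⁻ y, α y ^ (d : ℝ) ∂cs d S) ^ (1 / (d : ℝ)) ≤
      ENNReal.ofReal κ) {s : ℝ} (hs : 0 < s) (hsS : s ≤ S) :
    ∃ M : Aˣ, (M : A) = ms s u ∧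
      ∫⁻ y, ‖(↑M⁻¹ : A)‖ₑ * ‖u y - ↑M‖ₑ ∂cs d s ≤ ENNReal.ofReal (2 * κ * (2 * s) ^ d) := by
  have hd1 : (1 : ℝ) < d := by exact_mod_cast (by omega : 1 < d)
  set p : ℝ := Real.conjExponent d with hp_def
  have hp : Real.HolderConjugate (d : ℝ) p := Real.HolderConjugate.conjExponent hd1
  have hp0 : 0 < p := hp.symm.pos
  have hp1 : 1 ≤ p := hp.symm.lt.le
  have hU' : ∀ i y, ‖Ring.inverse (u y) * U i y‖ₑ ≤ α y := fun i y =>
    (enorm_mul_le2 _ _).trans (hU i y)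
  obtain ⟨M, hM, hMp⟩ := gap hd hp h hu hα hU' hκ0 hκ hE hs hsS
  refine ⟨M, hM, ?_⟩
  set N : A := (↑M⁻¹ : A) with hN
  set f : (Fin d → ℝ) → ℝ≥0∞ := fun y => ‖N * u y - 1‖ₑ with hf
  have hfm : Measurable f := ((continuous_const.mul h.cont).sub continuous_const).enorm.measurable
  set E : ℝ≥0∞ := (∫⁻ y, α y ^ (d : ℝ) ∂cs d s) ^ (1 / (d : ℝ)) with hEdef
  have hEs : ((d : ℝ≥0∞) / 2 + 1) * E ≤ ENNReal.ofReal κ := by
    refine le_trans ?_ hE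
    rw [hEdef]
    gcongr
    exact cs_mono hsS
  -- deviation
  have hdev : ∫⁻ y, ‖u y - ↑M‖ₑ ∂cs d s ≤ ENNReal.ofReal s * ∑ i, ∫⁻ y, ‖U i y‖ₑ ∂cs d s := by
    have h1 := dev_le (fun _ : Fin d => -s) (ℓ := 2 * s) (by positivity) h
    have h2 : mn (fun _ : Fin d => -s) (2 * s) u = (M : A) := hM.symm
    rw [h2, show 2 * s / 2 = s by ring] at h1
    exact h1
  -- Hoelder
  have hHol : ∀ i, ∫⁻ y, ‖N‖ₑ * ‖U i y‖ₑ ∂cs d s ≤
      E * ENNReal.ofReal (4 / 3 * (2 * s) ^ (d - 1)) := by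
    intro i
    have h1 : ∫⁻ y, ‖N‖ₑ * ‖U i y‖ₑ ∂cs d s ≤ ∫⁻ y, α y * (1 + f y) ∂cs d s := by
      refine lintegral_mono fun y => ?_
      rw [mul_comm (α y)]
      exact pt_le (hu y) (hU i y)
    have h2 := ENNReal.lintegral_mul_le_Lp_mul_Lq (cs d s) hp (f := α) (g := fun y => 1 + f y)
      hα.aemeasurable (measurable_const.add hfm).aemeasurable
    have h3 : (∫⁻ y, (1 + f y) ^ p ∂cs d s) ^ (1 / p) ≤
        ENNReal.ofReal (4 / 3 * (2 * s) ^ (d - 1)) := by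
      have h4 := ENNReal.lintegral_Lp_add_le (μ := cs d s) (f := fun _ => (1 : ℝ≥0∞))
        (g := f) measurable_const.aemeasurable hfm.aemeasurable hp1
      have h5 : (∫⁻ _y, (1 : ℝ≥0∞) ^ p ∂cs d s) ^ (1 / p) = ENNReal.ofReal ((2 * s) ^ (d - 1)) := by
        rw [ENNReal.one_rpow, lintegral_const, one_mul]
        have h6 : (cs d s) univ = ENNReal.ofReal (2 * s) ^ d := cm_univ _ _
        rw [h6, rpow_vol hd hp (by positivity)]
      have h7 : (∫⁻ y, (1 + f y) ^ p ∂cs d s) ^ (1 / p) ≤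
          (∫⁻ _y, (1 : ℝ≥0∞) ^ p ∂cs d s) ^ (1 / p) + (∫⁻ y, f y ^ p ∂cs d s) ^ (1 / p) := h4
      refine h7.trans ?_
      rw [h5]
      refine (add_le_add le_rfl hMp).trans ?_
      rw [← ENNReal.ofReal_add (by positivity) (by positivity)]
      refine ENNReal.ofReal_le_ofReal ?_
      have h8 : 0 ≤ (2 * s) ^ (d - 1) := by positivity
      nlinarith [mul_le_mul_of_nonneg_right hκ h8]
    calc ∫⁻ y, ‖N‖ₑ * ‖U i y‖ₑ ∂cs d s ≤ ∫⁻ y, α y * (1 + f y) ∂cs d s := h1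
      _ ≤ E * (∫⁻ y, (1 + f y) ^ p ∂cs d s) ^ (1 / p) := h2
      _ ≤ _ := by gcongr
  have hNc : ∀ g : (Fin d → ℝ) → A, Continuous g →
      ∫⁻ y, ‖N‖ₑ * ‖g y‖ₑ ∂cs d s = ‖N‖ₑ * ∫⁻ y, ‖g y‖ₑ ∂cs d s := fun g hg =>
    lintegral_const_mul _ hg.enorm.measurable
  have hfin : ∫⁻ y, ‖N‖ₑ * ‖u y - ↑M‖ₑ ∂cs d s ≤
      ENNReal.ofReal s * ((d : ℝ≥0∞) * (E * ENNReal.ofReal (4 / 3 * (2 * s) ^ (d - 1)))) := by
    have hcM : Continuous fun y => u y - (M : A) := h.cont.sub continuous_const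
    rw [hNc (fun y => u y - (M : A)) hcM]
    calc ‖N‖ₑ * ∫⁻ y, ‖u y - ↑M‖ₑ ∂cs d s
        ≤ ‖N‖ₑ * (ENNReal.ofReal s * ∑ i, ∫⁻ y, ‖U i y‖ₑ ∂cs d s) := by gcongr
      _ = ENNReal.ofReal s * ∑ i, ∫⁻ y, ‖N‖ₑ * ‖U i y‖ₑ ∂cs d s := by
          rw [← mul_assoc, mul_comm ‖N‖ₑ, mul_assoc, Finset.mul_sum]
          congr 1
          exact Finset.sum_congr rfl fun i _ => (hNc _ (h.contG i)).symm
      _ ≤ ENNReal.ofReal s * ∑ _i : Fin d, E * ENNReal.ofReal (4 / 3 * (2 * s) ^ (d - 1)) := by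
          gcongr with i
          exact hHol i
      _ = _ := by
          rw [Finset.sum_const, Finset.card_univ, Fintype.card_fin, nsmul_eq_mul]
  refine hfin.trans ?_
  have hdE : (d : ℝ≥0∞) * E ≤ ENNReal.ofReal (2 * κ) := by
    have h1 : (d : ℝ≥0∞) / 2 * E ≤ ENNReal.ofReal κ := by
      refine le_trans ?_ hEs
      gcongr
      exact le_self_add
    have h2 : (d : ℝ≥0∞) * E = 2 * ((d : ℝ≥0∞) / 2 * E) := by
      rw [← mul_assoc, ENNReal.mul_div_cancel (by norm_num) (by norm_num)]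
    rw [h2, ENNReal.ofReal_mul (by norm_num)]
    gcongr
    norm_num
  calc ENNReal.ofReal s * ((d : ℝ≥0∞) * (E * ENNReal.ofReal (4 / 3 * (2 * s) ^ (d - 1))))
      = ENNReal.ofReal s * ((d : ℝ≥0∞) * E * ENNReal.ofReal (4 / 3 * (2 * s) ^ (d - 1))) := by
        rw [mul_assoc (d : ℝ≥0∞)]
    _ ≤ ENNReal.ofReal s * (ENNReal.ofReal (2 * κ) *
          ENNReal.ofReal (4 / 3 * (2 * s) ^ (d - 1))) := by gcongr
    _ = ENNReal.ofReal (s * (2 * κ * (4 / 3 * (2 * s) ^ (d - 1)))) := by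
        rw [ENNReal.ofReal_mul hs.le, ENNReal.ofReal_mul (show 0 ≤ 2 * κ by positivity)]
    _ ≤ ENNReal.ofReal (2 * κ * (2 * s) ^ d) := by
        refine ENNReal.ofReal_le_ofReal ?_
        have h1 : (2 * s) ^ d = (2 * s) ^ (d - 1) * (2 * s) := by
          rw [← pow_succ]
          congr 1
          omega
        rw [h1]
        have h2 : 0 ≤ κ * ((2 * s) ^ (d - 1) * s) := by positivity
        nlinarith

theorem chart_mean (n : ℕ) (hn : 1 ≤ n) {η : ℝ} (hη : 0 < η) : ∃ δ : ℝ, 0 < δ ∧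
    ∀ (T : V (n * 2) → EV (n * 2)) (U : Fin (n * 2) → V (n * 2) → EV (n * 2))
      (g : V (n * 2) → ℝ), Par T U → (∀ y, IsUnit (T y)) → (∀ y, P28s.Sk (T y)) →
      Continuous g → (∀ y, 0 ≤ g y) →
      (∀ i y, ‖y‖ ≤ 1 → ‖Ring.inverse (T y)‖ * ‖U i y‖ ≤ g y) →
      (∀ y, ‖y‖ ≤ 1 → ‖T y‖ * ‖Ring.inverse (T y)‖ ≤ g y) →
      ∀ s : ℝ, 0 < s → s ≤ 1 →
      ∫⁻ y, ENNReal.ofReal (g y) ^ (n * 2) ∂cs (n * 2) s ≤ ENNReal.ofReal δ →
      ∃ M : (EV (n * 2))ˣ, P28s.Sk (M : EV (n * 2)) ∧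
        ∫⁻ y, ‖(↑M⁻¹ : EV (n * 2))‖ₑ * ‖T y - ↑M‖ₑ ∂cs (n * 2) s ≤
          ENNReal.ofReal (η * (2 * s) ^ (n * 2)) ∧
        s * ‖(M : EV (n * 2))‖ * ‖(↑M⁻¹ : EV (n * 2))‖ ≤ η := by
  set d := n * 2 with hd
  have hd2 : 2 ≤ d := by omega
  set κ : ℝ := min (η / 5) (1 / 8) with hκ
  have hκ0 : 0 < κ := by positivity
  have hκη : κ ≤ η / 5 := min_le_left _ _
  have hκ8 : κ ≤ 1 / 8 := min_le_right _ _
  have hdR : (2 : ℝ) ≤ d := by exact_mod_cast hd2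
  set τ : ℝ := κ / (d + 2) with hτ
  have hτ0 : 0 < τ := by positivity
  have hτκ : 2 * τ ≤ κ := by
    rw [hτ, mul_div_assoc', div_le_iff₀ (by positivity)]
    nlinarith
  refine ⟨τ ^ d, by positivity, ?_⟩
  intro T U g hT hTu hTs hg hg0 hg1 hg2 s hs hs1 hint
  have : Nonempty (Fin d) := ⟨⟨0, by omega⟩⟩
  have : Nontrivial (V d) := Function.nontrivial
  let α : V d → ℝ≥0∞ := fun y => if ‖y‖ ≤ 1 then ENNReal.ofReal (g y) else ⊤
  have hα : Measurable α := by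
    refine Measurable.ite ?_ hg.measurable.ennreal_ofReal measurable_const
    exact measurableSet_le continuous_norm.measurable measurable_const
  have hU : ∀ i y, ‖Ring.inverse (T y)‖ₑ * ‖U i y‖ₑ ≤ α y := by
    intro i y
    by_cases hy : ‖y‖ ≤ 1
    · have h1 : α y = ENNReal.ofReal (g y) := if_pos hy
      rw [h1, ← ofReal_norm, ← ofReal_norm,
        ← ENNReal.ofReal_mul (norm_nonneg _)]
      exact ENNReal.ofReal_le_ofReal (hg1 i y hy)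
    · have h1 : α y = ⊤ := if_neg hy
      rw [h1]
      exact le_top
  have hcube : ∀ᵐ y ∂cs d s, ‖y‖ ≤ s := by
    rw [cs_eq]
    filter_upwards [ae_restrict_mem measurableSet_Icc] with y hy
    refine (pi_norm_le_iff_of_nonneg hs.le).2 fun i => ?_
    rw [Real.norm_eq_abs, abs_le]
    exact ⟨hy.1 i, hy.2 i⟩
  have hαint : ∫⁻ y, α y ^ (d : ℝ) ∂cs d s ≤ ENNReal.ofReal (τ ^ d) := by
    refine le_trans (le_of_eq ?_) hint
    refine lintegral_congr_ae ?_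
    filter_upwards [hcube] with y hy
    have h1 : α y = ENNReal.ofReal (g y) := if_pos (hy.trans hs1)
    rw [h1, ENNReal.rpow_natCast]
  have hE : ((d : ℝ≥0∞) / 2 + 1) * (∫⁻ y, α y ^ (d : ℝ) ∂cs d s) ^ (1 / (d : ℝ)) ≤
      ENNReal.ofReal κ := by
    have h1 : (∫⁻ y, α y ^ (d : ℝ) ∂cs d s) ^ (1 / (d : ℝ)) ≤ ENNReal.ofReal τ := by
      refine (ENNReal.rpow_le_rpow hαint (by positivity)).trans (le_of_eq ?_)
      rw [ENNReal.ofReal_pow hτ0.le, rpow_vol' hd2]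
    have h2 : (d : ℝ≥0∞) / 2 + 1 ≤ ENNReal.ofReal ((d : ℝ) + 2) := by
      rw [ENNReal.ofReal_add (by positivity) (by norm_num), ENNReal.ofReal_natCast]
      gcongr
      · exact ENNReal.div_le_of_le_mul (by
          calc (d : ℝ≥0∞) = d * 1 := (mul_one _).symm
            _ ≤ d * 2 := by gcongr; norm_num)
      · norm_num
    calc ((d : ℝ≥0∞) / 2 + 1) * (∫⁻ y, α y ^ (d : ℝ) ∂cs d s) ^ (1 / (d : ℝ))
        ≤ ENNReal.ofReal ((d : ℝ) + 2) * ENNReal.ofReal τ := by gcongr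
      _ = ENNReal.ofReal (((d : ℝ) + 2) * τ) := (ENNReal.ofReal_mul (by positivity)).symm
      _ = ENNReal.ofReal κ := by
          congr 1
          rw [hτ]
          field_simp
  obtain ⟨M, hM, hMi⟩ := gap_strong hd2 hT hTu hα hU hκ0.le (by linarith) hE hs le_rfl
  have hvol : 0 < (2 * s) ^ d := by positivity
  refine ⟨M, ?_, ?_, ?_⟩
  · rw [hM]
    exact isUnit_mn_sk _ _ hT.cont hTs
  · refine hMi.trans (ENNReal.ofReal_le_ofReal ?_)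
    nlinarith
  · -- a good point
    set φ : V d → ℝ≥0∞ := fun y => ENNReal.ofReal (1 / (4 * κ)) *
        (‖(↑M⁻¹ : EV d)‖ₑ * ‖T y - ↑M‖ₑ) +
        ENNReal.ofReal ((2 * s) ^ d / (2 * τ ^ d)) * ENNReal.ofReal (g y) ^ d with hφ
    have hm1 : Measurable fun y => ‖(↑M⁻¹ : EV d)‖ₑ * ‖T y - ↑M‖ₑ :=
      measurable_const.mul (hT.cont.sub continuous_const).enorm.measurable
    have hm2 : Measurable fun y => ENNReal.ofReal (g y) ^ d :=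
      hg.measurable.ennreal_ofReal.pow_const _
    have hcs : (cs d s) univ = ENNReal.ofReal ((2 * s) ^ d) := by
      have h6 : (cs d s) univ = ENNReal.ofReal (2 * s) ^ d := cm_univ _ _
      rw [h6, ENNReal.ofReal_pow (by positivity)]
    have hφi : ∫⁻ y, φ y ∂cs d s ≤ (cs d s) univ := by
      rw [hφ, lintegral_add_left (hm1.const_mul _), lintegral_const_mul _ hm1,
        lintegral_const_mul _ hm2, hcs]
      calc _ ≤ ENNReal.ofReal (1 / (4 * κ)) * ENNReal.ofReal (2 * κ * (2 * s) ^ d) +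
            ENNReal.ofReal ((2 * s) ^ d / (2 * τ ^ d)) * ENNReal.ofReal (τ ^ d) := by
            gcongr
        _ = ENNReal.ofReal (1 / (4 * κ) * (2 * κ * (2 * s) ^ d) +
            (2 * s) ^ d / (2 * τ ^ d) * τ ^ d) := by
            rw [← ENNReal.ofReal_mul (by positivity), ← ENNReal.ofReal_mul (by positivity),
              ← ENNReal.ofReal_add (by positivity) (by positivity)]
        _ = ENNReal.ofReal ((2 * s) ^ d) := by
            congr 1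
            have h1 : τ ^ d ≠ 0 := by positivity
            field_simp
            ring
    have hne : cs d s ≠ 0 := by
      intro h0
      rw [h0] at hcs
      have h1 : ENNReal.ofReal ((2 * s) ^ d) = 0 := hcs.symm
      rw [ENNReal.ofReal_eq_zero] at h1
      linarith
    have hfinm : IsFiniteMeasure (cs d s) := ⟨by rw [hcs]; exact ENNReal.ofReal_lt_top⟩
    obtain ⟨y, hy1, hy2⟩ : ∃ y, ‖y‖ ≤ s ∧ φ y ≤ 1 := by
      have hφm : AEMeasurable φ (cs d s) :=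
        ((hm1.const_mul _).add (hm2.const_mul _)).aemeasurable
      obtain ⟨y, hy1, hy2⟩ := exists_notMem_null_le_laverage hne hφm (ae_iff.1 hcube)
      refine ⟨y, not_not.1 hy1, hy2.trans ?_⟩
      rw [laverage_eq]
      exact ENNReal.div_le_of_le_mul (by rw [one_mul]; exact hφi)
    have hφ1 : ‖(↑M⁻¹ : EV d)‖ * ‖T y - ↑M‖ ≤ 4 * κ := by
      have h1 : ENNReal.ofReal (1 / (4 * κ)) * (‖(↑M⁻¹ : EV d)‖ₑ * ‖T y - ↑M‖ₑ) ≤ 1 :=
        le_trans le_self_add hy2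
      rw [← ofReal_norm, ← ofReal_norm, ← ENNReal.ofReal_mul (norm_nonneg _),
        ← ENNReal.ofReal_mul (by positivity), ENNReal.ofReal_le_one] at h1
      rw [one_div, inv_mul_le_iff₀ (by positivity), mul_one] at h1
      exact h1
    have hφ2 : (2 * s * g y) ^ d ≤ κ ^ d := by
      have h1 : ENNReal.ofReal ((2 * s) ^ d / (2 * τ ^ d)) * ENNReal.ofReal (g y) ^ d ≤ 1 :=
        le_trans le_add_self hy2
      rw [← ENNReal.ofReal_pow (hg0 y), ← ENNReal.ofReal_mul (by positivity),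
        ENNReal.ofReal_le_one, div_mul_eq_mul_div, div_le_one (by positivity), ← mul_pow] at h1
      refine h1.trans ?_
      calc 2 * τ ^ d ≤ 2 ^ d * τ ^ d := by
            gcongr
            exact le_self_pow₀ (by norm_num) (by omega)
        _ = (2 * τ) ^ d := (mul_pow _ _ _).symm
        _ ≤ κ ^ d := pow_le_pow_left₀ (by positivity) hτκ d
    have hgy : 2 * s * g y ≤ κ :=
      (pow_le_pow_iff_left₀ (mul_nonneg (by positivity) (hg0 y)) hκ0.le (by omega)).1 hφ2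
    have hMu : Ring.inverse (M : EV d) = ↑M⁻¹ := Ring.inverse_unit M
    have hnear := P28s.near_inv (a := (M : EV d)) (b := T y) (δ := 4 * κ) M.isUnit
      (by rw [hMu, mul_comm]; exact hφ1) (by linarith)
    have h2 : ‖(↑M⁻¹ : EV d)‖ ≤ 2 * ‖Ring.inverse (T y)‖ := by
      have h3 := hnear.2
      rw [hMu] at h3
      have h4 : 0 ≤ ‖Ring.inverse (T y)‖ := norm_nonneg _
      nlinarith
    have h5 : ‖(M : EV d)‖ ≤ ‖T y‖ + ‖T y - ↑M‖ := by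
      have : (M : EV d) = T y - (T y - ↑M) := by abel
      calc ‖(M : EV d)‖ = ‖T y - (T y - ↑M)‖ := by rw [← this]
        _ ≤ _ := norm_sub_le _ _
    have h6 := hg2 y (hy1.trans hs1)
    have h7 : ‖T y‖ * ‖(↑M⁻¹ : EV d)‖ ≤ 2 * g y := by
      calc ‖T y‖ * ‖(↑M⁻¹ : EV d)‖ ≤ ‖T y‖ * (2 * ‖Ring.inverse (T y)‖) := by gcongr
        _ = 2 * (‖T y‖ * ‖Ring.inverse (T y)‖) := by ring
        _ ≤ 2 * g y := by gcongr
    calc s * ‖(M : EV d)‖ * ‖(↑M⁻¹ : EV d)‖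
        ≤ s * (‖T y‖ + ‖T y - ↑M‖) * ‖(↑M⁻¹ : EV d)‖ := by gcongr
      _ = s * (‖T y‖ * ‖(↑M⁻¹ : EV d)‖) + s * (‖(↑M⁻¹ : EV d)‖ * ‖T y - ↑M‖) := by ring
      _ ≤ s * (2 * g y) + s * (4 * κ) := by gcongr
      _ ≤ κ + 4 * κ := by nlinarith
      _ ≤ η := by linarith

end Pool.Agent.Lib.P28t
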