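import Pool.Agent.Lib.P28t.LinF

set_option autoImplicit false
set_option maxSynthPendingDepth 3

/-!
# Transport of mean closeness

PROOF. Let `N = ‖z‖`, `z' = (2N)⁻¹ • z = T e0`, `α' = pbl T α`, `ρ' = ρ/(2N)`. For `x = (2N) • T y`: `dw α x p q = (2N)⁻² dw α (T y) p q = (2N)⁻² dw α' y (T⁻¹ p) (T⁻¹ q)` (`Con.dw_hom` with the real number `2N`: `dw α (r u) p q = r⁻² dw α u p q`; `dw_pbl`).
Put `ct p q = (2N)⁻² ct' (T⁻¹ p) (T⁻¹ q)`: skew, `ct (c • z) = 0` (`T⁻¹ (c z) = 2 N c e0`). CLOSENESS: the map `y ↦ (2N) • T y` sends `e0` to `z`, and the preimage of `closedBall z ρ` is contained in `closedBall e0 (4 ρ')` (`‖T⁻¹ w‖ ≤ 4 ‖w‖`).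
`‖dw α x - ct‖ ≤ 16 (2N)⁻² ‖dw α' y - ct'‖`; change of variables `∫_{closedBall z ρ} F(x) dx = (2N)^(2n+2) vf(T) ∫ F((2N) T y) dy` (`GoodAllAux.cov`, `vf_le`, `Measure.setLIntegral_comp_smul` or `Measure.map_addHaar_smul`; compare `good_of_comp`, `good_smul` in `P28e/GoodAll.lean`), volumes: `volume (closedBall e0 (4 ρ')) = 4^(2n+2) (2N)^(-(2n+2)) volume (closedBall z ρ)`.
LOWER BOUND: for `hip z p = 0` let `u = T⁻¹ p = u 0 • e0 + u'`, `hip e0 u' = 0`: `‖ct' u‖ = ‖ct' u'‖ ≥ σ' ‖u'‖`; `T u' = p - u 0 • z'`, and `‖p‖ ≤ (n + 2) ‖p - u 0 • z'‖ ≤ (n+2) ‖u'‖` (last claim of `exists_decomp` with `v = p`; the decomposition of `p` is `p = 0 • z + p` as `hip z p = 0`, by uniqueness of the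
coefficient `hip z v / nsq z`). `‖ct p‖ ≥ (2N)⁻² ‖ct' u‖` since `|ct' u w| = (2N)² |ct p (T w)|`, `‖T w‖ ≤ ‖w‖`. So `σ = (2N)⁻² σ' / (n+2)`, and the constants combine: `C = 16 (n+2) 4^(2n+2)` or larger. `mclose_move`: the ball at `w` is contained in the ball at `z`, its volume is at least `K^(-(2n+2))` times the volume of
the latter (`vol_ball_W` or `Measure.addHaar_closedBall`).
-/

open MeasureTheory Set Metric
open scoped ContDiff Topology ENNReal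

namespace Pool.Agent.Lib.P28t

open Pool.Agent.P28b04d Pool.Agent.Lib.P28e Pool.Agent.Lib.P28c
open Pool.Agent.Lib.P28f (V EV)
open Pool.Agent.Lib.P28g (TT)

variable {n : ℕ}

namespace MTransAux

open Pool.Agent.Lib.P28e.GoodAllAux (vf cov vol_image finrank_W')

theorem e0_ne (n : ℕ) : e0 n ≠ 0 := by
  intro h
  have := congrFun h 0
  simp [e0] at this

/-- The linear equivalence `x ↦ r T x`. -/
noncomputable def sT (T : W n ≃L[ℝ] W n) (r : ℝ) (hr : r ≠ 0) : W n ≃L[ℝ] W n :=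
  ContinuousLinearEquiv.equivOfInverse (r • (T : W n →L[ℝ] W n)) (r⁻¹ • (T.symm : W n →L[ℝ] W n))
    (fun x => by
      change r⁻¹ • T.symm (r • T x) = x
      rw [map_smul, T.symm_apply_apply, smul_smul, inv_mul_cancel₀ hr, one_smul])
    (fun x => by
      change r • T (r⁻¹ • T.symm x) = x
      rw [map_smul, T.apply_symm_apply, smul_smul, mul_inv_cancel₀ hr, one_smul])

theorem sT_apply (T : W n ≃L[ℝ] W n) (r : ℝ) (hr : r ≠ 0) (x : W n) :
    sT T r hr x = r • T x := rfl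

/-- The form `r⁻² B(T⁻¹ ·, T⁻¹ ·)`. -/
noncomputable def tb (T : W n ≃L[ℝ] W n) (r : ℝ) (B : BW n) : BW n :=
  (r⁻¹ ^ 2) • B.bilinearComp (T.symm : W n →L[ℝ] W n) (T.symm : W n →L[ℝ] W n)

theorem tb_apply (T : W n ≃L[ℝ] W n) (r : ℝ) (B : BW n) (p q : W n) :
    tb T r B p q = r⁻¹ ^ 2 * B (T.symm p) (T.symm q) := rfl

theorem symm_smul {T : W n ≃L[ℝ] W n} (hT : TT T) (c : ℂ) (x : W n) :
    T.symm (c • x) = c • T.symm x := by
  apply T.injective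
  rw [T.apply_symm_apply, hT.hom, T.apply_symm_apply]

theorem dw_real {α : FW n} (h : Con α) {r : ℝ} (hr : r ≠ 0) {y : W n} (hy : y ≠ 0) (p q : W n) :
    dw α (r • y) p q = r⁻¹ ^ 2 * dw α y p q := by
  have hc : (r : ℂ) ≠ 0 := by exact_mod_cast hr
  have h1 := h.dw_hom hc hy (r⁻¹ • p) (r⁻¹ • q)
  have e : ∀ v : W n, (r : ℂ) • v = r • v := fun v => by
    rw [← Complex.coe_smul]
  rw [e, e, e, smul_smul, smul_smul, mul_inv_cancel₀ hr, one_smul, one_smul] at h1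
  rw [h1]
  simp only [map_smul, ContinuousLinearMap.smul_apply, smul_eq_mul]
  ring

/-- the key pointwise estimate -/
theorem norm_tb_le {α : FW n} (h : Con α) {T : W n ≃L[ℝ] W n} (hT : TT T) {r : ℝ} (hr : 0 < r)
    {x : W n} (hx : x ≠ 0) (B : BW n) :
    ‖dw α (r • T x) - tb T r B‖ ≤ 16 * r⁻¹ ^ 2 * ‖dw (pbl T α) x - B‖ := by
  have hTx : T x ≠ 0 := fun h0 => hx (T.injective (by rw [h0, map_zero]))
  refine ContinuousLinearMap.opNorm_le_bound₂ _ (by positivity) fun p q => ?_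
  have h1 : (dw α (r • T x) - tb T r B) p q =
      r⁻¹ ^ 2 * ((dw (pbl T α) x - B) (T.symm p) (T.symm q)) := by
    rw [ContinuousLinearMap.sub_apply, ContinuousLinearMap.sub_apply, dw_real h hr.ne' hTx,
      tb_apply, ContinuousLinearMap.sub_apply, ContinuousLinearMap.sub_apply, dw_pbl h T hx,
      T.apply_symm_apply, T.apply_symm_apply]
    ring
  rw [h1, norm_mul, norm_pow, norm_inv, Real.norm_of_nonneg hr.le]
  have h2 := (dw (pbl T α) x - B).le_opNorm₂ (T.symm p) (T.symm q)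
  have h3 := hT.symm_le p
  have h4 := hT.symm_le q
  calc r⁻¹ ^ 2 * ‖(dw (pbl T α) x - B) (T.symm p) (T.symm q)‖
      ≤ r⁻¹ ^ 2 * (‖dw (pbl T α) x - B‖ * ‖T.symm p‖ * ‖T.symm q‖) := by gcongr
    _ ≤ r⁻¹ ^ 2 * (‖dw (pbl T α) x - B‖ * (4 * ‖p‖) * (4 * ‖q‖)) := by gcongr
    _ = _ := by ring

theorem volume_closedBall_scale (w : W n) {ρ K : ℝ} (hρ : 0 ≤ ρ) (hK : 0 ≤ K) :
    volume (closedBall w (K * ρ)) = ENNReal.ofReal (K ^ (2 * n + 2)) * volume (closedBall w ρ) := by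
  rw [Measure.addHaar_closedBall' _ _ (by positivity), Measure.addHaar_closedBall' _ _ hρ,
    finrank_W', mul_pow, ENNReal.ofReal_mul (by positivity), mul_assoc]

theorem volume_closedBall_eq (w w' : W n) (ρ : ℝ) :
    volume (closedBall w ρ) = volume (closedBall w' ρ) := by
  rw [Measure.addHaar_closedBall_center volume w, Measure.addHaar_closedBall_center volume w']

theorem norm_le_of_hip {z : W n} (hz : z ≠ 0) {p : W n} (hp : hip z p = 0) (b : ℂ) :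
    ‖p‖ ≤ ((n : ℝ) + 2) * ‖p - b • z‖ := by
  obtain ⟨c, q, hpq, hq, _, hb⟩ := exists_decomp hz p
  have h1 : hip z p = c * hip z z + hip z q := by
    rw [hpq]
    unfold hip
    simp only [Pi.add_apply, Pi.smul_apply, smul_eq_mul]
    rw [Finset.mul_sum, ← Finset.sum_add_distrib]
    refine Finset.sum_congr rfl fun k _ => ?_
    ring
  rw [hp, hq, add_zero, hip_self] at h1
  have h2 : c = 0 := by
    rcases mul_eq_zero.1 h1.symm with h | h
    · exact h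
    · exact absurd h (nsq_ne hz)
  have h3 : p = q := by
    rw [hpq, h2, zero_smul, zero_add]
  have h4 := hb b
  rwa [← h3] at h4

theorem close {α : FW n} (h : Con α) {T : W n ≃L[ℝ] W n} (hT : TT T) {z : W n} (hz : z ≠ 0)
    (hTz : T (e0 n) = (2 * ‖z‖)⁻¹ • z) {ρ e : ℝ} {B : BW n} (hρ : 0 < ρ) (hρz : ρ ≤ ‖z‖ / 8)
    (he : 0 ≤ e)
    (hB : ∫⁻ x in closedBall (e0 n) (4 * (ρ / (2 * ‖z‖))), ‖dw (pbl T α) x - B‖ₑ ≤
      ENNReal.ofReal e * volume (closedBall (e0 n) (4 * (ρ / (2 * ‖z‖))))) :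
    ∫⁻ x in closedBall z ρ, ‖dw α x - tb T (2 * ‖z‖) B‖ₑ ≤
      ENNReal.ofReal (16 * (2 * ‖z‖)⁻¹ ^ 2 * 4 ^ (2 * n + 2) * e) * volume (closedBall z ρ) := by
  have hnz : 0 < ‖z‖ := norm_pos_iff.2 hz
  set r : ℝ := 2 * ‖z‖ with hrdef
  have hr : 0 < r := by positivity
  set S := sT T r hr.ne' with hS
  have hSe : S (e0 n) = z := by
    rw [hS, sT_apply, hTz, smul_smul, mul_inv_cancel₀ hr.ne', one_smul]
  have hSle : ∀ x, ‖S x‖ ≤ r * ‖x‖ := by
    intro x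
    rw [hS, sT_apply, norm_smul, Real.norm_of_nonneg hr.le]
    exact mul_le_mul_of_nonneg_left (hT.le x) hr.le
  have hSlow : ∀ x, ‖x‖ ≤ 4 / r * ‖S x‖ := by
    intro x
    have h1 := hT.symm_le (T x)
    rw [T.symm_apply_apply] at h1
    rw [hS, sT_apply, norm_smul, Real.norm_of_nonneg hr.le]
    calc ‖x‖ ≤ 4 * ‖T x‖ := h1
      _ = 4 / r * (r * ‖T x‖) := by field_simp
  set s : Set (W n) := S ⁻¹' closedBall z ρ with hs
  have hsm : MeasurableSet s := measurableSet_closedBall.preimage S.continuous.measurable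
  have hTs : S '' s = closedBall z ρ := image_preimage_eq _ S.surjective
  have hss : s ⊆ closedBall (e0 n) (4 * (ρ / r)) := by
    intro x hx
    rw [hs, mem_preimage, mem_closedBall, dist_eq_norm] at hx
    rw [mem_closedBall, dist_eq_norm]
    have h1 := hSlow (x - e0 n)
    rw [map_sub, hSe] at h1
    calc ‖x - e0 n‖ ≤ 4 / r * ‖S x - z‖ := h1
      _ ≤ 4 / r * ρ := by gcongr
      _ = 4 * (ρ / r) := by ring
  have hs0 : ∀ x ∈ s, x ≠ 0 := by
    rintro x hx rfl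
    rw [hs, mem_preimage, map_zero, mem_closedBall, dist_eq_norm, zero_sub, norm_neg] at hx
    linarith
  have hvol : vf S * volume (closedBall (e0 n) (4 * (ρ / r))) ≤
      ENNReal.ofReal (4 ^ (2 * n + 2)) * volume (closedBall z ρ) := by
    rw [← vol_image S measurableSet_closedBall, ← volume_closedBall_scale z hρ.le (by norm_num)]
    apply measure_mono
    rintro _ ⟨x, hx, rfl⟩
    rw [mem_closedBall, dist_eq_norm] at hx ⊢
    have h1 : S x - z = S (x - e0 n) := by rw [map_sub, hSe]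
    rw [h1]
    calc ‖S (x - e0 n)‖ ≤ r * ‖x - e0 n‖ := hSle _
      _ ≤ r * (4 * (ρ / r)) := by gcongr
      _ = 4 * ρ := by field_simp
  have key : ∀ x ∈ s, ‖dw α (S x) - tb T r B‖ₑ ≤
      ENNReal.ofReal (16 * r⁻¹ ^ 2) * ‖dw (pbl T α) x - B‖ₑ := by
    intro x hx
    rw [← ofReal_norm, ← ofReal_norm, ← ENNReal.ofReal_mul (by positivity)]
    exact ENNReal.ofReal_le_ofReal (norm_tb_le h hT hr (hs0 x hx) B)
  calc ∫⁻ x in closedBall z ρ, ‖dw α x - tb T r B‖ₑ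
      = vf S * ∫⁻ x in s, ‖dw α (S x) - tb T r B‖ₑ := by
        rw [← hTs, cov S hsm (fun x => ‖dw α x - tb T r B‖ₑ)]
    _ ≤ vf S * ∫⁻ x in s, ENNReal.ofReal (16 * r⁻¹ ^ 2) * ‖dw (pbl T α) x - B‖ₑ := by
        exact mul_le_mul' le_rfl (setLIntegral_mono' hsm key)
    _ = ENNReal.ofReal (16 * r⁻¹ ^ 2) * (vf S * ∫⁻ x in s, ‖dw (pbl T α) x - B‖ₑ) := by
        rw [lintegral_const_mul' _ _ ENNReal.ofReal_ne_top]
        ring
    _ ≤ ENNReal.ofReal (16 * r⁻¹ ^ 2) * (vf S *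
          (ENNReal.ofReal e * volume (closedBall (e0 n) (4 * (ρ / r))))) := by
        exact mul_le_mul' le_rfl (mul_le_mul' le_rfl ((lintegral_mono_set hss).trans hB))
    _ = ENNReal.ofReal (16 * r⁻¹ ^ 2) * ENNReal.ofReal e *
          (vf S * volume (closedBall (e0 n) (4 * (ρ / r)))) := by ring
    _ ≤ ENNReal.ofReal (16 * r⁻¹ ^ 2) * ENNReal.ofReal e *
          (ENNReal.ofReal (4 ^ (2 * n + 2)) * volume (closedBall z ρ)) := by gcongr
    _ = _ := by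
        rw [← mul_assoc, ← ENNReal.ofReal_mul (by positivity), ← ENNReal.ofReal_mul (by positivity)]
        congr 2
        ring

end MTransAux

open MTransAux

theorem mgood_trans (n : ℕ) : ∃ C : ℝ, 1 ≤ C ∧ ∀ α : FW n, Con α → ∀ T : W n ≃L[ℝ] W n, TT T →
    ∀ z : W n, z ≠ 0 → T (e0 n) = (2 * ‖z‖)⁻¹ • z → ∀ (ρ η : ℝ) (ct' : BW n) (σ' : ℝ), 0 < ρ →
      ρ ≤ ‖z‖ / 8 → 0 ≤ η → MGood (pbl T α) (e0 n) (4 * (ρ / (2 * ‖z‖))) η ct' σ' →
      ∃ (ct : BW n) (σ : ℝ), MGood α z ρ (C * η) ct σ := by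
  refine ⟨16 * 4 ^ (2 * n + 2) * ((n : ℝ) + 2), ?_, ?_⟩
  · have h1 : (1 : ℝ) ≤ 4 ^ (2 * n + 2) := one_le_pow₀ (by norm_num)
    have h2 : (0 : ℝ) ≤ n := Nat.cast_nonneg _
    nlinarith
  intro α hα T hT z hz hTz ρ η ct' σ' hρ hρz hη hM
  obtain ⟨hσ', ⟨hsk, hint⟩, hker, hlow⟩ := hM
  have hnz : 0 < ‖z‖ := norm_pos_iff.2 hz
  have hr : (0 : ℝ) < 2 * ‖z‖ := by positivity
  have hn : (0 : ℝ) < (n : ℝ) + 2 := by positivity
  refine ⟨tb T (2 * ‖z‖) ct', (2 * ‖z‖)⁻¹ ^ 2 * σ' / ((n : ℝ) + 2), by positivity,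
    ⟨?_, ?_⟩, ?_, ?_⟩
  · intro v w
    rw [tb_apply, tb_apply, hsk]
    ring
  · have h1 := close hα hT hz hTz hρ hρz (mul_nonneg hη hσ'.le) hint
    refine h1.trans (le_of_eq ?_)
    congr 2
    field_simp
  · intro c w
    rw [tb_apply]
    have h1 : T.symm (c • z) = (c * ((2 * ‖z‖ : ℝ) : ℂ)) • e0 n := by
      have h2 : z = ((2 * ‖z‖ : ℝ) : ℂ) • T (e0 n) := by
        rw [hTz, Complex.coe_smul, smul_smul, mul_inv_cancel₀ hr.ne', one_smul]
      conv_lhs => rw [h2]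
      rw [smul_smul, ← hT.hom, T.symm_apply_apply]
    rw [h1, hker, mul_zero]
  · intro p hp
    obtain ⟨c, u', hu, hu', _, _⟩ := exists_decomp (MTransAux.e0_ne n) (T.symm p)
    have h1 : ct' (T.symm p) = ct' u' := by
      ext w
      rw [hu, map_add, ContinuousLinearMap.add_apply, hker, zero_add]
    have h2 := hlow u' hu'
    have h3 : T u' = p - (c * (((2 * ‖z‖)⁻¹ : ℝ) : ℂ)) • z := by
      have h4 : T (T.symm p) = c • T (e0 n) + T u' := by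
        rw [hu, map_add, hT.hom]
      rw [T.apply_symm_apply, hTz] at h4
      rw [h4, ← smul_smul, Complex.coe_smul, add_sub_cancel_left]
    have h4 : ‖p‖ ≤ ((n : ℝ) + 2) * ‖u'‖ := by
      refine (norm_le_of_hip hz hp (c * (((2 * ‖z‖)⁻¹ : ℝ) : ℂ))).trans ?_
      rw [← h3]
      exact mul_le_mul_of_nonneg_left (hT.le u') hn.le
    have h5 : ‖ct' (T.symm p)‖ ≤ (2 * ‖z‖) ^ 2 * ‖tb T (2 * ‖z‖) ct' p‖ := by
      refine ContinuousLinearMap.opNorm_le_bound _ (by positivity) fun w => ?_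
      have h6 : ct' (T.symm p) w = (2 * ‖z‖) ^ 2 * tb T (2 * ‖z‖) ct' p (T w) := by
        rw [tb_apply, T.symm_apply_apply, ← mul_assoc, ← mul_pow, mul_inv_cancel₀ hr.ne',
          one_pow, one_mul]
      rw [h6, norm_mul, Real.norm_of_nonneg (by positivity), mul_assoc]
      refine mul_le_mul_of_nonneg_left ?_ (by positivity)
      exact ((tb T (2 * ‖z‖) ct' p).le_opNorm _).trans
        (mul_le_mul_of_nonneg_left (hT.le w) (norm_nonneg _))
    have h6 : σ' * ‖u'‖ ≤ (2 * ‖z‖) ^ 2 * ‖tb T (2 * ‖z‖) ct' p‖ := by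
      rw [h1] at h5
      exact h2.trans h5
    calc (2 * ‖z‖)⁻¹ ^ 2 * σ' / ((n : ℝ) + 2) * ‖p‖
        ≤ (2 * ‖z‖)⁻¹ ^ 2 * σ' / ((n : ℝ) + 2) * (((n : ℝ) + 2) * ‖u'‖) := by gcongr
      _ = (2 * ‖z‖)⁻¹ ^ 2 * (σ' * ‖u'‖) := by field_simp
      _ ≤ (2 * ‖z‖)⁻¹ ^ 2 * ((2 * ‖z‖) ^ 2 * ‖tb T (2 * ‖z‖) ct' p‖) := by gcongr
      _ = ‖tb T (2 * ‖z‖) ct' p‖ := by
        rw [← mul_assoc, ← mul_pow, inv_mul_cancel₀ hr.ne', one_pow, one_mul]

theorem mclose_move {α : FW n} {z w : W n} {ρ ρ' e K : ℝ} {ct : BW n}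
    (h : MClose α z ρ e ct) (hρ' : 0 < ρ') (hK : 1 ≤ K) (he : 0 ≤ e)
    (hs : closedBall w ρ' ⊆ closedBall z ρ) (hρ : ρ ≤ K * ρ') :
    MClose α w ρ' (K ^ (2 * n + 2) * e) ct := by
  refine ⟨h.1, ?_⟩
  have hK0 : 0 ≤ K := zero_le_one.trans hK
  calc ∫⁻ x in closedBall w ρ', ‖dw α x - ct‖ₑ
      ≤ ∫⁻ x in closedBall z ρ, ‖dw α x - ct‖ₑ := lintegral_mono_set hs
    _ ≤ ENNReal.ofReal e * volume (closedBall z ρ) := h.2
    _ ≤ ENNReal.ofReal e * volume (closedBall z (K * ρ')) := by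
        gcongr
    _ = ENNReal.ofReal (K ^ (2 * n + 2) * e) * volume (closedBall w ρ') := by
        rw [volume_closedBall_scale z hρ'.le hK0, volume_closedBall_eq z w,
          ENNReal.ofReal_mul (by positivity)]
        ring

end Pool.Agent.Lib.P28t
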