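import Pool.Agent.Lib.P28t.CpAmb
import Pool.Agent.Lib.P28s.AmbInit
import Pool.Agent.Lib.P28s.AmbSeg
import Pool.Agent.Lib.P28g.PairA

set_option autoImplicit false
set_option maxSynthPendingDepth 3

/-!
# Two forms with the same bubbles and comparable outer parts

PROOF. `m = n * 2 ≥ 3`. `C₁` from `chF_bounds`, `chF_sub`, `chF_inv` and the comparison below; `η = 1/100`, `δ₁` from `rep_init`; `ε₁ = 1/(100 C)` with `C` large. `M = cpAmb hC`. For `a ∈ A` choose from `hlab` a cut `kb a` of the chart form of `α'` with constant `cb a` (`LabEq` unfolds to cuts `k, k'` with `PathV k k'`; take `kb a = k'`), `Bub cb 1 kb` (`CutOf` gives `Obj _ 1 _`).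
For every cut `k` of the chart form of `α`: `PathV k (kb a)` (`LabEq.path`); for every cut of the chart form of `α'`: `cut_uniq`. `rep_init` (`cp_nd`, `cp_res`, `hfl`) gives `g`, `o = α + ∑ ext a (g a)` with `Rep α o`, and `g'`, `o'` for `α'`. Write `D_a v = dd (M.res a o) v`, `c_a = dd (M.res a α) (w0)`, similarly `D'_a`, `c'_a`: for `‖v‖ ≤ 1` `‖D_a v - c_a‖ ‖c_a⁻¹‖ ≤ 1/100`.
`M.Seg o o'`: let `t ∈ [0,1]`, `γ = (1-t) o + t o'`. `Con γ` (`Con.affine`; `o, o'` are `Con`: `M.Dec` / `Rep` give `ND o`, so `Symp o`). (i) `z ≠ 0` with `pt z ≠ pt (T a (sl x))` for all `a ∈ A`, `‖x‖ < s/2`: the forms `ext a (g a)` vanish near `z` (`exF_out`), `dw γ z = (1-t) dw α z + t dw α' z`; with `P = l dw α z`, `P' = l' dw α' z`,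
`dw γ z = ((1-t)/l) P + (t/l') P'`, `(P' - P)` is small by `hcl` (the point satisfies `Out A T (s/8) z`): for `hip z p = 0`: `‖dw γ z p‖ ≥ ((1-t)/l + t/l') ‖P p‖ - (t/l') ε₁ ‖P p‖ > 0` for `p ≠ 0` (`P p ≠ 0` since `α` is `Symp`), so `NdAt γ z` (`ndAt_of_lower` needs a uniform bound: use `Con.lower` for `α`, or argue directly: `v = c z + p`, `dw γ z v = dw γ z p = 0` forces `p = 0`).
(ii) `‖v‖ < 5/4`, chart `a`. If `‖v‖ ≥ 1`, `z = T a (sl ((s/2) v))` is as in (i) (`disj`, `pt_T_inj`), and `dd (M.res a γ) v` is a unit by `isUnit_chF`, `ndAt_pbl`. If `‖v‖ < 1`: `dd (M.res a γ) v = (1-t) D_a v + t D'_a v`. Let `x₀ = (s/2) w0`, `z₀ = T a (sl x₀)` (`‖x₀‖ = 3s/8 ≥ s/8`, so `Out A T (s/8) z₀`): by `hcl`, `chF_sub`, `chF_inv` and the lower bound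
`‖l dw α z₀ p‖ ≥ ‖l' dw α' z₀ - l dw α z₀‖ ‖p‖ / ε₁` (transported to `pbl (T a)` as in `dens_pbl`, `ChartT`) one gets `‖l' c'_a - l c_a‖ ‖(l c_a)⁻¹‖ ≤ C ε₁ ≤ 1/100` (if the difference is `0` this is trivial). So `l D_a v` and `l' D'_a v` are both near `l c_a` (`near_inv`), and a combination with positive coefficients of two operators `X, Y` with
`‖X - c‖ ‖c⁻¹‖, ‖Y - c‖ ‖c⁻¹‖ < 1` is a unit (divide by the sum of the coefficients, `near_mid`). Smoothness is clear.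
Then `rep_seg` (with `c' a = c'_a`, skew by `sk_dd`) gives `Rep α o'`, and `Rep α' o'`; `rep_final`: `M.Eqv α α'`; `cp_eqv`.
-/

open MeasureTheory Set Metric
open scoped ContDiff Topology ENNReal

namespace Pool.Agent.Lib.P28t

open Pool.Agent.P28b04d Pool.Agent.Lib.P28e Pool.Agent.Lib.P28c
open Pool.Agent.Lib.P28f (V EV)
open Pool.Agent.Lib.P28g (TT)

variable {n : ℕ}

namespace PairSAux

theorem pos_comb {l l' ε t : ℝ} (hl : 0 < l) (hl' : 0 < l') (hε : ε < 1) (ht : t ∈ Icc (0 : ℝ) 1) :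
    0 < (1 - t) * l' + t * l * (1 - ε) := by
  obtain ⟨h0, h1⟩ := ht
  rcases eq_or_lt_of_le h0 with h | h
  · rw [← h]
    simpa using hl'
  · have h2 : 0 < t * l * (1 - ε) := mul_pos (mul_pos h hl) (by linarith)
    have h3 : 0 ≤ (1 - t) * l' := mul_nonneg (by linarith) hl'.le
    linarith

/-- Outside the chart balls. -/
theorem ndAt_mid {α α' γ : FW n} (hα : Symp α) {l l' ε t : ℝ} (hl : 0 < l)
    (hl' : 0 < l') (hε : ε < 1) (ht : t ∈ Icc (0 : ℝ) 1) (hγ : Con γ) {z : W n} (hz : z ≠ 0)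
    (hd : dw γ z = (1 - t) • dw α z + t • dw α' z)
    (hcl : ∀ p : W n, hip z p = 0 →
      ‖l' • dw α' z - l • dw α z‖ * ‖p‖ ≤ ε * ‖l • dw α z p‖) : NdAt γ z := by
  intro v hv
  obtain ⟨c, p, h1, h2, -, -⟩ := exists_decomp hz v
  have h3 : dw γ z p = 0 := by
    ext w
    have h4 := hv w
    rw [h1, map_add, _root_.add_apply, hγ.dw_left hz, zero_add] at h4
    exact h4
  set P : W n →L[ℝ] ℝ := l • dw α z p with hP
  set P' : W n →L[ℝ] ℝ := l' • dw α' z p with hP'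
  have h4 : ((1 - t) * l' + t * l) • P = -((t * l) • (P' - P)) := by
    have h5 : (1 - t) • dw α z p + t • dw α' z p = 0 := by
      rw [← h3, hd]
      rfl
    have h6 : ((1 - t) * l' + t * l) • P + (t * l) • (P' - P) =
        (l * l') • ((1 - t) • dw α z p + t • dw α' z p) := by
      rw [hP, hP']
      module
    rw [h5, smul_zero] at h6
    exact eq_neg_of_add_eq_zero_left h6
  have h5 : ‖P' - P‖ ≤ ε * ‖P‖ := by
    have e : P' - P = (l' • dw α' z - l • dw α z) p := rfl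
    rw [e]
    exact (ContinuousLinearMap.le_opNorm _ _).trans (hcl p h2)
  have ht0 := ht.1
  have ht1 := ht.2
  have hc1 : 0 ≤ t * l := mul_nonneg ht0 hl.le
  have hc2 : 0 ≤ (1 - t) * l' := mul_nonneg (by linarith) hl'.le
  have h6 : ((1 - t) * l' + t * l) * ‖P‖ = (t * l) * ‖P' - P‖ := by
    have e1 : ‖((1 - t) * l' + t * l) • P‖ = ((1 - t) * l' + t * l) * ‖P‖ := by
      rw [norm_smul, Real.norm_of_nonneg (by linarith)]
    have e2 : ‖(t * l) • (P' - P)‖ = (t * l) * ‖P' - P‖ := by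
      rw [norm_smul, Real.norm_of_nonneg hc1]
    rw [← e1, ← e2, h4, norm_neg]
  have h7 : ((1 - t) * l' + t * l * (1 - ε)) * ‖P‖ ≤ 0 := by
    have h8 : (t * l) * ‖P' - P‖ ≤ (t * l) * (ε * ‖P‖) := mul_le_mul_of_nonneg_left h5 hc1
    linarith
  have h8 : ‖P‖ ≤ 0 := by
    by_contra hcon
    push Not at hcon
    have := mul_pos (pos_comb hl hl' hε ht) hcon
    linarith
  have h9 : dw α z p = 0 := by
    have h10 : P = 0 := norm_le_zero_iff.1 h8
    rw [hP] at h10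
    rcases smul_eq_zero.1 h10 with h | h
    · exact absurd h hl.ne'
    · exact h
  obtain ⟨b, hb⟩ := hα.2 z hz p (fun w => by rw [h9]; rfl)
  have h10 : p = 0 := by
    obtain ⟨c', p', e1, e2, -, -⟩ := exists_decomp hz p
    have e3 := LinFAux.p_le hz h2 b
    rw [← hb, sub_self, norm_zero, mul_zero] at e3
    exact norm_le_zero_iff.1 e3
  exact ⟨c, by rw [h1, h10, add_zero]⟩

variable {m : ℕ}

theorem unit_smul {c : EV m} (hc : IsUnit c) {r : ℝ} (hr : r ≠ 0) : IsUnit (r • c) := by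
  rw [Algebra.smul_def]
  exact ((IsUnit.mk0 r hr).map (algebraMap ℝ (EV m))).mul hc

theorem inverse_smul {c : EV m} (hc : IsUnit c) {r : ℝ} (hr : r ≠ 0) :
    Ring.inverse (r • c) = r⁻¹ • Ring.inverse c := by
  have h1 : (r⁻¹ • Ring.inverse c) * (r • c) = 1 := by
    rw [smul_mul_smul_comm, Ring.inverse_mul_cancel c hc, inv_mul_cancel₀ hr, one_smul]
  calc Ring.inverse (r • c) = ((r⁻¹ • Ring.inverse c) * (r • c)) * Ring.inverse (r • c) := by
        rw [h1, one_mul]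
    _ = r⁻¹ • Ring.inverse c := by
        rw [mul_assoc, Ring.mul_inverse_cancel _ (unit_smul hc hr), mul_one]

theorem scale_inv {c D : EV m} (hc : IsUnit c) {r : ℝ} (hr : 0 < r) :
    ‖r • D - r • c‖ * ‖Ring.inverse (r • c)‖ = ‖D - c‖ * ‖Ring.inverse c‖ := by
  rw [inverse_smul hc hr.ne', ← smul_sub, norm_smul, norm_smul, norm_inv, Real.norm_of_nonneg hr.le]
  field_simp

theorem unit_mid {c c' D D' : EV m} (hc : IsUnit c) (hc' : IsUnit c') {l l' t : ℝ} (hl : 0 < l)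
    (hl' : 0 < l') (ht : t ∈ Icc (0 : ℝ) 1)
    (h1 : ‖D - c‖ * ‖Ring.inverse c‖ ≤ 1 / 100) (h2 : ‖D' - c'‖ * ‖Ring.inverse c'‖ ≤ 1 / 100)
    (h3 : ‖l' • c' - l • c‖ * ‖Ring.inverse (l • c)‖ ≤ 1 / 100) :
    IsUnit ((1 - t) • D + t • D') := by
  have ha : IsUnit (l • c) := unit_smul hc hl.ne'
  have hb1 : ‖l • D - l • c‖ * ‖Ring.inverse (l • c)‖ < 1 := by
    rw [scale_inv hc hl]
    linarith
  have hn := (P28s.near_inv ha h3 (by norm_num)).2
  have hb2 : ‖l' • D' - l • c‖ * ‖Ring.inverse (l • c)‖ < 1 := by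
    have h4 : ‖l' • D' - l • c‖ ≤ ‖l' • D' - l' • c'‖ + ‖l' • c' - l • c‖ := by
      have e : l' • D' - l • c = (l' • D' - l' • c') + (l' • c' - l • c) := by abel
      rw [e]
      exact norm_add_le _ _
    have h5 : ‖l' • D' - l' • c'‖ * ‖Ring.inverse (l • c)‖ ≤ 1 / 100 * (1 + 1 / 100) := by
      have h6 := scale_inv (D := D') hc' hl'
      calc ‖l' • D' - l' • c'‖ * ‖Ring.inverse (l • c)‖
          ≤ ‖l' • D' - l' • c'‖ * (‖Ring.inverse (l' • c')‖ * (1 + 1 / 100)) :=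
            mul_le_mul_of_nonneg_left hn (norm_nonneg _)
        _ = (‖D' - c'‖ * ‖Ring.inverse c'‖) * (1 + 1 / 100) := by rw [← mul_assoc, h6]
        _ ≤ 1 / 100 * (1 + 1 / 100) := mul_le_mul_of_nonneg_right h2 (by norm_num)
    calc ‖l' • D' - l • c‖ * ‖Ring.inverse (l • c)‖
        ≤ (‖l' • D' - l' • c'‖ + ‖l' • c' - l • c‖) * ‖Ring.inverse (l • c)‖ :=
          mul_le_mul_of_nonneg_right h4 (norm_nonneg _)
      _ = ‖l' • D' - l' • c'‖ * ‖Ring.inverse (l • c)‖ +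
          ‖l' • c' - l • c‖ * ‖Ring.inverse (l • c)‖ := by ring
      _ ≤ 1 / 100 * (1 + 1 / 100) + 1 / 100 := add_le_add h5 h3
      _ < 1 := by norm_num
  set S : ℝ := (1 - t) / l + t / l' with hS
  have hS0 : 0 < S := by
    have h4 := pos_comb (ε := 0) hl hl' (by norm_num) ht
    have e : S = ((1 - t) * l' + t * l * (1 - 0)) / (l * l') := by
      rw [hS]
      field_simp
      ring
    rw [e]
    exact div_pos h4 (mul_pos hl hl')
  set t' : ℝ := (t / l') / S with ht'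
  have ht'0 : 0 ≤ t' := div_nonneg (div_nonneg ht.1 hl'.le) hS0.le
  have ht'1 : t' ≤ 1 := by
    rw [ht', div_le_one hS0, hS]
    have : 0 ≤ (1 - t) / l := div_nonneg (by linarith [ht.2]) hl.le
    linarith
  have h4 := P28s.near_mid ha hb1 hb2 ⟨ht'0, ht'1⟩
  have h5 : (1 - t) • D + t • D' = S • ((1 - t') • (l • D) + t' • (l' • D')) := by
    have e1 : S * t' * l' = t := by
      rw [ht']
      field_simp
    have e2 : S * (1 - t') * l = 1 - t := by
      have e3 : S * t' = t / l' := by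
        rw [ht']
        field_simp
      rw [mul_sub, e3, hS, mul_one]
      field_simp
      ring
    rw [smul_add, smul_smul, smul_smul, smul_smul, smul_smul, e1, e2]
  rw [h5]
  exact unit_smul h4 hS0.ne'

theorem const_cmp (n : ℕ) : ∃ C : ℝ, 1 ≤ C ∧ ∀ (T : W n ≃L[ℝ] W n) (_ : TT T) (α α' : FW n)
    (_ : Con α) (_ : Con α') (x : V (n * 2)) (_ : ‖x‖ ≤ 1) (l l' ε : ℝ) (_ : 0 < l) (_ : 0 < ε)
    (_ : ∀ p : W n, hip (T (sl n x)) p = 0 →
      ‖l' • dw α' (T (sl n x)) - l • dw α (T (sl n x))‖ * ‖p‖ ≤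
        ε * ‖l • dw α (T (sl n x)) p‖),
    ‖l' • P28s.dd (chF (pbl T α')) x - l • P28s.dd (chF (pbl T α)) x‖ *
      ‖Ring.inverse (l • P28s.dd (chF (pbl T α)) x)‖ ≤ C * ε := by
  obtain ⟨Cs, hCs, hsub⟩ := chF_sub n
  obtain ⟨Ci, hCi, hinv⟩ := chF_inv n
  have hn : (0 : ℝ) ≤ n := Nat.cast_nonneg n
  refine ⟨16 * ((n : ℝ) + 2) * (Ci * Cs), ?_, ?_⟩
  · have h1 : 1 ≤ Ci * Cs := one_le_mul_of_one_le_of_one_le hCi hCs
    nlinarith
  intro T hT α α' hα hα' x hx l l' ε hl hε hcl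
  have hz : T (sl n x) ≠ 0 := LinFAux.ne0 T (sl_ne x)
  set z : W n := T (sl n x) with hzdef
  set E : ℝ := ‖l' • dw α' z - l • dw α z‖ with hE
  have hE0 : 0 ≤ E := norm_nonneg _
  have h1 : ‖l' • dw (pbl T α') (sl n x) - l • dw (pbl T α) (sl n x)‖ ≤ E := by
    refine ContinuousLinearMap.opNorm_le_bound _ hE0 fun v => ?_
    refine ContinuousLinearMap.opNorm_le_bound _ (by positivity) fun w => ?_
    have e : (l' • dw (pbl T α') (sl n x) - l • dw (pbl T α) (sl n x)) v w =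
        (l' • dw α' z - l • dw α z) (T v) (T w) := by
      have e1 := dw_pbl hα' T (sl_ne x) v w
      have e2 := dw_pbl hα T (sl_ne x) v w
      simp only [_root_.sub_apply, _root_.smul_apply, e1, e2]
      rfl
    rw [e]
    calc ‖(l' • dw α' z - l • dw α z) (T v) (T w)‖
        ≤ ‖(l' • dw α' z - l • dw α z) (T v)‖ * ‖T w‖ := ContinuousLinearMap.le_opNorm _ _
      _ ≤ (E * ‖T v‖) * ‖T w‖ :=
          mul_le_mul_of_nonneg_right (ContinuousLinearMap.le_opNorm _ _) (norm_nonneg _)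
      _ ≤ (E * ‖v‖) * ‖w‖ := by
          refine mul_le_mul (mul_le_mul_of_nonneg_left (hT.le v) hE0) (hT.le w) (norm_nonneg _) ?_
          positivity
  have hcp := con_pbl hα T hT.hom
  have hcp' := con_pbl hα' T hT.hom
  have h2 : ‖l' • P28s.dd (chF (pbl T α')) x - l • P28s.dd (chF (pbl T α)) x‖ ≤ Cs * E :=
    (hsub _ _ hcp' hcp x x l' l).trans (mul_le_mul_of_nonneg_left h1 (by linarith))
  rcases eq_or_lt_of_le hE0 with hE1 | hE1
  · rw [← hE1, mul_zero] at h2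
    have h3 : ‖l' • P28s.dd (chF (pbl T α')) x - l • P28s.dd (chF (pbl T α)) x‖ = 0 :=
      le_antisymm h2 (norm_nonneg _)
    rw [h3, zero_mul]
    positivity
  · set σ : ℝ := E / (16 * ((n : ℝ) + 2) * ε * l) with hσ
    have hσ0 : 0 < σ := by positivity
    have hlow : ∀ p : W n, hip (sl n x) p = 0 → σ * ‖p‖ ≤ ‖dw (pbl T α) (sl n x) p‖ := by
      intro p hp
      obtain ⟨c, q, e1, e2, -, -⟩ := exists_decomp hz (T p)
      have h3 : ‖p‖ ≤ 4 * ((n : ℝ) + 2) * ‖q‖ := by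
        have h3 := LinFAux.p_le (sl_ne x) hp c
        have h4 : ‖p - c • sl n x‖ ≤ 4 * ‖q‖ := by
          have h5 := hT.symm_le (T (p - c • sl n x))
          rw [T.symm_apply_apply, map_sub, hT.hom, e1, add_sub_cancel_left] at h5
          exact h5
        have h6 : ((n : ℝ) + 2) * ‖p - c • sl n x‖ ≤ ((n : ℝ) + 2) * (4 * ‖q‖) :=
          mul_le_mul_of_nonneg_left h4 (by linarith)
        linarith
      have h4 : ‖dw α z q‖ ≤ 4 * ‖dw (pbl T α) (sl n x) p‖ := by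
        refine ContinuousLinearMap.opNorm_le_bound _ (by positivity) fun w => ?_
        have h3 : dw α z q w = dw (pbl T α) (sl n x) p (T.symm w) := by
          rw [dw_pbl hα T (sl_ne x), T.apply_symm_apply, e1, map_add, _root_.add_apply,
            hα.dw_left hz, zero_add]
        rw [h3]
        calc ‖dw (pbl T α) (sl n x) p (T.symm w)‖ ≤ ‖dw (pbl T α) (sl n x) p‖ * ‖T.symm w‖ :=
              ContinuousLinearMap.le_opNorm _ _
          _ ≤ ‖dw (pbl T α) (sl n x) p‖ * (4 * ‖w‖) :=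
              mul_le_mul_of_nonneg_left (hT.symm_le w) (norm_nonneg _)
          _ = 4 * ‖dw (pbl T α) (sl n x) p‖ * ‖w‖ := by ring
      have h5 := hcl q e2
      rw [norm_smul, Real.norm_of_nonneg hl.le] at h5
      have h6 : E * ‖q‖ ≤ 4 * ε * l * ‖dw (pbl T α) (sl n x) p‖ := by
        calc E * ‖q‖ ≤ ε * (l * ‖dw α z q‖) := h5
          _ ≤ ε * (l * (4 * ‖dw (pbl T α) (sl n x) p‖)) := by gcongr
          _ = 4 * ε * l * ‖dw (pbl T α) (sl n x) p‖ := by ring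
      calc σ * ‖p‖ ≤ σ * (4 * ((n : ℝ) + 2) * ‖q‖) := mul_le_mul_of_nonneg_left h3 hσ0.le
        _ = (E * ‖q‖) / (4 * ε * l) := by
            rw [hσ]
            field_simp
            ring
        _ ≤ ‖dw (pbl T α) (sl n x) p‖ := by
            rw [div_le_iff₀ (by positivity)]
            linarith
    obtain ⟨hu, hi⟩ := hinv _ hcp x hx σ hσ0 hlow
    rw [inverse_smul hu hl.ne', norm_smul, norm_inv, Real.norm_of_nonneg hl.le]
    have h3 : ‖Ring.inverse (P28s.dd (chF (pbl T α)) x)‖ ≤ Ci / σ := by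
      rw [le_div_iff₀ hσ0]
      linarith
    calc ‖l' • P28s.dd (chF (pbl T α')) x - l • P28s.dd (chF (pbl T α)) x‖ *
          (l⁻¹ * ‖Ring.inverse (P28s.dd (chF (pbl T α)) x)‖)
        ≤ (Cs * E) * (l⁻¹ * (Ci / σ)) := by
          refine mul_le_mul h2 (mul_le_mul_of_nonneg_left h3 (by positivity)) (by positivity)
            (by positivity)
      _ = 16 * ((n : ℝ) + 2) * (Ci * Cs) * ε := by
          rw [hσ]
          field_simp

theorem out_ring {A : Finset (W n)} {T : W n → W n ≃L[ℝ] W n} {s : ℝ} (hC : Charts A T s)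
    {a : W n} (ha : a ∈ A) {x : V (n * 2)} (h1 : s / 8 ≤ ‖x‖) (h2 : ‖x‖ < s) :
    P28g.Out A T (s / 8) (T a (sl n x)) := by
  intro b hb y hy h
  have hs := hC.pos
  by_cases hab : a = b
  · subst hab
    have h3 := P28g.pt_T_inj (hC.tt a).hom (sl_ne y) h
    obtain ⟨c, hc, h4⟩ := eq_smul_of_pt_eq (sl_ne y) h3
    have h5 := congrArg P28g.cc h4
    rw [P28g.cc_smul hc, P28g.cc_sl, P28g.cc_sl] at h5
    rw [h5] at hy
    linarith
  · exact hC.disj a ha b hb hab x y h2 (by linarith) h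

theorem dd_res {A : Finset (W n)} {T : W n → W n ≃L[ℝ] W n} {s : ℝ} (h : Charts A T s)
    (a : {a : W n // a ∈ A}) {α : FW n} (hα : Con α) (v : V (n * 2)) :
    P28s.dd ((cpAmb h).res a α) v = P28s.dd (chF (pbl (T a.1) α)) ((s / 2) • v) := by
  have hs := h.pos
  have hs2 : s / 2 ≠ 0 := (half_pos hs).ne'
  have hd : DifferentiableAt ℝ (chF (pbl (T a.1) α)) (0 + (s / 2) • v) :=
    (chF_smooth (con_pbl hα (T a.1) (h.tt a.1).hom)).contDiffAt.differentiableAt (by simp)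
  rw [cp_res, P28s.dd_co hs2 hd, zero_add]

theorem dw_out {A : Finset (W n)} {T : W n → W n ≃L[ℝ] W n} {s : ℝ} (h : Charts A T s)
    (α : FW n) {g : {a : W n // a ∈ A} → V (n * 2) → V (n * 2)} (hg : ∀ i, P28s.Md (g i))
    {z : W n} (hz : z ≠ 0) (ho : P28g.Out A T (s / 2) z) :
    dw (α + ∑ i, (cpAmb h).ext i (g i)) z = dw α z := by
  have hs := h.pos
  have h1 : ∀ i : {a : W n // a ∈ A}, (cpAmb h).ext i (g i) =ᶠ[𝓝 z] 0 := by
    intro i
    rw [cp_ext]
    exact exF_out (h.tt i.1).hom (by linarith) (hg i) hz (ho i.1 i.2)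
  have h2 : (α + ∑ i, (cpAmb h).ext i (g i)) =ᶠ[𝓝 z] α := by
    have h3 : ∀ᶠ y in 𝓝 z, ∀ i : {a : W n // a ∈ A}, (cpAmb h).ext i (g i) y = (0 : FW n) y :=
      Filter.eventually_all.2 h1
    filter_upwards [h3] with y hy
    rw [Pi.add_apply, Finset.sum_apply, Finset.sum_eq_zero fun i _ => hy i, add_zero]
  unfold dw
  rw [h2.fderiv_eq]

end PairSAux

open PairSAux

theorem pair_S (n : ℕ) (hn : 2 ≤ n) : ∃ δ₁ ε₁ : ℝ, 0 < δ₁ ∧ 0 < ε₁ ∧
    ∀ {A : Finset (W n)} {T : W n → W n ≃L[ℝ] W n} {s : ℝ} (_ : Charts A T s) (_ : s ≤ 1 / 4)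
      {α α' : FW n} (_ : Symp α) (_ : Symp α') {l l' : ℝ} (_ : 0 < l) (_ : 0 < l')
      (hfl : ∀ a ∈ A, P28s.SFlat δ₁ (P28f.ann 0 (1 / 2))
          (P28s.dd (P28s.co (chF (pbl (T a) α)) 0 (s / 2))) ∧
        P28s.SFlat δ₁ (P28f.ann 0 (1 / 2))
          (P28s.dd (P28s.co (chF (pbl (T a) α')) 0 (s / 2))))
      (hlab : ∀ a ∈ A, P28s.LabEq (P28s.co (chF (pbl (T a) α)) 0 (s / 2))
        (P28s.co (chF (pbl (T a) α')) 0 (s / 2)))
      (hcl : ∀ z : W n, z ≠ 0 → P28g.Out A T (s / 8) z → ∀ p : W n, hip z p = 0 →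
        ‖l' • dw α' z - l • dw α z‖ * ‖p‖ ≤ ε₁ * ‖l • dw α z p‖),
      JoinF α α' := by
  obtain ⟨δ₁, hδ₁, hinit⟩ := P28s.rep_init (n * 2) (by omega) (η := 1 / 100) (by norm_num)
  obtain ⟨C, hC1, hcmp⟩ := const_cmp n
  refine ⟨δ₁, 1 / (100 * C), hδ₁, by positivity, ?_⟩
  intro A T s hCh hs4 α α' hα hα' l l' hl hl' hfl hlab hcl
  have hs := hCh.pos
  have hb : ∀ a : {a : W n // a ∈ A}, ∃ (c : EV (n * 2)) (k : V (n * 2) → V (n * 2)),
      P28s.Obj c 1 k ∧ P28s.CutOf (P28s.co (chF (pbl (T a.1) α')) 0 (s / 2)) k := by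
    intro a
    obtain ⟨k, k', h1, h2, h3⟩ := hlab a.1 a.2
    obtain ⟨c, h4, -, -⟩ := h2.ex
    exact ⟨c, k', h4, h2⟩
  choose cb kb hobj hcut using hb
  have hbub : P28s.Bub cb 1 kb := ⟨one_pos, hobj⟩
  have hNDα : (cpAmb hCh).ND α := (cp_nd hCh α).2 hα
  have hNDα' : (cpAmb hCh).ND α' := (cp_nd hCh α').2 hα'
  obtain ⟨g, hg, hrep, hcst, hnear⟩ := hinit (cpAmb hCh) cb 1 kb hbub α hNDα
    (fun a => (hfl a.1 a.2).1) (fun a k hk => (hlab a.1 a.2).path hk (hcut a))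
  obtain ⟨g', hg', hrep', hcst', hnear'⟩ := hinit (cpAmb hCh) cb 1 kb hbub α' hNDα'
    (fun a => (hfl a.1 a.2).2) (fun a k hk => P28s.cut_uniq hk (hcut a))
  set o : FW n := α + ∑ i, (cpAmb hCh).ext i (g i) with ho
  set o' : FW n := α' + ∑ i, (cpAmb hCh).ext i (g' i) with ho'
  have hSo : Symp o := by
    obtain ⟨A', hDec, -⟩ := hrep
    exact (cp_nd hCh o).1 hDec.nd
  have hSo' : Symp o' := by
    obtain ⟨A', hDec, -⟩ := hrep'
    exact (cp_nd hCh o').1 hDec.nd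
  have hw0 : ‖P28f.w0 (n * 2)‖ = 3 / 4 := P28s.AmbInitAux.norm_w0_eq (by omega)
  have hx0n : ‖(s / 2) • P28f.w0 (n * 2)‖ = 3 * s / 8 := by
    rw [norm_smul, hw0, Real.norm_of_nonneg (by linarith)]
    ring
  have hseg : (cpAmb hCh).Seg o o' := by
    intro t ht0 ht1
    rw [cp_nd]
    have hcon : Con ((1 - t) • o + t • o') := hSo.1.affine hSo'.1 t
    refine ⟨hcon, fun z hz => ?_⟩
    by_cases hout : P28g.Out A T (s / 2) z
    · have hd : dw ((1 - t) • o + t • o') z = (1 - t) • dw α z + t • dw α' z := by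
        have h1 : dw ((1 - t) • o + t • o') z = (1 - t) • dw o z + t • dw o' z :=
          dw_affine hSo.1 hSo'.1 t hz
        rw [h1, ho, ho', dw_out hCh α hg hz hout, dw_out hCh α' hg' hz hout]
      have hε : 1 / (100 * C) < 1 := by
        rw [div_lt_one (by linarith)]
        linarith
      exact ndAt_mid hα hl hl' hε ⟨ht0, ht1⟩ hcon hz hd (hcl z hz (hout.mono (by linarith)))
    · unfold P28g.Out at hout
      push Not at hout
      obtain ⟨a, ha, x, hx, hpt⟩ := hout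
      have hT := hCh.tt a
      obtain ⟨c, hc, h1⟩ := eq_smul_of_pt_eq (LinFAux.ne0 (T a) (sl_ne x)) hpt
      rw [← ndAt_smul hcon hc hz, ← h1, ← ndAt_pbl hcon hT.hom (sl_ne x),
        ← isUnit_chF (con_pbl hcon (T a) hT.hom) x]
      have hco := con_pbl hSo.1 (T a) hT.hom
      have hco' := con_pbl hSo'.1 (T a) hT.hom
      have h2 : P28s.dd (chF (pbl (T a) ((1 - t) • o + t • o'))) x =
          (1 - t) • P28s.dd (chF (pbl (T a) o)) x + t • P28s.dd (chF (pbl (T a) o')) x := by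
        rw [pbl_add, pbl_smul, pbl_smul, chF_add, chF_smul, chF_smul]
        have d1 : DifferentiableAt ℝ (chF (pbl (T a) o)) x :=
          (chF_smooth hco).contDiffAt.differentiableAt (by simp)
        have d2 : DifferentiableAt ℝ (chF (pbl (T a) o')) x :=
          (chF_smooth hco').contDiffAt.differentiableAt (by simp)
        have e1 := P28s.dd_add (d1.const_smul (1 - t)) (d2.const_smul t)
        have e2 := P28s.dd_smul d1 (1 - t)
        have e3 := P28s.dd_smul d2 t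
        exact e1.trans (congrArg₂ (· + ·) e2 e3)
      rw [h2]
      set v : V (n * 2) := (s / 2)⁻¹ • x with hv
      have hxv : (s / 2) • v = x := by
        rw [hv, smul_smul, mul_inv_cancel₀ (half_pos hs).ne', one_smul]
      have hvn : ‖v‖ ≤ 1 := by
        rw [hv, norm_smul, norm_inv, Real.norm_of_nonneg (half_pos hs).le,
          inv_mul_le_iff₀ (half_pos hs), mul_one]
        exact hx.le
      have n1 := hnear ⟨a, ha⟩ v hvn
      have n2 := hnear' ⟨a, ha⟩ v hvn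
      rw [dd_res hCh ⟨a, ha⟩ hSo.1, dd_res hCh ⟨a, ha⟩ hα.1, hxv] at n1
      rw [dd_res hCh ⟨a, ha⟩ hSo'.1, dd_res hCh ⟨a, ha⟩ hα'.1, hxv] at n2
      have u1 := (hNDα.inn ⟨a, ha⟩ (P28f.w0 (n * 2)) (by rw [hw0]; norm_num)).2
      rw [dd_res hCh ⟨a, ha⟩ hα.1] at u1
      have u2 := (hNDα'.inn ⟨a, ha⟩ (P28f.w0 (n * 2)) (by rw [hw0]; norm_num)).2
      rw [dd_res hCh ⟨a, ha⟩ hα'.1] at u2
      have hcmp1 := hcmp (T a) hT α α' hα.1 hα'.1 ((s / 2) • P28f.w0 (n * 2))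
        (by rw [hx0n]; linarith) l l' (1 / (100 * C)) hl (by positivity)
        (hcl (T a (sl n ((s / 2) • P28f.w0 (n * 2)))) (LinFAux.ne0 _ (sl_ne _))
          (out_ring hCh ha (by rw [hx0n]; linarith) (by rw [hx0n]; linarith)))
      have hC : C * (1 / (100 * C)) = 1 / 100 := by field_simp
      rw [hC] at hcmp1
      exact unit_mid u1 u2 hl hl' ⟨ht0, ht1⟩ n1 n2 hcmp1
  have hrep2 : (cpAmb hCh).Rep cb kb α o' := P28s.rep_seg (cpAmb hCh) hbub hrep hseg
    (c' := fun i => P28s.dd ((cpAmb hCh).res i α') (P28f.w0 (n * 2))) (fun i => P28s.sk_dd _ _) hcst'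
  exact cp_eqv hCh (P28s.rep_final (cpAmb hCh) hbub hrep2 hrep') hα

end Pool.Agent.Lib.P28t
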