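import Pool.Agent.Lib.P28t.Defs
import Pool.Agent.Lib.P28c.LocB

set_option autoImplicit false
set_option maxSynthPendingDepth 3

/-!
# The energy on a slice

PROOF. Adapt `P28c.slice_energy_loc` (`P28c/LocB.lean`, with `energy_comp_loc` there) from the density `‖conn Φ‖ₑ` to `ENNReal.ofReal (h x)`, which is exactly invariant, `h (c • z) = h z`. `A = T ⁻¹' PB (pt z') s`, `G = A.indicator (fun x => ENNReal.ofReal (h (T x)) ^ (2 * n))` (measurable up to the
point `0`: `h ∘ T` is continuous on `{0}ᶜ`; e.g. replace `h` by its product with the indicator of `{0}ᶜ`), `cv_lower`, `mem_PB_sl`. Then `∫⁻ x in ball 0 1, G x ≤ 4^(2n+2) * enH h (PB (pt z') s)` by `GoodAllAux.cov` / `vf` (change of variables `w = T x`;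
`T (ball 0 1) ⊆ ball 0 1` and `1 ≤ 4^(2n+2) vf T`, `le_vf`), as in `energy_comp_loc`.
-/

open MeasureTheory Set Metric
open scoped ContDiff Topology ENNReal

namespace Pool.Agent.Lib.P28t

open Pool.Agent.P28b04d Pool.Agent.Lib.P28e Pool.Agent.Lib.P28c
open Pool.Agent.Lib.P28f (V EV)
open Pool.Agent.Lib.P28g (TT)

variable {n : ℕ}

theorem slice_h (n : ℕ) : ∃ C : ℝ≥0∞, C ≠ ⊤ ∧ ∀ h : W n → ℝ, ContinuousOn h {0}ᶜ →
    (∀ (c : ℂ) (z : W n), c ≠ 0 → h (c • z) = h z) → ∀ z' : W n, ‖z'‖ = 1 / 2 →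
    ∀ T : W n ≃L[ℝ] W n, (∀ (c : ℂ) (x : W n), T (c • x) = c • T x) → T (e0 n) = z' →
    (∀ x, ‖T x‖ ≤ ‖x‖) → (∀ w, ‖T.symm w‖ ≤ 4 * ‖w‖) → ∀ s : ℝ, 0 < s → s ≤ 1 →
    ∫⁻ y, ENNReal.ofReal (h (T (sl n y))) ^ (2 * n) ∂cs (n * 2) (s / (12 * ((n : ℝ) + 1))) ≤
      C * enH h (PB (pt z') s) := by
  obtain ⟨C, hC, hcv⟩ := cv_lower n
  refine ⟨(volume Ann)⁻¹ * (C * (4 : ℝ≥0∞) ^ (2 * n + 2)), ?_, ?_⟩
  · refine ENNReal.mul_ne_top ?_ (ENNReal.mul_ne_top hC (by simp))
    exact ENNReal.inv_ne_top.2 volume_Ann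
  · intro h hcont hinv z' hz' T hTc hTe hT1 hT2 s hs hs1
    have hhm : Measurable h := measurable_of_continuousOn_compl_singleton 0 hcont
    set S : ℝ := s / (12 * ((n : ℝ) + 1)) with hS
    have hS0 : 0 < S := by positivity
    have hS1 : S ≤ 1 := by
      rw [hS, div_le_one (by positivity)]
      have : (0 : ℝ) ≤ (n : ℝ) := Nat.cast_nonneg n
      linarith
    set A : Set (W n) := T ⁻¹' PB (pt z') s with hA
    have hAm : MeasurableSet A := (measurableSet_PB _ s).preimage T.continuous.measurable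
    set g : W n → ℝ≥0∞ := fun x => ENNReal.ofReal (h x) ^ (2 * n) with hg
    have hgm : Measurable g := (ENNReal.measurable_ofReal.comp hhm).pow_const _
    set G : W n → ℝ≥0∞ := A.indicator (fun x => g (T x)) with hG
    have hGm : Measurable G := (hgm.comp T.continuous.measurable).indicator hAm
    set E1 : ℝ≥0∞ := ∫⁻ y in Icc (fun _ : Fin (n * 2) => (-S : ℝ)) (fun _ => S),
      g (T (sl n y)) with hE1
    have hsubI : Icc (fun _ : Fin (n * 2) => (-S : ℝ)) (fun _ => S) ⊆
        Icc (fun _ : Fin (n * 2) => (-1 : ℝ)) (fun _ => 1) := by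
      intro y hy
      rw [mem_Icc_iff_norm _ hS0.le] at hy
      rw [mem_Icc_iff_norm _ zero_le_one]
      exact hy.trans hS1
    have h1 : volume Ann * E1 ≤ C * ∫⁻ x in ball (0 : W n) 1, G x := by
      calc volume Ann * E1 = ∫⁻ c in Ann, E1 := by
            rw [lintegral_const, Measure.restrict_apply MeasurableSet.univ, univ_inter, mul_comm]
        _ ≤ ∫⁻ c in Ann, ∫⁻ y in Icc (fun _ : Fin (n * 2) => (-1 : ℝ)) (fun _ => 1),
              G (c • sl n y) := by
            refine setLIntegral_mono' LocBAux.ann_meas fun c hc => ?_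
            refine le_trans ?_ (lintegral_mono_set hsubI)
            refine setLIntegral_mono' measurableSet_Icc fun y hy => ?_
            have hc0 : c ≠ 0 := by
              intro h0
              have := hc.1
              rw [h0, norm_zero] at this
              norm_num at this
            have hmem : c • sl n y ∈ A := by
              rw [mem_Icc_iff_norm _ hS0.le] at hy
              exact LocBAux.mem_PB_sl hz' hTc hTe hT1 hs hc0 hy
            rw [hG, indicator_of_mem hmem]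
            show g (T (sl n y)) ≤ g (T (c • sl n y))
            rw [hTc]
            simp only [hg]
            rw [hinv c _ hc0]
        _ ≤ C * ∫⁻ x in ball (0 : W n) 1, G x := hcv G hGm
    have hen : enH h (PB (pt z') s) = ∫⁻ x in ball (0 : W n) 1 ∩ PB (pt z') s, g x := by
      unfold enH
      rw [withDensity_apply _ (measurableSet_PB _ s),
        Measure.restrict_restrict (measurableSet_PB _ s), inter_comm]
    have h1' : ∫⁻ x in ball (0 : W n) 1, G x ≤
        (4 : ℝ≥0∞) ^ (2 * n + 2) * enH h (PB (pt z') s) := by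
      have hB : MeasurableSet (ball (0 : W n) 1 ∩ A) := measurableSet_ball.inter hAm
      have e0 : ∫⁻ x in ball (0 : W n) 1, G x = ∫⁻ x in ball (0 : W n) 1 ∩ A, g (T x) := by
        rw [hG, setLIntegral_indicator hAm, inter_comm]
      have step2 : GoodAllAux.vf T * ∫⁻ x in ball (0 : W n) 1 ∩ A, g (T x) ≤
          enH h (PB (pt z') s) := by
        rw [← GoodAllAux.cov T hB g, hen]
        apply lintegral_mono_set
        rintro _ ⟨x, hx, rfl⟩
        refine ⟨?_, hx.2⟩
        have hx1 := hx.1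
        rw [mem_ball_zero_iff] at hx1 ⊢
        exact (hT1 x).trans_lt hx1
      rw [e0]
      calc ∫⁻ x in ball (0 : W n) 1 ∩ A, g (T x)
          = 1 * ∫⁻ x in ball (0 : W n) 1 ∩ A, g (T x) := (one_mul _).symm
        _ ≤ ((4 : ℝ≥0∞) ^ (2 * n + 2) * GoodAllAux.vf T) *
            ∫⁻ x in ball (0 : W n) 1 ∩ A, g (T x) := by
            gcongr
            exact GoodAllAux.le_vf T hT2
        _ = (4 : ℝ≥0∞) ^ (2 * n + 2) *
            (GoodAllAux.vf T * ∫⁻ x in ball (0 : W n) 1 ∩ A, g (T x)) := mul_assoc _ _ _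
        _ ≤ (4 : ℝ≥0∞) ^ (2 * n + 2) * enH h (PB (pt z') s) := by gcongr
    have h2 : E1 ≤ (volume Ann)⁻¹ * (C * ((4 : ℝ≥0∞) ^ (2 * n + 2) * enH h (PB (pt z') s))) := by
      rw [← ENNReal.div_eq_inv_mul, ENNReal.le_div_iff_mul_le (Or.inl volume_Ann)
        (Or.inl LocBAux.ann_top), mul_comm]
      exact h1.trans (by gcongr)
    have h3 : ∫⁻ y, ENNReal.ofReal (h (T (sl n y))) ^ (2 * n) ∂cs (n * 2) S = E1 := by
      rw [cs_eq, hE1]
    rw [h3]
    calc E1 ≤ (volume Ann)⁻¹ * (C * ((4 : ℝ≥0∞) ^ (2 * n + 2) * enH h (PB (pt z') s))) := h2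
      _ = _ := by ring

end Pool.Agent.Lib.P28t
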