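import Pool.Agent.Lib.P28t.MeanB
import Pool.Agent.Lib.P28t.MTrans
import Pool.Agent.Lib.P28t.GapS
import Pool.Agent.Lib.P28t.SliceH

set_option autoImplicit false
set_option maxSynthPendingDepth 3

/-!
# Mean flatness

PROOF. Constants: `C₁` (`mean_e0`), `C₂` (`mgood_trans`), `C₃` (`dens_pbl`), `C₄` (all constants of `ChF`), `C₅` (`slice_h`). `k = 1 / (64 (n+1))`. Given `η` take `η' = η / (C₁ C₂)` (also `≤ 1`), `δ` from `chart_mean` for `η'`, and `c` with `C₅ ofReal(C₃ C₄²)^(2n) ofReal c ≤ ofReal δ` (`P28e.exists_delta` or directly).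
Let `z, s, ρ` be given, `z' = (2‖z‖)⁻¹ • z`, `‖z'‖ = 1/2`, `pt z' = pt z`, `T` from `P28g.exists_TT` (`T e0 = z'`), `α' = pbl T α` (`symp_pbl`, `dens_pbl` with density `h' = C₃ h ∘ T`). `u = dd (chF α')`: `par_chF`, units (`isUnit_chF`), skew (`P28s.sk_dd`).
`g y = C h' (sl y)` with `C = C₄²` (continuous, as `sl y ≠ 0`): for `‖y‖ ≤ 1`, with `D = dw α' (sl y)` and any `σ > 0` such that `σ ‖p‖ ≤ ‖D p‖` for `hip (sl y) p = 0`: from `Dens.one`, if `D ≠ 0`, `σ = ‖D‖ / h' (sl y)` is admissible (`h' (sl y) > 0` because there is `p ≠ 0` with `hip (sl y) p = 0`, `n ≥ 1`, `P28e` or take a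
vector with two non-zero coordinates), so `chF_inv` gives `‖D‖ ‖(u y)⁻¹‖ ≤ C h'`, and `‖u y‖ ≤ C ‖D‖`; in the same way `Dens.two` (`‖sl y‖ ≥ 1`) and `chF_der` give the bound for `‖(u y)⁻¹‖ ‖U i y‖` (if `fderiv (dw α') (sl y) = 0` it is trivial). `D ≠ 0` by non-degeneracy.
`slice_h` and `enH h (PB (pt z) s) ≤ c` give `∫ g^(n*2) ∂cs (n*2) (s/(12(n+1))) ≤ δ`, hence for every smaller cube (`P28e.cs_mono`). Take the cube of half side `s' = 8 ρ/(2‖z‖) ≤ s/(12 (n+1))`, `s' ≤ 1/4`: `chart_mean` gives `M`; `mean_e0` gives `MGood α' e0 (s'/2) (C₁ η')`, and `s'/2 = 4 (ρ/(2‖z‖))`; `mgood_trans`.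
-/

open MeasureTheory Set Metric
open scoped ContDiff Topology ENNReal

namespace Pool.Agent.Lib.P28t

open Pool.Agent.P28b04d Pool.Agent.Lib.P28e Pool.Agent.Lib.P28c
open Pool.Agent.Lib.P28f (V EV)
open Pool.Agent.Lib.P28g (TT)

variable {n : ℕ}

namespace MeanAllAux

lemma sl_zero (x : V (n * 2)) : sl n x 0 = 1 := rfl

lemma one_le_norm_sl (x : V (n * 2)) : 1 ≤ ‖sl n x‖ := by
  have h := norm_le_pi_norm (sl n x) 0
  rw [sl_zero] at h
  simpa using h

lemma exists_perp_sl (hn : 1 ≤ n) (x : V (n * 2)) :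
    ∃ p : W n, p ≠ 0 ∧ hip (sl n x) p = 0 := by
  obtain ⟨m, rfl⟩ : ∃ m, n = m + 1 := ⟨n - 1, by omega⟩
  set z : W (m + 1) := sl (m + 1) x with hz
  have hz0 : z 0 = 1 := rfl
  let j : Fin (m + 1 + 1) := Fin.succ 0
  have hj : j ≠ 0 := Fin.succ_ne_zero 0
  let p : W (m + 1) := fun k => if k = 0 then -star (z j) else if k = j then 1 else 0
  refine ⟨p, ?_, ?_⟩
  · intro h0
    have h1 : p j = 0 := by rw [h0]; rfl
    have h2 : p j = 1 := by
      show (if j = 0 then -star (z j) else if j = j then (1 : ℂ) else 0) = 1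
      rw [if_neg hj, if_pos rfl]
    rw [h2] at h1
    exact one_ne_zero h1
  · show ∑ k, star (z k) * p k = 0
    rw [← Finset.sum_subset (Finset.subset_univ ({0, j} : Finset (Fin (m + 1 + 1))))]
    · rw [Finset.sum_pair (Ne.symm hj)]
      have e1 : p 0 = -star (z j) := if_pos rfl
      have e2 : p j = 1 := by
        show (if j = 0 then -star (z j) else if j = j then (1 : ℂ) else 0) = 1
        rw [if_neg hj, if_pos rfl]
      rw [e1, e2, hz0]
      simp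
    · intro k _ hk
      have h3 : k ≠ 0 := fun h => hk (by simp [h])
      have h4 : k ≠ j := fun h => hk (by simp [h])
      have e3 : p k = 0 := by
        show (if k = 0 then -star (z j) else if k = j then (1 : ℂ) else 0) = 0
        rw [if_neg h3, if_neg h4]
      rw [e3, mul_zero]

/-- The bound of the inverse. -/
lemma inv_bound (hn : 1 ≤ n) {Ci : ℝ} (hCi : 1 ≤ Ci) {α : FW n} {x : V (n * 2)}
    (hinv : ∀ σ : ℝ, 0 < σ → (∀ p : W n, hip (sl n x) p = 0 → σ * ‖p‖ ≤ ‖dw α (sl n x) p‖) →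
      IsUnit (P28s.dd (chF α) x) ∧ σ * ‖Ring.inverse (P28s.dd (chF α) x)‖ ≤ Ci)
    {F H : ℝ} (hF : 0 ≤ F) (hH : 0 ≤ H)
    (hb : ∀ p : W n, hip (sl n x) p = 0 → F * ‖p‖ ≤ H * ‖dw α (sl n x) p‖) :
    F * ‖Ring.inverse (P28s.dd (chF α) x)‖ ≤ Ci * H := by
  rcases hF.eq_or_lt with h0 | hF0
  · rw [← h0, zero_mul]
    positivity
  · have hH0 : 0 < H := by
      rcases hH.eq_or_lt with h1 | h1
      · obtain ⟨p, hp, hp2⟩ := exists_perp_sl hn x
        have h2 := hb p hp2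
        rw [← h1, zero_mul] at h2
        have h3 : 0 < ‖p‖ := norm_pos_iff.2 hp
        exact absurd h2 (not_le.2 (mul_pos hF0 h3))
      · exact h1
    have h4 := (hinv (F / H) (div_pos hF0 hH0) fun p hp => by
      rw [div_mul_eq_mul_div, div_le_iff₀ hH0, mul_comm (‖dw α (sl n x) p‖)]
      exact hb p hp).2
    rw [div_mul_eq_mul_div, div_le_iff₀ hH0] at h4
    exact h4

end MeanAllAux

open MeanAllAux

theorem mean_flat (n : ℕ) (hn : 1 ≤ n) : ∃ k : ℝ, 0 < k ∧ k ≤ 1 / 8 ∧ ∀ η : ℝ, 0 < η →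
    ∃ c : ℝ, 0 < c ∧ ∀ (α : FW n) (h : W n → ℝ), Symp α → Dens α h → ∀ z : W n, z ≠ 0 →
      ∀ s : ℝ, 0 < s → s ≤ 1 → enH h (PB (pt z) s) ≤ ENNReal.ofReal c → ∀ ρ : ℝ, 0 < ρ →
        ρ ≤ k * s * ‖z‖ → ∃ (ct : BW n) (σ : ℝ), MGood α z ρ η ct σ := by
  obtain ⟨C₁, hC₁, H₁⟩ := mean_e0 n hn
  obtain ⟨C₂, hC₂, H₂⟩ := mgood_trans n
  obtain ⟨C₃, hC₃, H₃⟩ := dens_pbl n
  obtain ⟨Cb, hCb, Hb⟩ := chF_bounds n
  obtain ⟨Ci, hCi, Hi⟩ := chF_inv n
  obtain ⟨Cd, hCd, Hd⟩ := chF_der n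
  obtain ⟨C₅, hC₅, H₅⟩ := slice_h n
  have hC₁0 : 0 < C₁ := by linarith
  have hC₂0 : 0 < C₂ := by linarith
  have hC₃0 : 0 < C₃ := by linarith
  have hCb0 : 0 < Cb := by linarith
  have hCi0 : 0 < Ci := by linarith
  have hCd0 : 0 < Cd := by linarith
  have hn0 : (0 : ℝ) ≤ n := Nat.cast_nonneg n
  refine ⟨1 / (64 * ((n : ℝ) + 1)), by positivity, ?_, fun η hη => ?_⟩
  · rw [div_le_div_iff₀ (by positivity) (by norm_num)]
    linarith
  obtain ⟨δ, hδ, Hδ⟩ := chart_mean n hn (η := η / (C₁ * C₂)) (by positivity)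
  set C : ℝ := Cb * Cd * Ci with hC
  have hC0 : 0 < C := by positivity
  obtain ⟨c, hc, Hc⟩ := exists_delta (C := ENNReal.ofReal (C * C₃) ^ (2 * n) * C₅)
    (t := ENNReal.ofReal δ)
    (ENNReal.mul_ne_top (ENNReal.pow_ne_top ENNReal.ofReal_ne_top) hC₅)
    (by simpa using hδ)
  refine ⟨c, hc, fun α h hα hd z hz s hs hs1 hen ρ hρ hρ1 => ?_⟩
  have hz0 : 0 < ‖z‖ := norm_pos_iff.2 hz
  set r : ℝ := (2 * ‖z‖)⁻¹ with hr
  have hr0 : 0 < r := by positivity
  set z' : W n := r • z with hz'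
  have hz'n : ‖z'‖ = 1 / 2 := by
    rw [hz', norm_smul, Real.norm_eq_abs, abs_of_pos hr0, hr]
    field_simp
  have hptz : pt z' = pt z := by
    have e1 : z' = (r : ℂ) • z := by
      rw [hz']
      ext i
      simp
    rw [e1]
    exact pt_smul (by exact_mod_cast hr0.ne') z
  obtain ⟨T, hT, hTe⟩ := P28g.exists_TT hz'n
  set α' : FW n := pbl T α with hα'
  have hs' : Symp α' := symp_pbl hα T hT.hom
  have hd' : Dens α' fun w => C₃ * h (T w) := H₃ T hT α h hα.1 hd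
  -- the cube
  set s' : ℝ := 4 * (ρ / ‖z‖) with hs'def
  have hs'0 : 0 < s' := by positivity
  have hρz : ρ / ‖z‖ ≤ 1 / (64 * ((n : ℝ) + 1)) * s := by
    rw [div_le_iff₀ hz0]
    exact hρ1
  have hs'le : s' ≤ s / (12 * ((n : ℝ) + 1)) := by
    have h1 : s' ≤ 4 * (1 / (64 * ((n : ℝ) + 1)) * s) := by
      rw [hs'def]
      linarith
    refine h1.trans ?_
    rw [le_div_iff₀ (by positivity)]
    have h2 : 4 * (1 / (64 * ((n : ℝ) + 1)) * s) * (12 * ((n : ℝ) + 1)) = 48 / 64 * s := by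
      field_simp
      ring
    rw [h2]
    linarith
  have hs'14 : s' ≤ 1 / 4 := by
    refine hs'le.trans ?_
    rw [div_le_div_iff₀ (by positivity) (by norm_num)]
    nlinarith
  have hcontg : Continuous fun y : V (n * 2) => C * (C₃ * h (T (sl n y))) := by
    refine continuous_const.mul ?_
    exact hd'.cont.comp_continuous continuous_sl fun y => sl_ne y
  obtain ⟨M, hM1, hM2, hM3⟩ := Hδ (fun y => P28s.dd (chF α') y)
    (fun i y => fderiv ℝ (P28s.dd (chF α')) y (Pi.single i 1))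
    (fun y => C * (C₃ * h (T (sl n y)))) (par_chF hs'.1)
    (fun y => (isUnit_chF hs'.1 y).2 (hs'.2 _ (sl_ne y)))
    (fun y => P28s.sk_dd _ _) hcontg
    (fun y => mul_nonneg hC0.le (hd'.nonneg (sl n y)))
    (fun i y hy => by
      have hH : 0 ≤ C₃ * h (T (sl n y)) := hd'.nonneg (sl n y)
      have h1 := inv_bound hn hCi (α := α') (x := y) (fun σ hσ hp => Hi α' hs'.1 y hy σ hσ hp)
        (F := ‖fderiv ℝ (dw α') (sl n y)‖) (H := C₃ * h (T (sl n y))) (norm_nonneg _) hH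
        (fun p hp => by
          refine le_trans ?_ (hd'.two (sl n y) (sl_ne y) p hp)
          have h2 := one_le_norm_sl y
          have h3 : 0 ≤ ‖fderiv ℝ (dw α') (sl n y)‖ * ‖p‖ := by positivity
          nlinarith)
      have h4 := Hd α' hs'.1 y i
      have h5 : 0 ≤ ‖Ring.inverse (P28s.dd (chF α') y)‖ := norm_nonneg _
      calc ‖Ring.inverse (P28s.dd (chF α') y)‖ *
            ‖fderiv ℝ (P28s.dd (chF α')) y (Pi.single i 1)‖
          ≤ ‖Ring.inverse (P28s.dd (chF α') y)‖ * (Cd * ‖fderiv ℝ (dw α') (sl n y)‖) :=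
            mul_le_mul_of_nonneg_left h4 h5
        _ = Cd * (‖fderiv ℝ (dw α') (sl n y)‖ * ‖Ring.inverse (P28s.dd (chF α') y)‖) := by ring
        _ ≤ Cd * (Ci * (C₃ * h (T (sl n y)))) := mul_le_mul_of_nonneg_left h1 hCd0.le
        _ ≤ Cb * (Cd * (Ci * (C₃ * h (T (sl n y))))) :=
            le_mul_of_one_le_left (by positivity) hCb
        _ = C * (C₃ * h (T (sl n y))) := by rw [hC]; ring)
    (fun y hy => by
      have hH : 0 ≤ C₃ * h (T (sl n y)) := hd'.nonneg (sl n y)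
      have h1 := inv_bound hn hCi (α := α') (x := y) (fun σ hσ hp => Hi α' hs'.1 y hy σ hσ hp)
        (F := ‖dw α' (sl n y)‖) (H := C₃ * h (T (sl n y))) (norm_nonneg _) hH
        (fun p hp => hd'.one (sl n y) (sl_ne y) p hp)
      have h4 := (Hb α' hs'.1 y hy).2.2.1
      have h5 : 0 ≤ ‖Ring.inverse (P28s.dd (chF α') y)‖ := norm_nonneg _
      calc ‖P28s.dd (chF α') y‖ * ‖Ring.inverse (P28s.dd (chF α') y)‖
          ≤ (Cb * ‖dw α' (sl n y)‖) * ‖Ring.inverse (P28s.dd (chF α') y)‖ :=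
            mul_le_mul_of_nonneg_right h4 h5
        _ = Cb * (‖dw α' (sl n y)‖ * ‖Ring.inverse (P28s.dd (chF α') y)‖) := by ring
        _ ≤ Cb * (Ci * (C₃ * h (T (sl n y)))) := mul_le_mul_of_nonneg_left h1 hCb0.le
        _ ≤ Cd * (Cb * (Ci * (C₃ * h (T (sl n y))))) :=
            le_mul_of_one_le_left (by positivity) hCd
        _ = C * (C₃ * h (T (sl n y))) := by rw [hC]; ring)
    s' hs'0 (hs'14.trans (by norm_num))
    (by
      have e1 : ∀ y : V (n * 2), ENNReal.ofReal (C * (C₃ * h (T (sl n y)))) ^ (n * 2) =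
          ENNReal.ofReal (C * C₃) ^ (2 * n) * ENNReal.ofReal (h (T (sl n y))) ^ (2 * n) := by
        intro y
        rw [← mul_assoc, ENNReal.ofReal_mul (by positivity), mul_pow, mul_comm n 2]
      have hs5 := H₅ h hd.cont hd.hom z' hz'n T hT.hom hTe hT.le hT.symm_le s hs hs1
      calc ∫⁻ y, ENNReal.ofReal (C * (C₃ * h (T (sl n y)))) ^ (n * 2) ∂cs (n * 2) s'
          ≤ ∫⁻ y, ENNReal.ofReal (C * (C₃ * h (T (sl n y)))) ^ (n * 2)
              ∂cs (n * 2) (s / (12 * ((n : ℝ) + 1))) :=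
            lintegral_mono' (cs_mono hs'le) le_rfl
        _ = ∫⁻ y, ENNReal.ofReal (C * C₃) ^ (2 * n) *
              ENNReal.ofReal (h (T (sl n y))) ^ (2 * n)
              ∂cs (n * 2) (s / (12 * ((n : ℝ) + 1))) := by
            refine lintegral_congr fun y => e1 y
        _ = ENNReal.ofReal (C * C₃) ^ (2 * n) *
              ∫⁻ y, ENNReal.ofReal (h (T (sl n y))) ^ (2 * n)
              ∂cs (n * 2) (s / (12 * ((n : ℝ) + 1))) :=
            lintegral_const_mul' _ _ (ENNReal.pow_ne_top ENNReal.ofReal_ne_top)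
        _ ≤ ENNReal.ofReal (C * C₃) ^ (2 * n) * (C₅ * enH h (PB (pt z') s)) :=
            mul_le_mul_right hs5 _
        _ ≤ ENNReal.ofReal (C * C₃) ^ (2 * n) * (C₅ * ENNReal.ofReal c) := by
            rw [hptz]
            exact mul_le_mul_right (mul_le_mul_right hen _) _
        _ = ENNReal.ofReal (C * C₃) ^ (2 * n) * C₅ * ENNReal.ofReal c := by ring
        _ ≤ ENNReal.ofReal δ := Hc)
  obtain ⟨ct', σ', hG⟩ := H₁ α' hs'.1 M s' (η / (C₁ * C₂)) hM1 hs'0 hs'14 (by positivity) hM2 hM3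
  have e2 : s' / 2 = 4 * (ρ / (2 * ‖z‖)) := by
    rw [hs'def]
    field_simp
  rw [e2] at hG
  have hρ8 : ρ ≤ ‖z‖ / 8 := by
    refine hρ1.trans ?_
    have h1 : 1 / (64 * ((n : ℝ) + 1)) * s ≤ 1 / 8 := by
      rw [div_mul_eq_mul_div, one_mul, div_le_div_iff₀ (by positivity) (by norm_num)]
      nlinarith
    calc 1 / (64 * ((n : ℝ) + 1)) * s * ‖z‖ ≤ 1 / 8 * ‖z‖ :=
          mul_le_mul_of_nonneg_right h1 hz0.le
      _ = ‖z‖ / 8 := by ring
  obtain ⟨ct, σ, hR⟩ := H₂ α hα.1 T hT z hz hTe ρ (C₁ * (η / (C₁ * C₂))) ct' σ' hρ hρ8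
    (by positivity) hG
  have e3 : C₂ * (C₁ * (η / (C₁ * C₂))) = η := by
    field_simp
  rw [e3] at hR
  exact ⟨ct, σ, hR⟩

end Pool.Agent.Lib.P28t
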