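import Pool.Agent.Lib.P28t.Defs
import Pool.Agent.Lib.P28g.SmoothW

set_option autoImplicit false
set_option maxSynthPendingDepth 3

/-!
# The radius function of a measure

PROOF. Extract the first part of the proof of `P28g.SmoothWAux.exists_dat` (`P28g/SmoothW.lean`), with `enW Φ` replaced by `ν`. `m, q, C` from `exists_qm n`; `μ = ν.map q`; no atoms as in `map_atom` (use `h0`, `hl`), `map_supp`; `exists_radius` (`P28f/Radius.lean`) with `P = 1`, `ε = 1/2`, gives `σ`, `s`; `S z = σ (q z)`, `r z = s (q z)` (`cut_of` for smoothness, homogeneity and the derivative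
bound `‖fderiv r z‖ ‖z‖ ≤ n + 1`; `map_ge`, `map_le`, `q_hom`, `q_lip` are general). `S z / 4 ≤ r z ≤ S z`. `ν.real (PB (pt z) (9/10 S z)) ≤ μ.real (closedBall (q z) (9/10 σ (q z))) ≤ c`. Light balls: `t ≤ 2 C S z`. Lipschitz: `|S w - S z| ≤ ‖q w - q z‖ ≤ 2 (n+1) ‖w - z‖ / ‖z‖`. The constant is `max (2 C) (2 (n + 1))`.
-/

open MeasureTheory Set Metric
open scoped ContDiff Topology ENNReal

namespace Pool.Agent.Lib.P28t

open Pool.Agent.P28b04d Pool.Agent.Lib.P28e Pool.Agent.Lib.P28c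
open Pool.Agent.Lib.P28f (V EV)
open Pool.Agent.Lib.P28g (TT)

variable {n : ℕ}

namespace RadSAux

open Pool.Agent.Lib.P28g

theorem map_atom' {m : ℕ} {q : W n → V m} {C : ℝ} (hq : QM q C) {ν : Measure (W n)}
    (h0 : ν {0} = 0) (hl : ∀ w : W n, w ≠ 0 → ν {x | pt x = pt w} = 0) (P : V m) :
    ν.map q {P} = 0 := by
  rw [Measure.map_apply hq.meas (measurableSet_singleton P)]
  by_cases h : ∃ w : W n, w ≠ 0 ∧ q w = P
  · obtain ⟨w, hw, hwP⟩ := h
    refine measure_mono_null ?_ (hl w hw)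
    intro x hx
    have hx' : q x = P := hx
    have h1 := hq.ge x w
    rw [hx', hwP, sub_self, norm_zero, mul_zero] at h1
    have h2 := (QMapAux.norm_sub_le_fd (pt x) (pt w)).trans h1
    exact sub_eq_zero.1 (norm_le_zero_iff.1 h2)
  · refine measure_mono_null ?_ h0
    intro x hx
    by_contra h2
    exact h ⟨x, h2, hx⟩

end RadSAux

open RadSAux Pool.Agent.Lib.P28g Pool.Agent.Lib.P28g.SmoothWAux in
theorem exists_rad (n : ℕ) : ∃ C : ℝ, 1 ≤ C ∧ ∀ ν : Measure (W n), IsFiniteMeasure ν →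
    ν {0} = 0 → (∀ w : W n, w ≠ 0 → ν {x | pt x = pt w} = 0) → ∀ c : ℝ, 0 < c →
    ∃ S r : W n → ℝ, (∀ z, 0 < S z ∧ S z ≤ 1) ∧
      (∀ z : W n, z ≠ 0 → ν.real (PB (pt z) (9 / 10 * S z)) ≤ c) ∧
      (∀ z : W n, z ≠ 0 → ∀ t : ℝ, 0 < t → t ≤ 1 → ν.real (PB (pt z) t) ≤ c → t ≤ C * S z) ∧
      (∀ z w : W n, z ≠ 0 → w ≠ 0 → |S w - S z| ≤ C * (‖w - z‖ / ‖z‖)) ∧
      ContDiffOn ℝ ∞ r {0}ᶜ ∧ (∀ (c : ℂ) (z : W n), c ≠ 0 → r (c • z) = r z) ∧
      (∀ z, S z / 4 ≤ r z ∧ r z ≤ S z) ∧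
      ∀ z : W n, z ≠ 0 → ‖fderiv ℝ r z‖ * ‖z‖ ≤ C := by
  obtain ⟨m, q, C, hq⟩ := exists_qm n
  have hC := hq.one_le
  have hC0 : 0 < C := by linarith
  have hn0 : (0 : ℝ) ≤ n := Nat.cast_nonneg n
  have hD1 : 2 * C ≤ max (2 * C) (2 * ((n : ℝ) + 1)) := le_max_left _ _
  have hD2 : 2 * ((n : ℝ) + 1) ≤ max (2 * C) (2 * ((n : ℝ) + 1)) := le_max_right _ _
  refine ⟨max (2 * C) (2 * ((n : ℝ) + 1)), by linarith, ?_⟩
  intro ν hν h0 hl c hc
  obtain ⟨σ, s, hσ, hσc, hσmax, hσlip, hs, hsσ, hds⟩ :=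
    Pool.Agent.Lib.P28f.exists_radius (μ := ν.map q) (map_atom' hq h0 hl)
      (map_supp hq ν) (c := c) (P := 1) (ε := 1 / 2) hc one_pos (by norm_num)
  have hcut := cut_of hq hσ hs hsσ hds
  refine ⟨fun z => σ (q z), fun z => s (q z), fun z => hσ (q z), ?_, ?_, ?_, hcut.smooth,
    hcut.hom, ?_, ?_⟩
  · intro z _
    exact (map_ge hq ν z _).trans (hσc (q z))
  · intro z hz t ht ht1 hlt
    have h1 : t / (2 * C) ≤ σ (q z) := by
      refine hσmax (q z) (t / (2 * C)) (by positivity) ?_ ?_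
      · rw [div_le_one (by positivity)]
        linarith
      · refine (map_le hq ν z (r := t / (2 * C)) (by positivity)).trans ?_
        rw [mul_div_cancel₀ t (by positivity : (2 * C) ≠ 0)]
        exact hlt
    rw [div_le_iff₀ (by positivity)] at h1
    have h2 := (hσ (q z)).1
    have h3 : σ (q z) * (2 * C) ≤ σ (q z) * max (2 * C) (2 * ((n : ℝ) + 1)) :=
      mul_le_mul_of_nonneg_left hD1 h2.le
    calc t ≤ σ (q z) * (2 * C) := h1
      _ ≤ σ (q z) * max (2 * C) (2 * ((n : ℝ) + 1)) := h3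
      _ = max (2 * C) (2 * ((n : ℝ) + 1)) * σ (q z) := mul_comm _ _
  · intro z w hz hw
    have h1 := hσlip (q w) (q z)
    have h2 := hσlip (q z) (q w)
    rw [norm_sub_rev] at h2
    have h3 := q_lip hq hz hw
    have h4 : 2 * ((n : ℝ) + 1) * ‖w - z‖ / ‖z‖ ≤
        max (2 * C) (2 * ((n : ℝ) + 1)) * (‖w - z‖ / ‖z‖) := by
      rw [mul_div_assoc]
      exact mul_le_mul_of_nonneg_right hD2 (by positivity)
    show |σ (q w) - σ (q z)| ≤ _
    rw [abs_le]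
    constructor <;> linarith
  · intro z
    have h1 := hsσ (q z)
    constructor
    · show σ (q z) / 4 ≤ s (q z)
      linarith [h1.1]
    · show s (q z) ≤ σ (q z)
      linarith [h1.2]
  · intro z hz
    exact (hcut.der z hz).trans (by linarith)

end Pool.Agent.Lib.P28t
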