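import Pool.Agent.Lib.P28t.AvgCl
import Pool.Agent.Lib.P28t.MeanAll
import Pool.Agent.Lib.P28t.RadS
import Pool.Agent.Lib.P28t.JoinP
import Pool.Agent.Lib.P28t.MFacts
import Pool.Agent.Lib.P28c.Vol

set_option autoImplicit false
set_option maxSynthPendingDepth 3

/-!
# Smoothing a symplectic form by averages

PROOF. `enH_facts`: `enH h` is finite with the given integral, absolutely continuous with respect to `volume`, `{0}` and the lines `{pt x = pt w}` are null sets (copy `P28g.enW_null`, `enW_line`, `enW_zero` in `P28g/SmoothW.lean`; they only use absolute continuity).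
CONSTANTS (`N = n + 1`): `k` from `mean_flat`, `C₁` from `exists_rad`, `C₂` from `lower_move`, `C₃` from `avg_close` with `K = 16 N`. `ε₁ > 0` with `4 N ε₁ ≤ (9/10) k`, `ε₁ C₁ ≤ 1/5`, `ε₁ C₂ ≤ 1`, `8 N ε₁ ≤ 1`. Given `δ` choose `η` with `η' = C₃ 2^(2n+2) η ≤ 1/4` and `8 η' ≤ δ`; `c` from `mean_flat` for `η`.
`S, r` from `exists_rad` for `ν = enH h`, `c`. `r̂ = ε₁ r` is `RadF`; `β = AvF r̂ α`. For `t ∈ (0,1]` put `r_t = t r̂` (`RadF.smul`).
LOCAL ESTIMATE: fix `z ≠ 0`, `t ∈ (0, 1]`, `ρ = 4 N t r̂(z) ‖z‖` (`≤ k (9/10) S z ‖z‖` since `r ≤ S`, and `≤ ‖z‖/8`). `mean_flat` at `z` with `s = (9/10) S z`: `MGood α z ρ η ct σ`. Let `‖w - z‖ ≤ t r̂(z) ‖z‖` (`≤ ‖z‖/8`): `w ≠ 0` and, by the derivative bound `‖fderiv r̂ u‖ ‖u‖ ≤ 1/5` along the segment,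
`|r̂ w - r̂ z| ≤ r̂ z / 4`. So with `ρ_w = 2 N t r̂(z) ‖z‖`: `closedBall w ρ_w ⊆ closedBall z ρ`, `N t r̂(w) ‖w‖ ≤ ρ_w ≤ 16 N t r̂(w) ‖w‖`, `ρ_w ≤ ‖w‖/8`. `mclose_move` (`K = 2`) and `avg_close` (for `r_t`, at `w`): `‖dw (AvF r_t α) w - ct‖ ≤ C₃ 2^(2n+2) η σ = η' σ`. By `lower_move` for `p` with `hip w p = 0`: `‖dw (AvF r_t α) w p‖ ≥ (σ/2) ‖p‖ - η' σ ‖p‖ ≥ (σ/4) ‖p‖` (`C₂ ‖w - z‖ ≤ C₂ ε₁ ‖z‖ ≤ ‖z‖`).
Hence `NdAt` at every `z` (`ndAt_of_lower`), so `AvF r_t α` is `Symp` (`con_AvF`) for `t ∈ (0,1]`, and for `t = 0` it is `α` (`AvF_zero`). `join_family` with `AvF_smooth`: `JoinF α β`. For `t = 1`: `FlatF β z (r̂(z) ‖z‖) (8 η') (σ/4)`, `8 η' ≤ δ`.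
If `ν.real (PB (pt z) s) ≤ c`, `s ≤ C₁ S z ≤ 4 C₁ r z = (4 C₁ / ε₁) r̂ z`, so with `κ = ε₁ / (4 C₁)`: `κ s ‖z‖ ≤ r̂(z) ‖z‖` and `FlatF.mono`. `κ ≤ 1/8`.
-/

open MeasureTheory Set Metric
open scoped ContDiff Topology ENNReal

namespace Pool.Agent.Lib.P28t

open Pool.Agent.P28b04d Pool.Agent.Lib.P28e Pool.Agent.Lib.P28c
open Pool.Agent.Lib.P28f (V EV)
open Pool.Agent.Lib.P28g (TT)

variable {n : ℕ}

theorem enH_facts (hn : 1 ≤ n) (h : W n → ℝ) : enH h ≪ volume ∧ enH h {0} = 0 ∧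
    ∀ w : W n, w ≠ 0 → enH h {x | pt x = pt w} = 0 := by
  have hac : enH h ≪ volume :=
    (withDensity_absolutelyContinuous _ _).trans Measure.absolutelyContinuous_restrict
  refine ⟨hac, hac (measure_singleton (0 : W n)), fun w hw => hac ?_⟩
  have h1 : {x : W n | pt x = pt w} ⊆ {0} ∪ {x : W n | x ≠ 0 ∧ fd (pt x) (pt w) = 0} := by
    intro z hz
    by_cases h0 : z = 0
    · exact Or.inl h0
    · have hz' : pt z = pt w := hz
      exact Or.inr ⟨h0, by rw [hz', fd_self]⟩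
  exact measure_mono_null h1 (measure_union_null (measure_singleton (0 : W n)) (line_null hn hw))

namespace SmoothSAux

/-- Numerical inequalities. -/
theorem num {N t R Rw a b d : ℝ} (hN : 1 ≤ N) (ht : 0 < t) (hR : 0 < R)
    (hR1 : 4 * N * R ≤ 9 / 80) (ht1 : t ≤ 1) (ha : 0 < a) (hd : d ≤ t * R * a)
    (hb1 : b ≤ a + d) (hb2 : a - d ≤ b) (hw1 : Rw ≤ 5 / 4 * R) (hw2 : 3 / 4 * R ≤ Rw) :
    N * (t * Rw) * b ≤ 2 * N * (t * R) * a ∧ 2 * N * (t * R) * a ≤ 16 * N * (t * Rw * b) ∧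
      2 * N * (t * R) * a ≤ b / 8 ∧ 2 * N * (t * R) * a + d ≤ 4 * N * (t * R) * a := by
  have hR2 : R ≤ 9 / 320 := by nlinarith
  have htR : t * R ≤ 9 / 320 := by nlinarith
  have hda : d ≤ a / 8 := by nlinarith
  have hb3 : b ≤ 9 / 8 * a := by linarith
  have hb4 : 7 / 8 * a ≤ b := by linarith
  have hb0 : 0 < b := by linarith
  have hRw0 : 0 < Rw := by linarith
  have htR0 : 0 < t * R := by positivity
  have h1 : Rw * b ≤ 45 / 32 * (R * a) := by
    calc Rw * b ≤ (5 / 4 * R) * (9 / 8 * a) := mul_le_mul hw1 hb3 hb0.le (by positivity)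
      _ = 45 / 32 * (R * a) := by ring
  have h2 : 21 / 32 * (R * a) ≤ Rw * b := by
    calc 21 / 32 * (R * a) = (3 / 4 * R) * (7 / 8 * a) := by ring
      _ ≤ Rw * b := mul_le_mul hw2 hb4 (by positivity) hRw0.le
  have hRa : 0 < R * a := by positivity
  have hNt : 0 < N * t := by positivity
  refine ⟨?_, ?_, ?_, ?_⟩
  · have : N * t * (Rw * b) ≤ N * t * (2 * (R * a)) :=
      mul_le_mul_of_nonneg_left (by linarith) hNt.le
    linarith
  · have : N * t * (2 * (R * a)) ≤ N * t * (16 * (Rw * b)) :=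
      mul_le_mul_of_nonneg_left (by linarith) hNt.le
    linarith
  · have h3 : 2 * N * (t * R) ≤ 9 / 160 := by
      have : t * (4 * N * R) ≤ 1 * (9 / 80) := mul_le_mul ht1 hR1 (by positivity) (by norm_num)
      linarith
    have h4 : 2 * N * (t * R) * a ≤ 9 / 160 * a := mul_le_mul_of_nonneg_right h3 ha.le
    linarith
  · have h5 : t * R * a ≤ N * (t * R * a) := by
      have : 0 < t * R * a := by positivity
      nlinarith
    have : 0 < N * (t * R * a) := by positivity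
    linarith

/-- The radius function varies slowly. -/
theorem rad_var {r : W n → ℝ} (hs : ContDiffOn ℝ ∞ r {0}ᶜ)
    (hd : ∀ z : W n, z ≠ 0 → ‖fderiv ℝ r z‖ * ‖z‖ ≤ 1 / 5) {z w : W n} (hz : z ≠ 0)
    (hw : ‖w - z‖ ≤ ‖z‖ / 8) : |r w - r z| ≤ 1 / 4 * (‖w - z‖ / ‖z‖) := by
  have hz0 : 0 < ‖z‖ := norm_pos_iff.2 hz
  have hball : ∀ u ∈ closedBall z (‖z‖ / 8), 7 / 8 * ‖z‖ ≤ ‖u‖ := by
    intro u hu
    rw [mem_closedBall, dist_eq_norm] at hu
    have := norm_sub_norm_le z u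
    rw [norm_sub_rev] at this
    linarith
  have hne : ∀ u ∈ closedBall z (‖z‖ / 8), u ≠ 0 := by
    intro u hu h0
    have := hball u hu
    rw [h0, norm_zero] at this
    linarith
  have hdiff : ∀ u ∈ closedBall z (‖z‖ / 8), DifferentiableAt ℝ r u := by
    intro u hu
    have hmem : ({0}ᶜ : Set (W n)) ∈ 𝓝 u := isOpen_compl_singleton.mem_nhds (hne u hu)
    exact (hs.contDiffAt hmem).differentiableAt (by simp)
  have hb : ∀ u ∈ closedBall z (‖z‖ / 8), ‖fderiv ℝ r u‖ ≤ 1 / 4 / ‖z‖ := by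
    intro u hu
    have h1 := hball u hu
    have h2 := hd u (hne u hu)
    rw [le_div_iff₀ hz0]
    have h3 : ‖fderiv ℝ r u‖ * (7 / 8 * ‖z‖) ≤ ‖fderiv ℝ r u‖ * ‖u‖ :=
      mul_le_mul_of_nonneg_left h1 (norm_nonneg _)
    nlinarith
  have hwm : w ∈ closedBall z (‖z‖ / 8) := by
    rw [mem_closedBall, dist_eq_norm]
    exact hw
  have hzm : z ∈ closedBall z (‖z‖ / 8) := mem_closedBall_self (by positivity)
  have h := Convex.norm_image_sub_le_of_norm_fderiv_le (𝕜 := ℝ) hdiff hb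
    (convex_closedBall z (‖z‖ / 8)) hzm hwm
  rw [Real.norm_eq_abs] at h
  refine h.trans (le_of_eq ?_)
  ring

theorem exists_eps {k C₁ C₂ N : ℝ} (hk : 0 < k) (hC₁ : 1 ≤ C₁) (hC₂ : 1 ≤ C₂) (hN : 1 ≤ N) :
    ∃ ε : ℝ, 0 < ε ∧ 4 * N * ε ≤ 9 / 10 * k ∧ ε * C₁ ≤ 1 / 5 ∧ ε * C₂ ≤ 1 ∧ 8 * N * ε ≤ 1 := by
  refine ⟨min (min (9 / 10 * k / (4 * N)) (1 / 5 / C₁)) (min (1 / C₂) (1 / (8 * N))),
    ?_, ?_, ?_, ?_, ?_⟩
  · have : 0 < C₁ := by linarith
    have : 0 < C₂ := by linarith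
    have : 0 < N := by linarith
    refine lt_min (lt_min ?_ ?_) (lt_min ?_ ?_) <;> positivity
  · have hN0 : 0 < 4 * N := by linarith
    rw [mul_comm, ← le_div_iff₀ hN0]
    exact (min_le_left _ _).trans (min_le_left _ _)
  · rw [← le_div_iff₀ (by linarith)]
    exact (min_le_left _ _).trans (min_le_right _ _)
  · rw [← le_div_iff₀ (by linarith)]
    exact (min_le_right _ _).trans (min_le_left _ _)
  · have hN0 : 0 < 8 * N := by linarith
    rw [mul_comm, ← le_div_iff₀ hN0]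
    exact (min_le_right _ _).trans (min_le_right _ _)

/-- The lower bound for the average from closeness. -/
theorem lower_of_close {D ct : BW n} {w : W n} {σ e : ℝ} (hσ : 0 < σ) (he : e ≤ 1 / 4)
    (hcl : ‖D - ct‖ ≤ e * σ) (hl : ∀ p : W n, hip w p = 0 → σ / 2 * ‖p‖ ≤ ‖ct p‖) :
    ∀ p : W n, hip w p = 0 → σ / 4 * ‖p‖ ≤ ‖D p‖ := by
  intro p hp
  have h1 := hl p hp
  have h2 : ‖(D - ct) p‖ ≤ e * σ * ‖p‖ :=
    ((D - ct).le_opNorm p).trans (mul_le_mul_of_nonneg_right hcl (norm_nonneg _))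
  have h3 : ‖ct p‖ ≤ ‖D p‖ + ‖(D - ct) p‖ := by
    have e1 : ct p = D p - (D - ct) p := by simp
    rw [e1]
    exact norm_sub_le _ _
  have h4 : e * σ * ‖p‖ ≤ 1 / 4 * σ * ‖p‖ := by
    apply mul_le_mul_of_nonneg_right _ (norm_nonneg _)
    exact mul_le_mul_of_nonneg_right he hσ.le
  linarith

end SmoothSAux

open SmoothSAux

theorem smooth_S (n : ℕ) (hn : 1 ≤ n) : ∃ κ : ℝ, 0 < κ ∧ κ ≤ 1 / 8 ∧ ∀ δ : ℝ, 0 < δ →
    ∃ c : ℝ, 0 < c ∧ ∀ (α : FW n) (h : W n → ℝ), Symp α → Dens α h →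
      IsFiniteMeasure (enH h) → ∃ β : FW n, JoinF α β ∧ CtrlF κ δ c β (enH h) := by
  obtain ⟨k, hk0, hk1, hk⟩ := mean_flat n hn
  obtain ⟨C₁, hC₁, hrad⟩ := exists_rad n
  obtain ⟨C₂, hC₂, hlow⟩ := lower_move n
  obtain ⟨N, hN⟩ : ∃ N : ℝ, N = (n : ℝ) + 1 := ⟨_, rfl⟩
  have hN1 : 1 ≤ N := by
    rw [hN]
    have : (0 : ℝ) ≤ n := Nat.cast_nonneg n
    linarith
  have hN0 : 0 < N := by linarith
  obtain ⟨C₃, hC₃, havg⟩ := avg_close n (K := 16 * N) (by linarith)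
  obtain ⟨ε, hε0, hε1, hε2, hε3, hε4⟩ := exists_eps hk0 hC₁ hC₂ hN1
  have hC₁0 : 0 < C₁ := by linarith
  have hεs : ε ≤ 1 / 8 := by nlinarith
  refine ⟨ε / (4 * C₁), by positivity, ?_, ?_⟩
  · rw [div_le_iff₀ (by positivity)]
    nlinarith
  intro δ hδ
  obtain ⟨P, hP⟩ : ∃ P : ℝ, P = C₃ * 2 ^ (2 * n + 2) := ⟨_, rfl⟩
  have hP0 : 0 < P := by
    rw [hP]
    have : 0 < C₃ := by linarith
    positivity
  obtain ⟨η, hη⟩ : ∃ η : ℝ, η = min (1 / 4) (δ / 8) / P := ⟨_, rfl⟩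
  have hη0 : 0 < η := by
    rw [hη]
    have : 0 < min (1 / 4) (δ / 8) := lt_min (by norm_num) (by positivity)
    positivity
  have hPη : P * η = min (1 / 4) (δ / 8) := by
    rw [hη]
    field_simp
  have hPη1 : P * η ≤ 1 / 4 := by
    rw [hPη]
    exact min_le_left _ _
  have hPη2 : 8 * (P * η) ≤ δ := by
    have : P * η ≤ δ / 8 := by
      rw [hPη]
      exact min_le_right _ _
    linarith
  obtain ⟨c, hc, hmean⟩ := hk η hη0
  refine ⟨c, hc, ?_⟩
  intro α h hα hdens hfin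
  obtain ⟨-, hz0, hline⟩ := enH_facts hn h
  obtain ⟨S, r, hS, hSb, hSl, -, hrs, hrh, hrS, hrd⟩ := hrad (enH h) hfin hz0 hline c hc
  -- the radius function
  have hRle : ∀ z, ε * r z ≤ ε := fun z => by
    have h1 := (hrS z).2
    have h2 := (hS z).2
    nlinarith
  have hrpos : ∀ z, 0 < r z := fun z => by
    have h1 := (hrS z).1
    have h2 := (hS z).1
    linarith
  have hder : ∀ z : W n, z ≠ 0 → ‖fderiv ℝ (fun z => ε * r z) z‖ * ‖z‖ ≤ 1 / 5 := by
    intro z hz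
    have hmem : ({0}ᶜ : Set (W n)) ∈ 𝓝 z := isOpen_compl_singleton.mem_nhds hz
    have hd : DifferentiableAt ℝ r z := (hrs.contDiffAt hmem).differentiableAt (by simp)
    have e1 : fderiv ℝ (fun z => ε * r z) z = ε • fderiv ℝ r z := by
      rw [fderiv_const_mul hd]
    rw [e1, norm_smul, Real.norm_eq_abs, abs_of_pos hε0, mul_assoc]
    exact (mul_le_mul_of_nonneg_left (hrd z hz) hε0.le).trans hε2
  have hR : RadF (fun z => ε * r z) := by
    refine ⟨contDiffOn_const.mul hrs, ?_, ?_, ?_, ?_⟩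
    · intro c z hc
      show ε * r (c • z) = ε * r z
      rw [hrh c z hc]
    · intro z
      show 0 ≤ ε * r z
      have := hrpos z
      positivity
    · intro z
      show ε * r z ≤ 1 / (8 * ((n : ℝ) + 1))
      rw [← hN, le_div_iff₀ (by positivity)]
      have := hRle z
      nlinarith
    · intro z hz
      have := hder z hz
      linarith
  -- the local estimate
  have loc : ∀ t : ℝ, 0 < t → t ≤ 1 → ∀ z : W n, z ≠ 0 → ∃ (ct : BW n) (σ : ℝ), 0 < σ ∧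
      ∀ w : W n, ‖w - z‖ ≤ t * (ε * r z) * ‖z‖ → w ≠ 0 ∧
        ‖dw (AvF (fun z => t * (ε * r z)) α) w - ct‖ ≤ P * η * σ ∧
        ∀ p : W n, hip w p = 0 → σ / 2 * ‖p‖ ≤ ‖ct p‖ := by
    intro t ht ht1 z hz
    have hz0 : 0 < ‖z‖ := norm_pos_iff.2 hz
    have hRz : 0 < ε * r z := mul_pos hε0 (hrpos z)
    have hRz1 : 4 * N * (ε * r z) ≤ 9 / 80 := by
      have h1 := hRle z
      have h2 : 4 * N * (ε * r z) ≤ 4 * N * ε := mul_le_mul_of_nonneg_left h1 (by positivity)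
      linarith
    have hρ0 : 0 < 4 * N * (t * (ε * r z)) * ‖z‖ := by positivity
    have hSz := (hS z).1
    obtain ⟨ct, σ, hσ, hcl, hkill, hl⟩ := hmean α h hα hdens z hz (9 / 10 * S z) (by positivity)
      (by have := (hS z).2; linarith) (by
        have h1 := hSb z hz
        rw [← ENNReal.ofReal_toReal (measure_ne_top (enH h) (PB (pt z) (9 / 10 * S z)))]
        exact ENNReal.ofReal_le_ofReal h1) (4 * N * (t * (ε * r z)) * ‖z‖) hρ0 (by
        apply mul_le_mul_of_nonneg_right _ hz0.le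
        have h1 : t * (ε * r z) ≤ 1 * (ε * S z) := mul_le_mul ht1
          (mul_le_mul_of_nonneg_left (hrS z).2 hε0.le) hRz.le zero_le_one
        have h2 : 4 * N * (t * (ε * r z)) ≤ 4 * N * (1 * (ε * S z)) :=
          mul_le_mul_of_nonneg_left h1 (by positivity)
        have h3 : 4 * N * ε * S z ≤ 9 / 10 * k * S z := mul_le_mul_of_nonneg_right hε1 hSz.le
        linarith)
    refine ⟨ct, σ, hσ, ?_⟩
    intro w hw
    have hd8 : ‖w - z‖ ≤ ‖z‖ / 8 := by
      have h1 : t * (ε * r z) ≤ 1 / 8 := by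
        have h2 := hRle z
        nlinarith
      have h3 : t * (ε * r z) * ‖z‖ ≤ 1 / 8 * ‖z‖ := mul_le_mul_of_nonneg_right h1 hz0.le
      linarith
    have hb1 : ‖w‖ ≤ ‖z‖ + ‖w - z‖ := by
      have := norm_add_le z (w - z)
      rwa [add_sub_cancel] at this
    have hb2 : ‖z‖ - ‖w - z‖ ≤ ‖w‖ := by
      have := norm_sub_norm_le z w
      rw [norm_sub_rev] at this
      linarith
    have hw0 : w ≠ 0 := by
      intro h0
      rw [h0, norm_zero] at hb2
      rw [h0] at hd8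
      linarith
    have hvar := rad_var (r := fun z => ε * r z) hR.smooth hder hz hd8
    have hvar' : |ε * r w - ε * r z| ≤ 1 / 4 * (ε * r z) := by
      refine hvar.trans (mul_le_mul_of_nonneg_left ?_ (by norm_num))
      rw [div_le_iff₀ hz0]
      refine hw.trans (mul_le_mul_of_nonneg_right ?_ hz0.le)
      nlinarith
    obtain ⟨hv1, hv2⟩ := abs_le.1 hvar'
    obtain ⟨g1, g2, g3, g4⟩ := num (N := N) (t := t) (R := ε * r z) (Rw := ε * r w) (a := ‖z‖)
      (b := ‖w‖) (d := ‖w - z‖) hN1 ht hRz hRz1 ht1 hz0 hw hb1 hb2 (by linarith) (by linarith)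
    have hρw : 0 < 2 * N * (t * (ε * r z)) * ‖z‖ := by positivity
    have hsub : closedBall w (2 * N * (t * (ε * r z)) * ‖z‖) ⊆
        closedBall z (4 * N * (t * (ε * r z)) * ‖z‖) := by
      apply closedBall_subset_closedBall'
      rw [dist_eq_norm]
      exact g4
    have hmv := mclose_move hcl hρw (K := 2) (by norm_num) (by positivity) hsub
      (le_of_eq (by ring))
    have hrt := hR.smul ht.le ht1
    have hav := havg α hα.1 (fun z => t * (ε * r z)) hrt w hw0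
      (mul_pos ht (mul_pos hε0 (hrpos w))) _ _ ct (by positivity) hmv (by rw [← hN]; exact g1)
      (by refine g2.trans (le_of_eq (by ring))) g3
    refine ⟨hw0, hav.trans (le_of_eq ?_), ?_⟩
    · rw [hP]
      ring
    · refine hlow ct z w σ hz hσ hkill hl ?_
      have h1 : ‖w - z‖ ≤ ε * ‖z‖ := by
        refine hw.trans (mul_le_mul_of_nonneg_right ?_ hz0.le)
        have h2 := hRle z
        nlinarith
      have h3 : C₂ * ‖w - z‖ ≤ C₂ * (ε * ‖z‖) := mul_le_mul_of_nonneg_left h1 (by linarith)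
      have h4 : ε * C₂ * ‖z‖ ≤ 1 * ‖z‖ := mul_le_mul_of_nonneg_right hε3 hz0.le
      linarith
  -- symplectic
  have hsymp : ∀ t : ℝ, 0 < t → t ≤ 1 → Symp (AvF (fun z => t * (ε * r z)) α) := by
    intro t ht ht1
    have hcon := con_AvF (hR.smul ht.le ht1) hα.1
    refine ⟨hcon, fun z hz => ?_⟩
    obtain ⟨ct, σ, hσ, hloc⟩ := loc t ht ht1 z hz
    obtain ⟨-, h1, h2⟩ := hloc z (by
      rw [sub_self, norm_zero]
      have := hrpos z
      positivity)
    exact ndAt_of_lower hcon hz (σ := σ / 4) (by positivity)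
      (lower_of_close hσ hPη1 h1 h2)
  have hβ : AvF (fun z => 1 * (ε * r z)) α = AvF (fun z => ε * r z) α := by
    congr 1
    funext z
    rw [one_mul]
  refine ⟨AvF (fun z => ε * r z) α, ?_, ?_, ?_⟩
  · refine join_family (K := fun p => AvF (fun z => p.1 * (ε * r z)) α p.2)
      (AvF_smooth hR hα.1) ?_ ?_ ?_
    · intro t ht
      rcases ht.1.eq_or_lt with h0 | h0
      · subst h0
        refine hα.congr (fun z hz => ?_)
        show AvF (fun z => 0 * (ε * r z)) α z = α z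
        have e1 : (fun z => 0 * (ε * r z)) = fun _ : W n => (0 : ℝ) := by
          funext z
          rw [zero_mul]
        rw [e1, AvF_zero]
      · exact hsymp t h0 ht.2
    · intro z hz
      show AvF (fun z => 0 * (ε * r z)) α z = α z
      have e1 : (fun z => 0 * (ε * r z)) = fun _ : W n => (0 : ℝ) := by
        funext z
        rw [zero_mul]
      rw [e1, AvF_zero]
    · intro z hz
      show AvF (fun z => 1 * (ε * r z)) α z = _
      rw [hβ]
  · rw [← hβ]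
    exact hsymp 1 one_pos le_rfl
  · intro z hz s hs0 hs1 hs
    have hz0 : 0 < ‖z‖ := norm_pos_iff.2 hz
    obtain ⟨ct, σ, hσ, hloc⟩ := loc 1 one_pos le_rfl z hz
    rw [hβ] at hloc
    have hloc' : ∀ w ∈ closedBall z (ε * r z * ‖z‖), w ≠ 0 ∧
        ‖dw (AvF (fun z => ε * r z) α) w - ct‖ ≤ P * η * σ ∧
        ∀ p : W n, hip w p = 0 → σ / 2 * ‖p‖ ≤ ‖ct p‖ := by
      intro w hw
      rw [mem_closedBall, dist_eq_norm] at hw
      exact hloc w (by rw [one_mul]; exact hw)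
    have hflat : FlatF (AvF (fun z => ε * r z) α) z (ε * r z * ‖z‖) (8 * (P * η)) (σ / 4) := by
      refine ⟨by positivity, ?_, ?_⟩
      · intro x hx
        obtain ⟨-, h1, h2⟩ := hloc' x hx
        exact lower_of_close hσ hPη1 h1 h2
      · intro x hx y hy
        obtain ⟨-, h1, -⟩ := hloc' x hx
        obtain ⟨-, h2, -⟩ := hloc' y hy
        have e1 : dw (AvF (fun z => ε * r z) α) y - dw (AvF (fun z => ε * r z) α) x =
            (dw (AvF (fun z => ε * r z) α) y - ct) - (dw (AvF (fun z => ε * r z) α) x - ct) := by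
          abel
        rw [e1]
        refine (norm_sub_le _ _).trans ?_
        linarith
    refine ⟨σ / 4, hflat.mono (closedBall_subset_closedBall ?_) hPη2⟩
    apply mul_le_mul_of_nonneg_right _ hz0.le
    have h1 := hSl z hz s hs0 hs1 hs
    have h2 := (hrS z).1
    have h3 : s ≤ 4 * C₁ * r z := by nlinarith
    rw [div_mul_eq_mul_div, div_le_iff₀ (by positivity)]
    have h4 : ε * s ≤ ε * (4 * C₁ * r z) := mul_le_mul_of_nonneg_left h3 hε0.le
    linarith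

end Pool.Agent.Lib.P28t
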