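import Pool.Agent.Lib.P28t.PrepF
import Pool.Agent.Lib.P28t.PairS
import Pool.Agent.Lib.P28t.ChartT
import Pool.Agent.Lib.P28t.SmoothS
import Pool.Agent.Lib.P28s.Induct

set_option autoImplicit false
set_option maxSynthPendingDepth 3

/-!
# Finitely many classes of symplectic forms below every full energy

PROOF. Compare `P28g/Main.lean` (`seq_fin`, `finite_classes`). `δ₁, ε₁` from `pair_S`, `δ₀` from `P28s.fin_allS (n * 2)`, `κ` from `smooth_S`, `C` from `chart_T`; `δ > 0` with `C δ ≤ min δ₀ (min (δ₁/2000) (1/2000))`, `8 δ ≤ ε₁`, `δ ≤ 1/4`; `c` and `β j` from `smooth_S` (`ν j = enH (h j)`, finite, mass `≤ E⁺`, `E⁺ = max E 0`), `enH_facts`. `prep_F`: `A, T, s, l, S`.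
LABELS: for `a ∈ A` write `f_j = chF (pbl (T a) (β j))`, `μ_j = chm ((ν j).map (T a).symm)`; `chart_T`: `Ctrl (C δ) c (ball 0 1) f_j μ_j`. `P28f.pick` with `P j` = the collar condition and `rel i j = LabEq (co f_i 0 (s/2)) (co f_j 0 (s/2))`: for `q` with `P (q k)` the forms `co f_{q k} 0 s` with the measures `pull 0 s μ_{q k}` are `Loc (C δ) c E⁺` (`loc_subS`; no atoms: as
`P28g.chm_atom`, from the nullity of lines; mass: `chm_le`), `fin_allS` gives `k ≠ l` with `LabEq (st (co f_{q k} 0 s)) (st (co f_{q l} 0 s))` and `st (co f 0 s) = co f 0 (s/2)` (`P28s.co_co`). So for almost all `j`, for all `a ∈ A`: collar condition and `LabEq (co f_{i₀ a} 0 (s/2)) (co f_j 0 (s/2))`. Take `i ≠ j` in `S` with these properties (`exists_ne_of_eventually`).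
FLATNESS: `ann_ctrlS` on `ann 0 (s/4)` (mass of `closedBall 0 (9s/16) \ ball 0 (3s/16)` at most `c/4`), `SFlat (2000 C δ) (ann 0 (s/4)) (dd f_j)`, transported to `co f_j 0 (s/2)` on `ann 0 (1/2)` by `dd_co`. `pair_S` gives `JoinF (β i) (β j)`; `JoinF.trans` with `JoinF (α i) (β i)`, `JoinF (α j) (β j)`. `classes_F`: as `finite_classes` (`exists_seq_of_forall_finset_exists`).
-/

open MeasureTheory Set Metric
open scoped ContDiff Topology ENNReal

namespace Pool.Agent.Lib.P28t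

open Pool.Agent.P28b04d Pool.Agent.Lib.P28e Pool.Agent.Lib.P28c
open Pool.Agent.Lib.P28f (V EV)
open Pool.Agent.Lib.P28g (TT)

variable {n : ℕ}

namespace MainFAux

theorem enH_univ (h : W n → ℝ) :
    enH h univ = ∫⁻ x in ball (0 : W n) 1, ENNReal.ofReal (h x) ^ (2 * n) := by
  unfold enH
  rw [withDensity_apply _ MeasurableSet.univ, Measure.restrict_univ]

theorem chm_atomH (hn : 1 ≤ n) (h : W n → ℝ) (T : W n ≃L[ℝ] W n) (hT : TT T)
    (x : V (n * 2)) : P28g.chm ((enH h).map T.symm) {x} = 0 := by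
  have hms : Measurable (T.symm : W n → W n) := T.symm.continuous.measurable
  have hTs : T (sl n x) ≠ 0 := fun h0 => sl_ne x (T.injective (by rw [h0, map_zero]))
  have hm0 : MeasurableSet {z : W n | z 0 ≠ 0} :=
    ((measurableSet_singleton (0 : ℂ)).compl).preimage (measurable_pi_apply 0)
  unfold P28g.chm
  rw [Measure.map_apply P28g.measurable_cc (measurableSet_singleton x),
    Measure.restrict_apply (P28g.measurable_cc (measurableSet_singleton x)),
    Measure.map_apply hms ((P28g.measurable_cc (measurableSet_singleton x)).inter hm0)]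
  refine measure_mono_null ?_ ((enH_facts hn h).2.2 _ hTs)
  rintro w ⟨h1, h2⟩
  have h1' : P28g.cc (T.symm w) = x := h1
  have h2' : (T.symm w) 0 ≠ 0 := h2
  show pt w = pt (T (sl n x))
  have h7 : w = (T.symm w) 0 • T (sl n x) := by
    rw [← hT.hom, ← h1', P28g.smul_sl_cc h2', T.apply_symm_apply]
  conv_lhs => rw [h7]
  exact pt_smul h2' _

theorem exists_del {C δ₀ δ₁ ε₁ : ℝ} (hC : 1 ≤ C) (hδ₀ : 0 < δ₀) (hδ₁ : 0 < δ₁) (hε₁ : 0 < ε₁) :
    ∃ δ : ℝ, 0 < δ ∧ C * δ ≤ δ₀ ∧ 2000 * (C * δ) ≤ δ₁ ∧ C * δ ≤ 1 / 2000 ∧ 8 * δ ≤ ε₁ ∧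
      δ ≤ 1 / 4 := by
  have hC0 : 0 < C := by linarith
  obtain ⟨a, ha⟩ : ∃ a : ℝ, a = min (min δ₀ (δ₁ / 2000)) (min (1 / 2000) (ε₁ / 8)) := ⟨_, rfl⟩
  have ha0 : 0 < a := by rw [ha]; positivity
  have h1 : a ≤ δ₀ := by rw [ha]; exact (min_le_left _ _).trans (min_le_left _ _)
  have h2 : a ≤ δ₁ / 2000 := by rw [ha]; exact (min_le_left _ _).trans (min_le_right _ _)
  have h3 : a ≤ 1 / 2000 := by rw [ha]; exact (min_le_right _ _).trans (min_le_left _ _)
  have h4 : a ≤ ε₁ / 8 := by rw [ha]; exact (min_le_right _ _).trans (min_le_right _ _)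
  have e : C * (a / C) = a := by field_simp
  have h5 : a / C ≤ a := div_le_self ha0.le hC
  refine ⟨a / C, by positivity, ?_, ?_, ?_, ?_, ?_⟩
  · rw [e]; exact h1
  · rw [e]; linarith
  · rw [e]; exact h3
  · linarith
  · linarith

end MainFAux

open MainFAux

theorem seq_F (n : ℕ) (hn : 2 ≤ n) (E : ℝ) (α : ℕ → FW n) (h : ℕ → W n → ℝ)
    (hα : ∀ j, Symp (α j)) (hd : ∀ j, Dens (α j) (h j))
    (he : ∀ j, ∫⁻ x in ball (0 : W n) 1, ENNReal.ofReal (h j x) ^ (2 * n) ≤
      ENNReal.ofReal E) : ∃ i j, i ≠ j ∧ JoinF (α i) (α j) := by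
  classical
  have hn1 : 1 ≤ n := by omega
  have hm : 3 ≤ n * 2 := by omega
  obtain ⟨δ₁, ε₁, hδ₁, hε₁, hpair⟩ := pair_S n hn
  obtain ⟨δ₀, hδ₀, hfin⟩ := P28s.fin_allS (n * 2) hm
  obtain ⟨κ, hκ, hκ1, hsm⟩ := smooth_S n hn1
  obtain ⟨C, hC, hchart⟩ := chart_T n hn1 hκ hκ1
  have hC0 : 0 < C := by linarith
  obtain ⟨δ, hδ, hδ2, hδ3, hδ4, hδ5, hδ6⟩ := exists_del hC hδ₀ hδ₁ hε₁
  obtain ⟨c, hc, hsm'⟩ := hsm δ hδ
  -- the measures
  have hE0 : ENNReal.ofReal E ≤ ENNReal.ofReal (max E 0) :=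
    ENNReal.ofReal_le_ofReal (le_max_left _ _)
  have hν : ∀ j, enH (h j) univ ≤ ENNReal.ofReal (max E 0) := fun j => by
    rw [enH_univ]
    exact (he j).trans hE0
  have hfinW : ∀ j, IsFiniteMeasure (enH (h j)) := fun j =>
    ⟨lt_of_le_of_lt (hν j) ENNReal.ofReal_lt_top⟩
  have hνE : ∀ j, (enH (h j)).real univ ≤ max E 0 := fun j =>
    ENNReal.toReal_le_of_le_ofReal (le_max_right _ _) (hν j)
  choose β hβ hctrl using fun j => hsm' (α j) (h j) (hα j) (hd j) (hfinW j)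
  obtain ⟨A, T, s, l, S, hch, hs4, hl, hS, hcol, hclose⟩ := prep_F n hn1 hκ hκ1 hδ hδ6 hc β
    (fun j => enH (h j)) hfinW hνE (fun j => (enH_facts hn1 (h j)).2.1) hctrl
  have hs : 0 < s := hch.pos
  have hmapfin : ∀ a j, IsFiniteMeasure ((enH (h j)).map (T a).symm) := fun a j => by
    have := hfinW j
    infer_instance
  have hμfin : ∀ a j, IsFiniteMeasure (P28g.chm ((enH (h j)).map (T a).symm)) := fun a j => by
    have := hmapfin a j
    exact P28g.chm_finite _
  have hμE : ∀ a j (U : Set (V (n * 2))),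
      (P28g.chm ((enH (h j)).map (T a).symm)).real U ≤ max E 0 := by
    intro a j U
    have := hmapfin a j
    refine (P28g.chm_le _ U).trans ?_
    rw [measureReal_def, Measure.map_apply (T a).symm.continuous.measurable MeasurableSet.univ,
      preimage_univ]
    exact ENNReal.toReal_le_of_le_ofReal (le_max_right _ _) (hν j)
  have hCδ1 : C * δ ≤ 1 := by linarith
  have hct : ∀ a j, P28s.Ctrl (C * δ) c (ball 0 1) (chF (pbl (T a) (β j)))
      (P28g.chm ((enH (h j)).map (T a).symm)) := fun a j =>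
    hchart δ c (β j) (enH (h j)) (T a) (hfinW j) (hch.tt a) hδ.le hCδ1 (hctrl j)
  have hbs : ball (0 : V (n * 2)) s ⊆ ball 0 1 := ball_subset_ball (by linarith)
  have hst : ∀ f : V (n * 2) → V (n * 2), P28s.st (P28s.co f 0 s) = P28s.co f 0 (s / 2) := by
    intro f
    unfold P28s.st
    rw [P28s.co_co, smul_zero, add_zero]
    congr 1
    ring
  -- the local classes
  have hpick : ∀ a ∈ A, ∃ i, ∀ᶠ j in (P28f.ult : Filter ℕ),
      P28s.LabEq (P28s.co (chF (pbl (T a) (β i))) 0 (s / 2))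
        (P28s.co (chF (pbl (T a) (β j))) 0 (s / 2)) := by
    intro a ha
    have h1 : ∀ᶠ j in (P28f.ult : Filter ℕ), (P28g.chm ((enH (h j)).map (T a).symm)).real
        (ball 0 s \ closedBall 0 (s / 16)) ≤ c / 4 := hcol.mono fun j hj => hj a ha
    obtain ⟨i, -, hi⟩ := P28f.pick h1
      (rel := fun i j => P28s.LabEq (P28s.co (chF (pbl (T a) (β i))) 0 (s / 2))
        (P28s.co (chF (pbl (T a) (β j))) 0 (s / 2)))
      (fun i j h => h.symm) (by
        intro q hq
        have hloc : ∀ k, P28s.Loc (C * δ) c (max E 0)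
            (P28s.co (chF (pbl (T a) (β (q k)))) 0 s)
            (P28f.pull 0 s (P28g.chm ((enH (h (q k))).map (T a).symm))) := by
          intro k
          exact P28s.loc_subS (hμfin a _)
            (fun x => chm_atomH hn1 _ (T a) (hch.tt a) x) (hct a _) hs
            hbs (hμE a _ _) (hq k)
        obtain ⟨k, l, hkl, hiso⟩ := hfin (C * δ) c (by positivity) hδ2 hc (max E 0) _ _ hloc
        refine ⟨k, l, hkl, ?_⟩
        rw [hst, hst] at hiso
        exact hiso)
    exact ⟨i, hi.mono fun j hj => hj.2⟩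
  choose! i₀ hi₀ using hpick
  have hall : ∀ᶠ j in (P28f.ult : Filter ℕ), ∀ a ∈ A,
      P28s.LabEq (P28s.co (chF (pbl (T a) (β (i₀ a)))) 0 (s / 2))
        (P28s.co (chF (pbl (T a) (β j))) 0 (s / 2)) := by
    rw [Filter.eventually_all_finset]
    exact hi₀
  obtain ⟨i, j, hij, ⟨iS, iA, iC⟩, jS, jA, jC⟩ :=
    P28f.exists_ne_of_eventually (hS.and (hall.and hcol))
  have hflat : ∀ a ∈ A, ∀ k, (P28g.chm ((enH (h k)).map (T a).symm)).real
        (ball 0 s \ closedBall 0 (s / 16)) ≤ c / 4 →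
      P28s.SFlat δ₁ (P28f.ann 0 (1 / 2))
        (P28s.dd (P28s.co (chF (pbl (T a) (β k))) 0 (s / 2))) := by
    intro a ha k hk
    have := hμfin a k
    have h1 : P28s.SFlat (2000 * (C * δ)) (P28f.ann 0 (s / 4))
        (P28s.dd (chF (pbl (T a) (β k)))) := by
      refine P28s.ann_ctrlS (by omega) (by positivity) hδ4 (hct a k) (by positivity : 0 < s / 4)
        ?_ ?_
      · intro x hx
        rw [mem_closedBall_zero_iff] at hx
        rw [mem_ball_zero_iff]
        linarith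
      · refine (measureReal_mono ?_ (by finiteness)).trans (hk.trans (by linarith))
        intro x hx
        rw [mem_sdiff, mem_closedBall_zero_iff, mem_ball_zero_iff, not_lt] at hx
        rw [mem_sdiff, mem_ball_zero_iff, mem_closedBall_zero_iff, not_le]
        constructor <;> linarith [hx.1, hx.2]
    have hmem : ∀ x ∈ (P28f.ann 0 (1 / 2) : Set (V (n * 2))),
        (0 : V (n * 2)) + (s / 2) • x ∈ (P28f.ann 0 (s / 4) : Set (V (n * 2))) ∧
        P28s.dd (P28s.co (chF (pbl (T a) (β k))) 0 (s / 2)) x =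
          P28s.dd (chF (pbl (T a) (β k))) (0 + (s / 2) • x) := by
      rintro x ⟨hx1, hx2⟩
      rw [sub_zero] at hx1 hx2
      have hnorm : ‖(0 : V (n * 2)) + (s / 2) • x‖ = s / 2 * ‖x‖ := by
        rw [zero_add, norm_smul, Real.norm_of_nonneg (by positivity)]
      have hb1 : s / 2 * (1 / 2) ≤ s / 2 * ‖x‖ := mul_le_mul_of_nonneg_left hx1 (by positivity)
      have hb2 : s / 2 * ‖x‖ ≤ s / 2 * (2 * (1 / 2)) :=
        mul_le_mul_of_nonneg_left hx2 (by positivity)
      refine ⟨⟨?_, ?_⟩, ?_⟩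
      · rw [sub_zero, hnorm]
        linarith
      · rw [sub_zero, hnorm]
        linarith
      · refine P28s.dd_co (by positivity) ?_
        have h3 : (0 : V (n * 2)) + (s / 2) • x ∈ ball (0 : V (n * 2)) 1 := by
          rw [mem_ball_zero_iff, hnorm]
          linarith
        exact ((hct a k).nd _ h3).1.differentiableAt (by simp)
    intro x hx y hy
    rw [(hmem x hx).2, (hmem y hy).2]
    exact (h1 _ (hmem x hx).1 _ (hmem y hy).1).trans hδ3
  have hj : JoinF (β i) (β j) := by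
    refine hpair hch hs4 (hctrl i).symp (hctrl j).symp (hl i) (hl j)
      (fun a ha => ⟨hflat a ha i (iC a ha), hflat a ha j (jC a ha)⟩)
      (fun a ha => (iA a ha).symm.trans (jA a ha)) ?_
    intro z hz hout p hp
    exact (hclose i iS j jS z hz hout p hp).trans
      (mul_le_mul_of_nonneg_right hδ5 (norm_nonneg _))
  exact ⟨i, j, hij, (hβ i).trans (hj.trans (hβ j).symm)⟩

theorem classes_F (n : ℕ) (hn : 2 ≤ n) (E : ℝ) : ∃ S : Set (FW n), S.Finite ∧
    (∀ β ∈ S, Symp β) ∧ ∀ (α : FW n) (h : W n → ℝ), Symp α → Dens α h →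
      ∫⁻ x in ball (0 : W n) 1, ENNReal.ofReal (h x) ^ (2 * n) ≤ ENNReal.ofReal E →
      ∃ β ∈ S, JoinF α β := by
  classical
  by_contra hcon
  obtain ⟨f, hf1, hf2⟩ := exists_seq_of_forall_finset_exists
    (fun α : FW n => Symp α ∧ ∃ h : W n → ℝ, Dens α h ∧
      ∫⁻ x in ball (0 : W n) 1, ENNReal.ofReal (h x) ^ (2 * n) ≤ ENNReal.ofReal E)
    (fun G F => ¬ JoinF F G) (by
      intro t ht
      by_contra hno
      apply hcon
      refine ⟨t, t.finite_toSet, fun G hG => (ht G hG).1, fun F h hF1 hF2 hF3 => ?_⟩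
      by_contra hno2
      exact hno ⟨F, ⟨hF1, h, hF2, hF3⟩, fun G hG hiso => hno2 ⟨G, hG, hiso⟩⟩)
  choose hs h hd he using hf1
  obtain ⟨i, j, hij, hiso⟩ := seq_F n hn E f h hs hd he
  rcases lt_or_gt_of_ne hij with h | h
  · exact hf2 i j h hiso.symm
  · exact hf2 j i h hiso

end Pool.Agent.Lib.P28t
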