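import Pool.Agent.Lib.P28t.ChF
import Pool.Agent.Lib.P28t.Form
import Pool.Agent.Lib.P28e.Gap2
import Pool.Agent.Lib.P28e.CV

set_option autoImplicit false
set_option maxSynthPendingDepth 3

/-!
# From the chart to the mean over a ball at `e0`

PROOF. Let `tl p = (kap n).symm (fun k => p k.succ)` (tail of `p`), `ct p q = ∑ i, M (tl p) i * (tl q) i`: skew, `ct (c • e0) = 0` (`tl (c e0) = 0`). LOWER BOUND: `hip e0 p = 0` means `p 0 = 0`, `‖p‖ ≤ C ‖tl p‖`; testing with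
`q = Lv e_j` one gets `‖ct p‖ ≥ ‖M (tl p)‖ / 2 ≥ ‖tl p‖ / (2 ‖M⁻¹‖)`. So `σ = 1 / (C ‖M⁻¹‖)`. CLOSENESS: write `ρ = s/2`. For `z ∈ closedBall e0 ρ`, `b = z 0` has `‖b - 1‖ ≤ ρ ≤ 1/8`, `z = b • sl x` with `x = cc z`,
`‖x‖ ≤ 2 ρ` (`smul_sl_cc`, `cc_norm_le`). For `p, q`: `dw α z p q = dw α (sl x) (b⁻¹ p) (b⁻¹ q)` (`Con.dw_hom`), and `b⁻¹ p = (b⁻¹ p) 0 • sl x + Lv p''`, `p'' = tl (b⁻¹ p) - tl ((b⁻¹ p) 0 • sl x)`, so (`Con.dw_left`, `dw_right`, `dd_chF`)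
`dw α z p q = ∑ i, (T x p'') i * q'' i`, `T = dd (chF α)`; `‖p'' - tl p‖ ≤ C ρ ‖p‖` (both `‖b⁻¹ - 1‖ ≤ 2 ρ` and `‖x‖ ≤ 2 ρ`). Hence `‖dw α z - ct‖ ≤ C (‖T (cc z) - M‖ + ρ ‖M‖)`. Integrate with `cv_upper` (radius `ρ ≤ 1/4`, the inner cube is
`Icc (-s) s`, whose restricted measure is `cs (n*2) s`, `cs_eq`; `cc (c • sl y) = y` for `c ≠ 0`; the volume of `closedBall (1 : ℂ) ρ` is at most `C ρ²`): `∫ ‖T (cc z) - M‖ ≤ C ρ² ∫ ‖T y - M‖ ∂cs ≤ C ρ² η (2 s)^(n*2) / ‖M⁻¹‖`, and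
`volume (closedBall e0 ρ) = (const) ρ^(2n+2)` (`P28e.vol_ball_W` in `Slice.lean`), `ρ ‖M‖ ≤ η / ‖M⁻¹‖`. So the mean is at most `C η σ`.
-/

open MeasureTheory Set Metric
open scoped ContDiff Topology ENNReal

namespace Pool.Agent.Lib.P28t

open Pool.Agent.P28b04d Pool.Agent.Lib.P28e Pool.Agent.Lib.P28c
open Pool.Agent.Lib.P28f (V EV)
open Pool.Agent.Lib.P28g (TT)

variable {n : ℕ}

namespace MeanBAux

/-- the tail of a vector, in real coordinates -/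
noncomputable def tl (n : ℕ) : W n →L[ℝ] V (n * 2) :=
  ((kap n).symm : (Fin n → ℂ) →L[ℝ] V (n * 2)).comp
    (ContinuousLinearMap.pi fun k : Fin n => ContinuousLinearMap.proj (R := ℝ) (φ := fun _ : Fin (n + 1) => ℂ) k.succ)

theorem kap_tl (p : W n) : kap n (tl n p) = fun k => p k.succ := by
  show kap n ((kap n).symm fun k => p k.succ) = _
  exact (kap n).apply_symm_apply _

theorem tl_norm (p : W n) : ‖tl n p‖ ≤ ‖p‖ := by
  refine (norm_le_kap n _).trans ?_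
  rw [kap_tl, pi_norm_le_iff_of_nonneg (norm_nonneg _)]
  intro k
  exact norm_le_pi_norm p k.succ

theorem tl_Lv (y : V (n * 2)) : tl n (Lv n y) = y := by
  apply (kap n).injective
  rw [kap_tl, Lv_apply]
  funext k
  rw [Fin.cons_succ]

theorem tl_smul_e0 (c : ℂ) : tl n (c • e0 n) = 0 := by
  apply (kap n).injective
  rw [kap_tl, map_zero]
  funext k
  simp [e0]

theorem Lv_tl {p : W n} (h : p 0 = 0) : Lv n (tl n p) = p := by
  rw [Lv_apply, kap_tl]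
  funext i
  refine Fin.cases ?_ (fun k => ?_) i
  · rw [Fin.cons_zero, h]
  · rw [Fin.cons_succ]

theorem sl_zero (y : V (n * 2)) : sl n y 0 = 1 := by simp [sl]

/-- the tail of `a • sl y` -/
theorem tl_smul_sl (a : ℂ) (y : V (n * 2)) : ‖tl n (a • sl n y)‖ ≤ ‖a‖ * (2 * ‖y‖) := by
  refine (norm_le_kap n _).trans ?_
  rw [kap_tl, pi_norm_le_iff_of_nonneg (by positivity)]
  intro k
  have h1 : (a • sl n y) k.succ = a * kap n y k := by
    simp [sl]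
  rw [h1, norm_mul]
  exact mul_le_mul_of_nonneg_left ((norm_le_pi_norm _ k).trans (norm_kap_le n y)) (norm_nonneg _)

/-- the constant form -/
noncomputable def ctf (M : EV (n * 2)) : BW n :=
  ∑ i, ((ContinuousLinearMap.proj (R := ℝ) (φ := fun _ : Fin (n * 2) => ℝ) i).comp (M.comp (tl n))).smulRight
    ((ContinuousLinearMap.proj (R := ℝ) (φ := fun _ : Fin (n * 2) => ℝ) i).comp (tl n))

theorem ctf_apply (M : EV (n * 2)) (p q : W n) : ctf M p q = ∑ i, M (tl n p) i * tl n q i := by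
  unfold ctf
  rw [ContinuousLinearMap.sum_apply, ContinuousLinearMap.sum_apply]
  rfl

theorem ctf_skew {M : EV (n * 2)} (h : P28s.Sk M) (p q : W n) : ctf M p q = -ctf M q p := by
  rw [ctf_apply, ctf_apply]
  have h1 := P28s.dot_tr M (tl n q) (tl n p)
  have h2 : P28s.tr M = -M := h
  rw [h2] at h1
  have h3 : ∑ i, (-M) (tl n q) i * tl n p i = -∑ i, M (tl n q) i * tl n p i := by
    rw [← Finset.sum_neg_distrib]
    refine Finset.sum_congr rfl fun i _ => ?_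
    rw [neg_apply, Pi.neg_apply, neg_mul]
  rw [← h3, h1]
  exact Finset.sum_congr rfl fun i _ => mul_comm _ _

theorem ctf_e0 (M : EV (n * 2)) (c : ℂ) (w : W n) : ctf M (c • e0 n) w = 0 := by
  rw [ctf_apply, tl_smul_e0, map_zero]
  simp

theorem le_ctf (M : EV (n * 2)) (p : W n) : ‖M (tl n p)‖ ≤ 2 * ‖ctf M p‖ := by
  rw [pi_norm_le_iff_of_nonneg (by positivity)]
  intro i
  have h1 : ctf M p (Lv n (Pi.single i 1)) = M (tl n p) i := by
    rw [ctf_apply, tl_Lv]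
    simp [Pi.single_apply]
  rw [← h1]
  refine ((ctf M p).le_opNorm _).trans ?_
  have := mul_le_mul_of_nonneg_left (ChFAux.Le_norm (n := n) i) (norm_nonneg (ctf M p))
  linarith

theorem lower {M : (EV (n * 2))ˣ} {p : W n} (h : hip (e0 n) p = 0) :
    ‖p‖ ≤ 4 * ‖(↑M⁻¹ : EV (n * 2))‖ * ‖ctf (M : EV (n * 2)) p‖ := by
  have h0 : p 0 = 0 := by
    have h1 : hip (e0 n) p = p 0 := by
      unfold hip
      rw [Fin.sum_univ_succ]
      simp [e0]
    rw [← h1, h]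
  have h1 : ‖p‖ ≤ 2 * ‖tl n p‖ := by
    conv_lhs => rw [← Lv_tl h0]
    exact norm_Lv_le _
  have h2 : tl n p = (↑M⁻¹ : EV (n * 2)) ((M : EV (n * 2)) (tl n p)) := by
    have h3 : (↑M⁻¹ * (M : EV (n * 2)) : EV (n * 2)) (tl n p) = tl n p := by
      rw [M.inv_mul]
      rfl
    exact h3.symm
  have h3 : ‖tl n p‖ ≤ ‖(↑M⁻¹ : EV (n * 2))‖ * ‖(M : EV (n * 2)) (tl n p)‖ := by
    conv_lhs => rw [h2]
    exact ContinuousLinearMap.le_opNorm _ _
  have h4 := mul_le_mul_of_nonneg_left (le_ctf (M : EV (n * 2)) p) (norm_nonneg (↑M⁻¹ : EV (n * 2)))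
  linarith

/-- the components at the point `c • sl y` -/
theorem dw_eq {α : FW n} (h : Con α) {c : ℂ} (hc : c ≠ 0) (y : V (n * 2)) (p q : W n) :
    dw α (c • sl n y) p q =
      ∑ i, P28s.dd (chF α) y (tl n (c⁻¹ • p - (c⁻¹ • p) 0 • sl n y)) i *
        tl n (c⁻¹ • q - (c⁻¹ • q) 0 • sl n y) i := by
  have h1 : ∀ p : W n, p = c • (c⁻¹ • p) := fun p => by rw [smul_inv_smul₀ hc]
  have h2 : ∀ u : W n, Lv n (tl n (u - u 0 • sl n y)) = u - u 0 • sl n y := by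
    intro u
    refine Lv_tl ?_
    rw [Pi.sub_apply, Pi.smul_apply, sl_zero, smul_eq_mul, mul_one, sub_self]
  have h3 : ∀ u v : W n, dw α (sl n y) u v =
      ∑ i, P28s.dd (chF α) y (tl n (u - u 0 • sl n y)) i * tl n (v - v 0 • sl n y) i := by
    intro u v
    rw [dd_chF h, h2, h2]
    rw [map_sub (dw α (sl n y)) u, sub_apply, map_sub, map_sub, h.dw_left (sl_ne y),
      h.dw_left (sl_ne y), h.dw_right (sl_ne y), sub_zero, sub_zero, sub_zero]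
  conv_lhs => rw [h1 p, h1 q]
  rw [h.dw_hom hc (sl_ne y), h3]

theorem close {α : FW n} (h : Con α) {c : ℂ} {ρ : ℝ} (hρ : ρ ≤ 1 / 8) (hc : ‖c - 1‖ ≤ ρ)
    {y : V (n * 2)} (hy : ‖y‖ ≤ 2 * ρ) (M : EV (n * 2)) :
    ‖dw α (c • sl n y) - ctf M‖ ≤
      (n * 2 : ℝ) * (16 * ‖P28s.dd (chF α) y - M‖ + 20 * (2 * ρ) * ‖M‖) := by
  have hρ0 : 0 ≤ ρ := (norm_nonneg _).trans hc
  have hc1 : 7 / 8 ≤ ‖c‖ := by
    have h2 : ‖(1 : ℂ)‖ ≤ ‖c‖ + ‖c - 1‖ := by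
      calc ‖(1 : ℂ)‖ = ‖c - (c - 1)‖ := by rw [sub_sub_cancel]
        _ ≤ ‖c‖ + ‖c - 1‖ := norm_sub_le _ _
    rw [norm_one] at h2
    linarith
  have hc0 : c ≠ 0 := by
    intro h0
    rw [h0, norm_zero] at hc1
    norm_num at hc1
  have hci : ‖c⁻¹‖ ≤ 8 / 7 := by
    rw [norm_inv, inv_le_comm₀ (by linarith) (by norm_num)]
    linarith
  have hci1 : ‖c⁻¹ - 1‖ ≤ 2 * ρ := by
    have e : c⁻¹ - 1 = c⁻¹ * (1 - c) := by
      rw [mul_sub, mul_one, inv_mul_cancel₀ hc0]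
    rw [e, norm_mul, norm_sub_rev 1 c]
    calc ‖c⁻¹‖ * ‖c - 1‖ ≤ 8 / 7 * ρ := mul_le_mul hci hc (norm_nonneg _) (by norm_num)
      _ ≤ 2 * ρ := by linarith
  have hsl : ‖sl n y‖ ≤ 2 := norm_sl_le n (by linarith)
  -- the vectors
  have hu : ∀ p : W n, ‖tl n (c⁻¹ • p - (c⁻¹ • p) 0 • sl n y)‖ ≤ 4 * ‖p‖ := by
    intro p
    refine (tl_norm _).trans ((norm_sub_le _ _).trans ?_)
    have h1 : ‖c⁻¹ • p‖ ≤ 8 / 7 * ‖p‖ := by
      rw [norm_smul]
      exact mul_le_mul_of_nonneg_right hci (norm_nonneg _)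
    have h2 : ‖(c⁻¹ • p) 0 • sl n y‖ ≤ 8 / 7 * ‖p‖ * 2 := by
      rw [norm_smul]
      exact mul_le_mul ((norm_le_pi_norm _ 0).trans h1) hsl (norm_nonneg _) (by positivity)
    have h3 := norm_nonneg p
    linarith
  have hd : ∀ p : W n, ‖tl n (c⁻¹ • p - (c⁻¹ • p) 0 • sl n y) - tl n p‖ ≤ 4 * (2 * ρ) * ‖p‖ := by
    intro p
    have h1 : ‖c⁻¹ • p‖ ≤ 8 / 7 * ‖p‖ := by
      rw [norm_smul]
      exact mul_le_mul_of_nonneg_right hci (norm_nonneg _)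
    have e : tl n (c⁻¹ • p - (c⁻¹ • p) 0 • sl n y) - tl n p =
        tl n ((c⁻¹ - 1) • p) - tl n ((c⁻¹ • p) 0 • sl n y) := by
      rw [← map_sub, ← map_sub]
      congr 1
      rw [sub_smul, one_smul]
      abel
    rw [e]
    refine (norm_sub_le _ _).trans ?_
    have h2 : ‖tl n ((c⁻¹ - 1) • p)‖ ≤ 2 * ρ * ‖p‖ := by
      refine (tl_norm _).trans ?_
      rw [norm_smul]
      exact mul_le_mul_of_nonneg_right hci1 (norm_nonneg _)
    have h3 : ‖tl n ((c⁻¹ • p) 0 • sl n y)‖ ≤ 8 / 7 * ‖p‖ * (2 * (2 * ρ)) := by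
      refine (tl_smul_sl _ _).trans ?_
      exact mul_le_mul ((norm_le_pi_norm _ 0).trans h1) (by linarith) (by positivity) (by positivity)
    have h4 : 0 ≤ ρ * ‖p‖ := by positivity
    nlinarith
  refine ContinuousLinearMap.opNorm_le_bound₂ _ (by positivity) fun p q => ?_
  rw [sub_apply, sub_apply, dw_eq h hc0, ctf_apply]
  set T := P28s.dd (chF α) y with hT
  set u := tl n (c⁻¹ • p - (c⁻¹ • p) 0 • sl n y) with hu'
  set v := tl n (c⁻¹ • q - (c⁻¹ • q) 0 • sl n y) with hv'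
  have e : ∑ i, T u i * v i - ∑ i, M (tl n p) i * tl n q i =
      ∑ i, (T - M) u i * v i + ∑ i, M u i * (v - tl n q) i + ∑ i, M (u - tl n p) i * tl n q i := by
    rw [← Finset.sum_sub_distrib, ← Finset.sum_add_distrib, ← Finset.sum_add_distrib]
    refine Finset.sum_congr rfl fun i _ => ?_
    rw [sub_apply, map_sub, Pi.sub_apply, Pi.sub_apply, Pi.sub_apply]
    ring
  rw [e, Real.norm_eq_abs]
  have hn0 : (0 : ℝ) ≤ n * 2 := by positivity
  have b1 : |∑ i, (T - M) u i * v i| ≤ (n * 2 : ℝ) * (‖T - M‖ * (4 * ‖p‖) * (4 * ‖q‖)) := by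
    refine (ChFAux.sum_le _ _).trans (mul_le_mul_of_nonneg_left ?_ hn0)
    refine mul_le_mul (((T - M).le_opNorm u).trans ?_) (hu q) (norm_nonneg _) (by positivity)
    exact mul_le_mul_of_nonneg_left (hu p) (norm_nonneg _)
  have b2 : |∑ i, M u i * (v - tl n q) i| ≤
      (n * 2 : ℝ) * (‖M‖ * (4 * ‖p‖) * (4 * (2 * ρ) * ‖q‖)) := by
    refine (ChFAux.sum_le _ _).trans (mul_le_mul_of_nonneg_left ?_ hn0)
    refine mul_le_mul ((M.le_opNorm u).trans ?_) (hd q) (norm_nonneg _) (by positivity)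
    exact mul_le_mul_of_nonneg_left (hu p) (norm_nonneg _)
  have b3 : |∑ i, M (u - tl n p) i * tl n q i| ≤
      (n * 2 : ℝ) * (‖M‖ * (4 * (2 * ρ) * ‖p‖) * ‖q‖) := by
    refine (ChFAux.sum_le _ _).trans (mul_le_mul_of_nonneg_left ?_ hn0)
    refine mul_le_mul ((M.le_opNorm _).trans ?_) (tl_norm q) (norm_nonneg _) (by positivity)
    exact mul_le_mul_of_nonneg_left (hd p) (norm_nonneg _)
  calc |∑ i, (T - M) u i * v i + ∑ i, M u i * (v - tl n q) i + ∑ i, M (u - tl n p) i * tl n q i|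
      ≤ |∑ i, (T - M) u i * v i| + |∑ i, M u i * (v - tl n q) i| +
        |∑ i, M (u - tl n p) i * tl n q i| := abs_add_three _ _ _
    _ ≤ (n * 2 : ℝ) * (‖T - M‖ * (4 * ‖p‖) * (4 * ‖q‖)) +
        (n * 2 : ℝ) * (‖M‖ * (4 * ‖p‖) * (4 * (2 * ρ) * ‖q‖)) +
        (n * 2 : ℝ) * (‖M‖ * (4 * (2 * ρ) * ‖p‖) * ‖q‖) := add_le_add (add_le_add b1 b2) b3
    _ = (n * 2 : ℝ) * (16 * ‖T - M‖ + 20 * (2 * ρ) * ‖M‖) * ‖p‖ * ‖q‖ := by ring

theorem measurable_G {α : FW n} (h : Con α) (ct : BW n) : Measurable fun z : W n => ‖dw α z - ct‖ₑ := by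
  have h1 : Measurable fun z : W n => ‖dw α z - ct‖ := by
    refine measurable_of_continuousOn_compl_singleton 0 fun z hz => ?_
    have h2 : ContinuousAt (dw α) z := (h.contDiffAt_dw hz).continuousAt
    exact (h2.sub continuousAt_const).norm.continuousWithinAt
  have h2 : (fun z : W n => ‖dw α z - ct‖ₑ) = fun z => ENNReal.ofReal ‖dw α z - ct‖ := by
    funext z
    rw [ofReal_norm]
  rw [h2]
  exact h1.ennreal_ofReal

/-- the bound of the integral over the ball -/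
theorem mean_bound (n : ℕ) : ∃ K : ℝ≥0∞, K ≠ ⊤ ∧ ∀ α : FW n, Con α →
    ∀ (M : (EV (n * 2))ˣ) (s η : ℝ), 0 < s → s ≤ 1 / 4 → 0 ≤ η →
      ∫⁻ y, ‖(↑M⁻¹ : EV (n * 2))‖ₑ * ‖P28s.dd (chF α) y - ↑M‖ₑ ∂cs (n * 2) s ≤
        ENNReal.ofReal (η * (2 * s) ^ (n * 2)) →
      s * ‖(M : EV (n * 2))‖ * ‖(↑M⁻¹ : EV (n * 2))‖ ≤ η →
      ‖(↑M⁻¹ : EV (n * 2))‖ₑ * ∫⁻ z in closedBall (e0 n) (s / 2), ‖dw α z - ctf (M : EV (n * 2))‖ₑ ≤
        K * (ENNReal.ofReal η * ENNReal.ofReal ((s / 2) ^ (n * 2 + 2))) := by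
  obtain ⟨C2, hC2, hcv⟩ := cv_upper n
  set vC : ℝ≥0∞ := volume (closedBall (0 : ℂ) 1) with hvC
  have hvCt : vC ≠ ⊤ := measure_closedBall_lt_top.ne
  refine ⟨C2 * vC * ENNReal.ofReal (72 * n * 4 ^ (n * 2)),
    ENNReal.mul_ne_top (ENNReal.mul_ne_top hC2 hvCt) ENNReal.ofReal_ne_top,
    fun α h M s η hs hs4 hη h1 h2 => ?_⟩
  set ρ : ℝ := s / 2 with hρ
  have hρ0 : 0 < ρ := by positivity
  have hs2 : s = 2 * ρ := by rw [hρ]; ring
  set m : ℝ≥0∞ := ‖(↑M⁻¹ : EV (n * 2))‖ₑ with hm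
  have hmt : m ≠ ⊤ := enorm_ne_top
  have hTm : Measurable fun y => ‖P28s.dd (chF α) y - (M : EV (n * 2))‖ₑ :=
    ((smooth_dd_chF h).continuous.sub continuous_const).enorm.measurable
  have hinner : ∀ c ∈ closedBall (1 : ℂ) ρ,
      m * ∫⁻ y in Icc (fun _ : Fin (n * 2) => -(2 * ρ)) (fun _ => 2 * ρ),
        ‖dw α (c • sl n y) - ctf (M : EV (n * 2))‖ₑ ≤
      ENNReal.ofReal (72 * n * (η * (4 * ρ) ^ (n * 2))) := by
    intro c hc
    have hcn : ‖c - 1‖ ≤ ρ := by simpa [dist_eq_norm] using hc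
    have s1 : ∫⁻ y in Icc (fun _ : Fin (n * 2) => -(2 * ρ)) (fun _ => 2 * ρ),
        ‖dw α (c • sl n y) - ctf (M : EV (n * 2))‖ₑ ≤
        ∫⁻ y, (ENNReal.ofReal (32 * n) * ‖P28s.dd (chF α) y - (M : EV (n * 2))‖ₑ +
          ENNReal.ofReal (40 * n * s * ‖(M : EV (n * 2))‖)) ∂cs (n * 2) s := by
      rw [cs_eq, ← hs2]
      refine setLIntegral_mono' measurableSet_Icc fun y hy => ?_
      have hy' : ‖y‖ ≤ 2 * ρ := by
        rw [← hs2]
        rwa [mem_Icc_iff_norm _ hs.le] at hy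
      have s2 := close h (by linarith) hcn hy' (M : EV (n * 2))
      rw [← ofReal_norm, ← ofReal_norm, ← ENNReal.ofReal_mul (by positivity),
        ← ENNReal.ofReal_add (by positivity) (by positivity)]
      refine ENNReal.ofReal_le_ofReal (s2.trans (le_of_eq ?_))
      rw [← hs2]
      ring
    calc m * ∫⁻ y in Icc (fun _ : Fin (n * 2) => -(2 * ρ)) (fun _ => 2 * ρ),
          ‖dw α (c • sl n y) - ctf (M : EV (n * 2))‖ₑ
        ≤ m * ∫⁻ y, (ENNReal.ofReal (32 * n) * ‖P28s.dd (chF α) y - (M : EV (n * 2))‖ₑ +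
          ENNReal.ofReal (40 * n * s * ‖(M : EV (n * 2))‖)) ∂cs (n * 2) s :=
          mul_le_mul' le_rfl s1
      _ = ENNReal.ofReal (32 * n) * (∫⁻ y, m * ‖P28s.dd (chF α) y - (M : EV (n * 2))‖ₑ ∂cs (n * 2) s) +
          m * ENNReal.ofReal (40 * n * s * ‖(M : EV (n * 2))‖) * cs (n * 2) s univ := by
          rw [lintegral_add_right _ measurable_const, lintegral_const_mul _ hTm, lintegral_const,
            lintegral_const_mul _ hTm, mul_add]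
          ring
      _ ≤ ENNReal.ofReal (32 * n) * ENNReal.ofReal (η * (2 * s) ^ (n * 2)) +
          ENNReal.ofReal (40 * n * η) * ENNReal.ofReal ((2 * s) ^ (n * 2)) := by
          refine add_le_add (mul_le_mul' le_rfl h1) (mul_le_mul' ?_ (le_of_eq ?_))
          · rw [hm, ← ofReal_norm, ← ENNReal.ofReal_mul (norm_nonneg _)]
            refine ENNReal.ofReal_le_ofReal ?_
            calc ‖(↑M⁻¹ : EV (n * 2))‖ * (40 * n * s * ‖(M : EV (n * 2))‖)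
                = 40 * n * (s * ‖(M : EV (n * 2))‖ * ‖(↑M⁻¹ : EV (n * 2))‖) := by ring
              _ ≤ 40 * n * η := mul_le_mul_of_nonneg_left h2 (by positivity)
          · rw [cs, cm_univ, ← ENNReal.ofReal_pow (by positivity)]
      _ = ENNReal.ofReal (72 * n * (η * (4 * ρ) ^ (n * 2))) := by
          rw [← ENNReal.ofReal_mul (by positivity), ← ENNReal.ofReal_mul (by positivity),
            ← ENNReal.ofReal_add (by positivity) (by positivity)]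
          congr 1
          rw [hs2, show 2 * (2 * ρ) = 4 * ρ by ring]
          ring
  calc m * ∫⁻ z in closedBall (e0 n) ρ, ‖dw α z - ctf (M : EV (n * 2))‖ₑ
      ≤ m * (C2 * ∫⁻ c in closedBall (1 : ℂ) ρ,
          ∫⁻ y in Icc (fun _ : Fin (n * 2) => -(2 * ρ)) (fun _ => 2 * ρ),
            ‖dw α (c • sl n y) - ctf (M : EV (n * 2))‖ₑ) :=
        mul_le_mul' le_rfl (hcv _ (measurable_G h _) ρ hρ0 (by linarith))
    _ = C2 * ∫⁻ c in closedBall (1 : ℂ) ρ,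
          m * ∫⁻ y in Icc (fun _ : Fin (n * 2) => -(2 * ρ)) (fun _ => 2 * ρ),
            ‖dw α (c • sl n y) - ctf (M : EV (n * 2))‖ₑ := by
        rw [lintegral_const_mul' _ _ hmt]
        ring
    _ ≤ C2 * ∫⁻ _c in closedBall (1 : ℂ) ρ, ENNReal.ofReal (72 * n * (η * (4 * ρ) ^ (n * 2))) :=
        mul_le_mul' le_rfl (setLIntegral_mono' measurableSet_closedBall hinner)
    _ = C2 * (ENNReal.ofReal (72 * n * (η * (4 * ρ) ^ (n * 2))) * (ENNReal.ofReal (ρ ^ 2) * vC)) := by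
        rw [lintegral_const, Measure.restrict_apply MeasurableSet.univ, univ_inter,
          vol_ball_C hρ0.le]
    _ = C2 * vC * ENNReal.ofReal (72 * n * 4 ^ (n * 2)) *
          (ENNReal.ofReal η * ENNReal.ofReal (ρ ^ (n * 2 + 2))) := by
        have e : ENNReal.ofReal (72 * n * (η * (4 * ρ) ^ (n * 2))) * ENNReal.ofReal (ρ ^ 2) =
            ENNReal.ofReal (72 * n * 4 ^ (n * 2)) * (ENNReal.ofReal η *
              ENNReal.ofReal (ρ ^ (n * 2 + 2))) := by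
          rw [← ENNReal.ofReal_mul (by positivity), ← ENNReal.ofReal_mul (by positivity),
            ← ENNReal.ofReal_mul (by positivity)]
          congr 1
          rw [mul_pow, pow_add]
          ring
        calc C2 * (ENNReal.ofReal (72 * n * (η * (4 * ρ) ^ (n * 2))) * (ENNReal.ofReal (ρ ^ 2) * vC))
            = C2 * vC * (ENNReal.ofReal (72 * n * (η * (4 * ρ) ^ (n * 2))) *
                ENNReal.ofReal (ρ ^ 2)) := by ring
          _ = _ := by rw [e, mul_assoc (C2 * vC)]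

end MeanBAux

open MeanBAux

theorem mean_e0 (n : ℕ) (hn : 1 ≤ n) : ∃ C : ℝ, 1 ≤ C ∧ ∀ α : FW n, Con α →
    ∀ (M : (EV (n * 2))ˣ) (s η : ℝ), P28s.Sk (M : EV (n * 2)) → 0 < s → s ≤ 1 / 4 → 0 ≤ η →
      ∫⁻ y, ‖(↑M⁻¹ : EV (n * 2))‖ₑ * ‖P28s.dd (chF α) y - ↑M‖ₑ ∂cs (n * 2) s ≤
        ENNReal.ofReal (η * (2 * s) ^ (n * 2)) →
      s * ‖(M : EV (n * 2))‖ * ‖(↑M⁻¹ : EV (n * 2))‖ ≤ η →
      ∃ (ct : BW n) (σ : ℝ), MGood α (e0 n) (s / 2) (C * η) ct σ := by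
  obtain ⟨K, hK, hmb⟩ := mean_bound n
  set vW : ℝ≥0∞ := volume (closedBall (0 : W n) 1) with hvW
  have hvW0 : vW ≠ 0 := (measure_closedBall_pos volume (0 : W n) one_pos).ne'
  have hvWt : vW ≠ ⊤ := measure_closedBall_lt_top.ne
  have hKv : K / vW ≠ ⊤ := ENNReal.div_ne_top hK hvW0
  set C : ℝ := max 1 (4 * (K / vW).toReal) with hC
  have hC1 : 1 ≤ C := le_max_left _ _
  have hKC : K ≤ ENNReal.ofReal (C / 4) * vW := by
    have h1 : K / vW ≤ ENNReal.ofReal (C / 4) := by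
      rw [← ENNReal.ofReal_toReal hKv]
      refine ENNReal.ofReal_le_ofReal ?_
      have := le_max_right 1 (4 * (K / vW).toReal)
      rw [← hC] at this
      linarith
    calc K = K / vW * vW := (ENNReal.div_mul_cancel hvW0 hvWt).symm
      _ ≤ _ := mul_le_mul' h1 le_rfl
  refine ⟨C, hC1, fun α h M s η hSk hs hs4 hη h1 h2 => ?_⟩
  have hnt : Nontrivial (V (n * 2)) := by
    have : Nonempty (Fin (n * 2)) := ⟨⟨0, by omega⟩⟩
    infer_instance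
  have hMi : 0 < ‖(↑M⁻¹ : EV (n * 2))‖ := by
    rw [norm_pos_iff]
    exact M⁻¹.ne_zero
  have hme0 : ‖(↑M⁻¹ : EV (n * 2))‖ₑ ≠ 0 := by
    rw [← ofReal_norm]
    simpa using hMi
  have hmt : ‖(↑M⁻¹ : EV (n * 2))‖ₑ ≠ ⊤ := enorm_ne_top
  refine ⟨ctf (M : EV (n * 2)), 1 / (4 * ‖(↑M⁻¹ : EV (n * 2))‖), by positivity,
    ⟨fun v w => ctf_skew hSk v w, ?_⟩, fun c w => ctf_e0 _ c w, fun p hp => ?_⟩
  · have h3 := hmb α h M s η hs hs4 hη h1 h2
    rw [vol_ball_W n _ (by positivity : 0 ≤ s / 2), ← hvW]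
    refine (ENNReal.mul_le_mul_iff_right hme0 hmt).1 (h3.trans ?_)
    calc K * (ENNReal.ofReal η * ENNReal.ofReal ((s / 2) ^ (n * 2 + 2)))
        ≤ ENNReal.ofReal (C / 4) * vW * (ENNReal.ofReal η * ENNReal.ofReal ((s / 2) ^ (n * 2 + 2))) :=
          mul_le_mul' hKC le_rfl
      _ = ENNReal.ofReal (C / 4 * η) * (ENNReal.ofReal ((s / 2) ^ (n * 2 + 2)) * vW) := by
          rw [ENNReal.ofReal_mul (by positivity)]
          ring
      _ = ‖(↑M⁻¹ : EV (n * 2))‖ₑ * (ENNReal.ofReal (C * η * (1 / (4 * ‖(↑M⁻¹ : EV (n * 2))‖))) *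
            (ENNReal.ofReal ((s / 2) ^ (n * 2 + 2)) * vW)) := by
          have e : C / 4 * η = ‖(↑M⁻¹ : EV (n * 2))‖ * (C * η * (1 / (4 * ‖(↑M⁻¹ : EV (n * 2))‖))) := by
            field_simp
          rw [e, ENNReal.ofReal_mul (norm_nonneg _), ofReal_norm, mul_assoc]
  · have h3 := lower (M := M) hp
    rw [div_mul_eq_mul_div, one_mul, div_le_iff₀ (by positivity)]
    linarith

end Pool.Agent.Lib.P28t
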