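import Pool.Agent.Lib.P28t.BddT

set_option autoImplicit false
set_option maxSynthPendingDepth 3

/-!
# Closeness of two forms of the sequence away from the concentration points

PROOF. `K = {z | ‖z‖ = 1/2, ∀ a ∈ A, t ≤ fd (pt z) (pt a)}` compact; `θ` from `hc t`, `ρ = κ θ / 2`: for almost all `j`, for every `z ∈ K` there is `σ` with `FlatF (β j) z ρ δ σ`. `Λ` from `bdd_T`. `N_j z = l_j dw (β j) z`, `l_j = ‖dw (β j) g‖⁻¹` (`dw (β j) g ≠ 0` by `Symp` and `exists_perp`), `‖N_j z‖ ∈ [1/Λ, Λ]` on `K`.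
`ρ₁ = min ρ (1/(8(n+2)))`, a finite `ρ₁`-net `P ⊆ K` of `K`; for `p ∈ P` the bounded sequence `N_j p` converges along `ult` to `L_p` (as in `P28f.net_close`); `ε' = ρ/(100 Λ)`. `S` = the set of the `j` which satisfy all the above and `‖N_j p - L_p‖ ≤ ε'` for `p ∈ P`.
Let `i, j ∈ S`, `z ∈ K`, `p ∈ P` with `‖z - p‖ ≤ ρ₁`; `σ_i, σ_j` the constants at `p`, `τ_i = l_i σ_i`, `τ_j = l_j σ_j`. By `flat_norm` (`‖p‖ = 1/2`) `ρ ‖N_i p‖ ≤ δ τ_i`, so `ε' ≤ δ τ_i / 100`, the same for `j`. For `q` with `hip z q = 0`: (1) `τ_i ‖q‖ ≤ ‖N_i z q‖` (`FlatF` at `x = z`). (2) `q = b p + q'` (`exists_decomp`), `‖q'‖ ≥ ‖q‖/2`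
(`b = hip p q / nsq p = hip (p - z) q / nsq p`, `|b| ‖p‖ ≤ (n+1) ‖p - z‖ ‖q‖ / ‖p‖ ≤ ‖q‖/2`), `τ_j ‖q'‖ ≤ ‖N_j p q'‖ = ‖N_j p q‖ ≤ ‖N_i p q‖ + 2 ε' ‖q‖ ≤ ‖N_i z q‖ + δ τ_i ‖q‖ + 2 ε' ‖q‖`; so `τ_j ‖q‖ ≤ 2 (1 + δ + δ/50) ‖N_i z q‖ ≤ 3 ‖N_i z q‖`. (3) `‖N_j z - N_i z‖ ≤ δ τ_j + 2 ε' + δ τ_i`; so
`‖N_j z - N_i z‖ ‖q‖ ≤ 5 δ ‖N_i z q‖`. For a general `z ≠ 0` scale by the real number `1/(2‖z‖)`: `dw β (r z) v w = r⁻² dw β z v w`, both sides of the inequality are multiplied by the same factor, `hip (r z) p = r hip z p`, `pt (r z) = pt z`.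
-/

open MeasureTheory Set Metric
open scoped ContDiff Topology ENNReal

namespace Pool.Agent.Lib.P28t

open Pool.Agent.P28b04d Pool.Agent.Lib.P28e Pool.Agent.Lib.P28c
open Pool.Agent.Lib.P28f (V EV)
open Pool.Agent.Lib.P28g (TT)

variable {n : ℕ}

open Pool.Agent.Lib.P28f (ult)

namespace NetTAux

theorem hip_smul_left (z v : W n) (c : ℂ) (h : hip z v = 0) : hip (c • z) v = 0 := by
  have e : hip (c • z) v = star c * hip z v := by
    unfold hip
    rw [Finset.mul_sum]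
    apply Finset.sum_congr rfl
    intro k _
    rw [Pi.smul_apply, smul_eq_mul, star_mul]
    ring
  rw [e, h, mul_zero]

/-- scaling by a positive real number -/
theorem dw_scale {α : FW n} (h : Con α) {r : ℝ} (hr : 0 < r) {z : W n} (hz : z ≠ 0) :
    dw α z = (r ^ 2) • dw α ((r : ℂ) • z) := by
  have hc : (r : ℂ) ≠ 0 := Complex.ofReal_ne_zero.2 hr.ne'
  ext v w
  have h1 := h.dw_hom hc hz v w
  have e : ∀ u : W n, (r : ℂ) • u = r • u := fun u => by
    ext k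
    simp
  rw [e v, e w, map_smul, map_smul] at h1
  rw [← h1, smul_apply, smul_apply, smul_apply, smul_eq_mul, smul_eq_mul, smul_eq_mul]
  ring

end NetTAux

open NetTAux

theorem net_T (n : ℕ) (hn : 1 ≤ n) {κ δ c : ℝ} (hκ : 0 < κ) (hκ1 : κ ≤ 1 / 8)
    (hδ0 : 0 < δ) (hδ : δ ≤ 1 / 4) (β : ℕ → FW n) (ν : ℕ → Measure (W n))
    (hβ : ∀ j, CtrlF κ δ c (β j) (ν j)) (A : Finset (W n)) (hA : ∀ a ∈ A, a ≠ 0)
    (hc : ∀ t : ℝ, 0 < t → ∃ θ : ℝ, 0 < θ ∧ θ ≤ 1 ∧ ∀ᶠ j in (ult : Filter ℕ), ∀ z : W n,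
      z ≠ 0 → (∀ a ∈ A, t ≤ fd (pt z) (pt a)) → (ν j).real (PB (pt z) θ) ≤ c)
    {g : W n} (hg : g ≠ 0) (hgA : ∀ a ∈ A, pt g ≠ pt a) {t : ℝ} (ht : 0 < t) :
    ∃ S : Set ℕ, (∀ᶠ j in (ult : Filter ℕ), j ∈ S) ∧ ∀ i ∈ S, ∀ j ∈ S, ∀ z : W n, z ≠ 0 →
      (∀ a ∈ A, t ≤ fd (pt z) (pt a)) → ∀ p : W n, hip z p = 0 →
      ‖(‖dw (β j) g‖⁻¹ : ℝ) • dw (β j) z - (‖dw (β i) g‖⁻¹ : ℝ) • dw (β i) z‖ * ‖p‖ ≤
        8 * δ * ‖(‖dw (β i) g‖⁻¹ : ℝ) • dw (β i) z p‖ := by
  obtain ⟨θ, hθ, hθ1, hev⟩ := hc t ht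
  obtain ⟨Λ, hΛ, hevΛ⟩ := bdd_T n hn hκ hκ1 hδ0 hδ β ν hβ A hA hc hg hgA ht
  obtain ⟨C, hC1, hC⟩ := lower_move n
  have hΛ0 : 0 < Λ := lt_of_lt_of_le one_pos hΛ
  have hC0 : 0 < C := lt_of_lt_of_le one_pos hC1
  set ρ : ℝ := κ * θ * (1 / 2) with hρdef
  have hρ0 : 0 < ρ := by positivity
  have hρ1 : ρ ≤ 1 / 16 := by
    rw [hρdef]
    nlinarith [mul_le_mul hκ1 hθ1 hθ.le (by norm_num : (0:ℝ) ≤ 1 / 8)]
  have hρ₁0 : 0 < min ρ (1 / (2 * C)) := lt_min hρ0 (by positivity)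
  obtain ⟨ρ₁, hρ₁, hρ₁ρ, hρ₁C⟩ : ∃ ρ₁ : ℝ, 0 < ρ₁ ∧ ρ₁ ≤ ρ ∧ ρ₁ ≤ 1 / (2 * C) :=
    ⟨_, hρ₁0, min_le_left _ _, min_le_right _ _⟩
  set K : Set (W n) := {z | ‖z‖ = 1 / 2 ∧ ∀ a ∈ A, t ≤ fd (pt z) (pt a)} with hK
  have hKtb : TotallyBounded K := by
    apply (isCompact_sphere (0 : W n) (1 / 2)).totallyBounded.subset
    intro z hz
    rw [mem_sphere_zero_iff_norm]
    exact hz.1
  obtain ⟨P, hPK, hPf, hPc⟩ := Metric.finite_approx_of_totallyBounded hKtb ρ₁ hρ₁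
  have hK0 : ∀ z ∈ K, z ≠ 0 := by
    rintro z hz rfl
    have := hz.1
    rw [norm_zero] at this
    norm_num at this
  -- the normalising factor
  set l : ℕ → ℝ := fun j => ‖dw (β j) g‖⁻¹ with hl
  have hl0 : ∀ j, 0 < l j := by
    intro j
    obtain ⟨σ, hσ, hs⟩ := (hβ j).symp.1.lower hg ((hβ j).symp.2 g hg)
    obtain ⟨p, hp, hgp⟩ := exists_perp hn hg
    have h1 := hs p hgp
    have h2 : 0 < ‖p‖ := norm_pos_iff.2 hp
    have h3 : 0 < ‖dw (β j) g p‖ := lt_of_lt_of_le (mul_pos hσ h2) h1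
    have h4 : dw (β j) g ≠ 0 := by
      intro h0
      rw [h0] at h3
      simp at h3
    exact inv_pos.2 (norm_pos_iff.2 h4)
  have hlg : ∀ j, l j * ‖dw (β j) g‖ = 1 := by
    intro j
    have := hl0 j
    rw [hl] at this ⊢
    exact inv_mul_cancel₀ (inv_pos.1 this).ne'
  set N : ℕ → W n → BW n := fun j z => l j • dw (β j) z with hN
  have hbd : ∀ᶠ j in (ult : Filter ℕ), ∀ z ∈ K, ‖N j z‖ ≤ Λ ∧ 1 ≤ Λ * ‖N j z‖ := by
    filter_upwards [hevΛ] with j hj z hz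
    obtain ⟨h1, h2⟩ := hj z hz.1 hz.2
    have e : ‖N j z‖ = l j * ‖dw (β j) z‖ := by
      rw [hN]
      show ‖l j • dw (β j) z‖ = _
      rw [norm_smul, Real.norm_eq_abs, abs_of_pos (hl0 j)]
    have h3 := mul_le_mul_of_nonneg_left h1 (hl0 j).le
    have h4 := mul_le_mul_of_nonneg_left h2 (hl0 j).le
    have h5 := hlg j
    rw [e]
    constructor
    · calc l j * ‖dw (β j) z‖ ≤ l j * (Λ * ‖dw (β j) g‖) := h3
        _ = Λ * (l j * ‖dw (β j) g‖) := by ring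
        _ = Λ := by rw [h5, mul_one]
    · calc (1 : ℝ) = l j * ‖dw (β j) g‖ := h5.symm
        _ ≤ l j * (Λ * ‖dw (β j) z‖) := h4
        _ = _ := by ring
  have hflat : ∀ᶠ j in (ult : Filter ℕ), ∀ z ∈ K, ∃ σ : ℝ, FlatF (β j) z ρ δ σ := by
    filter_upwards [hev] with j hj z hz
    obtain ⟨σ, hσ⟩ := (hβ j).flat z (hK0 z hz) θ hθ hθ1 (hj z (hK0 z hz) hz.2)
    rw [hz.1] at hσ
    exact ⟨σ, hσ⟩
  have hlim : ∀ p ∈ P, ∃ L : BW n,
      Filter.Tendsto (fun j => N j p) (ult : Filter ℕ) (𝓝 L) := by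
    intro p hp
    have h1 : ((ult.map (fun j => N j p) : Ultrafilter (BW n)) :
        Filter (BW n)) ≤ Filter.principal (closedBall 0 Λ) := by
      rw [Ultrafilter.coe_map, Filter.le_principal_iff, Filter.mem_map]
      filter_upwards [hbd] with j hj
      rw [mem_preimage, mem_closedBall, dist_zero_right]
      exact (hj p (hPK hp)).1
    obtain ⟨L, _, hL⟩ := (isCompact_closedBall (0 : BW n) Λ).ultrafilter_le_nhds _ h1
    exact ⟨L, hL⟩
  choose! L hL using hlim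
  set ε : ℝ := ρ / (100 * Λ) with hε
  have hε0 : 0 < ε := by positivity
  refine ⟨{j | (∀ z ∈ K, ‖N j z‖ ≤ Λ ∧ 1 ≤ Λ * ‖N j z‖) ∧
    (∀ z ∈ K, ∃ σ : ℝ, FlatF (β j) z ρ δ σ) ∧ ∀ p ∈ P, dist (N j p) (L p) < ε}, ?_, ?_⟩
  · refine hbd.and (hflat.and ?_)
    have h1 : ∀ p ∈ P, ∀ᶠ j in (ult : Filter ℕ), dist (N j p) (L p) < ε := fun p hp =>
      (Metric.tendsto_nhds.1 (hL p hp)) _ hε0
    exact (Filter.eventually_all_finite hPf).2 h1
  · rintro i ⟨hi1, hi2, hi3⟩ j ⟨hj1, hj2, hj3⟩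
    -- the case of norm `1/2`
    have key : ∀ z ∈ K, ∀ q : W n, hip z q = 0 →
        ‖N j z - N i z‖ * ‖q‖ ≤ 8 * δ * ‖N i z q‖ := by
      intro z hz q hq
      obtain ⟨p, hp, hzp⟩ : ∃ p ∈ P, z ∈ ball p ρ₁ := by
        have := hPc hz
        simp only [mem_iUnion, exists_prop] at this
        exact this
      have hpK := hPK hp
      have hp0 : p ≠ 0 := hK0 p hpK
      have hpn : ‖p‖ = 1 / 2 := hpK.1
      have hzp1 : ‖z - p‖ ≤ ρ₁ := by
        rw [mem_ball, dist_eq_norm] at hzp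
        exact hzp.le
      have hzρ : z ∈ closedBall p ρ := by
        rw [mem_closedBall, dist_eq_norm]
        exact hzp1.trans hρ₁ρ
      have hpρ : p ∈ closedBall p ρ := mem_closedBall_self hρ0.le
      obtain ⟨σi, hfi⟩ := hi2 p hpK
      obtain ⟨σj, hfj⟩ := hj2 p hpK
      have hlow : ∀ (k : ℕ) (σ : ℝ), 1 ≤ Λ * ‖N k p‖ → FlatF (β k) p ρ δ σ →
          100 * ε ≤ δ * (l k * σ) := by
        intro k σ hk hf
        have h1 := (flat_norm hn (hβ k).symp.1 hp0 hρ0 (by rw [hpn]; linarith) hδ0.le hf).2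
        rw [hpn] at h1
        have e : ‖N k p‖ = l k * ‖dw (β k) p‖ := by
          show ‖l k • dw (β k) p‖ = _
          rw [norm_smul, Real.norm_eq_abs, abs_of_pos (hl0 k)]
        rw [e] at hk
        have h2 : ρ * (l k * ‖dw (β k) p‖) ≤ δ * (l k * σ) := by
          have := mul_le_mul_of_nonneg_left h1 (hl0 k).le
          nlinarith
        have h3 : 100 * ε = ρ / Λ := by
          rw [hε]
          field_simp
        rw [h3, div_le_iff₀ hΛ0]
        have h4 := mul_le_mul_of_nonneg_left hk hρ0.le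
        have h5 := mul_le_mul_of_nonneg_left h2 hΛ0.le
        nlinarith
      have hεi := hlow i σi (hi1 p hpK).2 hfi
      have hεj := hlow j σj (hj1 p hpK).2 hfj
      set τi : ℝ := l i * σi with hτi
      set τj : ℝ := l j * σj with hτj
      have hτi0 : 0 < τi := mul_pos (hl0 i) hfi.1
      have hτj0 : 0 < τj := mul_pos (hl0 j) hfj.1
      have hmid : ‖N j p - N i p‖ ≤ 2 * ε := by
        rw [← dist_eq_norm]
        calc dist (N j p) (N i p) ≤ dist (N j p) (L p) + dist (N i p) (L p) :=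
              dist_triangle_right _ _ _
          _ ≤ 2 * ε := by
              have a := hj3 p hp
              have b := hi3 p hp
              linarith
      have hmv : ∀ (k : ℕ) (σ : ℝ), FlatF (β k) p ρ δ σ →
          ‖N k z - N k p‖ ≤ δ * (l k * σ) := by
        intro k σ hf
        have h1 := hf.2.2 p hpρ z hzρ
        have e : N k z - N k p = l k • (dw (β k) z - dw (β k) p) := by
          show l k • dw (β k) z - l k • dw (β k) p = _
          rw [smul_sub]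
        rw [e, norm_smul, Real.norm_eq_abs, abs_of_pos (hl0 k)]
        have h2 := mul_le_mul_of_nonneg_left h1 (hl0 k).le
        linarith
      have hmi := hmv i σi hfi
      have hmj := hmv j σj hfj
      have hq0 : 0 ≤ ‖q‖ := norm_nonneg q
      -- (1)
      have s1 : τi * ‖q‖ ≤ ‖N i z q‖ := by
        have h1 := hfi.2.1 z hzρ q hq
        have e : N i z q = l i • dw (β i) z q := rfl
        rw [e, norm_smul, Real.norm_eq_abs, abs_of_pos (hl0 i)]
        have h2 := mul_le_mul_of_nonneg_left h1 (hl0 i).le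
        rw [hτi]
        linarith
      -- (2)
      have s2 : τj / 2 * ‖q‖ ≤ ‖N j p q‖ := by
        have h1 := hC (dw (β j) p) p z σj hp0 hfj.1
          (fun c u => (hβ j).symp.1.dw_left hp0 c u) (hfj.2.1 p hpρ) (by
            rw [hpn]
            calc C * ‖z - p‖ ≤ C * (1 / (2 * C)) :=
                  mul_le_mul_of_nonneg_left (hzp1.trans hρ₁C) hC0.le
              _ = 1 / 2 := by field_simp) q hq
        have e : N j p q = l j • dw (β j) p q := rfl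
        rw [e, norm_smul, Real.norm_eq_abs, abs_of_pos (hl0 j)]
        have h2 := mul_le_mul_of_nonneg_left h1 (hl0 j).le
        rw [hτj]
        linarith
      have s3 : ‖N j p q‖ ≤ ‖N i z q‖ + (2 * ε + δ * τi) * ‖q‖ := by
        have e : N j p q = N i z q + ((N j p - N i p) q - (N i z - N i p) q) := by
          rw [sub_apply, sub_apply]
          abel
        calc ‖N j p q‖ ≤ ‖N i z q‖ + ‖(N j p - N i p) q - (N i z - N i p) q‖ := by
              conv_lhs => rw [e]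
              exact norm_add_le _ _
          _ ≤ ‖N i z q‖ + (‖(N j p - N i p) q‖ + ‖(N i z - N i p) q‖) := by
              gcongr
              exact norm_sub_le _ _
          _ ≤ ‖N i z q‖ + (2 * ε * ‖q‖ + δ * τi * ‖q‖) := by
              gcongr
              · exact ((N j p - N i p).le_opNorm q).trans (by gcongr)
              · exact ((N i z - N i p).le_opNorm q).trans (by gcongr)
          _ = _ := by ring
      -- (3)
      have s4 : ‖N j z - N i z‖ ≤ δ * τj + 2 * ε + δ * τi := by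
        have e : N j z - N i z = (N j z - N j p) + (N j p - N i p) - (N i z - N i p) := by abel
        rw [e]
        calc _ ≤ ‖(N j z - N j p) + (N j p - N i p)‖ + ‖N i z - N i p‖ := norm_sub_le _ _
          _ ≤ ‖N j z - N j p‖ + ‖N j p - N i p‖ + ‖N i z - N i p‖ := by
              gcongr
              exact norm_add_le _ _
          _ ≤ _ := by linarith
      have hX : 0 ≤ ‖N i z q‖ := norm_nonneg _
      set X : ℝ := ‖N i z q‖ with hXd
      have hεi' : ε * ‖q‖ ≤ δ * X / 100 := by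
        have h1 := mul_le_mul_of_nonneg_right hεi hq0
        have h2 := mul_le_mul_of_nonneg_left s1 hδ0.le
        nlinarith
      have hδi : δ * τi * ‖q‖ ≤ δ * X := by
        have h2 := mul_le_mul_of_nonneg_left s1 hδ0.le
        linarith
      have hδX : δ * X ≤ X / 4 := by
        have := mul_le_mul_of_nonneg_right hδ hX
        linarith
      have s5 : τj * ‖q‖ ≤ 3 * X := by
        have h1 := s2.trans s3
        nlinarith
      have s6 : δ * τj * ‖q‖ ≤ 3 * (δ * X) := by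
        have h2 := mul_le_mul_of_nonneg_left s5 hδ0.le
        linarith
      have hδX0 : 0 ≤ δ * X := mul_nonneg hδ0.le hX
      calc ‖N j z - N i z‖ * ‖q‖ ≤ (δ * τj + 2 * ε + δ * τi) * ‖q‖ :=
            mul_le_mul_of_nonneg_right s4 hq0
        _ = δ * τj * ‖q‖ + 2 * (ε * ‖q‖) + δ * τi * ‖q‖ := by ring
        _ ≤ 3 * (δ * X) + 2 * (δ * X / 100) + δ * X := by linarith
        _ ≤ 8 * δ * X := by nlinarith
    intro z hz hzA p hp
    have hzn : 0 < ‖z‖ := norm_pos_iff.2 hz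
    set r : ℝ := (1 / 2) / ‖z‖ with hr
    have hr0 : 0 < r := by positivity
    have hrc : (r : ℂ) ≠ 0 := Complex.ofReal_ne_zero.2 hr0.ne'
    have hz'K : (r : ℂ) • z ∈ K := by
      refine ⟨?_, ?_⟩
      · rw [norm_smul, Complex.norm_real, Real.norm_of_nonneg hr0.le, hr]
        field_simp
      · intro a ha
        rw [pt_smul hrc]
        exact hzA a ha
    have h1 := key _ hz'K p (hip_smul_left z p r hp)
    have e : ∀ k : ℕ, ((‖dw (β k) g‖⁻¹ : ℝ) • dw (β k) z : BW n) = r ^ 2 • N k ((r : ℂ) • z) := by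
      intro k
      show l k • dw (β k) z = r ^ 2 • (l k • dw (β k) ((r : ℂ) • z))
      rw [dw_scale (hβ k).symp.1 hr0 hz, smul_comm]
    have e3 : (‖dw (β i) g‖⁻¹ : ℝ) • dw (β i) z p = r ^ 2 • (N i ((r : ℂ) • z) p) := by
      have := congrArg (fun B : BW n => B p) (e i)
      simpa using this
    rw [e j, e i, e3, ← smul_sub, norm_smul, norm_smul, Real.norm_eq_abs,
      abs_of_pos (pow_pos hr0 2)]
    have h2 := mul_le_mul_of_nonneg_left h1 (pow_pos hr0 2).le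
    linarith

end Pool.Agent.Lib.P28t
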