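import Pool.Agent.Lib.P28t.NetT
import Pool.Agent.Lib.P28g.PrepB

set_option autoImplicit false
set_option maxSynthPendingDepth 3

/-!
# The sequence: concentration points, charts, closeness

PROOF. `P28g.conc_W` gives `A` (`‖a‖ = 1/2`, distinct `pt a`) and the property `hc` of `net_T`. `P28g.exists_g0`: `g`, `‖g‖ = 1/2`, away from `A`. `P28g.exists_TA`: `T` with `TT (T a)`, `T a e0 = a`. `P28g.exists_disj`: `s₀`. `P28g.scale_fam` with `K = 16`, upper bound `min (1/4) s₀`, for the measures `chm ((ν j).map (T a).symm)` (finite: `chm_finite`, total mass `≤ E`: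
`chm_le`): `s ≤ min (1/4) s₀` with the collar condition; `Charts A T s`. `P28g.exists_away` with `r = s/8`: `t > 0` such that `Out A T (s/8) z` implies `t ≤ fd (pt z) (pt a)`. `net_T` with this `t` and `g` gives `S`; `l j = ‖dw (β j) g‖⁻¹ > 0` (`Symp`, `exists_perp`).
-/

open MeasureTheory Set Metric
open scoped ContDiff Topology ENNReal

namespace Pool.Agent.Lib.P28t

open Pool.Agent.P28b04d Pool.Agent.Lib.P28e Pool.Agent.Lib.P28c
open Pool.Agent.Lib.P28f (V EV)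
open Pool.Agent.Lib.P28g (TT)

variable {n : ℕ}

open Pool.Agent.Lib.P28f (ult)

namespace PrepFAux

theorem dw_ne (hn : 1 ≤ n) {β : FW n} (hβ : Symp β) {g : W n} (hg : g ≠ 0) : dw β g ≠ 0 := by
  intro h0
  obtain ⟨p, hp, hpp⟩ := exists_perp hn hg
  obtain ⟨c, hc⟩ := hβ.2 g hg p (by intro w; rw [h0]; rfl)
  have e1 : hip g (c • g) = c * hip g g := by
    unfold hip
    rw [Finset.mul_sum]
    exact Finset.sum_congr rfl fun k _ => by rw [Pi.smul_apply, smul_eq_mul]; ring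
  rw [hc, e1] at hpp
  have h1 : hip g g ≠ 0 := by
    rw [hip_self]
    exact_mod_cast (nsq_pos hg).ne'
  rcases mul_eq_zero.1 hpp with h2 | h2
  · rw [hc, h2, zero_smul] at hp
    exact hp rfl
  · exact h1 h2

end PrepFAux

theorem prep_F (n : ℕ) (hn : 1 ≤ n) {κ δ c E : ℝ} (hκ : 0 < κ) (hκ1 : κ ≤ 1 / 8) (hδ0 : 0 < δ)
    (hδ : δ ≤ 1 / 4) (hc : 0 < c) (β : ℕ → FW n) (ν : ℕ → Measure (W n))
    (hfin : ∀ j, IsFiniteMeasure (ν j)) (hE : ∀ j, (ν j).real univ ≤ E) (h0 : ∀ j, ν j {0} = 0)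
    (hβ : ∀ j, CtrlF κ δ c (β j) (ν j)) :
    ∃ (A : Finset (W n)) (T : W n → W n ≃L[ℝ] W n) (s : ℝ) (l : ℕ → ℝ) (S : Set ℕ),
      Charts A T s ∧ s ≤ 1 / 4 ∧ (∀ j, 0 < l j) ∧ (∀ᶠ j in (ult : Filter ℕ), j ∈ S) ∧
      (∀ᶠ j in (ult : Filter ℕ), ∀ a ∈ A, (P28g.chm ((ν j).map (T a).symm)).real
        (ball 0 s \ closedBall 0 (s / 16)) ≤ c / 4) ∧
      ∀ i ∈ S, ∀ j ∈ S, ∀ z : W n, z ≠ 0 → P28g.Out A T (s / 8) z → ∀ p : W n, hip z p = 0 →
        ‖l j • dw (β j) z - l i • dw (β i) z‖ * ‖p‖ ≤ 8 * δ * ‖l i • dw (β i) z p‖ := by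
  classical
  obtain ⟨A, hA1, hA2, hconc⟩ := P28g.conc_W n hc ν hfin hE h0
  obtain ⟨g, hg, t₀, ht₀, hgt⟩ := P28g.exists_g0 hn A
  have hg0 : g ≠ 0 := by
    rintro rfl
    rw [norm_zero] at hg
    norm_num at hg
  have hgA : ∀ a ∈ A, pt g ≠ pt a := by
    intro a ha h
    have := hgt a ha
    rw [h, fd_self] at this
    linarith
  have hA0 : ∀ a ∈ A, a ≠ 0 := by
    intro a ha h
    have := hA1 a ha
    rw [h, norm_zero] at this
    norm_num at this
  obtain ⟨T, hT, hTa⟩ := P28g.exists_TA A hA1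
  obtain ⟨s₀, hs₀, hdis⟩ := P28g.exists_disj n A hA2 T hT hTa
  have hfin' : ∀ a j, IsFiniteMeasure ((ν j).map (T a).symm) := by
    intro a j
    have := hfin j
    infer_instance
  obtain ⟨s, hs, hsle, hcol⟩ := P28g.scale_fam A (c := c) (E := E) (K := 16) (s₀ := min (1 / 4) s₀) hc
    (by norm_num) (by positivity) ((min_le_left _ _).trans (by norm_num))
    (fun a j => P28g.chm ((ν j).map (T a).symm))
    (fun a _ j => by
      have := hfin' a j
      exact P28g.chm_finite _)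
    (fun a _ j => by
      have := hfin' a j
      have := hfin j
      refine (P28g.chm_le _ _).trans ?_
      refine le_trans (le_of_eq ?_) (hE j)
      rw [map_measureReal_apply (T a).symm.continuous.measurable MeasurableSet.univ, preimage_univ])
  obtain ⟨t, ht, haw⟩ := P28g.exists_away n A T hT hTa (r := s / 8) (by positivity)
  obtain ⟨S, hS, hS2⟩ := net_T n hn hκ hκ1 hδ0 hδ β ν hβ A hA0 hconc hg0 hgA ht
  refine ⟨A, T, s, fun j => ‖dw (β j) g‖⁻¹, S, ⟨hT, hs, ?_⟩, hsle.trans (min_le_left _ _), ?_, hS, hcol, ?_⟩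
  · intro a ha b hb hab x y hx hy
    exact hdis a ha b hb hab x y (hx.trans_le (hsle.trans (min_le_right _ _)))
      (hy.trans_le (hsle.trans (min_le_right _ _)))
  · intro j
    exact inv_pos.2 (norm_pos_iff.2 (PrepFAux.dw_ne hn (hβ j).symp hg0))
  · intro i hi j hj z hz hout p hp
    exact hS2 i hi j hj z hz (haw z hz hout) p hp

end Pool.Agent.Lib.P28t
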